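import Mathlib

/-!
# Biconvex functions which satisfy the affine equations at nine points
-/

set_option autoImplicit false

namespace Pool.Agent.H78.TA

/-- convexity at three points -/
private theorem conv3 {g : ℝ → ℝ} {S : Set ℝ} (hg : ConvexOn ℝ S g) {a b c : ℝ} (ha : a ∈ S) (hc : c ∈ S)
    (hab : a ≤ b) (hbc : b ≤ c) (hac : a < c) : g b * (c - a) ≤ g a * (c - b) + g c * (b - a) := by
  have h0 : 0 < c - a := sub_pos.2 hac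
  have h1 := hg.2 ha hc (div_nonneg (sub_nonneg.2 hbc) h0.le) (div_nonneg (sub_nonneg.2 hab) h0.le)
    (by rw [← add_div, sub_add_sub_cancel, div_self h0.ne'])
  have h2 : ((c - b) / (c - a)) • a + ((b - a) / (c - a)) • c = b := by
    rw [smul_eq_mul, smul_eq_mul, div_mul_eq_mul_div, div_mul_eq_mul_div, ← add_div,
      div_eq_iff h0.ne']
    ring
  rw [h2, smul_eq_mul, smul_eq_mul, div_mul_eq_mul_div, div_mul_eq_mul_div, ← add_div,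
    le_div_iff₀ h0] at h1
  linarith

/-- a convex function which touches a chord is affine on the chord -/
theorem chord_affine {g : ℝ → ℝ} {x₁ x₂ x₃ : ℝ} (h12 : x₁ < x₂) (h23 : x₂ < x₃)
    (hg : ConvexOn ℝ (Set.Icc x₁ x₃) g)
    (h : g x₂ * (x₃ - x₁) = g x₁ * (x₃ - x₂) + g x₃ * (x₂ - x₁)) :
    ∀ x ∈ Set.Icc x₁ x₃, g x * (x₃ - x₁) = g x₁ * (x₃ - x) + g x₃ * (x - x₁) := by
  intro x hx
  have h13 : x₁ < x₃ := h12.trans h23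
  have m1 : x₁ ∈ Set.Icc x₁ x₃ := ⟨le_rfl, h13.le⟩
  have m3 : x₃ ∈ Set.Icc x₁ x₃ := ⟨h13.le, le_rfl⟩
  refine le_antisymm (conv3 hg m1 m3 hx.1 hx.2 h13) ?_
  rcases le_total x x₂ with hle | hle
  · have h1 := conv3 hg hx m3 hle h23.le (hle.trans_lt h23)
    have h2 : (g x₁ * (x₃ - x) + g x₃ * (x - x₁)) * (x₃ - x₂) ≤ g x * (x₃ - x₁) * (x₃ - x₂) := by
      have h3 := mul_le_mul_of_nonneg_right h1 (sub_pos.2 h13).le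
      have h4 : g x₂ * (x₃ - x) * (x₃ - x₁) = (g x₁ * (x₃ - x₂) + g x₃ * (x₂ - x₁)) * (x₃ - x) := by
        rw [← h]; ring
      rw [h4] at h3
      linear_combination h3
    exact le_of_mul_le_mul_right h2 (sub_pos.2 h23)
  · have h1 := conv3 hg m1 hx h12.le hle (h12.trans_le hle)
    have h2 : (g x₁ * (x₃ - x) + g x₃ * (x - x₁)) * (x₂ - x₁) ≤ g x * (x₃ - x₁) * (x₂ - x₁) := by
      have h3 := mul_le_mul_of_nonneg_right h1 (sub_pos.2 h13).le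
      have h4 : g x₂ * (x - x₁) * (x₃ - x₁) = (g x₁ * (x₃ - x₂) + g x₃ * (x₂ - x₁)) * (x - x₁) := by
        rw [← h]; ring
      rw [h4] at h3
      linear_combination h3
    exact le_of_mul_le_mul_right h2 (sub_pos.2 h12)

theorem biaff {H : ℝ → ℝ → ℝ} {x₁ x₂ x₃ y₁ y₂ y₃ : ℝ} (hx12 : x₁ < x₂) (hx23 : x₂ < x₃)
    (hy12 : y₁ < y₂) (hy23 : y₂ < y₃)
    (hc1 : ∀ y ∈ Set.Icc y₁ y₃, ConvexOn ℝ (Set.Icc x₁ x₃) fun x => H x y)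
    (hc2 : ∀ x ∈ Set.Icc x₁ x₃, ConvexOn ℝ (Set.Icc y₁ y₃) (H x))
    (h1 : H x₂ y₁ * (x₃ - x₁) = H x₁ y₁ * (x₃ - x₂) + H x₃ y₁ * (x₂ - x₁))
    (h2 : H x₂ y₂ * (x₃ - x₁) = H x₁ y₂ * (x₃ - x₂) + H x₃ y₂ * (x₂ - x₁))
    (h3 : H x₂ y₃ * (x₃ - x₁) = H x₁ y₃ * (x₃ - x₂) + H x₃ y₃ * (x₂ - x₁))
    (h4 : H x₁ y₂ * (y₃ - y₁) = H x₁ y₁ * (y₃ - y₂) + H x₁ y₃ * (y₂ - y₁))
    (h5 : H x₃ y₂ * (y₃ - y₁) = H x₃ y₁ * (y₃ - y₂) + H x₃ y₃ * (y₂ - y₁))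
    (hmix : H x₁ y₁ + H x₃ y₃ = H x₁ y₃ + H x₃ y₁)
    (hdiag : (H x₃ y₁ - H x₁ y₁) * (y₃ - y₁) + (H x₁ y₃ - H x₁ y₁) * (x₃ - x₁) = 0) :
    ∃ α β : ℝ, ∀ x ∈ Set.Icc x₁ x₃, ∀ y ∈ Set.Icc y₁ y₃, H x y = α + β * (x - y) := by
  have hx13 : x₁ < x₃ := hx12.trans hx23
  have hy13 : y₁ < y₃ := hy12.trans hy23
  have hS : 0 < x₃ - x₁ := sub_pos.2 hx13
  have hT : 0 < y₃ - y₁ := sub_pos.2 hy13
  have a1 := chord_affine hx12 hx23 (hc1 y₁ ⟨le_rfl, hy13.le⟩) h1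
  have a2 := chord_affine hx12 hx23 (hc1 y₂ ⟨hy12.le, hy23.le⟩) h2
  have a3 := chord_affine hx12 hx23 (hc1 y₃ ⟨hy13.le, le_rfl⟩) h3
  refine ⟨H x₁ y₁ - (H x₃ y₁ - H x₁ y₁) / (x₃ - x₁) * (x₁ - y₁), (H x₃ y₁ - H x₁ y₁) / (x₃ - x₁),
    fun x hx y hy => ?_⟩
  have b1 := a1 x hx
  have b2 := a2 x hx
  have b3 := a3 x hx
  beta_reduce at b1 b2 b3
  have b4 : H x y₂ * (y₃ - y₁) = H x y₁ * (y₃ - y₂) + H x y₃ * (y₂ - y₁) := by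
    refine mul_right_cancel₀ hS.ne' ?_
    linear_combination (y₃ - y₁) * b2 - (y₃ - y₂) * b1 - (y₂ - y₁) * b3 + (x₃ - x) * h4 +
      (x - x₁) * h5
  have b5 := chord_affine hy12 hy23 (hc2 x hx) b4 y hy
  have h6 : (H x₃ y₁ - H x₁ y₁) / (x₃ - x₁) * (x₃ - x₁) = H x₃ y₁ - H x₁ y₁ :=
    div_mul_cancel₀ _ hS.ne'
  generalize hβ : (H x₃ y₁ - H x₁ y₁) / (x₃ - x₁) = β at h6 ⊢
  refine mul_right_cancel₀ (mul_pos hS hT).ne' ?_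
  linear_combination (x₃ - x₁) * b5 + (y₃ - y) * b1 + (y - y₁) * b3 +
    (x - x₁) * (y - y₁) * hmix + (y - y₁) * hdiag +
    (-(x - x₁) * (y₃ - y₁) + (y - y₁) * (y₃ - y₁)) * h6

end Pool.Agent.H78.TA
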