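import Pool.Agent.H78.TA.Defs

/-!
# Four unit vectors in a book

A book is a family of half planes glued along their boundary line. Vectors at a point of the spine are
written `(s, t)`, `0 ≤ t`, on a page. Exact lemma: unit vectors `n⁺`, `n⁻`, `p`, `q` with `⟨n⁺, n⁻⟩ = -1`
and `p`, `q` orthogonal to both satisfy `⟨p, q⟩ = 1` or `⟨p, q⟩ = -1`; approximate version by
compactness.
-/

set_option autoImplicit false

namespace Pool.Agent.H78.TA

universe v

open Classical in
/-- the product of the vectors `x`, `y` on the pages `i`, `j` -/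
noncomputable def bk {I : Type*} (i j : I) (x y : ℝ × ℝ) : ℝ :=
  if i = j then x.1 * y.1 + x.2 * y.2 else x.1 * y.1 - x.2 * y.2

theorem bk_same {I : Type*} {i j : I} (h : i = j) (x y : ℝ × ℝ) :
    bk i j x y = x.1 * y.1 + x.2 * y.2 := if_pos h

theorem bk_ne {I : Type*} {i j : I} (h : i ≠ j) (x y : ℝ × ℝ) :
    bk i j x y = x.1 * y.1 - x.2 * y.2 := if_neg h

private theorem pm_one {β γ : ℝ} (h : β ^ 2 + γ ^ 2 = 1) (hγ : γ = 0) : β = 1 ∨ β = -1 := by
  rw [hγ] at h
  have h1 : (β - 1) * (β + 1) = 0 := by nlinarith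
  rcases mul_eq_zero.mp h1 with h2 | h2
  · left
    linarith
  · right
    linarith

private theorem one_of {a b : ℝ} (ha : a = 0) (hb : 0 ≤ b) (h : a ^ 2 + b ^ 2 = 1) : b = 1 := by
  rw [ha] at h
  nlinarith

private theorem two_sq {x y : ℝ} (h : x ^ 2 + y ^ 2 = 0) : x = 0 ∧ y = 0 := by
  constructor
  · exact pow_eq_zero_iff (two_ne_zero) |>.mp (le_antisymm (by nlinarith [sq_nonneg y]) (sq_nonneg x))
  · exact pow_eq_zero_iff (two_ne_zero) |>.mp (le_antisymm (by nlinarith [sq_nonneg x]) (sq_nonneg y))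

private theorem book_core {I : Type*} (c : Fin 4 → I) (s t s' t' a b x y : ℝ) (t0 : 0 ≤ t)
    (t1 : 0 ≤ t') (t2 : 0 ≤ b) (t3 : 0 ≤ y) (u0 : s ^ 2 + t ^ 2 = 1) (u1 : s' ^ 2 + t' ^ 2 = 1)
    (u2 : a ^ 2 + b ^ 2 = 1) (u3 : x ^ 2 + y ^ 2 = 1)
    (h01 : bk (c 0) (c 1) (s, t) (s', t') = -1)
    (h02 : bk (c 0) (c 2) (s, t) (a, b) = 0) (h12 : bk (c 1) (c 2) (s', t') (a, b) = 0)
    (h03 : bk (c 0) (c 3) (s, t) (x, y) = 0) (h13 : bk (c 1) (c 3) (s', t') (x, y) = 0) :
    bk (c 2) (c 3) (a, b) (x, y) = 1 ∨ bk (c 2) (c 3) (a, b) (x, y) = -1 := by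
  classical
  simp only [bk] at h01 h02 h12 h03 h13 ⊢
  -- vertical vectors
  have key : ∀ {p : Prop} [Decidable p], a = 0 → x = 0 →
      ((if p then a * x + b * y else a * x - b * y) = 1 ∨
        (if p then a * x + b * y else a * x - b * y) = -1) := by
    intro p _ h2 h3
    have h4 := one_of h2 t2 u2
    have h5 := one_of h3 t3 u3
    rw [h2, h3, h4, h5]
    by_cases hp : p
    · rw [if_pos hp]
      left
      norm_num
    · rw [if_neg hp]
      right
      norm_num
  by_cases c01 : c 0 = c 1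
  · rw [if_pos c01] at h01
    obtain ⟨e1', e2'⟩ := two_sq (x := s + s') (y := t + t')
      (by linear_combination u0 + u1 + 2 * h01)
    have e1 : s' = -s := by linarith
    have e2 : t' = -t := by linarith
    have e3 : t = 0 := by linarith
    have e4 : t' = 0 := by linarith
    have e5 : s ≠ 0 := by
      rintro rfl
      rw [e3] at u0
      norm_num at u0
    refine key ?_ ?_
    · rw [e3] at h02
      have : s * a = 0 := by
        split_ifs at h02 <;> linarith
      exact (mul_eq_zero.mp this).resolve_left e5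
    · rw [e3] at h03
      have : s * x = 0 := by
        split_ifs at h03 <;> linarith
      exact (mul_eq_zero.mp this).resolve_left e5
  · rw [if_neg c01] at h01
    obtain ⟨e1', e2'⟩ := two_sq (x := s + s') (y := t - t')
      (by linear_combination u0 + u1 + 2 * h01)
    have e1 : s' = -s := by linarith
    have e2 : t' = t := by linarith
    rw [e1, e2] at h12 h13
    by_cases tz : t = 0
    · have e5 : s ≠ 0 := by
        rintro rfl
        rw [tz] at u0
        norm_num at u0
      refine key ?_ ?_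
      · rw [tz] at h02
        have : s * a = 0 := by
          split_ifs at h02 <;> linarith
        exact (mul_eq_zero.mp this).resolve_left e5
      · rw [tz] at h03
        have : s * x = 0 := by
          split_ifs at h03 <;> linarith
        exact (mul_eq_zero.mp this).resolve_left e5
    by_cases sz : s = 0
    · rw [sz] at h02 h03
      have b0 : t * b = 0 := by
        split_ifs at h02 <;> linarith
      have y0 : t * y = 0 := by
        split_ifs at h03 <;> linarith
      have b1 := (mul_eq_zero.mp b0).resolve_left tz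
      have y1 := (mul_eq_zero.mp y0).resolve_left tz
      rw [b1] at u2 ⊢
      rw [y1] at u3 ⊢
      have : ∀ {p : Prop} [Decidable p], (if p then a * x + 0 * 0 else a * x - 0 * 0) = a * x := by
        intro p _
        split_ifs <;> ring
      rw [this]
      refine pm_one (γ := 0) ?_ rfl
      have h2 : a ^ 2 = 1 := by linarith
      have h3 : x ^ 2 = 1 := by linarith
      rw [mul_pow, h2, h3]
      norm_num
    -- the pages of `p` and `q` are those of `n⁺` and `n⁻`
    have hp : (c 2 = c 0 ∧ s * a + t * b = 0) ∨ (c 2 = c 1 ∧ s * a = t * b) := by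
      by_cases c20 : c 0 = c 2
      · rw [if_pos c20] at h02
        exact Or.inl ⟨c20.symm, h02⟩
      by_cases c21 : c 1 = c 2
      · rw [if_pos c21] at h12
        exact Or.inr ⟨c21.symm, by linarith⟩
      · rw [if_neg c20] at h02
        rw [if_neg c21] at h12
        exfalso
        have h2 : t * b = 0 := by linarith
        have h3 : s * a = 0 := by linarith
        have h4 := (mul_eq_zero.mp h2).resolve_left tz
        have h5 := (mul_eq_zero.mp h3).resolve_left sz
        rw [h4, h5] at u2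
        norm_num at u2
    have hq : (c 3 = c 0 ∧ s * x + t * y = 0) ∨ (c 3 = c 1 ∧ s * x = t * y) := by
      by_cases c20 : c 0 = c 3
      · rw [if_pos c20] at h03
        exact Or.inl ⟨c20.symm, h03⟩
      by_cases c21 : c 1 = c 3
      · rw [if_pos c21] at h13
        exact Or.inr ⟨c21.symm, by linarith⟩
      · rw [if_neg c20] at h03
        rw [if_neg c21] at h13
        exfalso
        have h2 : t * y = 0 := by linarith
        have h3 : s * x = 0 := by linarith
        have h4 := (mul_eq_zero.mp h2).resolve_left tz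
        have h5 := (mul_eq_zero.mp h3).resolve_left sz
        rw [h4, h5] at u3
        norm_num at u3
    rcases hp with ⟨c2, hp⟩ | ⟨c2, hp⟩ <;> rcases hq with ⟨c3, hq⟩ | ⟨c3, hq⟩
    · rw [if_pos (c2.trans c3.symm)]
      refine pm_one (γ := a * y - b * x) (by linear_combination (x ^ 2 + y ^ 2) * u2 + u3) ?_
      have : t * (a * y - b * x) = 0 := by linear_combination a * hq - x * hp
      exact (mul_eq_zero.mp this).resolve_left tz
    · rw [if_neg (by rw [c2, c3]; exact c01)]
      refine pm_one (γ := a * y + b * x) (by linear_combination (x ^ 2 + y ^ 2) * u2 + u3) ?_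
      have : t * (a * y + b * x) = 0 := by linear_combination (-a) * hq + x * hp
      exact (mul_eq_zero.mp this).resolve_left tz
    · rw [if_neg (by rw [c2, c3]; exact fun h => c01 h.symm)]
      refine pm_one (γ := a * y + b * x) (by linear_combination (x ^ 2 + y ^ 2) * u2 + u3) ?_
      have : t * (a * y + b * x) = 0 := by linear_combination a * hq - x * hp
      exact (mul_eq_zero.mp this).resolve_left tz
    · rw [if_pos (c2.trans c3.symm)]
      refine pm_one (γ := a * y - b * x) (by linear_combination (x ^ 2 + y ^ 2) * u2 + u3) ?_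
      have : t * (a * y - b * x) = 0 := by linear_combination (-a) * hq + x * hp
      exact (mul_eq_zero.mp this).resolve_left tz

/-- the exact lemma -/
theorem book_exact {I : Type*} (c : Fin 4 → I) (v : Fin 4 → ℝ × ℝ) (h0 : ∀ i, 0 ≤ (v i).2)
    (h1 : ∀ i, (v i).1 ^ 2 + (v i).2 ^ 2 = 1) (h01 : bk (c 0) (c 1) (v 0) (v 1) = -1)
    (h02 : bk (c 0) (c 2) (v 0) (v 2) = 0) (h12 : bk (c 1) (c 2) (v 1) (v 2) = 0)
    (h03 : bk (c 0) (c 3) (v 0) (v 3) = 0) (h13 : bk (c 1) (c 3) (v 1) (v 3) = 0) :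
    bk (c 2) (c 3) (v 2) (v 3) = 1 ∨ bk (c 2) (c 3) (v 2) (v 3) = -1 :=
  book_core c _ _ _ _ _ _ _ _ (h0 0) (h0 1) (h0 2) (h0 3) (h1 0) (h1 1) (h1 2) (h1 3) h01 h02 h12
    h03 h13

/-- the square of the distance of `v i` and `v j`, where `e` is `1` on the same page and `-1` on
different pages -/
def dsq (e : ℝ) (x y : ℝ × ℝ) : ℝ := (x.1 - y.1) ^ 2 + (x.2 - e * y.2) ^ 2

/-- the total error -/
noncomputable def err (e : Fin 4 → Fin 4 → ℝ) (v : Fin 4 → ℝ × ℝ) : ℝ :=
  (∑ i, |(v i).1 ^ 2 + (v i).2 ^ 2 - 1|) + max (4 - dsq (e 0 1) (v 0) (v 1)) 0 +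
    |dsq (e 2 0) (v 2) (v 0) - 2| + |dsq (e 2 1) (v 2) (v 1) - 2| + |dsq (e 3 0) (v 3) (v 0) - 2| +
    |dsq (e 3 1) (v 3) (v 1) - 2|

/-- the sign of the pages -/
noncomputable def sgn4 {I : Type*} (c : Fin 4 → I) (i j : Fin 4) : ℝ :=
  open Classical in if c i = c j then 1 else -1

theorem dsq_eq {I : Type*} (c : Fin 4 → I) (v : Fin 4 → ℝ × ℝ) (i j : Fin 4) :
    dsq (sgn4 c i j) (v i) (v j) = (v i).1 ^ 2 + (v i).2 ^ 2 + ((v j).1 ^ 2 + (v j).2 ^ 2) -
      2 * bk (c i) (c j) (v i) (v j) := by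
  unfold dsq sgn4 bk
  split_ifs <;> ring

theorem bookC (κ : ℝ) (hκ : 0 < κ) (c : Fin 4 → Fin 4) : ∃ ν : ℝ, 0 < ν ∧ ν ≤ 1 ∧
    ∀ v : Fin 4 → ℝ × ℝ, (∀ i, 0 ≤ (v i).2) → (∀ i, (v i).1 ^ 2 + (v i).2 ^ 2 ≤ 2) →
      err (sgn4 c) v < ν → dsq (sgn4 c 2 3) (v 2) (v 3) ≤ κ ∨
        4 - κ ≤ dsq (sgn4 c 2 3) (v 2) (v 3) := by
  set K : Set (Fin 4 → ℝ × ℝ) := {v | (∀ i, 0 ≤ (v i).2) ∧ (∀ i, (v i).1 ^ 2 + (v i).2 ^ 2 ≤ 2) ∧
    κ ≤ dsq (sgn4 c 2 3) (v 2) (v 3) ∧ dsq (sgn4 c 2 3) (v 2) (v 3) ≤ 4 - κ} with hK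
  have hcont : ∀ i j, Continuous fun v : Fin 4 → ℝ × ℝ => dsq (sgn4 c i j) (v i) (v j) := by
    intro i j
    unfold dsq
    fun_prop
  have hclosed : IsClosed K := by
    rw [hK]
    simp only [Set.ofPred_and, Set.ofPred_forall]
    refine IsClosed.inter ?_ (IsClosed.inter ?_ (IsClosed.inter ?_ ?_))
    · exact isClosed_iInter fun i => isClosed_le continuous_const (by fun_prop)
    · exact isClosed_iInter fun i => isClosed_le (by fun_prop) continuous_const
    · exact isClosed_le continuous_const (hcont 2 3)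
    · exact isClosed_le (hcont 2 3) continuous_const
  have hbdd : Bornology.IsBounded K := by
    refine (Metric.isBounded_closedBall (x := (0 : Fin 4 → ℝ × ℝ)) (r := 2)).subset ?_
    intro v hv
    rw [Metric.mem_closedBall, dist_pi_le_iff (by norm_num)]
    intro i
    have h1 := hv.2.1 i
    rw [Prod.dist_eq, max_le_iff]
    simp only [Pi.zero_apply, Prod.fst_zero, Prod.snd_zero, Real.dist_eq, sub_zero]
    constructor
    · rw [abs_le]
      constructor <;> nlinarith [sq_nonneg (v i).2]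
    · rw [abs_le]
      constructor <;> nlinarith [sq_nonneg (v i).1]
  have hcomp : IsCompact K := Metric.isCompact_of_isClosed_isBounded hclosed hbdd
  have hg : Continuous fun v : Fin 4 → ℝ × ℝ => err (sgn4 c) v := by
    unfold err
    have := hcont 0 1
    have := hcont 2 0
    have := hcont 2 1
    have := hcont 3 0
    have := hcont 3 1
    fun_prop
  rcases K.eq_empty_or_nonempty with hE | hN
  · refine ⟨1, one_pos, le_rfl, fun v h1 h2 _ => ?_⟩
    by_contra h3
    rw [not_or, not_le, not_le] at h3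
    have : v ∈ K := ⟨h1, h2, h3.1.le, h3.2.le⟩
    rw [hE] at this
    exact this
  · obtain ⟨w, hw, hmin⟩ := hcomp.exists_isMinOn hN hg.continuousOn
    have hpos : 0 < err (sgn4 c) w := by
      by_contra h3
      have hz : err (sgn4 c) w ≤ 0 := not_lt.mp h3
      unfold err at hz
      have p1 : 0 ≤ ∑ i, |(w i).1 ^ 2 + (w i).2 ^ 2 - 1| := Finset.sum_nonneg fun i _ => abs_nonneg _
      have p2 := le_max_right (4 - dsq (sgn4 c 0 1) (w 0) (w 1)) 0
      have p2' := le_max_left (4 - dsq (sgn4 c 0 1) (w 0) (w 1)) 0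
      have p3 := abs_nonneg (dsq (sgn4 c 2 0) (w 2) (w 0) - 2)
      have p4 := abs_nonneg (dsq (sgn4 c 2 1) (w 2) (w 1) - 2)
      have p5 := abs_nonneg (dsq (sgn4 c 3 0) (w 3) (w 0) - 2)
      have p6 := abs_nonneg (dsq (sgn4 c 3 1) (w 3) (w 1) - 2)
      have q1 : ∑ i, |(w i).1 ^ 2 + (w i).2 ^ 2 - 1| = 0 := by linarith
      have q2 : 4 ≤ dsq (sgn4 c 0 1) (w 0) (w 1) := by linarith
      have q3 := abs_eq_zero.mp (le_antisymm (by linarith) p3)
      have q4 := abs_eq_zero.mp (le_antisymm (by linarith) p4)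
      have q5 := abs_eq_zero.mp (le_antisymm (by linarith) p5)
      have q6 := abs_eq_zero.mp (le_antisymm (by linarith) p6)
      have hu : ∀ i, (w i).1 ^ 2 + (w i).2 ^ 2 = 1 := by
        intro i
        have h1 := (Finset.sum_eq_zero_iff_of_nonneg fun i _ => abs_nonneg _).mp q1 i
          (Finset.mem_univ i)
        have h2 := abs_eq_zero.mp h1
        linarith
      have hbk : ∀ i j, dsq (sgn4 c i j) (w i) (w j) = 2 - 2 * bk (c i) (c j) (w i) (w j) := by
        intro i j
        rw [dsq_eq, hu, hu]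
        ring
      have hsymm : ∀ i j, bk (c i) (c j) (w i) (w j) = bk (c j) (c i) (w j) (w i) := by
        intro i j
        unfold bk
        by_cases h : c i = c j
        · rw [if_pos h, if_pos h.symm]
          ring
        · rw [if_neg h, if_neg fun h' => h h'.symm]
          ring
      have h01 : bk (c 0) (c 1) (w 0) (w 1) = -1 := by
        refine le_antisymm ?_ ?_
        · have := hbk 0 1
          linarith
        · have h0 := hu 0
          have h1 := hu 1
          unfold bk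
          split_ifs
          · nlinarith [sq_nonneg ((w 0).1 + (w 1).1), sq_nonneg ((w 0).2 + (w 1).2)]
          · nlinarith [sq_nonneg ((w 0).1 + (w 1).1), sq_nonneg ((w 0).2 - (w 1).2)]
      rw [hbk] at q3 q4 q5 q6
      have h02 : bk (c 0) (c 2) (w 0) (w 2) = 0 := by
        rw [hsymm]
        linarith
      have h12 : bk (c 1) (c 2) (w 1) (w 2) = 0 := by
        rw [hsymm]
        linarith
      have h03 : bk (c 0) (c 3) (w 0) (w 3) = 0 := by
        rw [hsymm]
        linarith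
      have h13 : bk (c 1) (c 3) (w 1) (w 3) = 0 := by
        rw [hsymm]
        linarith
      have h5 := hw.2.2
      rw [hbk] at h5
      rcases book_exact c w hw.1 hu h01 h02 h12 h03 h13 with h | h
      · rw [h] at h5
        linarith [h5.1]
      · rw [h] at h5
        linarith [h5.2]
    refine ⟨min (err (sgn4 c) w) 1, lt_min hpos one_pos, min_le_right _ _, fun v h1 h2 h3 => ?_⟩
    by_contra h4
    rw [not_or, not_le, not_le] at h4
    have h5 : v ∈ K := ⟨h1, h2, h4.1.le, h4.2.le⟩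
    have h6 := hmin h5
    exact absurd (lt_of_lt_of_le h3 (min_le_left _ _)) (not_lt.mpr h6)

/-- In a book, if the unit vectors `0`, `1` are nearly opposite and the unit vectors `2`, `3` are
nearly perpendicular to both, then `2` and `3` are nearly equal or nearly opposite. -/
theorem bookA (κ : ℝ) (hκ : 0 < κ) : ∃ ν : ℝ, 0 < ν ∧ ∀ (I : Type v) (pg : Fin 4 → I)
    (s t : Fin 4 → ℝ) (d : Fin 4 → Fin 4 → ℝ), (∀ i, 0 ≤ t i) →
    (∀ i, |s i ^ 2 + t i ^ 2 - 1| ≤ ν) →
    (∀ i j, pg i = pg j → d i j = (s i - s j) ^ 2 + (t i - t j) ^ 2) →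
    (∀ i j, pg i ≠ pg j → d i j = (s i - s j) ^ 2 + (t i + t j) ^ 2) →
    4 - ν ≤ d 0 1 → |d 2 0 - 2| ≤ ν → |d 2 1 - 2| ≤ ν → |d 3 0 - 2| ≤ ν → |d 3 1 - 2| ≤ ν →
    d 2 3 ≤ κ ∨ 4 - κ ≤ d 2 3 := by
  choose ν hν hν1 hC using bookC κ hκ
  obtain ⟨c₀, hc₀⟩ := Finite.exists_min ν
  refine ⟨ν c₀ / 10, by linarith [hν c₀], ?_⟩
  intro I pg s t d ht hs h1 h2 h3 h4 h5 h6 h7
  obtain ⟨c, hc⟩ : ∃ c : Fin 4 → Fin 4, ∀ i j, (c i = c j ↔ pg i = pg j) := by
    refine ⟨fun i => Function.invFun pg (pg i), fun i j => ⟨fun h => ?_, fun h => ?_⟩⟩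
    · have e1 : pg (Function.invFun pg (pg i)) = pg i := Function.invFun_eq ⟨i, rfl⟩
      have e2 : pg (Function.invFun pg (pg j)) = pg j := Function.invFun_eq ⟨j, rfl⟩
      have h' : Function.invFun pg (pg i) = Function.invFun pg (pg j) := h
      rw [← e1, ← e2, h']
    · show Function.invFun pg (pg i) = Function.invFun pg (pg j)
      rw [h]
  have hd : ∀ i j, d i j = dsq (sgn4 c i j) (s i, t i) (s j, t j) := by
    intro i j
    unfold dsq sgn4
    by_cases h : pg i = pg j
    · rw [if_pos ((hc i j).mpr h), h1 i j h]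
      ring
    · rw [if_neg fun h' => h ((hc i j).mp h'), h2 i j h]
      ring
  have hle : ν c₀ ≤ ν c := hc₀ c
  have hc1 := hν1 c₀
  have hc2 := hν c₀
  rw [hd 2 3]
  refine hC c (fun i => (s i, t i)) ht (fun i => ?_) ?_
  · have := abs_le.mp (hs i)
    show s i ^ 2 + t i ^ 2 ≤ 2
    linarith [this.2]
  · refine lt_of_lt_of_le ?_ hle
    unfold err
    show (∑ i, |s i ^ 2 + t i ^ 2 - 1|) + max (4 - dsq (sgn4 c 0 1) (s 0, t 0) (s 1, t 1)) 0 +
      |dsq (sgn4 c 2 0) (s 2, t 2) (s 0, t 0) - 2| + |dsq (sgn4 c 2 1) (s 2, t 2) (s 1, t 1) - 2| +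
      |dsq (sgn4 c 3 0) (s 3, t 3) (s 0, t 0) - 2| + |dsq (sgn4 c 3 1) (s 3, t 3) (s 1, t 1) - 2| <
      ν c₀
    rw [← hd, ← hd, ← hd, ← hd, ← hd]
    have g1 : ∑ i : Fin 4, |s i ^ 2 + t i ^ 2 - 1| ≤ 4 * (ν c₀ / 10) := by
      refine (Finset.sum_le_sum fun i _ => hs i).trans ?_
      simp
    have g2 : max (4 - d 0 1) 0 ≤ ν c₀ / 10 := max_le (by linarith) (by linarith)
    linarith

end Pool.Agent.H78.TA
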