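import Pool.Agent.H78.TA.Defs

/-!
# Segments in CAT(0) spaces
-/

set_option autoImplicit false

namespace Pool.Agent.H78.TA

open Pool.Agent.H61.CZ

universe v

variable {X : Type v} [MetricSpace X] (hX : CAT0 X)

theorem pt_le {x y : X} {s : ℝ} (h0 : 0 ≤ s) (h1 : s ≤ 1) (o : X) :
    dist o (pt hX x y s) ^ 2 ≤
      (1 - s) * dist o x ^ 2 + s * dist o y ^ 2 - s * (1 - s) * dist x y ^ 2 := by
  unfold pt
  rw [dif_pos ⟨h0, h1⟩]
  exact (hX x y s h0 h1).choose_spec o

theorem dist_left_le {x y : X} {s : ℝ} (h0 : 0 ≤ s) (h1 : s ≤ 1) :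
    dist x (pt hX x y s) ≤ s * dist x y := by
  have h := pt_le hX (x := x) (y := y) h0 h1 x
  rw [dist_self] at h
  refine abs_le_of_sq_le_sq' ?_ (by positivity) |>.2
  nlinarith

theorem dist_right_le {x y : X} {s : ℝ} (h0 : 0 ≤ s) (h1 : s ≤ 1) :
    dist (pt hX x y s) y ≤ (1 - s) * dist x y := by
  have h := pt_le hX (x := x) (y := y) h0 h1 y
  rw [dist_self, dist_comm y x] at h
  rw [dist_comm]
  refine abs_le_of_sq_le_sq' ?_ (mul_nonneg (by linarith) dist_nonneg) |>.2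
  nlinarith

theorem dist_left {x y : X} {s : ℝ} (h0 : 0 ≤ s) (h1 : s ≤ 1) :
    dist x (pt hX x y s) = s * dist x y := by
  have h2 := dist_left_le hX (x := x) (y := y) h0 h1
  have h3 := dist_right_le hX (x := x) (y := y) h0 h1
  have h4 := dist_triangle x (pt hX x y s) y
  linarith

theorem dist_right {x y : X} {s : ℝ} (h0 : 0 ≤ s) (h1 : s ≤ 1) :
    dist (pt hX x y s) y = (1 - s) * dist x y := by
  have h2 := dist_left_le hX (x := x) (y := y) h0 h1
  have h3 := dist_right_le hX (x := x) (y := y) h0 h1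
  have h4 := dist_triangle x (pt hX x y s) y
  linarith

theorem pt_unique {x y m : X} {s : ℝ} (h0 : 0 ≤ s) (h1 : s ≤ 1) (hl : dist x m ≤ s * dist x y)
    (hr : dist m y ≤ (1 - s) * dist x y) : m = pt hX x y s := by
  have h := pt_le hX (x := x) (y := y) h0 h1 m
  rw [dist_comm m x] at h
  have h2 : dist x m ^ 2 ≤ (s * dist x y) ^ 2 := pow_le_pow_left₀ dist_nonneg hl 2
  have h3 : dist m y ^ 2 ≤ ((1 - s) * dist x y) ^ 2 := pow_le_pow_left₀ dist_nonneg hr 2
  have h5 : (1 - s) * dist x m ^ 2 ≤ (1 - s) * (s * dist x y) ^ 2 :=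
    mul_le_mul_of_nonneg_left h2 (by linarith)
  have h6 : s * dist m y ^ 2 ≤ s * ((1 - s) * dist x y) ^ 2 := mul_le_mul_of_nonneg_left h3 h0
  have h4 : dist m (pt hX x y s) ^ 2 ≤ 0 := by nlinarith
  have h7 : dist m (pt hX x y s) = 0 := by
    have := sq_nonneg (dist m (pt hX x y s))
    exact pow_eq_zero_iff two_ne_zero |>.1 (le_antisymm h4 this)
  exact dist_eq_zero.1 h7

theorem pt_zero (x y : X) : pt hX x y 0 = x :=
  (pt_unique hX le_rfl zero_le_one (by simp) (by simp)).symm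

theorem pt_one (x y : X) : pt hX x y 1 = y :=
  (pt_unique hX zero_le_one le_rfl (by simp) (by simp)).symm

theorem pt_self (x : X) {s : ℝ} (h0 : 0 ≤ s) (h1 : s ≤ 1) : pt hX x x s = x :=
  (pt_unique hX h0 h1 (by simp) (by simp)).symm

theorem pt_symm {x y : X} {s : ℝ} (h0 : 0 ≤ s) (h1 : s ≤ 1) :
    pt hX x y s = pt hX y x (1 - s) := by
  refine pt_unique hX (by linarith) (by linarith) ?_ ?_
  · rw [dist_comm y (pt hX x y s), dist_right hX h0 h1, dist_comm y x]
  · rw [dist_comm (pt hX x y s) x, dist_left hX h0 h1, dist_comm y x]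
    linarith

/-- the distance to a point is convex -/
theorem dist_pt_le {x y : X} {s : ℝ} (h0 : 0 ≤ s) (h1 : s ≤ 1) (o : X) :
    dist o (pt hX x y s) ≤ (1 - s) * dist o x + s * dist o y := by
  have h := pt_le hX (x := x) (y := y) h0 h1 o
  have h2 : 0 ≤ (1 - s) * dist o x + s * dist o y :=
    add_nonneg (mul_nonneg (by linarith) dist_nonneg) (mul_nonneg h0 dist_nonneg)
  refine abs_le_of_sq_le_sq' ?_ h2 |>.2
  have h3 : (dist o x - dist o y) ^ 2 ≤ dist x y ^ 2 := by
    rw [← sq_abs]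
    refine pow_le_pow_left₀ (abs_nonneg _) ?_ 2
    rw [dist_comm o x, dist_comm o y]
    exact abs_dist_sub_le x y o
  have h4 : s * (1 - s) * (dist o x - dist o y) ^ 2 ≤ s * (1 - s) * dist x y ^ 2 :=
    mul_le_mul_of_nonneg_left h3 (mul_nonneg h0 (by linarith))
  nlinarith

/-- a point on the segment, with the distances -/
theorem exists_pt {x y m : X} (h : dist x y = dist x m + dist m y) :
    ∃ s : ℝ, 0 ≤ s ∧ s ≤ 1 ∧ m = pt hX x y s := by
  rcases eq_or_lt_of_le (dist_nonneg (x := x) (y := y)) with h0 | h0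
  · have h1 : dist x m = 0 := by
      have := dist_nonneg (x := x) (y := m)
      have := dist_nonneg (x := m) (y := y)
      linarith
    exact ⟨0, le_rfl, zero_le_one, by rw [pt_zero]; exact (dist_eq_zero.1 h1).symm⟩
  · have h1 : dist x m ≤ dist x y := by
      have := dist_nonneg (x := m) (y := y)
      linarith
    refine ⟨dist x m / dist x y, by positivity, (div_le_one h0).2 h1, ?_⟩
    refine pt_unique hX (by positivity) ((div_le_one h0).2 h1) ?_ ?_
    · rw [div_mul_cancel₀ _ h0.ne']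
    · rw [sub_mul, div_mul_cancel₀ _ h0.ne']
      linarith

/-- comparison at a common endpoint -/
theorem compare {z a c : X} {m n : ℝ} (hm0 : 0 ≤ m) (hm1 : m ≤ 1) (hn0 : 0 ≤ n) (hn1 : n ≤ 1) :
    dist (pt hX z a m) (pt hX z c n) ^ 2 ≤ m ^ 2 * dist z a ^ 2 + n ^ 2 * dist z c ^ 2 +
      m * n * (dist a c ^ 2 - dist z a ^ 2 - dist z c ^ 2) := by
  have h1 := pt_le hX (x := z) (y := c) hn0 hn1 (pt hX z a m)
  have h2 := pt_le hX (x := z) (y := a) hm0 hm1 c
  have h3 := dist_left hX (x := z) (y := a) hm0 hm1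
  rw [dist_comm (pt hX z a m) z, h3, dist_comm (pt hX z a m) c] at h1
  rw [dist_comm c z, dist_comm c a] at h2
  have h4 := mul_le_mul_of_nonneg_left h2 hn0
  nlinarith

/-- the distance between two segments with a common endpoint -/
theorem dist_one {x y y' : X} {s : ℝ} (h0 : 0 ≤ s) (h1 : s ≤ 1) :
    dist (pt hX x y s) (pt hX x y' s) ≤ s * dist y y' := by
  have h := compare hX (z := x) (a := y) (c := y') h0 h1 h0 h1
  refine abs_le_of_sq_le_sq' ?_ (mul_nonneg h0 dist_nonneg) |>.2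
  nlinarith

/-- the distance between two segments is convex -/
theorem dist_two {x y x' y' : X} {s : ℝ} (h0 : 0 ≤ s) (h1 : s ≤ 1) :
    dist (pt hX x y s) (pt hX x' y' s) ≤ (1 - s) * dist x x' + s * dist y y' := by
  have h2 := dist_one hX (x := x) (y := y) (y' := y') h0 h1
  have h3 := dist_one hX (x := y') (y := x) (y' := x') (s := 1 - s) (by linarith) (by linarith)
  rw [← pt_symm hX h0 h1, ← pt_symm hX h0 h1] at h3
  have h4 := dist_triangle (pt hX x y s) (pt hX x y' s) (pt hX x' y' s)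
  linarith

theorem pt_pt_left {x y : X} {a s : ℝ} (ha0 : 0 ≤ a) (ha1 : a ≤ 1) (h0 : 0 ≤ s) (h1 : s ≤ 1) :
    pt hX x (pt hX x y a) s = pt hX x y (s * a) := by
  have hs : s * a ≤ 1 := mul_le_one₀ h1 ha0 ha1
  refine pt_unique hX (mul_nonneg h0 ha0) hs ?_ ?_
  · rw [dist_left hX h0 h1, dist_left hX ha0 ha1, mul_assoc]
  · have h2 := dist_triangle (pt hX x (pt hX x y a) s) (pt hX x y a) y
    rw [dist_right hX h0 h1, dist_left hX ha0 ha1, dist_right hX ha0 ha1] at h2
    linarith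

theorem pt_pt_right {x y : X} {b s : ℝ} (hb0 : 0 ≤ b) (hb1 : b ≤ 1) (h0 : 0 ≤ s) (h1 : s ≤ 1) :
    pt hX (pt hX x y b) y s = pt hX x y (b + s * (1 - b)) := by
  have h2 : 0 ≤ s * (1 - b) := mul_nonneg h0 (by linarith)
  have h3 : s * (1 - b) ≤ 1 - b := mul_le_of_le_one_left (by linarith) h1
  rw [pt_symm hX h0 h1, pt_symm hX hb0 hb1,
    pt_pt_left hX (by linarith) (by linarith) (by linarith) (by linarith),
    pt_symm hX (x := x) (y := y) (by linarith) (by linarith)]
  congr 1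
  ring

theorem dist_pt_pt {x y : X} {s s' : ℝ} (h0 : 0 ≤ s) (h1 : s ≤ 1) (h0' : 0 ≤ s') (h1' : s' ≤ 1) :
    dist (pt hX x y s) (pt hX x y s') = |s - s'| * dist x y := by
  wlog h : s' ≤ s generalizing s s'
  · rw [dist_comm, this h0' h1' h0 h1 (by linarith), abs_sub_comm]
  rw [abs_of_nonneg (by linarith)]
  rcases eq_or_lt_of_le h0 with h2 | h2
  · have h3 : s' = s := by linarith
    rw [h3, dist_self, sub_self, zero_mul]
  have h3 : pt hX x y s' = pt hX x (pt hX x y s) (s' / s) := by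
    rw [pt_pt_left hX h0 h1 (by positivity) ((div_le_one h2).2 h), div_mul_cancel₀ _ h2.ne']
  rw [h3, dist_comm, dist_right hX (by positivity) ((div_le_one h2).2 h), dist_left hX h0 h1]
  field_simp

theorem pt_pt {x y : X} {a b s : ℝ} (ha0 : 0 ≤ a) (ha1 : a ≤ 1) (hb0 : 0 ≤ b) (hb1 : b ≤ 1)
    (h0 : 0 ≤ s) (h1 : s ≤ 1) :
    pt hX (pt hX x y a) (pt hX x y b) s = pt hX x y ((1 - s) * a + s * b) := by
  have h2 : 0 ≤ (1 - s) * a + s * b :=
    add_nonneg (mul_nonneg (by linarith) ha0) (mul_nonneg h0 hb0)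
  have h3 : (1 - s) * a + s * b ≤ 1 := by nlinarith
  symm
  refine pt_unique hX h0 h1 ?_ ?_
  · rw [dist_pt_pt hX ha0 ha1 h2 h3, dist_pt_pt hX ha0 ha1 hb0 hb1]
    have h4 : a - ((1 - s) * a + s * b) = s * (a - b) := by ring
    rw [h4, abs_mul, abs_of_nonneg h0, mul_assoc]
  · rw [dist_pt_pt hX h2 h3 hb0 hb1, dist_pt_pt hX ha0 ha1 hb0 hb1]
    have h4 : (1 - s) * a + s * b - b = (1 - s) * (a - b) := by ring
    rw [h4, abs_mul, abs_of_nonneg (by linarith : (0 : ℝ) ≤ 1 - s), mul_assoc]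

/-- geodesics are determined locally -/
theorem collinear_ext (hX : CAT0 X) {a b c e : X} (h1 : dist a c = dist a b + dist b c)
    (h2 : dist b e = dist b c + dist c e) (h3 : b ≠ c) : dist a e = dist a b + dist b e := by
  obtain ⟨s, h0, h01, hs⟩ := exists_pt hX h2
  have h4 := dist_pt_le hX (x := b) (y := e) h0 h01 a
  rw [← hs] at h4
  have h5 : dist b c = s * dist b e := by
    rw [hs, dist_left hX h0 h01]
  have h6 : 0 < dist b c := dist_pos.2 h3
  have h7 : 0 < s := by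
    rcases eq_or_lt_of_le h0 with h | h
    · rw [← h, zero_mul] at h5
      linarith
    · exact h
  have h8 : s * (dist a b + dist b e) ≤ s * dist a e := by nlinarith
  have h9 := le_of_mul_le_mul_left h8 h7
  have h10 := dist_triangle a b e
  linarith

/-- the slab is convex -/
theorem slab_pt {o u x y : X} {h E s : ℝ} (h0 : 0 ≤ s) (h1 : s ≤ 1) (hx : x ∈ Slab o u h E)
    (hy : y ∈ Slab o u h E) : pt hX x y s ∈ Slab o u h E := by
  obtain ⟨hx1, hx2⟩ := hx
  obtain ⟨hy1, hy2⟩ := hy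
  have h2 := dist_pt_le hX (x := x) (y := y) h0 h1 o
  have h3 := dist_pt_le hX (x := x) (y := y) h0 h1 u
  rw [dist_comm u x, dist_comm u y] at h3
  have h4 : 0 ≤ 1 - s := by linarith
  refine ⟨?_, ?_⟩
  · have := mul_le_mul_of_nonneg_left hx1 h4
    have := mul_le_mul_of_nonneg_left hy1 h0
    linarith
  · have := mul_le_mul_of_nonneg_left hx2 h4
    have := mul_le_mul_of_nonneg_left hy2 h0
    rw [dist_comm]
    linarith

theorem slab_mono {o u : X} {h E E' : ℝ} (hE : E ≤ E') : Slab o u h E ⊆ Slab o u h E' := by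
  intro x hx
  obtain ⟨hx1, hx2⟩ := hx
  exact ⟨by linarith, by linarith⟩

/-- the level of a point of the slab -/
theorem slab_ge {o u x : X} {h E : ℝ} (hx : x ∈ Slab o u h E) : h - E ≤ dist o x := by
  obtain ⟨hx1, hx2⟩ := hx
  have := dist_triangle o x u
  linarith

section seg

variable {b c : ℝ → X} {α β : ℝ}
  (hb : ∀ x ∈ Set.Icc α β, ∀ y ∈ Set.Icc α β, dist (b x) (b y) = |x - y|)
  (hc : ∀ x ∈ Set.Icc α β, ∀ y ∈ Set.Icc α β, dist (c x) (c y) = |x - y|)

theorem conv_mem {x y s : ℝ} (hx : x ∈ Set.Icc α β) (hy : y ∈ Set.Icc α β) (h0 : 0 ≤ s)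
    (h1 : s ≤ 1) : (1 - s) * x + s * y ∈ Set.Icc α β := by
  have h := convex_Icc α β hx hy (by linarith : (0 : ℝ) ≤ 1 - s) h0 (by ring)
  simpa [smul_eq_mul] using h

include hb in
theorem iso_pt {x y s : ℝ} (hx : x ∈ Set.Icc α β) (hy : y ∈ Set.Icc α β) (h0 : 0 ≤ s)
    (h1 : s ≤ 1) : b ((1 - s) * x + s * y) = pt hX (b x) (b y) s := by
  have hm := conv_mem hx hy h0 h1
  refine pt_unique hX h0 h1 ?_ ?_
  · rw [hb x hx _ hm, hb x hx y hy]
    have h4 : x - ((1 - s) * x + s * y) = s * (x - y) := by ring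
    rw [h4, abs_mul, abs_of_nonneg h0]
  · rw [hb _ hm y hy, hb x hx y hy]
    have h4 : (1 - s) * x + s * y - y = (1 - s) * (x - y) := by ring
    rw [h4, abs_mul, abs_of_nonneg (by linarith : (0 : ℝ) ≤ 1 - s)]

include hX hb in
theorem conv_dist (p : X) : ConvexOn ℝ (Set.Icc α β) fun x => dist p (b x) := by
  refine ⟨convex_Icc α β, fun x hx y hy r s hr hs hrs => ?_⟩
  obtain rfl : r = 1 - s := by linarith
  simp only [smul_eq_mul]
  rw [iso_pt hX hb hx hy hs (by linarith)]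
  exact dist_pt_le hX hs (by linarith) p

include hX hb in
theorem conv_sq (p : X) : ConvexOn ℝ (Set.Icc α β) fun x => dist p (b x) ^ 2 - x ^ 2 := by
  refine ⟨convex_Icc α β, fun x hx y hy r s hr hs hrs => ?_⟩
  obtain rfl : r = 1 - s := by linarith
  simp only [smul_eq_mul]
  rw [iso_pt hX hb hx hy hs (by linarith)]
  have h := pt_le hX (x := b x) (y := b y) hs (by linarith) p
  rw [hb x hx y hy, sq_abs] at h
  nlinarith

include hX hb hc in
theorem conv_two : ConvexOn ℝ (Set.Icc α β) fun x => dist (b x) (c x) := by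
  refine ⟨convex_Icc α β, fun x hx y hy r s hr hs hrs => ?_⟩
  obtain rfl : r = 1 - s := by linarith
  simp only [smul_eq_mul]
  rw [iso_pt hX hb hx hy hs (by linarith), iso_pt hX hc hx hy hs (by linarith)]
  exact dist_two hX hs (by linarith)

end seg

end Pool.Agent.H78.TA
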