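import Mathlib

/-!
# Counting: the abstract selection lemma
-/

set_option autoImplicit false

namespace Pool.Agent.H78.TA

universe u₁ u₂ u₃

/-- lines with distances `w` and the relation `D` (going from `a` towards `b` the level
decreases first); `U` is the set of lines under consideration -/
structure Tree {α : Type u₁} (w : α → α → ℝ) (D : α → α → Prop) (U : Set α) (r : ℝ) : Prop where
  pos : 0 < r
  self : ∀ a, w a a = 0
  symm : ∀ a b, w a b = w b a
  nonneg : ∀ a b, 0 ≤ w a b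
  tri : ∀ a ∈ U, ∀ b ∈ U, ∀ c ∈ U, w a c ≤ w a b + w b c
  uniq : ∀ a ∈ U, ∀ x ∈ U, ∀ y ∈ U, ∀ c ∈ U, w a c = w a x + w x c → w a c = w a y + w y c →
    w a x ≤ w a y → w x y = w a y - w a x
  sep : ∀ a ∈ U, ∀ b ∈ U, w a b = 0 ∨ r ≤ w a b
  d1 : ∀ a ∈ U, ∀ m ∈ U, ∀ c ∈ U, w a c = w a m + w m c → D m a → D m c → False
  d2a : ∀ a ∈ U, ∀ m ∈ U, ∀ c ∈ U, w a c = w a m + w m c → 0 < w a m → D a c → D a m
  d2b : ∀ a ∈ U, ∀ m ∈ U, ∀ c ∈ U, w a c = w a m + w m c → D a m → D a c
  d3 : ∀ b ∈ U, ∀ c ∈ U, 0 < w b c → D b c ∨ D c b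

variable {α : Type u₁} {w : α → α → ℝ} {D : α → α → Prop} {U : Set α} {r : ℝ}

/-- two elements beyond which nothing goes up are comparable -/
private theorem comb_chain (hT : Tree w D U r) {s c c' m : α} (hs : s ∈ U) (hc : c ∈ U)
    (hc' : c' ∈ U) (hm : m ∈ U) (h : w s c = 0 ∨ (D s c ∧ ¬ D c s))
    (h' : w s c' = 0 ∨ (D s c' ∧ ¬ D c' s)) (h1 : w s c = w s m + w m c)
    (h2 : w s c' = w s m + w m c') (h3 : w c c' = w c m + w m c') :
    w s c' = w s c + w c c' ∨ w s c = w s c' + w c c' := by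
  have e1 := hT.symm c m
  by_cases h4 : w m c = 0
  · left
    linarith
  by_cases h5 : w m c' = 0
  · right
    linarith
  exfalso
  have h4' : 0 < w m c := lt_of_le_of_ne (hT.nonneg m c) (Ne.symm h4)
  have h5' : 0 < w m c' := lt_of_le_of_ne (hT.nonneg m c') (Ne.symm h5)
  have h6 := hT.nonneg s m
  have key : ∀ d ∈ U, w s d = w s m + w m d → 0 < w m d → (w s d = 0 ∨ (D s d ∧ ¬ D d s)) →
      D m d := by
    intro d hd e hpos hor
    have hD := hor.resolve_left (by linarith)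
    rcases hT.d3 m hm d hd hpos with h7 | h7
    · exact h7
    · exfalso
      apply hD.2
      refine hT.d2b d hd m hm s hs ?_ h7
      rw [hT.symm d s, hT.symm d m, hT.symm m s]
      linarith
  exact hT.d1 c hc m hm c' hc' h3 (key c hc h1 h4' h) (key c' hc' h2 h5' h')

/-- a farthest element -/
theorem exists_far (hT : Tree w D U r) {s : α} (hs : s ∈ U) {R : Set α} (hRU : R ⊆ U)
    (hR : ∀ c ∈ R, w s c = 0 ∨ (D s c ∧ ¬ D c s)) (hsR : s ∈ R) {W : ℝ} (hW : ∀ c ∈ R, w s c ≤ W)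
    (hm : ∀ c ∈ R, ∀ c' ∈ R, ∃ m ∈ U, w s c = w s m + w m c ∧ w s c' = w s m + w m c' ∧
      w c c' = w c m + w m c') : ∃ x ∈ R, ∀ c ∈ R, w s c ≤ w s x := by
  have hbdd : BddAbove ((fun c => w s c) '' R) := by
    refine ⟨W, ?_⟩
    rintro _ ⟨c, hc, rfl⟩
    exact hW c hc
  have hne : ((fun c => w s c) '' R).Nonempty := ⟨_, s, hsR, rfl⟩
  have hr := hT.pos
  obtain ⟨_, ⟨x, hx, rfl⟩, hlt⟩ := exists_lt_of_lt_csSup hne
    (show sSup ((fun c => w s c) '' R) - r < sSup ((fun c => w s c) '' R) by linarith)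
  refine ⟨x, hx, fun c hc => ?_⟩
  by_contra hcon
  have hlt' : w s x < w s c := not_le.1 hcon
  have hle : w s c ≤ sSup ((fun c => w s c) '' R) := le_csSup hbdd ⟨c, hc, rfl⟩
  obtain ⟨m, hmU, h1, h2, h3⟩ := hm x hx c hc
  have h0 := hT.nonneg x c
  change sSup ((fun c => w s c) '' R) - r < w s x at hlt
  rcases comb_chain hT hs (hRU hx) (hRU hc) hmU (hR x hx) (hR c hc) h1 h2 h3 with h4 | h4
  · rcases hT.sep x (hRU hx) c (hRU hc) with h5 | h5
    · linarith
    · linarith
  · linarith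

/-- counting on a chain -/
private theorem comb_fin {Y : Type u₂} {Z : Type u₃} {r W : ℝ} (hr : 0 < r) (hW : 0 ≤ W)
    (T : Set Y) (f : Y → ℝ) (g : Y → Z) (h0 : ∀ q ∈ T, 0 ≤ f q) (h1 : ∀ q ∈ T, f q ≤ W)
    (h2 : ∀ q ∈ T, ∀ q' ∈ T, |f q - f q'| < r → g q = g q') :
    (g '' T).Finite ∧ ((g '' T).ncard : ℝ) ≤ W / r + 1 := by
  classical
  have hch : ∀ z : Z, ∃ k : ℕ, z ∈ g '' T → ∃ q ∈ T, g q = z ∧ ⌊f q / r⌋₊ = k := by
    intro z
    by_cases hz : z ∈ g '' T
    · obtain ⟨q, hq, rfl⟩ := hz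
      exact ⟨_, fun _ => ⟨q, hq, rfl, rfl⟩⟩
    · exact ⟨0, fun h => absurd h hz⟩
  choose k hk using hch
  have hmaps : ∀ z ∈ g '' T, k z ∈ (Finset.range (⌊W / r⌋₊ + 1) : Set ℕ) := by
    intro z hz
    obtain ⟨q, hq, -, hkq⟩ := hk z hz
    rw [Finset.mem_coe, Finset.mem_range, ← hkq]
    exact Nat.lt_succ_of_le (Nat.floor_mono (div_le_div_of_nonneg_right (h1 q hq) hr.le))
  have hinj : Set.InjOn k (g '' T) := by
    intro z hz z' hz' hzz
    obtain ⟨q, hq, rfl, hkq⟩ := hk z hz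
    obtain ⟨q', hq', rfl, hkq'⟩ := hk _ hz'
    apply h2 q hq q' hq'
    have h3 : ⌊f q / r⌋₊ = ⌊f q' / r⌋₊ := by rw [hkq, hkq', hzz]
    have h4 := Nat.floor_le (div_nonneg (h0 q hq) hr.le)
    have h5 := Nat.floor_le (div_nonneg (h0 q' hq') hr.le)
    have h6 := Nat.lt_floor_add_one (f q / r)
    have h7 := Nat.lt_floor_add_one (f q' / r)
    rw [h3] at h4 h6
    have h8 : |f q / r - f q' / r| < 1 := by
      rw [abs_lt]
      constructor <;> linarith
    rw [← sub_div, abs_div, abs_of_pos hr, div_lt_one hr] at h8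
    exact h8
  have hfin : (g '' T).Finite :=
    Set.Finite.of_injOn (t := (Finset.range (⌊W / r⌋₊ + 1) : Set ℕ)) hmaps hinj
      (Finset.finite_toSet _)
  refine ⟨hfin, ?_⟩
  have h3 := Set.ncard_le_ncard_of_injOn k hmaps hinj (Finset.finite_toSet _)
  rw [Set.ncard_coe_finset, Finset.card_range] at h3
  have h4 := Nat.floor_le (div_nonneg hW hr.le)
  have h5 : (((g '' T).ncard : ℕ) : ℝ) ≤ ((⌊W / r⌋₊ + 1 : ℕ) : ℝ) := by exact_mod_cast h3
  push_cast at h5
  linarith

theorem count {Y : Type u₂} {Z : Type u₃} (hT : Tree w D U r) (S : Set Y) (s x : Y → α)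
    {q₀ : Y} (hq₀ : q₀ ∈ S) {W : ℝ} (hs : ∀ q ∈ S, s q ∈ U) (hx : ∀ q ∈ S, x q ∈ U)
    (hW : ∀ q ∈ S, w (s q₀) (x q) ≤ W)
    (hr : ∀ q ∈ S, w (s q) (x q) = 0 ∨ (D (s q) (x q) ∧ ¬ D (x q) (s q)))
    (hm1 : ∀ q ∈ S, ∃ m ∈ U, w (s q₀) (s q) = w (s q₀) m + w m (s q) ∧
      w (s q₀) (x q) = w (s q₀) m + w m (x q) ∧ w (s q) (x q) = w (s q) m + w m (x q))
    (hm2 : ∀ q ∈ S, ∀ q' ∈ S, ∃ m ∈ U, w (s q₀) (x q) = w (s q₀) m + w m (x q) ∧
      w (s q₀) (x q') = w (s q₀) m + w m (x q') ∧ w (x q) (x q') = w (x q) m + w m (x q'))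
    (hm3 : ∀ q ∈ S, ∀ q' ∈ S, ∃ m ∈ U, w (s q₀) (s q) = w (s q₀) m + w m (s q) ∧
      w (s q₀) (s q') = w (s q₀) m + w m (s q') ∧ w (s q) (s q') = w (s q) m + w m (s q') ∧
      (D (s q) m → ¬ D m (s q) → w (s q) m ≤ w (s q) (x q)) ∧
      (D (s q') m → ¬ D m (s q') → w (s q') m ≤ w (s q') (x q')))
    (β : α → Z) (hβ : ∀ a ∈ U, ∀ b ∈ U, w a b = 0 → β a = β b) :
    ((fun q => β (x q)) '' S).Finite ∧
      (((fun q => β (x q)) '' S).ncard : ℝ) ≤ 2 * (W / r + 1) := by
  classical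
  have hs0 := hs q₀ hq₀
  have hW0 : 0 ≤ W := (hT.nonneg _ _).trans (hW q₀ hq₀)
  obtain ⟨a, ha⟩ : ∃ a, a = s q₀ := ⟨_, rfl⟩
  rw [← ha] at hs0 hW hm1 hm2 hm3
  have hrp := hT.pos
  -- comparable elements at distance less than `r` have the same value
  have hcmp : ∀ q ∈ S, ∀ q' ∈ S, (w a (x q') = w a (x q) + w (x q) (x q') ∨
      w a (x q) = w a (x q') + w (x q) (x q')) → |w a (x q) - w a (x q')| < r →
      β (x q) = β (x q') := by
    intro q hq q' hq' h h'
    apply hβ _ (hx q hq) _ (hx q' hq')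
    rcases hT.sep _ (hx q hq) _ (hx q' hq') with h5 | h5
    · exact h5
    · exfalso
      rw [abs_lt] at h'
      rcases h with h | h <;> linarith [h'.1, h'.2]
  -- the two classes
  obtain ⟨S₁, hS₁⟩ : ∃ S₁ : Set Y, S₁ = {q | q ∈ S ∧ (w a (x q) = 0 ∨ (D a (x q) ∧ ¬ D (x q) a))} :=
    ⟨_, rfl⟩
  obtain ⟨S₂, hS₂⟩ : ∃ S₂ : Set Y, S₂ = {q | q ∈ S ∧ w a (s q) = w a (x q) + w (x q) (s q)} :=
    ⟨_, rfl⟩
  have hcover : S ⊆ S₁ ∪ S₂ := by
    intro q hq
    obtain ⟨m, hm, h1, h2, h3⟩ := hm1 q hq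
    have hxq := hx q hq
    have hsq := hs q hq
    by_cases h4 : w m (x q) = 0
    · right
      rw [hS₂]
      refine ⟨hq, ?_⟩
      have e1 := hT.symm (x q) (s q)
      have e2 := hT.symm (s q) m
      linarith
    · left
      have h4' : 0 < w m (x q) := lt_of_le_of_ne (hT.nonneg _ _) (Ne.symm h4)
      have h5 := hT.nonneg (s q) m
      have hD := (hr q hq).resolve_left (by linarith)
      have h6 : ¬ D (x q) m := by
        intro h7
        apply hD.2
        refine hT.d2b _ hxq m hm _ hsq ?_ h7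
        have e1 := hT.symm (x q) (s q)
        have e2 := hT.symm (s q) m
        have e3 := hT.symm (x q) m
        linarith
      have h7 := hT.nonneg a m
      have h8 : ¬ D (x q) a := by
        intro h9
        apply h6
        refine hT.d2a _ hxq m hm _ hs0 ?_ ?_ h9
        · have e1 := hT.symm (x q) a
          have e2 := hT.symm m a
          have e3 := hT.symm (x q) m
          linarith
        · rw [hT.symm]
          exact h4'
      have h9 : 0 < w a (x q) := by linarith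
      rw [hS₁]
      exact ⟨hq, Or.inr ⟨(hT.d3 _ hs0 _ hxq h9).resolve_right h8, h8⟩⟩
  have hfin1 := comb_fin hrp hW0 S₁ (fun q => w a (x q)) (fun q => β (x q))
    (fun q _ => hT.nonneg _ _) (fun q hq => hW q (by rw [hS₁] at hq; exact hq.1)) (by
      intro q hq q' hq' h
      rw [hS₁] at hq hq'
      obtain ⟨m, hm, h1, h2, h3⟩ := hm2 q hq.1 q' hq'.1
      exact hcmp q hq.1 q' hq'.1 (comb_chain hT hs0 (hx q hq.1) (hx q' hq'.1) hm hq.2 hq'.2 h1 h2 h3)
        h)
  have hfin2 := comb_fin hrp hW0 S₂ (fun q => w a (x q)) (fun q => β (x q))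
    (fun q _ => hT.nonneg _ _) (fun q hq => hW q (by rw [hS₂] at hq; exact hq.1)) (by
      intro q hq q' hq' h
      rw [hS₂] at hq hq'
      apply hcmp q hq.1 q' hq'.1 _ h
      obtain ⟨m, hm, h1, h2, h3, h4, h5⟩ := hm3 q hq.1 q' hq'.1
      have hxq := hx q hq.1
      have hxq' := hx q' hq'.1
      have hsq := hs q hq.1
      have hsq' := hs q' hq'.1
      -- before `m`
      have before : ∀ p ∈ S, w a (s p) = w a (x p) + w (x p) (s p) →
          w a (s p) = w a m + w m (s p) → w a (x p) ≤ w a m → w (x p) m = w a m - w a (x p) :=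
        fun p hp e1 e2 hle => hT.uniq a hs0 _ (hx p hp) m hm _ (hs p hp) e1 e2 hle
      have after : ∀ p ∈ S, w a (s p) = w a (x p) + w (x p) (s p) →
          w a (s p) = w a m + w m (s p) → w a m ≤ w a (x p) → w m (x p) = w a (x p) - w a m :=
        fun p hp e1 e2 hle => hT.uniq a hs0 m hm _ (hx p hp) _ (hs p hp) e2 e1 hle
      rcases le_or_gt (w a (x q)) (w a m) with c1 | c1
      · have f1 := before q hq.1 hq.2 h1 c1
        rcases le_or_gt (w a (x q')) (w a m) with c2 | c2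
        · have f2 := before q' hq'.1 hq'.2 h2 c2
          rcases le_total (w a (x q)) (w a (x q')) with c3 | c3
          · left
            have := hT.uniq a hs0 _ hxq _ hxq' m hm (by linarith) (by linarith) c3
            linarith
          · right
            have := hT.uniq a hs0 _ hxq' _ hxq m hm (by linarith) (by linarith) c3
            rw [hT.symm (x q) (x q')]
            linarith
        · left
          have f2 := after q' hq'.1 hq'.2 h2 c2.le
          have t1 := hT.tri _ hxq _ hm _ hxq'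
          have t2 := hT.tri _ hs0 _ hxq _ hxq'
          linarith
      · have f1 := after q hq.1 hq.2 h1 c1.le
        rcases le_or_gt (w a (x q')) (w a m) with c2 | c2
        · right
          have f2 := before q' hq'.1 hq'.2 h2 c2
          have t1 := hT.tri _ hxq' _ hm _ hxq
          have t2 := hT.tri _ hs0 _ hxq' _ hxq
          rw [hT.symm (x q) (x q')]
          linarith
        · exfalso
          have f2 := after q' hq'.1 hq'.2 h2 c2.le
          have key : ∀ p ∈ S, w a (s p) = w a (x p) + w (x p) (s p) →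
              w a (s p) = w a m + w m (s p) → w a m < w a (x p) →
              (D (s p) m → ¬ D m (s p) → w (s p) m ≤ w (s p) (x p)) → D m (x p) := by
            intro p hp e1 e2 hlt h6
            have e3 := after p hp e1 e2 hlt.le
            have e4 := hT.symm (s p) m
            have e5 := hT.symm (s p) (x p)
            have e6 := hT.nonneg (x p) (s p)
            have h7 : D m (s p) := by
              by_contra hcon
              have h8 : D (s p) m :=
                (hT.d3 m hm _ (hs p hp) (by linarith)).resolve_left hcon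
              have h9 := h6 h8 hcon
              linarith
            exact hT.d2a m hm _ (hx p hp) _ (hs p hp) (by linarith) (by linarith) h7
          refine hT.d1 _ hxq m hm _ hxq' ?_ (key q hq.1 hq.2 h1 c1 h4) (key q' hq'.1 hq'.2 h2 c2 h5)
          have t1 := hT.tri _ hxq _ hm _ hxq'
          have t2 := hT.tri _ hsq _ hxq _ hsq'
          have t3 := hT.tri _ hxq _ hxq' _ hsq'
          have e1 := hT.symm (s q) m
          have e2 := hT.symm (s q) (x q)
          have e3 := hT.symm (x q) m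
          linarith [hq.2, hq'.2])
  have hsub : (fun q => β (x q)) '' S ⊆ (fun q => β (x q)) '' S₁ ∪ (fun q => β (x q)) '' S₂ := by
    rw [← Set.image_union]
    exact Set.image_mono hcover
  have hfin := hfin1.1.union hfin2.1
  refine ⟨hfin.subset hsub, ?_⟩
  have h1 := Set.ncard_le_ncard hsub hfin
  have h2 := Set.ncard_union_le ((fun q => β (x q)) '' S₁) ((fun q => β (x q)) '' S₂)
  have h3 : (((fun q => β (x q)) '' S).ncard : ℝ) ≤
      (((fun q => β (x q)) '' S₁).ncard : ℝ) + (((fun q => β (x q)) '' S₂).ncard : ℝ) := by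
    exact_mod_cast h1.trans h2
  linarith [hfin1.2, hfin2.2]

end Pool.Agent.H78.TA
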