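import Pool.Agent.H61.CZ.Coarse

/-!
# Two-dimensional Euclidean complexes
-/

set_option autoImplicit false

namespace Pool.Agent.H78.TA

open Pool.Agent.H61.CZ

universe v

/-- `X` is a CAT(0) space which looks like a two-dimensional Euclidean complex with finitely many
shapes and with the set `V` of vertices and the union `B` of the edges; the complex may be locally
infinite.

* `book`: away from the vertices the balls of a fixed radius are balls of books: `pg x` is the page
  of `x`, `s x` the coordinate along the spine and `t x` the distance to the spine, the points of `B`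
  in the ball are the points of the spine;
* `edge`: the edges have bounded length;
* `disc`: the distances between vertices form a discrete set. -/
structure Two (X : Type v) [MetricSpace X] (V B : Set X) : Prop where
  cat : CAT0 X
  book : ∀ δ : ℝ, 0 < δ → ∃ ρ : ℝ, 0 < ρ ∧ ∀ z : X, (∀ v ∈ V, δ ≤ dist z v) →
    ∃ (I : Type v) (pg : X → I) (s t : X → ℝ), ∀ x ∈ Metric.closedBall z ρ,
      0 ≤ t x ∧ (t x = 0 ↔ x ∈ B) ∧ ∀ y ∈ Metric.closedBall z ρ,
        (pg x = pg y → dist x y ^ 2 = (s x - s y) ^ 2 + (t x - t y) ^ 2) ∧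
        (pg x ≠ pg y → dist x y ^ 2 = (s x - s y) ^ 2 + (t x + t y) ^ 2)
  edge : ∃ C : ℝ, ∀ δ : ℝ, 0 < δ → ∃ ρ : ℝ, 0 < ρ ∧ ∀ (n : ℕ) (c : ℕ → X),
    (∀ i ≤ n, c i ∈ B ∧ ∀ v ∈ V, δ ≤ dist (c i) v) →
      (∀ i < n, dist (c i) (c (i + 1)) ≤ ρ) → dist (c 0) (c n) ≤ C
  disc : ∀ R : ℝ, {r : ℝ | r ≤ R ∧ ∃ v ∈ V, ∃ w ∈ V, dist v w = r}.Finite

end Pool.Agent.H78.TA
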