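import Pool.Agent.H61.CZ.Main
import Pool.Agent.H78.TA.Two

/-!
# Two-dimensional Euclidean complexes: definitions
-/

set_option autoImplicit false

namespace Pool.Agent.H78.TA

open Pool.Agent.H61.CZ

universe v

variable {X : Type v} [MetricSpace X]

open Classical in
/-- the point which divides the segment from `x` to `y` in the ratio `s : 1 - s` -/
noncomputable def pt (hX : CAT0 X) (x y : X) (s : ℝ) : X :=
  if h : 0 ≤ s ∧ s ≤ 1 then (hX x y s h.1 h.2).choose else x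

/-- the points at level about `h` between `o` and `u` -/
def Slab (o u : X) (h E : ℝ) : Set X := {x | dist o x ≤ h + E ∧ dist x u ≤ dist o u - h + E}

/-- the constant `C` bounds the lengths of the edges -/
def EdgeC (V B : Set X) (C : ℝ) : Prop :=
  0 ≤ C ∧ ∀ δ : ℝ, 0 < δ → ∃ ρ : ℝ, 0 < ρ ∧ ∀ (n : ℕ) (c : ℕ → X),
    (∀ i ≤ n, c i ∈ B ∧ ∀ v ∈ V, δ ≤ dist (c i) v) →
      (∀ i < n, dist (c i) (c (i + 1)) ≤ ρ) → dist (c 0) (c n) ≤ C

theorem Two.exists_edgeC {V B : Set X} (hT : Two X V B) : ∃ C : ℝ, EdgeC V B C := by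
  obtain ⟨C, hC⟩ := hT.edge
  refine ⟨max C 0, le_max_right _ _, fun δ hδ => ?_⟩
  obtain ⟨ρ, hρ, h⟩ := hC δ hδ
  exact ⟨ρ, hρ, fun n c h1 h2 => (h n c h1 h2).trans (le_max_left _ _)⟩

/-- the distances `wab`, `wac`, `wbc` are at most `L` and the legs of the tripod with these distances
are at least `d` -/
structure Legs (wab wac wbc L d : ℝ) : Prop where
  ab : wab ≤ L
  ac : wac ≤ L
  bc : wbc ≤ L
  la : 2 * d ≤ wab + wac - wbc
  lb : 2 * d ≤ wab + wbc - wac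
  lc : 2 * d ≤ wac + wbc - wab

/-- three curves, parametrized by the level, nearly parallel -/
structure Tri (o : X) (a b c : ℝ → X) (α β wab wac wbc E k : ℝ) : Prop where
  lo : 2 ≤ α
  lipa : ∀ x ∈ Set.Icc α β, ∀ y ∈ Set.Icc α β, dist (a x) (a y) ≤ |x - y|
  lipb : ∀ x ∈ Set.Icc α β, ∀ y ∈ Set.Icc α β, dist (b x) (b y) ≤ |x - y|
  lipc : ∀ x ∈ Set.Icc α β, ∀ y ∈ Set.Icc α β, dist (c x) (c y) ≤ |x - y|
  slab : ∀ x ∈ Set.Icc α β, ∃ u, x + 2 ≤ dist o u ∧ a x ∈ Slab o u x E ∧ b x ∈ Slab o u x E ∧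
    c x ∈ Slab o u x E
  dab : ∀ x ∈ Set.Icc α β, |dist (a x) (b x) - wab| ≤ k
  dac : ∀ x ∈ Set.Icc α β, |dist (a x) (c x) - wac| ≤ k
  dbc : ∀ x ∈ Set.Icc α β, |dist (b x) (c x) - wbc| ≤ k

/-- the center of the tripod, on the segment from `a` to `b` -/
noncomputable def zt (hX : CAT0 X) (a b : X) (wab wac wbc : ℝ) : X :=
  pt hX a b ((wab + wac - wbc) / (2 * wab))

/-- `b` is on `[-A, A]` a segment with many vertices, `b 0` is at level `h`, and the level of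
`b x` is about `h + x` -/
structure VL (V : Set X) (o : X) (C2 h A E : ℝ) (b : ℝ → X) : Prop where
  pos : 0 ≤ A
  big : A + 2 ≤ h
  iso : ∀ x ∈ Set.Icc (-A) A, ∀ y ∈ Set.Icc (-A) A, dist (b x) (b y) = |x - y|
  lev : dist o (b 0) = h
  ht : ∀ x ∈ Set.Icc (-A) A, |dist o (b x) - (h + x)| ≤ E
  ver : ∀ x : ℝ, -A ≤ x → x + C2 ≤ A → ∃ y ∈ Set.Icc x (x + C2), b y ∈ V

/-- the shift between two parallel segments -/
noncomputable def sg (a b : ℝ → X) : ℝ := (dist (a 1) (b 0) ^ 2 - dist (a 0) (b 1) ^ 2) / 4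

/-- the distance of two parallel segments -/
noncomputable def wd (a b : ℝ → X) : ℝ := √(dist (a 0) (b 0) ^ 2 - sg a b ^ 2)

/-- `a` and `b` are parallel on `[-P, P]` -/
def Par (P : ℝ) (a b : ℝ → X) : Prop :=
  |sg a b| ≤ 1 / 4 ∧ ∀ x ∈ Set.Icc (-P) P, ∀ y ∈ Set.Icc (-P) P,
    dist (a x) (b y) ^ 2 = wd a b ^ 2 + (x - y + sg a b) ^ 2

/-- `m` is between `a` and `c` -/
def Btw (a m c : ℝ → X) : Prop := wd a c = wd a m + wd m c

/-- the level decreases on the perpendicular from `b 0` to `c` -/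
def Down (hX : CAT0 X) (o : X) (h : ℝ) (b c : ℝ → X) : Prop :=
  ∃ s : ℝ, 0 ≤ s ∧ s ≤ 1 ∧ dist o (pt hX (b 0) (c (sg b c)) s) < h

/-- a segment of length 4 through level `h`, parametrized upwards -/
structure Ln (o : X) (h : ℝ) (a : ℝ → X) : Prop where
  iso : ∀ x ∈ Set.Icc (-2 : ℝ) 2, ∀ y ∈ Set.Icc (-2 : ℝ) 2, dist (a x) (a y) = |x - y|
  lev : dist o (a 0) = h
  up : ∀ x : ℝ, 0 < x → x ≤ 2 → h < dist o (a x)
  dn : ∀ x : ℝ, -2 ≤ x → x < 0 → dist o (a x) < h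

end Pool.Agent.H78.TA
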