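import Pool.Agent.H78.TA.Level
import Pool.Agent.H20.TA.Crit

/-!
# Two-dimensional complexes have property A
-/

set_option autoImplicit false

namespace Pool.Agent.H78.TA

open Pool.Agent.H61.CZ Pool.Agent.H20.TA Filter

universe v

variable {X : Type v} [MetricSpace X] {V B : Set X}

/-- a logarithm is sublinear -/
theorem log_le_eventually {c : ℝ} (hc : 0 < c) {δ : ℝ} (hδ : 0 < δ) :
    ∀ᶠ l : ℕ in atTop, Real.log (c * (l + 1)) ≤ δ * l := by
  have h1 : ∀ᶠ x : ℝ in atTop, ‖Real.log x‖ ≤ δ / (2 * c) * ‖id x‖ :=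
    Real.isLittleO_log_id_atTop.bound (by positivity)
  have h2 : Tendsto (fun l : ℕ => c * ((l : ℝ) + 1)) atTop atTop :=
    Tendsto.const_mul_atTop hc (tendsto_atTop_add_const_right _ _ tendsto_natCast_atTop_atTop)
  filter_upwards [h2.eventually h1, eventually_ge_atTop 1] with l hl hl1
  have h3 : (1 : ℝ) ≤ l := by exact_mod_cast hl1
  have h4 : 0 ≤ c * ((l : ℝ) + 1) := by positivity
  rw [id, Real.norm_of_nonneg h4] at hl
  refine (le_abs_self _).trans (hl.trans ?_)
  have h5 : δ / (2 * c) * (c * ((l : ℝ) + 1)) = δ * (l + 1) / 2 := by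
    field_simp
  rw [h5]
  nlinarith

theorem spaceA_of_empty [IsEmpty X] : SpaceA X := fun _ _ _ =>
  ⟨X, isEmptyElim, 0, isEmptyElim, isEmptyElim, isEmptyElim, isEmptyElim⟩

/-- **Two-dimensional complexes with finitely many shapes have property A.** -/
theorem spaceA_of_two (hT : Two X V B) : SpaceA X := by
  classical
  rcases isEmpty_or_nonempty X with hE | hE
  · exact spaceA_of_empty
  obtain ⟨o⟩ := hE
  have hX := hT.cat
  obtain ⟨c, hc⟩ := level hT
  obtain ⟨c', hc'⟩ : ∃ c' : ℝ, c' = 2 * (1 + 2 * |c|) := ⟨_, rfl⟩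
  have hc'0 : 0 < c' := by rw [hc']; positivity
  refine spaceA_of_image (fun l : ℕ => c' * (l + 1))
    (fun δ hδ => (log_le_eventually hc'0 hδ).frequently) fun l => ?_
  obtain ⟨D, T, hout⟩ := hc (2 * l + 1) (by have : (0 : ℝ) ≤ l := Nat.cast_nonneg l; linarith)
  obtain ⟨M, hM⟩ : ∃ M : ℝ, M = 2 * l + 1 := ⟨_, rfl⟩
  have hl0 : (0 : ℝ) ≤ l := Nat.cast_nonneg l
  have hM0 : 0 < M := by rw [hM]; linarith
  have hout' : ∀ n : ℕ, ∃ out : X → X, T ≤ n * M →
      (∀ q, dist o q = n * M → dist q (out q) ≤ D) ∧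
      ∀ S : Set X, (∀ q ∈ S, dist o q = n * M) → (∀ q ∈ S, ∀ q' ∈ S, dist q q' ≤ 2 * l + 1) →
        (out '' S).Finite ∧ ((out '' S).ncard : ℝ) ≤ c * (2 * l + 1) := by
    intro n
    by_cases hn : T ≤ n * M
    · obtain ⟨out, h⟩ := hout o (n * M) hn
      exact ⟨out, fun _ => h⟩
    · exact ⟨id, fun h => absurd h hn⟩
  choose out ho using hout'
  obtain ⟨nn, hnn⟩ : ∃ nn : X → ℕ, nn = fun y => ⌊dist o y / M⌋₊ := ⟨_, rfl⟩
  have hnle : ∀ y, nn y * M ≤ dist o y := by
    intro y
    have h1 : (nn y : ℝ) ≤ dist o y / M := by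
      rw [hnn]
      exact Nat.floor_le (by positivity)
    rwa [le_div_iff₀ hM0] at h1
  have hnlt : ∀ y, dist o y < (nn y + 1) * M := by
    intro y
    have h1 : dist o y / M < nn y + 1 := by
      rw [hnn]
      exact Nat.lt_floor_add_one _
    rwa [div_lt_iff₀ hM0] at h1
  obtain ⟨qq, hqq⟩ : ∃ qq : X → X, qq = fun y => fl hX o y (nn y * M) := ⟨_, rfl⟩
  have hq1 : ∀ y, dist o (qq y) = nn y * M := by
    intro y
    rw [hqq]
    exact dist_fl hX (by positivity) (hnle y)
  have hq2 : ∀ y, dist y (qq y) ≤ M := by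
    intro y
    have h1 : dist (qq y) y = dist o y - nn y * M := by
      rw [hqq]
      exact dist_fl_self hX (by positivity) (hnle y)
    rw [dist_comm, h1]
    have := hnlt y
    linarith
  obtain ⟨Φ, hΦ⟩ : ∃ Φ : X → Option (ℕ × X), Φ = fun y =>
      if T ≤ nn y * M then some (nn y, out (nn y) (qq y)) else none := ⟨_, rfl⟩
  have hΦ1 : ∀ y, T ≤ nn y * M → Φ y = some (nn y, out (nn y) (qq y)) := by
    intro y hy
    rw [hΦ]
    exact if_pos hy
  have hΦ2 : ∀ y, ¬ T ≤ nn y * M → Φ y = none := by
    intro y hy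
    rw [hΦ]
    exact if_neg hy
  refine ⟨Option (ℕ × X), Φ, max (2 * M + 2 * D) (2 * (T + M)), fun x y hxy => ?_, fun x => ?_⟩
  · by_cases hx : T ≤ nn x * M
    · by_cases hy : T ≤ nn y * M
      · rw [hΦ1 x hx, hΦ1 y hy] at hxy
        have h1 := Option.some.inj hxy
        have h2 : nn x = nn y := congrArg Prod.fst h1
        have h3 : out (nn x) (qq x) = out (nn y) (qq y) := congrArg Prod.snd h1
        have h4 := (ho _ hx).1 (qq x) (hq1 x)
        have h5 := (ho _ hy).1 (qq y) (hq1 y)
        have h6 := hq2 x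
        have h7 := hq2 y
        have h8 := dist_triangle4 x (qq x) (out (nn x) (qq x)) (qq y)
        have h9 := dist_triangle x (qq y) y
        rw [h3] at h8 h4
        rw [dist_comm] at h5 h7
        refine le_trans ?_ (le_max_left _ _)
        linarith
      · rw [hΦ1 x hx, hΦ2 y hy] at hxy
        exact absurd hxy (by simp)
    · by_cases hy : T ≤ nn y * M
      · rw [hΦ1 y hy, hΦ2 x hx] at hxy
        exact absurd hxy (by simp)
      · have h1 := hnlt x
        have h2 := hnlt y
        have h3 := dist_triangle x o y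
        rw [dist_comm x o] at h3
        refine le_trans ?_ (le_max_right _ _)
        push Not at hx hy
        nlinarith
  · -- the two levels
    obtain ⟨n₀, hn₀⟩ : ∃ n₀ : ℕ, n₀ = ⌊(dist o x - l) / M⌋₊ := ⟨_, rfl⟩
    have hn : ∀ y ∈ Metric.closedBall x (l : ℝ), nn y = n₀ ∨ nn y = n₀ + 1 := by
      intro y hy
      rw [Metric.mem_closedBall] at hy
      have h1 := dist_triangle o x y
      have h2 := dist_triangle o y x
      rw [dist_comm x y] at h1
      have h3 : n₀ ≤ nn y := by
        rw [hn₀, hnn]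
        exact Nat.floor_mono (div_le_div_of_nonneg_right (by linarith) hM0.le)
      have h4 : nn y < n₀ + 2 := by
        rw [hnn]
        refine (Nat.floor_lt (by positivity)).2 ?_
        have h5 := Nat.lt_floor_add_one ((dist o x - l) / M)
        rw [← hn₀] at h5
        have h6 : dist o y / M < (dist o x - l) / M + 1 := by
          rw [div_add_one hM0.ne']
          exact div_lt_div_of_pos_right (by linarith) hM0
        push_cast
        linarith
      omega
    obtain ⟨G, hG⟩ : ∃ G : ℕ → Set (Option (ℕ × X)), G = fun n =>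
        (fun z => some (n, z)) '' (out n '' (qq '' {y ∈ Metric.closedBall x (l : ℝ) |
          nn y = n ∧ T ≤ n * M})) := ⟨_, rfl⟩
    have hGfin : ∀ n, (G n).Finite ∧ ((G n).ncard : ℝ) ≤ |c| * (2 * l + 1) := by
      intro n
      by_cases hTn : T ≤ n * M
      · have h1 := (ho n hTn).2 (qq '' {y ∈ Metric.closedBall x (l : ℝ) | nn y = n ∧ T ≤ n * M})
          (by
            rintro _ ⟨y, hy, rfl⟩
            rw [hq1, hy.2.1])
          (by
            rintro _ ⟨y, hy, rfl⟩ _ ⟨y', hy', rfl⟩
            have h2 : dist (qq y) (qq y') ≤ dist y y' := by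
              rw [hqq]
              simp only
              rw [hy.2.1, hy'.2.1]
              refine fl_lip hX (by positivity) ?_ ?_
              · have := hnle y
                rwa [hy.2.1] at this
              · have := hnle y'
                rwa [hy'.2.1] at this
            have h3 := Metric.mem_closedBall.1 hy.1
            have h4 := Metric.mem_closedBall.1 hy'.1
            have h5 := dist_triangle y x y'
            rw [dist_comm] at h4
            linarith)
        rw [hG]
        refine ⟨h1.1.image _, ?_⟩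
        have h2 := Set.ncard_image_le (f := fun z : X => some (n, z)) h1.1
        have h3 : (c : ℝ) * (2 * l + 1) ≤ |c| * (2 * l + 1) :=
          mul_le_mul_of_nonneg_right (le_abs_self c) (by linarith)
        refine le_trans ?_ (h1.2.trans h3)
        exact_mod_cast h2
      · have h1 : G n = ∅ := by
          rw [hG]
          simp [hTn]
        rw [h1, Set.ncard_empty]
        refine ⟨Set.finite_empty, ?_⟩
        push_cast
        positivity
    have hsub : Φ '' Metric.closedBall x (l : ℝ) ⊆ insert none (G n₀ ∪ G (n₀ + 1)) := by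
      rintro _ ⟨y, hy, rfl⟩
      by_cases hTy : T ≤ nn y * M
      · rw [hΦ1 y hTy]
        right
        have hmem : some (nn y, out (nn y) (qq y)) ∈ G (nn y) := by
          rw [hG]
          exact ⟨_, ⟨_, ⟨y, ⟨hy, rfl, hTy⟩, rfl⟩, rfl⟩, rfl⟩
        rcases hn y hy with h | h
        · left
          rw [h] at hmem ⊢
          exact hmem
        · right
          rw [h] at hmem ⊢
          exact hmem
      · rw [hΦ2 y hTy]
        left
        rfl
    have hfin : (insert none (G n₀ ∪ G (n₀ + 1))).Finite :=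
      ((hGfin n₀).1.union (hGfin (n₀ + 1)).1).insert _
    refine ⟨hfin.subset hsub, ?_⟩
    have h1 := Set.ncard_le_ncard hsub hfin
    have h2 := Set.ncard_insert_le (none : Option (ℕ × X)) (G n₀ ∪ G (n₀ + 1))
    have h3 := Set.ncard_union_le (G n₀) (G (n₀ + 1))
    have h4 : ((Φ '' Metric.closedBall x (l : ℝ)).ncard : ℝ) ≤
        (G n₀).ncard + (G (n₀ + 1)).ncard + 1 := by
      exact_mod_cast h1.trans (h2.trans (by omega))
    have h5 := (hGfin n₀).2
    have h6 := (hGfin (n₀ + 1)).2
    have h7 := abs_nonneg c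
    rw [hc']
    nlinarith [mul_nonneg h7 hl0]

end Pool.Agent.H78.TA
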