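import Pool.Agent.H78.TA.Cat

/-!
# Flows towards `o`
-/

set_option autoImplicit false

namespace Pool.Agent.H78.TA

open Pool.Agent.H61.CZ

universe v

variable {X : Type v} [MetricSpace X]

/-- the point at level `x` on the segment from `o` to `q` -/
noncomputable def fl (hX : CAT0 X) (o q : X) (x : ℝ) : X := pt hX o q (x / dist o q)

private theorem ratio {A x : ℝ} (hA : 0 ≤ A) (h0 : 0 ≤ x) (h1 : x ≤ A) :
    0 ≤ x / A ∧ x / A ≤ 1 ∧ x / A * A = x := by
  rcases eq_or_lt_of_le hA with h | h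
  · obtain rfl : x = 0 := by linarith
    simp
  · exact ⟨by positivity, (div_le_one h).2 h1, div_mul_cancel₀ _ h.ne'⟩

theorem dist_fl (hX : CAT0 X) {o q : X} {x : ℝ} (h0 : 0 ≤ x) (h1 : x ≤ dist o q) :
    dist o (fl hX o q x) = x := by
  obtain ⟨h2, h3, h4⟩ := ratio dist_nonneg h0 h1
  unfold fl
  rw [dist_left hX h2 h3, h4]

theorem dist_fl_fl (hX : CAT0 X) {o q : X} {x y : ℝ} (h0 : 0 ≤ x) (h1 : x ≤ dist o q)
    (h0' : 0 ≤ y) (h1' : y ≤ dist o q) : dist (fl hX o q x) (fl hX o q y) = |x - y| := by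
  obtain ⟨h2, h3, h4⟩ := ratio dist_nonneg h0 h1
  obtain ⟨h2', h3', h4'⟩ := ratio dist_nonneg h0' h1'
  unfold fl
  rw [dist_pt_pt hX h2 h3 h2' h3']
  nth_rewrite 3 [← abs_of_nonneg (dist_nonneg (x := o) (y := q))]
  rw [← abs_mul, sub_mul, h4, h4']

theorem dist_fl_self (hX : CAT0 X) {o q : X} {x : ℝ} (h0 : 0 ≤ x) (h1 : x ≤ dist o q) :
    dist (fl hX o q x) q = dist o q - x := by
  obtain ⟨h2, h3, h4⟩ := ratio dist_nonneg h0 h1
  unfold fl
  rw [dist_right hX h2 h3, sub_mul, h4, one_mul]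

/-- the flow does not increase distances -/
theorem fl_lip (hX : CAT0 X) {o q q' : X} {x : ℝ} (h0 : 0 ≤ x) (h1 : x ≤ dist o q)
    (h1' : x ≤ dist o q') : dist (fl hX o q x) (fl hX o q' x) ≤ dist q q' := by
  rcases eq_or_lt_of_le h0 with hx | hx
  · subst hx
    unfold fl
    rw [zero_div, zero_div, pt_zero, pt_zero, dist_self]
    exact dist_nonneg
  obtain ⟨h2, h3, h4⟩ := ratio dist_nonneg h0 h1
  obtain ⟨h2', h3', h4'⟩ := ratio dist_nonneg h0 h1'
  have h := compare hX (z := o) (a := q) (c := q') h2 h3 h2' h3'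
  refine abs_le_of_sq_le_sq' (h.trans ?_) dist_nonneg |>.2
  have hA : 0 < dist o q := hx.trans_le h1
  have hB : 0 < dist o q' := hx.trans_le h1'
  have hQ : (dist o q - dist o q') ^ 2 ≤ dist q q' ^ 2 := by
    rw [← sq_abs]
    refine pow_le_pow_left₀ (abs_nonneg _) ?_ 2
    rw [dist_comm o q, dist_comm o q']
    exact abs_dist_sub_le q q' o
  have h5 : x / dist o q * (x / dist o q') ≤ 1 := mul_le_one₀ h3 h2' h3'
  have h6 : 0 ≤ x / dist o q * (x / dist o q') := mul_nonneg h2 h2'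
  have e : (x / dist o q) ^ 2 * dist o q ^ 2 + (x / dist o q') ^ 2 * dist o q' ^ 2 +
      x / dist o q * (x / dist o q') * (dist q q' ^ 2 - dist o q ^ 2 - dist o q' ^ 2) =
      x / dist o q * (x / dist o q') * (dist q q' ^ 2 - (dist o q - dist o q') ^ 2) := by
    field_simp
    ring
  rw [e]
  have h7 : x / dist o q * (x / dist o q') * (dist q q' ^ 2 - (dist o q - dist o q') ^ 2) ≤
      1 * (dist q q' ^ 2 - (dist o q - dist o q') ^ 2) :=
    mul_le_mul_of_nonneg_right h5 (by linarith)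
  have := sq_nonneg (dist o q - dist o q')
  linarith

private theorem slab_fl (hX : CAT0 X) {o q q' : X} {Θ x L E : ℝ} (hE : 0 < E) (hq : dist o q = Θ)
    (hq' : dist o q' = Θ) (hL : dist q q' ≤ L) (h0 : 0 ≤ x) (h1 : x ≤ Θ)
    (h2 : L ^ 2 ≤ 2 * E * (Θ - x)) : fl hX o q' x ∈ Slab o q x E := by
  subst hq
  obtain ⟨h3, h4, h5⟩ := ratio (A := dist o q') dist_nonneg h0 (by linarith)
  refine ⟨?_, ?_⟩
  · rw [dist_fl hX h0 (by linarith)]
    linarith
  · have h := pt_le hX (x := o) (y := q') h3 h4 q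
    rw [dist_comm]
    refine abs_le_of_sq_le_sq' (h.trans ?_) (by linarith) |>.2
    rw [hq'] at h3 h4 h5 ⊢
    rw [dist_comm q o]
    generalize dist o q = A at *
    generalize x / A = s at *
    have h6 : dist q q' ^ 2 ≤ L ^ 2 := pow_le_pow_left₀ dist_nonneg hL 2
    have h7 : s * dist q q' ^ 2 ≤ 1 * L ^ 2 :=
      mul_le_mul h4 h6 (sq_nonneg _) zero_le_one
    have e : (1 - s) * A ^ 2 + s * dist q q' ^ 2 - s * (1 - s) * A ^ 2 =
        (A - x) ^ 2 + s * dist q q' ^ 2 := by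
      rw [← h5]
      ring
    rw [e]
    nlinarith [sq_nonneg E]

private theorem flow_dist (hX : CAT0 X) {o q q' : X} {Θ x y L : ℝ} (hq : dist o q = Θ)
    (hq' : dist o q' = Θ) (hL : dist q q' ≤ L) (h0 : 0 ≤ x) (hxy : x ≤ y) (h1 : y < Θ) :
    dist (fl hX o q x) (fl hX o q' x) ≤ dist (fl hX o q y) (fl hX o q' y) ∧
      (Θ - x) * (dist (fl hX o q y) (fl hX o q' y) - dist (fl hX o q x) (fl hX o q' x)) ≤
        (y - x) * L := by
  have hb : ∀ x ∈ Set.Icc 0 Θ, ∀ y ∈ Set.Icc 0 Θ, dist (fl hX o q x) (fl hX o q y) = |x - y| :=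
    fun x hx y hy => dist_fl_fl hX hx.1 (by linarith [hx.2]) hy.1 (by linarith [hy.2])
  have hc : ∀ x ∈ Set.Icc 0 Θ, ∀ y ∈ Set.Icc 0 Θ, dist (fl hX o q' x) (fl hX o q' y) = |x - y| :=
    fun x hx y hy => dist_fl_fl hX hx.1 (by linarith [hx.2]) hy.1 (by linarith [hy.2])
  have hconv := conv_two hX hb hc
  have hf0 : dist (fl hX o q 0) (fl hX o q' 0) = 0 := by
    unfold fl
    rw [zero_div, zero_div, pt_zero, pt_zero, dist_self]
  have hΘ : 0 < Θ := by linarith
  have hf1 : dist (fl hX o q Θ) (fl hX o q' Θ) = dist q q' := by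
    unfold fl
    rw [hq, hq', div_self hΘ.ne', pt_one, pt_one]
  refine ⟨?_, ?_⟩
  · rcases eq_or_lt_of_le (h0.trans hxy) with hy | hy
    · obtain rfl : x = y := by linarith
      exact le_rfl
    · have h := hconv.2 (show (0 : ℝ) ∈ Set.Icc 0 Θ from ⟨le_rfl, hΘ.le⟩)
        (show y ∈ Set.Icc 0 Θ from ⟨hy.le, h1.le⟩)
        (show 0 ≤ 1 - x / y by rw [sub_nonneg]; exact (div_le_one hy).2 hxy)
        (show 0 ≤ x / y by positivity) (by ring)
      simp only [smul_eq_mul] at h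
      simp only [hf0, mul_zero, zero_add, div_mul_cancel₀ _ hy.ne'] at h
      refine h.trans ?_
      exact mul_le_of_le_one_left dist_nonneg ((div_le_one hy).2 hxy)
  · have hx : 0 < Θ - x := by linarith
    have hs1 : (y - x) / (Θ - x) ≤ 1 := (div_le_one hx).2 (by linarith)
    have h := hconv.2 (show x ∈ Set.Icc 0 Θ from ⟨h0, by linarith⟩)
        (show Θ ∈ Set.Icc 0 Θ from ⟨hΘ.le, le_rfl⟩)
        (show 0 ≤ 1 - (y - x) / (Θ - x) by linarith)
        (show 0 ≤ (y - x) / (Θ - x) by exact div_nonneg (by linarith) hx.le) (by ring)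
    simp only [smul_eq_mul] at h
    have e : (1 - (y - x) / (Θ - x)) * x + (y - x) / (Θ - x) * Θ = y := by
      field_simp
      ring
    rw [e, hf1] at h
    have h2 : (Θ - x) * dist (fl hX o q y) (fl hX o q' y) ≤
        (Θ - x) * ((1 - (y - x) / (Θ - x)) * dist (fl hX o q x) (fl hX o q' x) +
          (y - x) / (Θ - x) * dist q q') := mul_le_mul_of_nonneg_left h hx.le
    have e2 : (Θ - x) * ((1 - (y - x) / (Θ - x)) * dist (fl hX o q x) (fl hX o q' x) +
          (y - x) / (Θ - x) * dist q q') = (Θ - x) * dist (fl hX o q x) (fl hX o q' x) -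
          (y - x) * dist (fl hX o q x) (fl hX o q' x) + (y - x) * dist q q' := by
      field_simp
    rw [e2] at h2
    have h3 : 0 ≤ (y - x) * dist (fl hX o q x) (fl hX o q' x) :=
      mul_nonneg (by linarith) dist_nonneg
    have h4 : (y - x) * dist q q' ≤ (y - x) * L := mul_le_mul_of_nonneg_left hL (by linarith)
    linarith

private theorem flow_abs (hX : CAT0 X) {o q q' : X} {Θ x h L a k T : ℝ} (hL0 : 0 < L) (ha : 0 < a)
    (hk : 0 < k) (hT : a * L ≤ k * (T - a)) (hTa : a < T) (hq : dist o q = Θ)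
    (hq' : dist o q' = Θ) (hL : dist q q' ≤ L) (h1 : T ≤ Θ - h) (h2 : T ≤ h)
    (hx : x ∈ Set.Icc (h - a) (h + a)) :
    |dist (fl hX o q x) (fl hX o q' x) - dist (fl hX o q h) (fl hX o q' h)| ≤ k := by
  obtain ⟨hx1, hx2⟩ := hx
  have key : ∀ r u v : ℝ, T - a ≤ r → 0 ≤ u → u ≤ a → 0 ≤ v → r * v ≤ u * L → v ≤ k := by
    intro r u v hr hu hua hv hrv
    by_contra hcon
    push Not at hcon
    have h3 : (T - a) * v ≤ r * v := mul_le_mul_of_nonneg_right hr hv
    have h4 : (T - a) * k < (T - a) * v := mul_lt_mul_of_pos_left hcon (by linarith)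
    have h5 : u * L ≤ a * L := mul_le_mul_of_nonneg_right hua hL0.le
    linarith
  rw [abs_le]
  rcases le_total x h with hxh | hxh
  · obtain ⟨h3, h4⟩ := flow_dist hX (x := x) (y := h) hq hq' hL (by linarith) hxh (by linarith)
    have := key _ _ _ (by linarith) (by linarith) (by linarith) (sub_nonneg.2 h3) h4
    exact ⟨by linarith, by linarith⟩
  · obtain ⟨h3, h4⟩ := flow_dist hX (x := h) (y := x) hq hq' hL (by linarith) hxh (by linarith)
    have := key _ _ _ (by linarith) (by linarith) (by linarith) (sub_nonneg.2 h3) h4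
    exact ⟨by linarith, by linarith⟩

theorem flow_tri (hX : CAT0 X) {L a E k : ℝ} (hL : 0 < L) (ha : 0 < a) (hE : 0 < E) (hk : 0 < k) :
    ∃ T : ℝ, a ≤ T ∧ ∀ (o q₁ q₂ q₃ : X) (Θ h : ℝ), dist o q₁ = Θ → dist o q₂ = Θ →
      dist o q₃ = Θ → dist q₁ q₂ ≤ L → dist q₁ q₃ ≤ L → dist q₂ q₃ ≤ L → T ≤ Θ - h → T ≤ h →
      Tri o (fl hX o q₁) (fl hX o q₂) (fl hX o q₃) (h - a) (h + a)
        (dist (fl hX o q₁ h) (fl hX o q₂ h)) (dist (fl hX o q₁ h) (fl hX o q₃ h))
        (dist (fl hX o q₂ h) (fl hX o q₃ h)) E k := by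
  have hLE : 0 < L ^ 2 / (2 * E) := by positivity
  have haL : 0 < a * L / k := by positivity
  obtain ⟨T, hT⟩ : ∃ T, T = a + 4 + L ^ 2 / (2 * E) + a * L / k := ⟨_, rfl⟩
  have hT1 : L ^ 2 ≤ 2 * E * (T - a) := by
    have : L ^ 2 / (2 * E) ≤ T - a := by linarith
    rw [div_le_iff₀ (by positivity)] at this
    linarith
  have hT2 : a * L ≤ k * (T - a) := by
    have : a * L / k ≤ T - a := by linarith
    rw [div_le_iff₀ hk] at this
    linarith
  have hT3 : a + 4 ≤ T := by linarith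
  refine ⟨T, by linarith, fun o q₁ q₂ q₃ Θ h h1 h2 h3 h12 h13 h23 hTΘ hTh => ?_⟩
  have hlip : ∀ q : X, dist o q = Θ → ∀ x ∈ Set.Icc (h - a) (h + a),
      ∀ y ∈ Set.Icc (h - a) (h + a), dist (fl hX o q x) (fl hX o q y) ≤ |x - y| := by
    intro q hq x hx y hy
    exact (dist_fl_fl hX (by linarith [hx.1]) (by linarith [hx.2]) (by linarith [hy.1])
      (by linarith [hy.2])).le
  have hslab : ∀ q : X, dist o q = Θ → dist q₁ q ≤ L → ∀ x ∈ Set.Icc (h - a) (h + a),
      fl hX o q x ∈ Slab o q₁ x E := by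
    intro q hq hq1 x hx
    refine slab_fl hX hE h1 hq hq1 (by linarith [hx.1]) (by linarith [hx.2]) (hT1.trans ?_)
    exact mul_le_mul_of_nonneg_left (by linarith [hx.2]) (by linarith)
  refine ⟨by linarith, hlip q₁ h1, hlip q₂ h2, hlip q₃ h3, fun x hx => ⟨q₁, ?_, ?_, ?_, ?_⟩,
    fun x hx => ?_, fun x hx => ?_, fun x hx => ?_⟩
  · linarith [hx.2]
  · exact hslab q₁ h1 (by rw [dist_self]; exact hL.le) x hx
  · exact hslab q₂ h2 h12 x hx
  · exact hslab q₃ h3 h13 x hx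
  · exact flow_abs hX hL ha hk hT2 (by linarith) h1 h2 h12 hTΘ hTh hx
  · exact flow_abs hX hL ha hk hT2 (by linarith) h1 h3 h13 hTΘ hTh hx
  · exact flow_abs hX hL ha hk hT2 (by linarith) h2 h3 h23 hTΘ hTh hx

end Pool.Agent.H78.TA
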