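import Pool.Agent.H78.TA.Defs

/-!
# Functions of the distances between vertices have discrete values
-/

set_option autoImplicit false

namespace Pool.Agent.H78.TA

open Pool.Agent.H61.CZ

universe v

variable {X : Type v} [MetricSpace X]

/-- a finite set of numbers has a gap at zero -/
private theorem gap_fin {F : Set ℝ} (hF : F.Finite) :
    ∃ g : ℝ, 0 < g ∧ ∀ r ∈ F, |r| < g → r = 0 := by
  induction F, hF using Set.Finite.induction_on with
  | empty => exact ⟨1, one_pos, fun r hr => absurd hr (Set.notMem_empty r)⟩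
  | @insert a s _ _ ih =>
    obtain ⟨g, hg, h⟩ := ih
    by_cases ha : a = 0
    · refine ⟨g, hg, fun r hr hrg => ?_⟩
      rcases hr with rfl | hr
      · exact ha
      · exact h r hr hrg
    · refine ⟨min g |a|, lt_min hg (abs_pos.2 ha), fun r hr hrg => ?_⟩
      rcases hr with rfl | hr
      · exact absurd (hrg.trans_le (min_le_right _ _)) (lt_irrefl _)
      · exact h r hr (hrg.trans_le (min_le_left _ _))

theorem gap {V : Set X} (hV : ∀ R : ℝ, {r : ℝ | r ≤ R ∧ ∃ v ∈ V, ∃ w ∈ V, dist v w = r}.Finite)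
    (m : ℕ) (R : ℝ) (P : (Fin m → Fin m → ℝ) → ℝ) :
    ∃ g : ℝ, 0 < g ∧ ∀ x : Fin m → X, (∀ i, x i ∈ V) → (∀ i j, dist (x i) (x j) ≤ R) →
      |P fun i j => dist (x i) (x j)| < g → P (fun i j => dist (x i) (x j)) = 0 := by
  have h1 : {f : Fin m → Fin m → ℝ | ∀ i, f i ∈ {f' : Fin m → ℝ | ∀ j, f' j ∈
      {r : ℝ | r ≤ R ∧ ∃ v ∈ V, ∃ w ∈ V, dist v w = r}}}.Finite :=
    Set.Finite.pi' fun _ => Set.Finite.pi' fun _ => hV R
  obtain ⟨g, hg, h⟩ := gap_fin (h1.image P)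
  exact ⟨g, hg, fun x hx hR => h _ ⟨_, fun i j => ⟨hR i j, x i, hx i, x j, hx j, rfl⟩, rfl⟩⟩

end Pool.Agent.H78.TA
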