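import Pool.Agent.H78.TA.Final
import Pool.Agent.H61.CZ.Final

/-!
# Groups acting on a building, a two-dimensional complex and a CAT(0) space with property A
-/

set_option autoImplicit false

namespace Pool.Agent.H78.TA

open Pool.Agent.H97.BLD Pool.Agent.H66.NCL Pool.Agent.H4.FC Pool.Agent.H61.CZ
open scoped Pointwise

universe u

theorem FinShapes.restrict {G Y : Type u} [Group G] [MetricSpace Y] [MulAction G Y]
    (h : FinShapes G Y) (L : Subgroup G) : FinShapes L Y where
  isom := fun g x y => h.isom g x y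
  shapes := by
    obtain ⟨ι, h1, Q, h2, h3, F, ε, h4, h5, h6, h7⟩ := h.shapes
    exact ⟨ι, h1, Q, h2, h3, F, ε, h4, h5, h6, fun i c hc q g hg => h7 i c hc q g hg⟩

section good

variable {S : Type} [Fintype S] [DecidableEq S] {M : CoxeterMatrix S} {Δ X Y : Type u}
  {δ : Δ → Δ → M.Group}

theorem joint3 {G : Type u} [Group G] {P : Set G → Prop} (hP : Good P) [MulAction G Δ]
    [Nonempty Δ] (h : IsBuilding M δ) (hG : ∀ (g : G) (c d : Δ), δ (g • c) (g • d) = δ c d)
    [MetricSpace X] [MulAction G X] [Nonempty X] {V B : Set X} (hX : Two X V B)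
    (hdX : FinShapes G X) [MetricSpace Y] [MulAction G Y] [Nonempty Y] (hY : CAT0 Y)
    (hdY : FinShapes G Y) (hA : SpaceA Y)
    (hst : ∀ J, Sph M J → ∀ (c : Δ) (x : X) (y : Y),
      P {g : G | g • x = x ∧ g • y = y ∧ δ c (g • c) ∈ par M J}) : P Set.univ := by
  refine main hP hX.cat hdX (spaceA_of_two hX) fun x => ?_
  have h1 := joint (G := MulAction.stabilizer G x) (Δ := Δ) (X := Y)
    (Good.restrict hP (MulAction.stabilizer G x)) h (fun g c d => hG g c d) hY
    (FinShapes.restrict hdY _) hA (fun J hJ c y => ?_)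
  · refine hP.mono _ _ ?_ h1
    intro g hg
    exact ⟨⟨g, hg⟩, Set.mem_univ _, rfl⟩
  · refine hP.mono _ _ ?_ (hst J hJ c x y)
    rintro g ⟨g', hg', rfl⟩
    exact ⟨g'.2, hg'⟩

end good

variable {S : Type} [Finite S] {M : CoxeterMatrix S} {Δ X Y : Type u} {δ : Δ → Δ → M.Group}
  {G : Type u} [Group G] [MulAction G Δ] [MetricSpace X] [MulAction G X] [MetricSpace Y]
  [MulAction G Y]

/-- the elements of `G` which fix the points `x`, `y` and stabilize the residue of type `J` of `c` -/
theorem mem_inf3 (h : IsBuilding M δ) (hG : ∀ (g : G) (c d : Δ), δ (g • c) (g • d) = δ c d)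
    (J : Finset S) (c : Δ) (x : X) (y : Y) (g : G) :
    g ∈ MulAction.stabilizer G x ⊓ MulAction.stabilizer G y ⊓
      MulAction.stabilizer G (residue M δ J c) ↔
      g • x = x ∧ g • y = y ∧ δ c (g • c) ∈ par M J := by
  rw [inf_assoc, Subgroup.mem_inf, mem_inf h hG J c y g, MulAction.mem_stabilizer_iff]

theorem propertyA3 [Nonempty Δ] (h : IsBuilding M δ)
    (hG : ∀ (g : G) (c d : Δ), δ (g • c) (g • d) = δ c d) [Nonempty X] {V B : Set X}
    (hX : Two X V B) (hdX : FinShapes G X) [Nonempty Y] (hY : CAT0 Y) (hdY : FinShapes G Y)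
    (hA : SpaceA Y)
    (hst : ∀ J : Finset S, Finite (par M J) → ∀ (c : Δ) (x : X) (y : Y),
      PropertyA ↥(MulAction.stabilizer G x ⊓ MulAction.stabilizer G y ⊓
        MulAction.stabilizer G (residue M δ J c))) :
    PropertyA G := by
  classical
  letI := Fintype.ofFinite S
  refine Det.propertyA (joint3 (Det.good le_rfl) h hG hX hdX hY hdY hA fun J hJ c x y => ?_)
  refine Det.mono ?_ (Det.of_propertyA (hst J hJ c x y))
  intro g hg
  exact (mem_inf3 h hG J c x y g).mpr hg

theorem coarselyEmbeds3 [Countable G] [Nonempty Δ] (h : IsBuilding M δ)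
    (hG : ∀ (g : G) (c d : Δ), δ (g • c) (g • d) = δ c d) [Nonempty X] {V B : Set X}
    (hX : Two X V B) (hdX : FinShapes G X) [Nonempty Y] (hY : CAT0 Y) (hdY : FinShapes G Y)
    (hA : SpaceA Y)
    (hst : ∀ J : Finset S, Finite (par M J) → ∀ (c : Δ) (x : X) (y : Y), CoarselyEmbeds.{u, u}
      ↥(MulAction.stabilizer G x ⊓ MulAction.stabilizer G y ⊓
        MulAction.stabilizer G (residue M δ J c))) :
    CoarselyEmbeds.{u, u} G := by
  classical
  letI := Fintype.ofFinite S
  refine Det.coarselyEmbeds (joint3 (Det.good (by norm_num)) h hG hX hdX hY hdY hA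
    fun J hJ c x y => ?_)
  refine Det.mono ?_ (Det.of_coarselyEmbeds (hst J hJ c x y))
  intro g hg
  exact (mem_inf3 h hG J c x y g).mpr hg

end Pool.Agent.H78.TA
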