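import Pool.Agent.H78.TA.Cat

/-!
# Points of a slab are perpendicular to the direction of the slab
-/

set_option autoImplicit false

namespace Pool.Agent.H78.TA

open Pool.Agent.H61.CZ

universe v

variable {X : Type v} [MetricSpace X] (hX : CAT0 X)

/-- the upper bound: `p` is at distance `e` from `z` and is not much farther from `a` than `z` -/
private theorem slab_up {e E : ℝ} (he : 0 < e) (hE : 0 < E) (hE1 : E ≤ 1) {z a p : X}
    (hza : 1 ≤ dist z a) (he1 : e ≤ 1) (hp : dist z p = e) (hpa : dist p a ≤ dist z a + 2 * E) :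
    dist p (pt hX z a (e / dist z a)) ^ 2 ≤ 2 * e ^ 2 + 8 * e * E := by
  set D := dist z a with hD
  have hD0 : 0 < D := by linarith
  set s := e / D with hs
  have hs0 : 0 ≤ s := by positivity
  have hs1 : s ≤ 1 := (div_le_one hD0).2 (by linarith)
  have hsD : s * D = e := div_mul_cancel₀ _ hD0.ne'
  have hse : s ≤ e := div_le_self he.le hza
  have h := pt_le hX (x := z) (y := a) hs0 hs1 p
  rw [dist_comm p z, hp, ← hD] at h
  have h1 : dist p a ^ 2 ≤ (D + 2 * E) ^ 2 := pow_le_pow_left₀ dist_nonneg hpa 2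
  have h2 : s * dist p a ^ 2 ≤ s * (D + 2 * E) ^ 2 := mul_le_mul_of_nonneg_left h1 hs0
  have h3 : s * (D + 2 * E) ^ 2 = s * D * D + 4 * (s * D) * E + 4 * s * E ^ 2 := by ring
  have h4 : s * (1 - s) * D ^ 2 = s * D * D - (s * D) ^ 2 := by ring
  rw [h3, hsD] at h2
  rw [h4, hsD] at h
  have h5 : s * E ^ 2 ≤ e * E := by
    have h6 : E ^ 2 ≤ E := by nlinarith
    exact mul_le_mul hse h6 (sq_nonneg E) he.le
  have h7 : 0 ≤ s * e ^ 2 := by positivity
  nlinarith

include hX in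
/-- the lower bound -/
private theorem slab_lo {μ e E : ℝ} (hμ : 0 < μ) (hμ1 : μ ≤ 1) (he : 0 < e)
    (hE : E = μ ^ 2 * e / 512) {z n m p : X} (hzn : dist z n = e) (hzm : dist z m = e)
    (hnm : 2 * (e - E) ≤ dist n m) (hp : dist z p = e)
    (hm : dist p m ^ 2 ≤ 2 * e ^ 2 + 8 * e * E) :
    2 * e ^ 2 - μ * e ^ 2 ≤ dist p n ^ 2 := by
  have hE0 : 0 < E := by rw [hE]; positivity
  have hμ2 : μ ^ 2 ≤ μ := by nlinarith
  have hEe : E ≤ e := by
    rw [hE]
    nlinarith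
  have h1 : (2 * (e - E)) ^ 2 ≤ dist n m ^ 2 := pow_le_pow_left₀ (by linarith) hnm 2
  set M := pt hX n m (1 / 2) with hM
  have h2 := pt_le hX (x := n) (y := m) (s := 1 / 2) (by norm_num) (by norm_num) z
  have h3 := pt_le hX (x := n) (y := m) (s := 1 / 2) (by norm_num) (by norm_num) p
  rw [← hM, hzn, hzm] at h2
  rw [← hM] at h3
  have h4 : dist z M ^ 2 ≤ (μ * e / 16) ^ 2 := by
    have h5 : e * E = μ ^ 2 * e ^ 2 / 512 := by rw [hE]; ring
    nlinarith [sq_nonneg E]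
  have h6 : dist z M ≤ μ * e / 16 := abs_le_of_sq_le_sq' h4 (by positivity) |>.2
  have h7 : e - μ * e / 16 ≤ dist p M := by
    have h8 := dist_triangle z M p
    rw [hp, dist_comm M p] at h8
    linarith
  have h9 : 0 ≤ e - μ * e / 16 := by nlinarith
  have h10 : (e - μ * e / 16) ^ 2 ≤ dist p M ^ 2 := pow_le_pow_left₀ h9 h7 2
  have h11 : e * E = μ ^ 2 * e ^ 2 / 512 := by rw [hE]; ring
  have h12 : μ ^ 2 * e ^ 2 ≤ μ * e ^ 2 := mul_le_mul_of_nonneg_right hμ2 (sq_nonneg e)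
  nlinarith [sq_nonneg E, sq_nonneg (μ * e)]

include hX in
theorem slab_est {ν e : ℝ} (hν : 0 < ν) (he : 0 < e) (he1 : e ≤ 1) : ∃ E₀ : ℝ, 0 < E₀ ∧
    ∀ (o u z : X) (h : ℝ), z ∈ Slab o u h E₀ → 1 ≤ dist o z → 1 ≤ dist z u →
      ∃ n m : X, dist z n = e ∧ dist z m = e ∧ (4 - ν) * e ^ 2 ≤ dist n m ^ 2 ∧
        ∀ p ∈ Slab o u h E₀, dist z p = e →
          |dist p n ^ 2 - 2 * e ^ 2| ≤ ν * e ^ 2 ∧ |dist p m ^ 2 - 2 * e ^ 2| ≤ ν * e ^ 2 := by
  obtain ⟨μ, hμ⟩ : ∃ μ, μ = min ν 1 := ⟨_, rfl⟩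
  have hμ0 : 0 < μ := by rw [hμ]; exact lt_min hν one_pos
  have hμ1 : μ ≤ 1 := by rw [hμ]; exact min_le_right _ _
  have hμν : μ ≤ ν := by rw [hμ]; exact min_le_left _ _
  obtain ⟨E, hE⟩ : ∃ E, E = μ ^ 2 * e / 512 := ⟨_, rfl⟩
  have hE0 : 0 < E := by rw [hE]; positivity
  have hμ2 : μ ^ 2 ≤ μ := by nlinarith
  have hEe : E ≤ e := by
    rw [hE]
    nlinarith
  have hE1 : E ≤ 1 := by linarith
  have heE : e * E = μ ^ 2 * e ^ 2 / 512 := by rw [hE]; ring
  have hμe : μ ^ 2 * e ^ 2 ≤ μ * e ^ 2 := mul_le_mul_of_nonneg_right hμ2 (sq_nonneg e)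
  have hμe2 : μ * e ^ 2 ≤ ν * e ^ 2 := mul_le_mul_of_nonneg_right hμν (sq_nonneg e)
  refine ⟨E, hE0, fun o u z h hz hoz hzu => ?_⟩
  have hzo : 1 ≤ dist z o := by rwa [dist_comm]
  have hzo0 : 0 < dist z o := by linarith
  have hzu0 : 0 < dist z u := by linarith
  have hs0 : 0 ≤ e / dist z o := by positivity
  have hs1 : e / dist z o ≤ 1 := (div_le_one hzo0).2 (by linarith)
  have ht0 : 0 ≤ e / dist z u := by positivity
  have ht1 : e / dist z u ≤ 1 := (div_le_one hzu0).2 (by linarith)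
  obtain ⟨n, hn⟩ : ∃ n, n = pt hX z o (e / dist z o) := ⟨_, rfl⟩
  obtain ⟨m, hm⟩ : ∃ m, m = pt hX z u (e / dist z u) := ⟨_, rfl⟩
  have hzn : dist z n = e := by rw [hn, dist_left hX hs0 hs1, div_mul_cancel₀ _ hzo0.ne']
  have hzm : dist z m = e := by rw [hm, dist_left hX ht0 ht1, div_mul_cancel₀ _ hzu0.ne']
  have hno : dist n o = dist z o - e := by
    rw [hn, dist_right hX hs0 hs1, sub_mul, div_mul_cancel₀ _ hzo0.ne', one_mul]
  have hmu : dist m u = dist z u - e := by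
    rw [hm, dist_right hX ht0 ht1, sub_mul, div_mul_cancel₀ _ hzu0.ne', one_mul]
  have hz1 : dist o z ≤ h + E := hz.1
  have hz2 : dist z u ≤ dist o u - h + E := hz.2
  have hnm : 2 * (e - E) ≤ dist n m := by
    have h1 := dist_triangle o n u
    have h2 := dist_triangle n m u
    rw [dist_comm o n, hno] at h1
    rw [hmu] at h2
    rw [dist_comm z o] at h1
    linarith
  refine ⟨n, m, hzn, hzm, ?_, fun p hp hzp => ?_⟩
  · have h1 : (2 * (e - E)) ^ 2 ≤ dist n m ^ 2 := pow_le_pow_left₀ (by linarith) hnm 2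
    nlinarith [sq_nonneg E]
  · have hp1 : dist o p ≤ h + E := hp.1
    have hp2 : dist p u ≤ dist o u - h + E := hp.2
    have htri := dist_triangle o z u
    have hpo : dist p o ≤ dist z o + 2 * E := by
      rw [dist_comm p o, dist_comm z o]
      linarith
    have hpu : dist p u ≤ dist z u + 2 * E := by linarith
    have hupn := slab_up hX he hE0 hE1 hzo he1 hzp hpo
    have hupm := slab_up hX he hE0 hE1 hzu he1 hzp hpu
    rw [← hn] at hupn
    rw [← hm] at hupm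
    have hlon := slab_lo hX hμ0 hμ1 he hE hzn hzm hnm hzp hupm
    have hlom := slab_lo hX hμ0 hμ1 he hE hzm hzn (by rwa [dist_comm m n]) hzp hupn
    constructor
    · rw [abs_le]
      constructor <;> nlinarith
    · rw [abs_le]
      constructor <;> nlinarith

end Pool.Agent.H78.TA
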