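import Pool.Agent.H78.TA.BookE
import Pool.Agent.H78.TA.SlabE

/-!
# The local lemma
-/

set_option autoImplicit false

namespace Pool.Agent.H78.TA

open Pool.Agent.H61.CZ

universe v

variable {X : Type v} [MetricSpace X] {V B : Set X}

private theorem sq_zero_add {x y : ℝ} (h : x ^ 2 + y ^ 2 ≤ 0) : y = 0 := by
  have h1 : y ^ 2 ≤ 0 := by nlinarith [sq_nonneg x]
  exact pow_eq_zero_iff (two_ne_zero) |>.mp (le_antisymm h1 (sq_nonneg y))

/-- if the ball of radius `dist z p` misses the spine then `z` and `p` are on the same page -/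
private theorem same_page (hX : CAT0 X) {I : Type v} {pg : X → I} {s t : X → ℝ} {z p : X} {ρ e : ℝ}
    (hc : ∀ x ∈ Metric.closedBall z ρ, 0 ≤ t x ∧ (t x = 0 ↔ x ∈ B) ∧
      ∀ y ∈ Metric.closedBall z ρ,
        (pg x = pg y → dist x y ^ 2 = (s x - s y) ^ 2 + (t x - t y) ^ 2) ∧
        (pg x ≠ pg y → dist x y ^ 2 = (s x - s y) ^ 2 + (t x + t y) ^ 2))
    (he : 0 < e) (hρ : e ≤ ρ) (hz : dist z p = e) (hB : ∀ c ∈ B, e < dist c z) : pg z = pg p := by
  by_contra hne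
  have hzm : z ∈ Metric.closedBall z ρ := Metric.mem_closedBall_self (he.le.trans hρ)
  have hpm : p ∈ Metric.closedBall z ρ := by
    rw [Metric.mem_closedBall, dist_comm, hz]
    exact hρ
  have hpos : ∀ x, dist x z ≤ e → 0 < t x := by
    intro x hx
    have h1 := hc x (Metric.mem_closedBall.mpr (hx.trans hρ))
    refine lt_of_le_of_ne h1.1 fun h => ?_
    exact absurd (hB x (h1.2.1.mp h.symm)) (not_lt.mpr hx)
  have tz := hpos z (by rw [dist_self]; exact he.le)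
  have tp := hpos p (by rw [dist_comm, hz])
  obtain ⟨l, hl⟩ : ∃ l, l = t z / (t z + t p) := ⟨_, rfl⟩
  have hl0 : 0 ≤ l := by
    rw [hl]
    positivity
  have hl1 : l ≤ 1 := by
    rw [hl, div_le_one (by linarith)]
    linarith
  have hlt : (1 - l) * t z - l * t p = 0 := by
    rw [hl]
    field_simp
    ring
  obtain ⟨w, hw⟩ : ∃ w, w = pt hX z p l := ⟨_, rfl⟩
  have hzw : dist z w = l * e := by rw [hw, dist_left hX hl0 hl1, hz]
  have hwp : dist w p = (1 - l) * e := by rw [hw, dist_right hX hl0 hl1, hz]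
  have hwe : dist w z ≤ e := by
    rw [dist_comm, hzw]
    nlinarith
  have tw := hpos w hwe
  have hwm : w ∈ Metric.closedBall z ρ := Metric.mem_closedBall.mpr (hwe.trans hρ)
  have f1 := ((hc z hzm).2.2 p hpm).2 hne
  have f2 := (hc w hwm).2.2 z hzm
  have f3 := (hc w hwm).2.2 p hpm
  rw [hz] at f1
  rw [dist_comm w z, hzw] at f2
  rw [hwp] at f3
  by_cases h1 : pg w = pg z
  · have g2 := f2.1 h1
    have g3 := f3.2 (by rw [h1]; exact hne)
    have : (s w - ((1 - l) * s z + l * s p)) ^ 2 + (t w - ((1 - l) * t z - l * t p)) ^ 2 ≤ 0 := by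
      have : (s w - ((1 - l) * s z + l * s p)) ^ 2 + (t w - ((1 - l) * t z - l * t p)) ^ 2 =
        (1 - l) * ((s w - s z) ^ 2 + (t w - t z) ^ 2) + l * ((s w - s p) ^ 2 + (t w + t p) ^ 2) -
          l * (1 - l) * ((s z - s p) ^ 2 + (t z + t p) ^ 2) := by ring
      rw [this, ← g2, ← g3, ← f1]
      refine le_of_eq ?_
      ring
    have h2 := sq_zero_add this
    rw [hlt] at h2
    linarith
  · have g2 := f2.2 h1
    have g3 : (s w - s p) ^ 2 + (t w - t p) ^ 2 ≤ ((1 - l) * e) ^ 2 := by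
      by_cases h3 : pg w = pg p
      · rw [f3.1 h3]
      · rw [f3.2 h3]
        nlinarith
    have : (s w - ((1 - l) * s z + l * s p)) ^ 2 + (t w + ((1 - l) * t z - l * t p)) ^ 2 ≤ 0 := by
      have h4 : (s w - ((1 - l) * s z + l * s p)) ^ 2 + (t w + ((1 - l) * t z - l * t p)) ^ 2 =
        (1 - l) * ((s w - s z) ^ 2 + (t w + t z) ^ 2) + l * ((s w - s p) ^ 2 + (t w - t p) ^ 2) -
          l * (1 - l) * ((s z - s p) ^ 2 + (t z + t p) ^ 2) := by ring
      rw [h4, ← g2, ← f1]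
      have h5 := mul_le_mul_of_nonneg_left g3 hl0
      nlinarith
    have h2 := sq_zero_add this
    rw [hlt] at h2
    linarith

/-- three pairwise nearly opposite directions exist only next to `B` -/
theorem branch (hT : Two X V B) {δ : ℝ} (hδ : 0 < δ) : ∃ ρ : ℝ, 0 < ρ ∧ ∀ z : X,
    (∀ v ∈ V, δ ≤ dist z v) → ∀ e : ℝ, 0 < e → e ≤ ρ → ∀ p₁ p₂ p₃ : X, dist z p₁ = e →
      dist z p₂ = e → dist z p₃ = e → 7 / 4 * e ≤ dist p₁ p₂ → 7 / 4 * e ≤ dist p₁ p₃ →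
        7 / 4 * e ≤ dist p₂ p₃ → ∃ c ∈ B, dist c z ≤ e := by
  obtain ⟨ρ, hρ, hb⟩ := hT.book δ hδ
  refine ⟨ρ, hρ, ?_⟩
  intro z hz e he heρ p₁ p₂ p₃ h1 h2 h3 h12 h13 h23
  by_contra hno
  push Not at hno
  obtain ⟨I, pg, s, t, hc⟩ := hb z hz
  have s1 := same_page hT.cat hc he heρ h1 hno
  have s2 := same_page hT.cat hc he heρ h2 hno
  have s3 := same_page hT.cat hc he heρ h3 hno
  have hzm : z ∈ Metric.closedBall z ρ := Metric.mem_closedBall_self hρ.le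
  have hm : ∀ p, dist z p = e → p ∈ Metric.closedBall z ρ := by
    intro p hp
    rw [Metric.mem_closedBall, dist_comm, hp]
    exact heρ
  have f1 := ((hc z hzm).2.2 p₁ (hm p₁ h1)).1 s1
  have f2 := ((hc z hzm).2.2 p₂ (hm p₂ h2)).1 s2
  have f3 := ((hc z hzm).2.2 p₃ (hm p₃ h3)).1 s3
  have f12 := ((hc p₁ (hm p₁ h1)).2.2 p₂ (hm p₂ h2)).1 (s1.symm.trans s2)
  have f13 := ((hc p₁ (hm p₁ h1)).2.2 p₃ (hm p₃ h3)).1 (s1.symm.trans s3)
  have f23 := ((hc p₂ (hm p₂ h2)).2.2 p₃ (hm p₃ h3)).1 (s2.symm.trans s3)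
  rw [h1] at f1
  rw [h2] at f2
  rw [h3] at f3
  have g12 : (7 / 4 * e) ^ 2 ≤ dist p₁ p₂ ^ 2 := pow_le_pow_left₀ (by positivity) h12 2
  have g13 : (7 / 4 * e) ^ 2 ≤ dist p₁ p₃ ^ 2 := pow_le_pow_left₀ (by positivity) h13 2
  have g23 : (7 / 4 * e) ^ 2 ≤ dist p₂ p₃ ^ 2 := pow_le_pow_left₀ (by positivity) h23 2
  have k1 := sq_nonneg ((s p₁ - s z) + (s p₂ - s z) + (s p₃ - s z))
  have k2 := sq_nonneg ((t p₁ - t z) + (t p₂ - t z) + (t p₃ - t z))
  have k3 := pow_pos he 2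
  nlinarith

/-- the book chart at `z` reduces the configuration to `bookA` -/
theorem local_book (hT : Two X V B) {δ K e₀ : ℝ} (hδ : 0 < δ) (hK : 0 < K) (he₀ : 0 < e₀) :
    ∃ e₁ e₂ ν : ℝ, 0 < e₁ ∧ e₁ ≤ e₀ ∧ 0 < e₂ ∧ e₂ ≤ e₀ ∧ 0 < ν ∧ ∀ z : X,
      (∀ v ∈ V, δ ≤ dist z v) → ∃ e : ℝ, (e = e₁ ∨ e = e₂) ∧ ∀ n m p q : X, dist z n = e →
        dist z m = e → dist z p = e → dist z q = e → (4 - ν) * e ^ 2 ≤ dist n m ^ 2 →
        |dist p n ^ 2 - 2 * e ^ 2| ≤ ν * e ^ 2 → |dist p m ^ 2 - 2 * e ^ 2| ≤ ν * e ^ 2 →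
        |dist q n ^ 2 - 2 * e ^ 2| ≤ ν * e ^ 2 → |dist q m ^ 2 - 2 * e ^ 2| ≤ ν * e ^ 2 →
        dist p q ≤ e ^ 2 / K ∨ 2 * e - e ^ 2 / K ≤ dist p q := by
  obtain ⟨ρ, hρ, hb⟩ := hT.book δ hδ
  -- the last step, at any scale
  have fin : ∀ (e : ℝ) (p q : X), 0 < e → (dist p q ^ 2 / e ^ 2 ≤ (e / K) ^ 2 ∨
      4 - (e / K) ^ 2 ≤ dist p q ^ 2 / e ^ 2) →
      dist p q ≤ e ^ 2 / K ∨ 2 * e - e ^ 2 / K ≤ dist p q := by
    intro e p q he h
    have hx : 0 < e / K := by positivity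
    have hek : e ^ 2 / K = e * (e / K) := by ring
    rcases h with h | h
    · left
      rw [div_le_iff₀ (by positivity), ← mul_pow] at h
      rw [hek, mul_comm]
      exact le_of_sq_le_sq h (by positivity)
    · right
      rw [le_div_iff₀ (by positivity)] at h
      rw [hek]
      rcases le_or_gt (2 * e - e * (e / K)) 0 with h1 | h1
      · exact h1.trans dist_nonneg
      · refine le_of_sq_le_sq ?_ dist_nonneg
        have h2 : e / K < 2 := by
          by_contra h3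
          have h3 := not_lt.mp h3
          nlinarith
        have h4 : (2 * e - e * (e / K)) ^ 2 = (4 - 4 * (e / K) + (e / K) ^ 2) * e ^ 2 := by ring
        rw [h4]
        refine le_trans (mul_le_mul_of_nonneg_right ?_ (by positivity)) h
        nlinarith
  set e₂ := min ρ e₀ with he₂
  have he₂p : 0 < e₂ := lt_min hρ he₀
  obtain ⟨ν₂', hν₂', hA₂'⟩ := bookA.{v} ((e₂ / K) ^ 2) (by positivity)
  obtain ⟨ν₂, hν₂⟩ : ∃ ν₂, ν₂ = min ν₂' 1 := ⟨_, rfl⟩
  have hν₂p : 0 < ν₂ := by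
    rw [hν₂]
    exact lt_min hν₂' one_pos
  have hν₂1 : ν₂ ≤ 1 := by
    rw [hν₂]
    exact min_le_right _ _
  have hν₂2 : ν₂ ≤ ν₂' := by
    rw [hν₂]
    exact min_le_left _ _
  obtain ⟨τ, hτ⟩ : ∃ τ, τ = ν₂ * e₂ / 5 := ⟨_, rfl⟩
  have hτp : 0 < τ := by
    rw [hτ]
    positivity
  have hτe : τ ≤ e₂ / 5 := by
    rw [hτ]
    nlinarith
  obtain ⟨e₁, he₁⟩ : ∃ e₁, e₁ = τ / 2 := ⟨_, rfl⟩
  have he₁p : 0 < e₁ := by
    rw [he₁]
    positivity
  obtain ⟨ν₁, hν₁, hA₁⟩ := bookA.{v} ((e₁ / K) ^ 2) (by positivity)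
  have he₂ρ : e₂ ≤ ρ := min_le_left _ _
  have he₂0 : e₂ ≤ e₀ := min_le_right _ _
  refine ⟨e₁, e₂, min ν₁ ν₂, he₁p, by linarith, he₂p, he₂0, lt_min hν₁ hν₂p, ?_⟩
  intro z hz
  obtain ⟨I, pg, s, t, hc⟩ := hb z hz
  have hzm : z ∈ Metric.closedBall z ρ := Metric.mem_closedBall_self hρ.le
  have htz := (hc z hzm).1
  have hdiv : ∀ {a e ν ν' : ℝ}, 0 < e → ν ≤ ν' → |a - 2 * e ^ 2| ≤ ν * e ^ 2 →
      |a / e ^ 2 - 2| ≤ ν' := by
    intro a e ν ν' he hν h
    have he2 : 0 < e ^ 2 := by positivity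
    rw [abs_le] at h ⊢
    constructor
    · rw [le_sub_iff_add_le, le_div_iff₀ he2]
      nlinarith
    · rw [sub_le_iff_le_add, div_le_iff₀ he2]
      nlinarith
  rcases le_or_gt (t z) τ with htzτ | htzτ
  · -- close to the spine
    refine ⟨e₂, Or.inr rfl, ?_⟩
    intro n m p q hn hm hp hq hnm hpn hpm hqn hqm
    refine fin e₂ p q he₂p ?_
    have hmem : ∀ x, dist z x = e₂ → x ∈ Metric.closedBall z ρ := by
      intro x hx
      rw [Metric.mem_closedBall, dist_comm, hx]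
      exact he₂ρ
    obtain ⟨x, hx⟩ : ∃ x : Fin 4 → X, x = ![n, m, p, q] := ⟨_, rfl⟩
    have x0 : x 0 = n := by rw [hx]; rfl
    have x1 : x 1 = m := by rw [hx]; rfl
    have x2 : x 2 = p := by rw [hx]; rfl
    have x3 : x 3 = q := by rw [hx]; rfl
    have hxd : ∀ i, dist z (x i) = e₂ := by
      intro i
      fin_cases i
      · exact (congrArg (dist z) x0).trans hn
      · exact (congrArg (dist z) x1).trans hm
      · exact (congrArg (dist z) x2).trans hp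
      · exact (congrArg (dist z) x3).trans hq
    have key := hA₂' I (fun i => pg (x i)) (fun i => (s (x i) - s z) / e₂) (fun i => t (x i) / e₂)
      (fun i j => dist (x i) (x j) ^ 2 / e₂ ^ 2) ?_ ?_ ?_ ?_ ?_ ?_ ?_ ?_ ?_
    · simp only [x2, x3] at key
      exact key
    · intro i
      exact div_nonneg (hc _ (hmem _ (hxd i))).1 he₂p.le
    · intro i
      have h1 := (hc _ (hmem _ (hxd i))).2.2 z hzm
      have h2 := (hc _ (hmem _ (hxd i))).1
      rw [dist_comm, hxd i] at h1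
      have h3 : |(s (x i) - s z) ^ 2 + t (x i) ^ 2 - e₂ ^ 2| ≤ ν₂ * e₂ ^ 2 := by
        have h4 : t (x i) ≤ t z + e₂ := by
          by_cases hpg : pg (x i) = pg z
          · have := h1.1 hpg
            nlinarith [sq_nonneg (s (x i) - s z)]
          · have := h1.2 hpg
            nlinarith [sq_nonneg (s (x i) - s z)]
        have h5 : 2 * t (x i) * t z + t z ^ 2 ≤ ν₂ * e₂ ^ 2 := by
          have h6 : 2 * t (x i) * t z + t z ^ 2 ≤ 5 * τ * e₂ := by
            have h7 : 2 * t (x i) * t z ≤ 2 * (t z + e₂) * t z := by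
              nlinarith
            have h8 : t z ^ 2 ≤ τ * t z := by nlinarith
            nlinarith
          rw [hτ] at h6
          nlinarith
        have h9 : 0 ≤ t (x i) * t z := mul_nonneg h2 htz
        rw [abs_le]
        by_cases hpg : pg (x i) = pg z
        · have := h1.1 hpg
          constructor <;> nlinarith [sq_nonneg (t z)]
        · have := h1.2 hpg
          constructor <;> nlinarith [sq_nonneg (t z)]
      have he2 : 0 < e₂ ^ 2 := by positivity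
      have h4 : ((s (x i) - s z) / e₂) ^ 2 + (t (x i) / e₂) ^ 2 - 1 =
          ((s (x i) - s z) ^ 2 + t (x i) ^ 2 - e₂ ^ 2) / e₂ ^ 2 := by
        field_simp
      show |((s (x i) - s z) / e₂) ^ 2 + (t (x i) / e₂) ^ 2 - 1| ≤ ν₂'
      rw [h4, abs_div, abs_of_pos he2, div_le_iff₀ he2]
      nlinarith
    · intro i j hij
      have h1 := ((hc _ (hmem _ (hxd i))).2.2 _ (hmem _ (hxd j))).1 hij
      show dist (x i) (x j) ^ 2 / e₂ ^ 2 = ((s (x i) - s z) / e₂ - (s (x j) - s z) / e₂) ^ 2 +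
        (t (x i) / e₂ - t (x j) / e₂) ^ 2
      rw [h1]
      field_simp
      ring
    · intro i j hij
      have h1 := ((hc _ (hmem _ (hxd i))).2.2 _ (hmem _ (hxd j))).2 hij
      show dist (x i) (x j) ^ 2 / e₂ ^ 2 = ((s (x i) - s z) / e₂ - (s (x j) - s z) / e₂) ^ 2 +
        (t (x i) / e₂ + t (x j) / e₂) ^ 2
      rw [h1]
      field_simp
      ring
    · show 4 - ν₂' ≤ dist (x 0) (x 1) ^ 2 / e₂ ^ 2
      rw [x0, x1, le_div_iff₀ (by positivity)]
      have : min ν₁ ν₂ ≤ ν₂' := (min_le_right _ _).trans hν₂2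
      nlinarith [sq_nonneg e₂]
    · show |dist (x 2) (x 0) ^ 2 / e₂ ^ 2 - 2| ≤ ν₂'
      rw [x2, x0]
      exact hdiv he₂p ((min_le_right _ _).trans hν₂2) hpn
    · show |dist (x 2) (x 1) ^ 2 / e₂ ^ 2 - 2| ≤ ν₂'
      rw [x2, x1]
      exact hdiv he₂p ((min_le_right _ _).trans hν₂2) hpm
    · show |dist (x 3) (x 0) ^ 2 / e₂ ^ 2 - 2| ≤ ν₂'
      rw [x3, x0]
      exact hdiv he₂p ((min_le_right _ _).trans hν₂2) hqn
    · show |dist (x 3) (x 1) ^ 2 / e₂ ^ 2 - 2| ≤ ν₂'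
      rw [x3, x1]
      exact hdiv he₂p ((min_le_right _ _).trans hν₂2) hqm
  · -- inside a page
    refine ⟨e₁, Or.inl rfl, ?_⟩
    intro n m p q hn hm hp hq hnm hpn hpm hqn hqm
    refine fin e₁ p q he₁p ?_
    have he₁ρ : e₁ ≤ ρ := by linarith
    have hmem : ∀ x, dist z x = e₁ → x ∈ Metric.closedBall z ρ := by
      intro x hx
      rw [Metric.mem_closedBall, dist_comm, hx]
      exact he₁ρ
    obtain ⟨x, hx⟩ : ∃ x : Fin 4 → X, x = ![n, m, p, q] := ⟨_, rfl⟩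
    have x0 : x 0 = n := by rw [hx]; rfl
    have x1 : x 1 = m := by rw [hx]; rfl
    have x2 : x 2 = p := by rw [hx]; rfl
    have x3 : x 3 = q := by rw [hx]; rfl
    have hxd : ∀ i, dist z (x i) = e₁ := by
      intro i
      fin_cases i
      · exact (congrArg (dist z) x0).trans hn
      · exact (congrArg (dist z) x1).trans hm
      · exact (congrArg (dist z) x2).trans hp
      · exact (congrArg (dist z) x3).trans hq
    have hpg : ∀ i, pg (x i) = pg z := by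
      intro i
      by_contra hne
      have h1 := ((hc _ (hmem _ (hxd i))).2.2 z hzm).2 hne
      have h2 := (hc _ (hmem _ (hxd i))).1
      rw [dist_comm, hxd i] at h1
      have h3 : t z ^ 2 ≤ e₁ ^ 2 := by nlinarith [sq_nonneg (s (x i) - s z)]
      have h4 : t z ≤ e₁ := le_of_sq_le_sq h3 he₁p.le
      linarith
    have hunit : ∀ i, (s (x i) - s z) ^ 2 + (t (x i) - t z) ^ 2 = e₁ ^ 2 := by
      intro i
      have h1 := ((hc _ (hmem _ (hxd i))).2.2 z hzm).1 (hpg i)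
      rw [dist_comm, hxd i] at h1
      exact h1.symm
    have hdd : ∀ i j, dist (x i) (x j) ^ 2 = (s (x i) - s (x j)) ^ 2 + (t (x i) - t (x j)) ^ 2 :=
      fun i j => ((hc _ (hmem _ (hxd i))).2.2 _ (hmem _ (hxd j))).1 ((hpg i).trans (hpg j).symm)
    have key := hA₁ (ULift.{v} Prop) (fun i => ULift.up (t z ≤ t (x i)))
      (fun i => (s (x i) - s z) / e₁) (fun i => |t (x i) - t z| / e₁)
      (fun i j => dist (x i) (x j) ^ 2 / e₁ ^ 2) ?_ ?_ ?_ ?_ ?_ ?_ ?_ ?_ ?_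
    · simp only [x2, x3] at key
      exact key
    · intro i
      exact div_nonneg (abs_nonneg _) he₁p.le
    · intro i
      show |((s (x i) - s z) / e₁) ^ 2 + (|t (x i) - t z| / e₁) ^ 2 - 1| ≤ ν₁
      have h4 : ((s (x i) - s z) / e₁) ^ 2 + (|t (x i) - t z| / e₁) ^ 2 - 1 = 0 := by
        rw [div_pow, div_pow, sq_abs, ← add_div, hunit i, div_self (by positivity), sub_self]
      rw [h4, abs_zero]
      exact hν₁.le
    · intro i j hij
      have hij' : (t z ≤ t (x i)) = (t z ≤ t (x j)) := ULift.up_injective hij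
      show dist (x i) (x j) ^ 2 / e₁ ^ 2 = ((s (x i) - s z) / e₁ - (s (x j) - s z) / e₁) ^ 2 +
        (|t (x i) - t z| / e₁ - |t (x j) - t z| / e₁) ^ 2
      rw [hdd i j]
      by_cases hi : t z ≤ t (x i)
      · have hj : t z ≤ t (x j) := hij' ▸ hi
        rw [abs_of_nonneg (by linarith), abs_of_nonneg (by linarith)]
        field_simp
        ring
      · have hj : ¬ t z ≤ t (x j) := hij' ▸ hi
        rw [abs_of_neg (by linarith), abs_of_neg (by linarith)]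
        field_simp
        ring
    · intro i j hij
      have hij' : (t z ≤ t (x i)) ≠ (t z ≤ t (x j)) := fun h => hij (congrArg ULift.up h)
      show dist (x i) (x j) ^ 2 / e₁ ^ 2 = ((s (x i) - s z) / e₁ - (s (x j) - s z) / e₁) ^ 2 +
        (|t (x i) - t z| / e₁ + |t (x j) - t z| / e₁) ^ 2
      rw [hdd i j]
      by_cases hi : t z ≤ t (x i)
      · have hj : ¬ t z ≤ t (x j) := fun h => hij' (propext ⟨fun _ => h, fun _ => hi⟩)
        rw [abs_of_nonneg (by linarith), abs_of_neg (by linarith)]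
        field_simp
        ring
      · have hj : t z ≤ t (x j) := by
          by_contra h
          exact hij' (propext ⟨fun h' => absurd h' hi, fun h' => absurd h' h⟩)
        rw [abs_of_neg (by linarith), abs_of_nonneg (by linarith)]
        field_simp
        ring
    · show 4 - ν₁ ≤ dist (x 0) (x 1) ^ 2 / e₁ ^ 2
      rw [x0, x1, le_div_iff₀ (by positivity)]
      have : min ν₁ ν₂ ≤ ν₁ := min_le_left _ _
      nlinarith [sq_nonneg e₁]
    · show |dist (x 2) (x 0) ^ 2 / e₁ ^ 2 - 2| ≤ ν₁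
      rw [x2, x0]
      exact hdiv he₁p (min_le_left _ _) hpn
    · show |dist (x 2) (x 1) ^ 2 / e₁ ^ 2 - 2| ≤ ν₁
      rw [x2, x1]
      exact hdiv he₁p (min_le_left _ _) hpm
    · show |dist (x 3) (x 0) ^ 2 / e₁ ^ 2 - 2| ≤ ν₁
      rw [x3, x0]
      exact hdiv he₁p (min_le_left _ _) hqn
    · show |dist (x 3) (x 1) ^ 2 / e₁ ^ 2 - 2| ≤ ν₁
      rw [x3, x1]
      exact hdiv he₁p (min_le_left _ _) hqm

theorem local_lemma (hT : Two X V B) {δ K e₀ : ℝ} (hδ : 0 < δ) (hK : 4 ≤ K) (he₀ : 0 < e₀)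
    (he₁ : e₀ ≤ 1) : ∃ e₁ e₂ E₀ : ℝ, 0 < e₁ ∧ e₁ ≤ e₀ ∧ 0 < e₂ ∧ e₂ ≤ e₀ ∧ 0 < E₀ ∧ ∀ z : X,
      (∀ v ∈ V, δ ≤ dist z v) → ∃ e : ℝ, (e = e₁ ∨ e = e₂) ∧
      (∀ (o u : X) (h : ℝ) (p q : X), 1 ≤ dist o z → 1 ≤ dist z u → z ∈ Slab o u h E₀ →
        p ∈ Slab o u h E₀ → q ∈ Slab o u h E₀ → dist z p = e → dist z q = e →
        dist p q ≤ e ^ 2 / K ∨ 2 * e - e ^ 2 / K ≤ dist p q) ∧
      ∀ p₁ p₂ p₃ : X, dist z p₁ = e → dist z p₂ = e → dist z p₃ = e →
        2 * e - e ^ 2 / K ≤ dist p₁ p₂ → 2 * e - e ^ 2 / K ≤ dist p₁ p₃ →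
        2 * e - e ^ 2 / K ≤ dist p₂ p₃ → ∃ c ∈ B, dist c z ≤ e := by
  obtain ⟨ρ, hρ, hbr⟩ := branch hT hδ
  obtain ⟨e₁, e₂, ν, h1, h1', h2, h2', hν, hloc⟩ := local_book hT hδ (by linarith : (0 : ℝ) < K)
    (lt_min hρ he₀)
  obtain ⟨E₁, hE₁, hs₁⟩ := slab_est hT.cat hν h1 (h1'.trans ((min_le_right _ _).trans he₁))
  obtain ⟨E₂, hE₂, hs₂⟩ := slab_est hT.cat hν h2 (h2'.trans ((min_le_right _ _).trans he₁))
  refine ⟨e₁, e₂, min E₁ E₂, h1, h1'.trans (min_le_right _ _), h2, h2'.trans (min_le_right _ _),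
    lt_min hE₁ hE₂, ?_⟩
  intro z hz
  obtain ⟨e, he, hcore⟩ := hloc z hz
  have hpos : 0 < e := by
    rcases he with rfl | rfl
    · exact h1
    · exact h2
  have heρ : e ≤ ρ := by
    rcases he with rfl | rfl
    · exact h1'.trans (min_le_left _ _)
    · exact h2'.trans (min_le_left _ _)
  have hee : e ≤ 1 := by
    rcases he with rfl | rfl
    · exact h1'.trans ((min_le_right _ _).trans he₁)
    · exact h2'.trans ((min_le_right _ _).trans he₁)
  refine ⟨e, he, ?_, ?_⟩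
  · intro o u h p q ho hu hzs hps hqs hzp hzq
    obtain ⟨n, m, hn, hm, hnm, hall⟩ : ∃ n m : X, dist z n = e ∧ dist z m = e ∧
        (4 - ν) * e ^ 2 ≤ dist n m ^ 2 ∧ ∀ p ∈ Slab o u h (min E₁ E₂), dist z p = e →
          |dist p n ^ 2 - 2 * e ^ 2| ≤ ν * e ^ 2 ∧ |dist p m ^ 2 - 2 * e ^ 2| ≤ ν * e ^ 2 := by
      rcases he with rfl | rfl
      · obtain ⟨n, m, a1, a2, a3, a4⟩ := hs₁ o u z h (slab_mono (min_le_left _ _) hzs) ho hu
        exact ⟨n, m, a1, a2, a3, fun p hp => a4 p (slab_mono (min_le_left _ _) hp)⟩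
      · obtain ⟨n, m, a1, a2, a3, a4⟩ := hs₂ o u z h (slab_mono (min_le_right _ _) hzs) ho hu
        exact ⟨n, m, a1, a2, a3, fun p hp => a4 p (slab_mono (min_le_right _ _) hp)⟩
    obtain ⟨hp1, hp2⟩ := hall p hps hzp
    obtain ⟨hq1, hq2⟩ := hall q hqs hzq
    exact hcore n m p q hn hm hzp hzq hnm hp1 hp2 hq1 hq2
  · intro p₁ p₂ p₃ d1 d2 d3 h12 h13 h23
    have h74 : 7 / 4 * e ≤ 2 * e - e ^ 2 / K := by
      have : e ^ 2 / K ≤ e / 4 := by
        rw [div_le_iff₀ (by linarith)]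
        nlinarith
      linarith
    exact hbr z hz e hpos heρ p₁ p₂ p₃ d1 d2 d3 (h74.trans h12) (h74.trans h13) (h74.trans h23)

end Pool.Agent.H78.TA
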