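import Pool.Agent.H78.TA.Cat

/-!
# Sets without tripods
-/

set_option autoImplicit false

namespace Pool.Agent.H78.TA

open Pool.Agent.H61.CZ

universe v

variable {X : Type v} [MetricSpace X]

/-- a point for which the leg of the tripod is short is near to the segment -/
private theorem near_leg (hX : CAT0 X) {L d ρ : ℝ} (hρ : 0 < ρ) (hd : 0 < d)
    (hdL : 3 * L * d ≤ 2 * ρ ^ 2) {a b c : X} (hab : dist a b ≤ L) (hac : dist a c ≤ L)
    (hbc : dist b c ≤ L) (hc : dist a c + dist b c - dist a b < 2 * d) :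
    ∃ s : ℝ, 0 ≤ s ∧ s ≤ 1 ∧ dist c (pt hX a b s) ≤ ρ := by
  rcases eq_or_lt_of_le (add_nonneg (dist_nonneg (x := a) (y := c)) (dist_nonneg (x := b) (y := c)))
    with hW | hW
  · refine ⟨0, le_rfl, zero_le_one, ?_⟩
    rw [pt_zero, dist_comm]
    have := dist_nonneg (x := a) (y := c)
    have := dist_nonneg (x := b) (y := c)
    linarith
  · have hp : 0 ≤ dist a c := dist_nonneg
    have hq : 0 ≤ dist b c := dist_nonneg
    have hr : 0 ≤ dist a b := dist_nonneg
    have htri : dist a b ≤ dist a c + dist b c := by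
      have := dist_triangle a c b
      rwa [dist_comm c b] at this
    have h0 : 0 ≤ dist a c / (dist a c + dist b c) := by positivity
    have h1 : dist a c / (dist a c + dist b c) ≤ 1 := (div_le_one hW).2 (by linarith)
    refine ⟨dist a c / (dist a c + dist b c), h0, h1, ?_⟩
    have h := pt_le hX (x := a) (y := b) h0 h1 c
    refine abs_le_of_sq_le_sq' (h.trans ?_) hρ.le |>.2
    rw [dist_comm c a, dist_comm c b]
    generalize dist a c = p at *
    generalize dist b c = q at *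
    generalize dist a b = r at *
    have e : (1 - p / (p + q)) * p ^ 2 + p / (p + q) * q ^ 2 - p / (p + q) * (1 - p / (p + q)) * r ^ 2
        = p * q / (p + q) ^ 2 * ((p + q - r) * (p + q + r)) := by
      field_simp
      ring
    rw [e]
    have h2 : p * q / (p + q) ^ 2 ≤ 1 / 4 := by
      rw [div_le_iff₀ (by positivity)]
      nlinarith [sq_nonneg (p - q)]
    have h3 : 0 ≤ (p + q - r) * (p + q + r) := mul_nonneg (by linarith) (by linarith)
    have h4 : (p + q - r) * (p + q + r) ≤ 2 * d * (3 * L) :=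
      mul_le_mul hc.le (by linarith) (by linarith) (by linarith)
    calc p * q / (p + q) ^ 2 * ((p + q - r) * (p + q + r))
        ≤ 1 / 4 * ((p + q - r) * (p + q + r)) := mul_le_mul_of_nonneg_right h2 h3
      _ ≤ 1 / 4 * (2 * d * (3 * L)) := by linarith
      _ ≤ ρ ^ 2 := by linarith

theorem near_seg (hX : CAT0 X) {L ρ : ℝ} (hL : 0 < L) (hρ : 0 < ρ) : ∃ d : ℝ, 0 < d ∧
    ∀ S : Set X, S.Nonempty → (∀ a ∈ S, ∀ b ∈ S, dist a b ≤ L) →
      (∀ a ∈ S, ∀ b ∈ S, ∀ c ∈ S, 2 * d ≤ dist a b + dist a c - dist b c →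
        2 * d ≤ dist a b + dist b c - dist a c → 2 * d ≤ dist a c + dist b c - dist a b → False) →
      ∃ a b : X, dist a b ≤ L ∧ ∀ c ∈ S, ∃ s : ℝ, 0 ≤ s ∧ s ≤ 1 ∧ dist c (pt hX a b s) ≤ ρ := by
  have hd0 : 0 < min (ρ / 4) (ρ ^ 2 / (4 * (L + 1))) := by positivity
  obtain ⟨d, hd⟩ : ∃ d, d = min (ρ / 4) (ρ ^ 2 / (4 * (L + 1))) := ⟨_, rfl⟩
  rw [← hd] at hd0
  have hd1 : d ≤ ρ / 4 := by rw [hd]; exact min_le_left _ _
  have hd2 : d * (4 * (L + 1)) ≤ ρ ^ 2 := by
    rw [← le_div_iff₀ (by positivity), hd]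
    exact min_le_right _ _
  have hdL : 3 * L * d ≤ 2 * ρ ^ 2 := by nlinarith [mul_pos hL hd0]
  refine ⟨d, hd0, fun S hS hSL hT => ?_⟩
  have hne : (Set.range fun p : S × S => dist (p.1 : X) (p.2 : X)).Nonempty := by
    obtain ⟨x, hx⟩ := hS
    exact ⟨_, ⟨(⟨x, hx⟩, ⟨x, hx⟩), rfl⟩⟩
  have hbd : BddAbove (Set.range fun p : S × S => dist (p.1 : X) (p.2 : X)) := by
    refine ⟨L, ?_⟩
    rintro _ ⟨p, rfl⟩
    exact hSL _ p.1.2 _ p.2.2
  obtain ⟨_, ⟨⟨⟨a, ha⟩, ⟨b, hb⟩⟩, rfl⟩, hlt⟩ := exists_lt_of_lt_csSup hne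
    (sub_lt_self (sSup (Set.range fun p : S × S => dist (p.1 : X) (p.2 : X))) hd0)
  simp only at hlt
  have hsup : ∀ x ∈ S, ∀ y ∈ S, dist x y ≤ dist a b + d := fun x hx y hy => by
    have := le_csSup hbd ⟨(⟨x, hx⟩, ⟨y, hy⟩), rfl⟩
    simp only at this
    linarith
  refine ⟨a, b, hSL a ha b hb, fun c hc => ?_⟩
  by_cases h1 : dist a b + dist a c - dist b c < 2 * d
  · refine ⟨0, le_rfl, zero_le_one, ?_⟩
    rw [pt_zero, dist_comm]
    have := hsup b hb c hc
    linarith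
  by_cases h2 : dist a b + dist b c - dist a c < 2 * d
  · refine ⟨1, zero_le_one, le_rfl, ?_⟩
    rw [pt_one, dist_comm]
    have := hsup a ha c hc
    linarith
  by_cases h3 : dist a c + dist b c - dist a b < 2 * d
  · exact near_leg hX hρ hd0 hdL (hSL a ha b hb) (hSL a ha c hc) (hSL b hb c hc) h3
  · exact (hT a ha b hb c hc (not_lt.1 h1) (not_lt.1 h2) (not_lt.1 h3)).elim

end Pool.Agent.H78.TA
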