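import Pool.Agent.H78.TA.Cat

/-!
# Rounding
-/

set_option autoImplicit false

namespace Pool.Agent.H78.TA

open Pool.Agent.H61.CZ

universe v

variable {X : Type v} [MetricSpace X] {V B : Set X}

/-- a finite set of numbers has a gap at zero -/
private theorem rgap {F : Set ℝ} (hF : F.Finite) :
    ∃ g : ℝ, 0 < g ∧ ∀ r ∈ F, |r| < g → r = 0 := by
  induction F, hF using Set.Finite.induction_on with
  | empty => exact ⟨1, one_pos, fun r hr => absurd hr (Set.notMem_empty r)⟩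
  | @insert a s _ _ ih =>
    obtain ⟨g, hg, h⟩ := ih
    by_cases ha : a = 0
    · refine ⟨g, hg, fun r hr hrg => ?_⟩
      rcases hr with rfl | hr
      · exact ha
      · exact h r hr hrg
    · refine ⟨min g |a|, lt_min hg (abs_pos.2 ha), fun r hr hrg => ?_⟩
      rcases hr with rfl | hr
      · exact absurd (hrg.trans_le (min_le_right _ _)) (lt_irrefl _)
      · exact h r hr (hrg.trans_le (min_le_left _ _))

/-- maximal separated sets -/
private theorem rnet (S : Set X) {k : ℝ} (hk : 0 < k) : ∃ T : Set X, T ⊆ S ∧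
    (∀ x ∈ T, ∀ y ∈ T, dist x y < k → x = y) ∧ ∀ x ∈ S, ∃ y ∈ T, dist x y < k := by
  obtain ⟨T, hT⟩ := zorn_subset
    {T : Set X | T ⊆ S ∧ ∀ x ∈ T, ∀ y ∈ T, dist x y < k → x = y} (fun c hc hch => by
      refine ⟨⋃₀ c, ⟨Set.sUnion_subset fun t ht => (hc ht).1, ?_⟩,
        fun s hs => Set.subset_sUnion_of_mem hs⟩
      rintro x ⟨t, ht, hxt⟩ y ⟨u, hu, hyu⟩ hxy
      rcases hch.total ht hu with h | h
      · exact (hc hu).2 x (h hxt) y hyu hxy
      · exact (hc ht).2 x hxt y (h hyu) hxy)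
  refine ⟨T, hT.prop.1, hT.prop.2, fun x hx => ?_⟩
  by_contra hcon
  push Not at hcon
  have hins : insert x T ∈ {T : Set X | T ⊆ S ∧ ∀ x ∈ T, ∀ y ∈ T, dist x y < k → x = y} := by
    refine ⟨Set.insert_subset hx hT.prop.1, ?_⟩
    rintro y (rfl | hy) z (rfl | hz) hyz
    · rfl
    · exact absurd hyz (not_lt.2 (hcon z hz))
    · rw [dist_comm] at hyz
      exact absurd hyz (not_lt.2 (hcon y hy))
    · exact hT.prop.2 y hy z hz hyz
  have hxT : x ∈ T := hT.le_of_ge hins (Set.subset_insert x T) (Set.mem_insert x T)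
  have := hcon x hxT
  rw [dist_self] at this
  linarith

/-- a geodesic between different pages meets the spine -/
private theorem page_cross (hX : CAT0 X) {z : X} {ρ : ℝ} {I : Type v} {pg : X → I} {s t : X → ℝ}
    (h : ∀ x ∈ Metric.closedBall z ρ,
      0 ≤ t x ∧ (t x = 0 ↔ x ∈ B) ∧ ∀ y ∈ Metric.closedBall z ρ,
        (pg x = pg y → dist x y ^ 2 = (s x - s y) ^ 2 + (t x - t y) ^ 2) ∧
        (pg x ≠ pg y → dist x y ^ 2 = (s x - s y) ^ 2 + (t x + t y) ^ 2))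
    {x y : X} (hx : x ∈ Metric.closedBall z ρ) (hy : y ∈ Metric.closedBall z ρ)
    (hpg : pg x ≠ pg y) : ∃ l : ℝ, 0 ≤ l ∧ l ≤ 1 ∧ pt hX x y l ∈ B := by
  obtain ⟨ha, hxB, hx'⟩ := h x hx
  obtain ⟨hb, hyB, hy'⟩ := h y hy
  rcases eq_or_lt_of_le (add_nonneg ha hb) with h0 | h0
  · refine ⟨0, le_rfl, zero_le_one, ?_⟩
    rw [pt_zero]
    exact hxB.1 (by linarith)
  have hl0 : 0 ≤ t x / (t x + t y) := by positivity
  have hl1 : t x / (t x + t y) ≤ 1 := (div_le_one h0).2 (by linarith)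
  refine ⟨t x / (t x + t y), hl0, hl1, ?_⟩
  have hl : t x / (t x + t y) * (t x + t y) = t x := div_mul_cancel₀ _ h0.ne'
  have hD := (hx' y hy).2 hpg
  have hp1 := dist_left hX (x := x) (y := y) hl0 hl1
  have hp2 := dist_right hX (x := x) (y := y) hl0 hl1
  have hpz : pt hX x y (t x / (t x + t y)) ∈ Metric.closedBall z ρ := by
    rw [Metric.mem_closedBall] at hx hy ⊢
    rw [dist_comm] at hx hy ⊢
    have := dist_pt_le hX (x := x) (y := y) hl0 hl1 z
    nlinarith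
  obtain ⟨hc, hpB, _⟩ := h _ hpz
  have e1 := (hx' _ hpz)
  have e2 := (hy' _ hpz)
  rw [dist_comm y] at e2
  rw [hp1] at e1
  rw [hp2] at e2
  refine hpB.1 ?_
  generalize pt hX x y (t x / (t x + t y)) = p at *
  generalize t x / (t x + t y) = l at *
  have key : t p ^ 2 ≤ 0 := by
    by_cases h1 : pg x = pg p
    · have f1 := e1.1 h1
      have f2 := e2.2 (fun h2 => hpg (h1.trans h2.symm))
      have g : (1 - l) * t x = l * t y := by linarith
      have m1 : (1 - l) * ((s x - s p) ^ 2 + (t x - t p) ^ 2) = (1 - l) * (l * dist x y) ^ 2 := by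
        rw [f1]
      have m2 : l * ((s y - s p) ^ 2 + (t y + t p) ^ 2) = l * ((1 - l) * dist x y) ^ 2 := by
        rw [f2]
      have m3 : l * (1 - l) * dist x y ^ 2 = l * (1 - l) * ((s x - s y) ^ 2 + (t x + t y) ^ 2) := by
        rw [hD]
      have m4 : (1 - l) * ((s x - s p) ^ 2 + (t x - t p) ^ 2) +
          l * ((s y - s p) ^ 2 + (t y + t p) ^ 2) =
          (s p - ((1 - l) * s x + l * s y)) ^ 2 + (t p - ((1 - l) * t x - l * t y)) ^ 2 +
            l * (1 - l) * ((s x - s y) ^ 2 + (t x + t y) ^ 2) := by ring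
      have m5 : (1 - l) * t x - l * t y = 0 := by linarith
      rw [m5, sub_zero] at m4
      have := sq_nonneg (s p - ((1 - l) * s x + l * s y))
      nlinarith
    · have f1 := e1.2 h1
      have f2 : (s y - s p) ^ 2 + (t y - t p) ^ 2 ≤ ((1 - l) * dist x y) ^ 2 := by
        by_cases h2 : pg y = pg p
        · exact (e2.1 h2).ge
        · rw [e2.2 h2]
          nlinarith [mul_nonneg hb hc]
      have m1 : (1 - l) * ((s x - s p) ^ 2 + (t x + t p) ^ 2) = (1 - l) * (l * dist x y) ^ 2 := by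
        rw [f1]
      have m2 : l * ((s y - s p) ^ 2 + (t y - t p) ^ 2) ≤ l * ((1 - l) * dist x y) ^ 2 :=
        mul_le_mul_of_nonneg_left f2 hl0
      have m3 : l * (1 - l) * dist x y ^ 2 = l * (1 - l) * ((s x - s y) ^ 2 + (t x + t y) ^ 2) := by
        rw [hD]
      have m4 : (1 - l) * ((s x - s p) ^ 2 + (t x + t p) ^ 2) +
          l * ((s y - s p) ^ 2 + (t y - t p) ^ 2) =
          (s p - ((1 - l) * s x + l * s y)) ^ 2 + (t p + ((1 - l) * t x - l * t y)) ^ 2 +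
            l * (1 - l) * ((s x - s y) ^ 2 + (t x + t y) ^ 2) := by ring
      have m5 : (1 - l) * t x - l * t y = 0 := by linarith
      rw [m5, add_zero] at m4
      have := sq_nonneg (s p - ((1 - l) * s x + l * s y))
      nlinarith
  exact pow_eq_zero_iff two_ne_zero |>.1 (le_antisymm key (sq_nonneg _))

/-- all points of a ball without points of `B` are on one page -/
private theorem same_page (hX : CAT0 X) {z : X} {ρ : ℝ} {I : Type v} {pg : X → I} {s t : X → ℝ}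
    (h : ∀ x ∈ Metric.closedBall z ρ,
      0 ≤ t x ∧ (t x = 0 ↔ x ∈ B) ∧ ∀ y ∈ Metric.closedBall z ρ,
        (pg x = pg y → dist x y ^ 2 = (s x - s y) ^ 2 + (t x - t y) ^ 2) ∧
        (pg x ≠ pg y → dist x y ^ 2 = (s x - s y) ^ 2 + (t x + t y) ^ 2))
    {w : X} {k : ℝ} (hw : Metric.closedBall w k ⊆ Metric.closedBall z ρ)
    (hwB : ∀ x ∈ Metric.closedBall w k, x ∉ B) {x y : X} (hx : x ∈ Metric.closedBall w k)
    (hy : y ∈ Metric.closedBall w k) : pg x = pg y := by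
  by_contra hpg
  obtain ⟨l, hl0, hl1, hl⟩ := page_cross hX h (hw hx) (hw hy) hpg
  refine hwB _ ?_ hl
  rw [Metric.mem_closedBall] at hx hy ⊢
  rw [dist_comm] at hx hy ⊢
  have := dist_pt_le hX (x := x) (y := y) hl0 hl1 w
  nlinarith

/-- a packing bound on a line -/
private theorem pack1 {N : Set X} {k : ℝ} (hk : 0 < k)
    (hN : ∀ x ∈ N, ∀ y ∈ N, dist x y < k → x = y) (s : X → ℝ)
    (hs : ∀ x ∈ N, ∀ y ∈ N, dist x y ≤ |s x - s y|) {c : ℝ} (hc : ∀ x ∈ N, |s x - c| ≤ 3 * k) :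
    N.Finite ∧ N.ncard ≤ 7 := by
  have hmaps : ∀ x ∈ N, ⌊(s x - c) / k⌋ ∈ Finset.Icc (-3 : ℤ) 3 := by
    intro x hx
    have h := abs_le.1 (hc x hx)
    rw [Finset.mem_Icc]
    refine ⟨Int.le_floor.2 ?_, ?_⟩
    · rw [le_div_iff₀ hk]
      push_cast
      linarith [h.1]
    · have : ⌊(s x - c) / k⌋ < 4 := by
        rw [Int.floor_lt, div_lt_iff₀ hk]
        push_cast
        linarith [h.2]
      omega
  have hinj : Set.InjOn (fun x => ⌊(s x - c) / k⌋) N := by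
    intro x hx y hy hxy
    refine hN x hx y hy ((hs x hx y hy).trans_lt ?_)
    have h := Int.abs_sub_lt_one_of_floor_eq_floor hxy
    rw [← sub_div, abs_div, abs_of_pos hk, div_lt_iff₀ hk, one_mul] at h
    have e : s x - c - (s y - c) = s x - s y := by ring
    rwa [e] at h
  have hfin : N.Finite := Set.Finite.of_finite_image
    ((Finset.finite_toSet (Finset.Icc (-3 : ℤ) 3)).subset (by
      rintro _ ⟨x, hx, rfl⟩
      exact hmaps x hx)) hinj
  refine ⟨hfin, ?_⟩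
  have h := Set.ncard_le_ncard_of_injOn (fun x => ⌊(s x - c) / k⌋)
    (t := ((Finset.Icc (-3 : ℤ) 3 : Finset ℤ) : Set ℤ)) (fun x hx => hmaps x hx) hinj
    (Finset.finite_toSet _)
  rwa [Set.ncard_coe_finset, show (Finset.Icc (-3 : ℤ) 3).card = 7 from rfl] at h

/-- a packing bound in the plane -/
private theorem pack2 {N : Set X} {k : ℝ} (hk : 0 < k)
    (hN : ∀ x ∈ N, ∀ y ∈ N, dist x y < 2 * k → x = y) (s t : X → ℝ)
    (hs : ∀ x ∈ N, ∀ y ∈ N, dist x y ^ 2 ≤ (s x - s y) ^ 2 + (t x - t y) ^ 2) {c e : ℝ}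
    (hc : ∀ x ∈ N, |s x - c| ≤ 6 * k) (he : ∀ x ∈ N, |t x - e| ≤ 6 * k) :
    N.Finite ∧ N.ncard ≤ 169 := by
  have hmaps : ∀ (g : X → ℝ) (c : ℝ), (∀ x ∈ N, |g x - c| ≤ 6 * k) → ∀ x ∈ N,
      ⌊(g x - c) / k⌋ ∈ Finset.Icc (-6 : ℤ) 6 := by
    intro g c hc x hx
    have h := abs_le.1 (hc x hx)
    rw [Finset.mem_Icc]
    refine ⟨Int.le_floor.2 ?_, ?_⟩
    · rw [le_div_iff₀ hk]
      push_cast
      linarith [h.1]
    · have : ⌊(g x - c) / k⌋ < 7 := by
        rw [Int.floor_lt, div_lt_iff₀ hk]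
        push_cast
        linarith [h.2]
      omega
  have hdist : ∀ (g : X → ℝ) (c : ℝ) (x y : X), ⌊(g x - c) / k⌋ = ⌊(g y - c) / k⌋ →
      (g x - g y) ^ 2 < k ^ 2 := by
    intro g c x y hxy
    have h := Int.abs_sub_lt_one_of_floor_eq_floor hxy
    rw [← sub_div, abs_div, abs_of_pos hk, div_lt_iff₀ hk, one_mul] at h
    have e : g x - c - (g y - c) = g x - g y := by ring
    rw [e] at h
    rw [← sq_abs]
    exact pow_lt_pow_left₀ h (abs_nonneg _) two_ne_zero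
  have hm : ∀ x ∈ N, (⌊(s x - c) / k⌋, ⌊(t x - e) / k⌋) ∈
      (Finset.Icc (-6 : ℤ) 6 ×ˢ Finset.Icc (-6 : ℤ) 6) := fun x hx =>
    Finset.mem_product.2 ⟨hmaps s c hc x hx, hmaps t e he x hx⟩
  have hinj : Set.InjOn (fun x => (⌊(s x - c) / k⌋, ⌊(t x - e) / k⌋)) N := by
    intro x hx y hy hxy
    simp only [Prod.mk.injEq] at hxy
    refine hN x hx y hy ?_
    have h1 := hdist s c x y hxy.1
    have h2 := hdist t e x y hxy.2
    have h3 := hs x hx y hy
    have h4 : dist x y ^ 2 < (2 * k) ^ 2 := by nlinarith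
    exact lt_of_pow_lt_pow_left₀ 2 (by positivity) h4
  have hfin : N.Finite := Set.Finite.of_finite_image
    ((Finset.finite_toSet (Finset.Icc (-6 : ℤ) 6 ×ˢ Finset.Icc (-6 : ℤ) 6)).subset (by
      rintro _ ⟨x, hx, rfl⟩
      exact hm x hx)) hinj
  refine ⟨hfin, ?_⟩
  have h := Set.ncard_le_ncard_of_injOn (fun x => (⌊(s x - c) / k⌋, ⌊(t x - e) / k⌋))
    (t := ((Finset.Icc (-6 : ℤ) 6 ×ˢ Finset.Icc (-6 : ℤ) 6 : Finset (ℤ × ℤ)) : Set (ℤ × ℤ)))
    (fun x hx => hm x hx) hinj (Finset.finite_toSet _)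
  rwa [Set.ncard_coe_finset, Finset.card_product,
    show (Finset.Icc (-6 : ℤ) 6).card = 13 from rfl] at h

/-- the coordinates of a chart are Lipschitz -/
private theorem coord_le {D a b : ℝ} (hD : 0 ≤ D) (h : a ^ 2 + b ^ 2 ≤ D ^ 2) : |a| ≤ D :=
  abs_le_of_sq_le_sq (by nlinarith [sq_nonneg b]) hD

theorem rounding (hT : Two X V B) : ∃ (ρ : ℝ) (N : ℕ) (f : X → X), 0 < ρ ∧
    (∀ x, dist x (f x) ≤ 1) ∧
    ∀ z, (f '' Metric.closedBall z ρ).Finite ∧ (f '' Metric.closedBall z ρ).ncard ≤ N := by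
  classical
  obtain ⟨g, hg, hgap⟩ := rgap (hT.disc 1)
  obtain ⟨r0, hr0⟩ : ∃ r0, r0 = min g 1 := ⟨_, rfl⟩
  have hr0p : 0 < r0 := by rw [hr0]; exact lt_min hg one_pos
  have hr01 : r0 ≤ 1 := by rw [hr0]; exact min_le_right _ _
  have hr0g : r0 ≤ g := by rw [hr0]; exact min_le_left _ _
  have hVV : ∀ v ∈ V, ∀ w ∈ V, dist v w < r0 → v = w := by
    intro v hv w hw hvw
    refine dist_eq_zero.1 (hgap _ ⟨by linarith, v, hv, w, hw, rfl⟩ ?_)
    rw [abs_of_nonneg dist_nonneg]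
    linarith
  obtain ⟨k0, hk0⟩ : ∃ k0, k0 = r0 / 8 := ⟨_, rfl⟩
  have hk0p : 0 < k0 := by rw [hk0]; positivity
  obtain ⟨ρ1, hρ1, hbook⟩ := hT.book (k0 / 2) (by positivity)
  obtain ⟨k1, hk1⟩ : ∃ k1, k1 = min k0 ρ1 / 16 := ⟨_, rfl⟩
  have hk1p : 0 < k1 := by
    rw [hk1]
    have := lt_min hk0p hρ1
    positivity
  have hk1k0 : 16 * k1 ≤ k0 := by
    have := min_le_left k0 ρ1
    linarith
  have hk1ρ1 : 16 * k1 ≤ ρ1 := by
    have := min_le_right k0 ρ1
    linarith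
  obtain ⟨N1, hN1B, hN1s, hN1c⟩ := rnet B hk1p
  obtain ⟨N2, -, hN2s, hN2c⟩ := rnet (Set.univ : Set X) (k := k1 / 8) (by positivity)
  -- the function
  have hf : ∀ x : X, ∃ y : X, ((∃ v ∈ V, dist x v ≤ k0) → y ∈ V ∧ dist x y ≤ k0) ∧
      (¬ (∃ v ∈ V, dist x v ≤ k0) → (∃ b ∈ B, dist x b ≤ k1) → y ∈ N1 ∧ dist x y ≤ 2 * k1) ∧
      (¬ (∃ v ∈ V, dist x v ≤ k0) → ¬ (∃ b ∈ B, dist x b ≤ k1) →
        y ∈ N2 ∧ dist x y ≤ k1 / 8) := by
    intro x
    by_cases h1 : ∃ v ∈ V, dist x v ≤ k0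
    · obtain ⟨v, hv, hxv⟩ := h1
      exact ⟨v, fun _ => ⟨hv, hxv⟩, fun h => absurd ⟨v, hv, hxv⟩ h, fun h => absurd ⟨v, hv, hxv⟩ h⟩
    by_cases h2 : ∃ b ∈ B, dist x b ≤ k1
    · obtain ⟨b, hb, hxb⟩ := h2
      obtain ⟨y, hy, hby⟩ := hN1c b hb
      refine ⟨y, fun h => absurd h h1, fun _ _ => ⟨hy, ?_⟩, fun _ h => absurd ⟨b, hb, hxb⟩ h⟩
      have := dist_triangle x b y
      linarith
    · obtain ⟨y, hy, hxy⟩ := hN2c x (Set.mem_univ x)
      exact ⟨y, fun h => absurd h h1, fun _ h => absurd h h2, fun _ _ => ⟨hy, hxy.le⟩⟩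
  choose f hf1 hf2 hf3 using hf
  refine ⟨k1 / 8, 1 + 7 + 169, f, by positivity, fun x => ?_, fun z => ?_⟩
  · by_cases h1 : ∃ v ∈ V, dist x v ≤ k0
    · have := (hf1 x h1).2
      linarith
    by_cases h2 : ∃ b ∈ B, dist x b ≤ k1
    · have := (hf2 x h1 h2).2
      linarith
    · have := (hf3 x h1 h2).2
      linarith
  -- the three parts
  have hA : (f '' {x ∈ Metric.closedBall z (k1 / 8) | ∃ v ∈ V, dist x v ≤ k0}).Finite ∧
      (f '' {x ∈ Metric.closedBall z (k1 / 8) | ∃ v ∈ V, dist x v ≤ k0}).ncard ≤ 1 := by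
    have hsub : (f '' {x ∈ Metric.closedBall z (k1 / 8) |
        ∃ v ∈ V, dist x v ≤ k0}).Subsingleton := by
      rintro _ ⟨x, ⟨hx, hxV⟩, rfl⟩ _ ⟨y, ⟨hy, hyV⟩, rfl⟩
      obtain ⟨h1, h2⟩ := hf1 x hxV
      obtain ⟨h3, h4⟩ := hf1 y hyV
      refine hVV _ h1 _ h3 ?_
      rw [Metric.mem_closedBall] at hx hy
      have e1 := dist_triangle (f x) x (f y)
      have e2 := dist_triangle x z (f y)
      have e3 := dist_triangle z y (f y)
      rw [dist_comm (f x) x] at e1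
      rw [dist_comm z y] at e3
      linarith
    have := hsub.finite.to_subtype
    exact ⟨hsub.finite, Set.ncard_le_one_iff_subsingleton.2 hsub⟩
  have hBC : (f '' {x ∈ Metric.closedBall z (k1 / 8) | ¬ ∃ v ∈ V, dist x v ≤ k0}).Finite ∧
      (f '' {x ∈ Metric.closedBall z (k1 / 8) | ¬ ∃ v ∈ V, dist x v ≤ k0}).ncard ≤ 7 + 169 := by
    rcases ({x ∈ Metric.closedBall z (k1 / 8) | ¬ ∃ v ∈ V, dist x v ≤ k0}).eq_empty_or_nonempty
      with h0 | ⟨x₁, hx₁, hx₁V⟩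
    · rw [h0, Set.image_empty]
      exact ⟨Set.finite_empty, by rw [Set.ncard_empty]; omega⟩
    have hzV : ∀ v ∈ V, k0 / 2 ≤ dist z v := by
      intro v hv
      by_contra hcon
      push Not at hcon
      refine hx₁V ⟨v, hv, ?_⟩
      rw [Metric.mem_closedBall] at hx₁
      have := dist_triangle x₁ z v
      linarith
    obtain ⟨I, pg, s, t, hch⟩ := hbook z hzV
    have hd : ∀ x ∈ Metric.closedBall z ρ1, ∀ y ∈ Metric.closedBall z ρ1,
        |s x - s y| ≤ dist x y ∧ |t x - t y| ≤ dist x y := by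
      intro x hx y hy
      obtain ⟨h1, _, h2⟩ := hch x hx
      obtain ⟨h3, _, _⟩ := hch y hy
      by_cases h : pg x = pg y
      · have h4 := (h2 y hy).1 h
        exact ⟨coord_le dist_nonneg h4.ge, coord_le (b := s x - s y) dist_nonneg
          (by rw [h4, add_comm])⟩
      · have h4 := (h2 y hy).2 h
        have h5 : (s x - s y) ^ 2 + (t x - t y) ^ 2 ≤ dist x y ^ 2 := by
          nlinarith [mul_nonneg h1 h3]
        exact ⟨coord_le dist_nonneg h5, coord_le (b := s x - s y) dist_nonneg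
          (by rw [add_comm]; exact h5)⟩
    have hzz : z ∈ Metric.closedBall z ρ1 := Metric.mem_closedBall_self hρ1.le
    -- the spine
    have hB : (f '' {x ∈ Metric.closedBall z (k1 / 8) | ¬ (∃ v ∈ V, dist x v ≤ k0) ∧
        ∃ b ∈ B, dist x b ≤ k1}).Finite ∧
        (f '' {x ∈ Metric.closedBall z (k1 / 8) | ¬ (∃ v ∈ V, dist x v ≤ k0) ∧
          ∃ b ∈ B, dist x b ≤ k1}).ncard ≤ 7 := by
      have hin : ∀ y ∈ f '' {x ∈ Metric.closedBall z (k1 / 8) |
          ¬ (∃ v ∈ V, dist x v ≤ k0) ∧ ∃ b ∈ B, dist x b ≤ k1}, y ∈ N1 ∧ dist y z ≤ 3 * k1 := by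
        rintro _ ⟨x, ⟨hx, hxV, hxB⟩, rfl⟩
        obtain ⟨h1, h2⟩ := hf2 x hxV hxB
        rw [Metric.mem_closedBall] at hx
        have := dist_triangle (f x) x z
        rw [dist_comm (f x) x] at this
        exact ⟨h1, by linarith⟩
      have hball : ∀ y, dist y z ≤ 3 * k1 → y ∈ Metric.closedBall z ρ1 := fun y hy => by
        rw [Metric.mem_closedBall]
        linarith
      refine pack1 hk1p (fun x hx y hy => hN1s x (hin x hx).1 y (hin y hy).1) s
        (fun x hx y hy => ?_) (c := s z) (fun x hx => ?_)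
      · obtain ⟨h1, h2⟩ := hin x hx
        obtain ⟨h3, h4⟩ := hin y hy
        obtain ⟨_, h5, h6⟩ := hch x (hball x h2)
        obtain ⟨_, h7, _⟩ := hch y (hball y h4)
        have tx := h5.2 (hN1B h1)
        have ty := h7.2 (hN1B h3)
        have h8 : dist x y ^ 2 = (s x - s y) ^ 2 := by
          by_cases h : pg x = pg y
          · rw [(h6 y (hball y h4)).1 h, tx, ty]
            ring
          · rw [(h6 y (hball y h4)).2 h, tx, ty]
            ring
        rw [← sq_abs (s x - s y)] at h8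
        exact ((pow_left_inj₀ dist_nonneg (abs_nonneg _) two_ne_zero).1 h8).le
      · obtain ⟨_, h2⟩ := hin x hx
        exact (hd x (hball x h2) z hzz).1.trans h2
    -- the pages
    have hC : (f '' {x ∈ Metric.closedBall z (k1 / 8) | ¬ (∃ v ∈ V, dist x v ≤ k0) ∧
        ¬ ∃ b ∈ B, dist x b ≤ k1}).Finite ∧
        (f '' {x ∈ Metric.closedBall z (k1 / 8) | ¬ (∃ v ∈ V, dist x v ≤ k0) ∧
          ¬ ∃ b ∈ B, dist x b ≤ k1}).ncard ≤ 169 := by
      rcases ({x ∈ Metric.closedBall z (k1 / 8) | ¬ (∃ v ∈ V, dist x v ≤ k0) ∧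
          ¬ ∃ b ∈ B, dist x b ≤ k1}).eq_empty_or_nonempty with h0 | ⟨x₀, hx₀, hx₀V, hx₀B⟩
      · rw [h0, Set.image_empty]
        exact ⟨Set.finite_empty, by rw [Set.ncard_empty]; omega⟩
      rw [Metric.mem_closedBall] at hx₀
      have hin : ∀ y ∈ f '' {x ∈ Metric.closedBall z (k1 / 8) |
          ¬ (∃ v ∈ V, dist x v ≤ k0) ∧ ¬ ∃ b ∈ B, dist x b ≤ k1},
          y ∈ N2 ∧ dist y x₀ ≤ 3 / 8 * k1 := by
        rintro _ ⟨x, ⟨hx, hxV, hxB⟩, rfl⟩
        obtain ⟨h1, h2⟩ := hf3 x hxV hxB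
        rw [Metric.mem_closedBall] at hx
        have e1 := dist_triangle (f x) x x₀
        have e2 := dist_triangle x z x₀
        rw [dist_comm (f x) x] at e1
        rw [dist_comm z x₀] at e2
        exact ⟨h1, by linarith⟩
      have hw : Metric.closedBall x₀ k1 ⊆ Metric.closedBall z ρ1 := by
        intro y hy
        rw [Metric.mem_closedBall] at hy ⊢
        have := dist_triangle y x₀ z
        linarith
      have hwB : ∀ x ∈ Metric.closedBall x₀ k1, x ∉ B := by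
        intro x hx hxB
        rw [Metric.mem_closedBall, dist_comm] at hx
        exact hx₀B ⟨x, hxB, hx⟩
      have hball : ∀ y, dist y x₀ ≤ 3 / 8 * k1 → y ∈ Metric.closedBall x₀ k1 := fun y hy => by
        rw [Metric.mem_closedBall]
        linarith
      have hx₀' : x₀ ∈ Metric.closedBall x₀ k1 := Metric.mem_closedBall_self hk1p.le
      refine pack2 (k := k1 / 16) (by positivity) (fun x hx y hy hxy =>
          hN2s x (hin x hx).1 y (hin y hy).1 (by linarith)) s t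
        (fun x hx y hy => ?_) (c := s x₀) (e := t x₀) (fun x hx => ?_) (fun x hx => ?_)
      · obtain ⟨_, h2⟩ := hin x hx
        obtain ⟨_, h4⟩ := hin y hy
        have h5 := same_page hT.cat hch hw hwB (hball x h2) (hball y h4)
        exact (((hch x (hw (hball x h2))).2.2 y (hw (hball y h4))).1 h5).le
      · obtain ⟨_, h2⟩ := hin x hx
        exact (hd x (hw (hball x h2)) x₀ (hw hx₀')).1.trans (by linarith)
      · obtain ⟨_, h2⟩ := hin x hx
        exact (hd x (hw (hball x h2)) x₀ (hw hx₀')).2.trans (by linarith)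
    have hU : f '' {x ∈ Metric.closedBall z (k1 / 8) | ¬ ∃ v ∈ V, dist x v ≤ k0} ⊆
        (f '' {x ∈ Metric.closedBall z (k1 / 8) | ¬ (∃ v ∈ V, dist x v ≤ k0) ∧
          ∃ b ∈ B, dist x b ≤ k1}) ∪
        (f '' {x ∈ Metric.closedBall z (k1 / 8) | ¬ (∃ v ∈ V, dist x v ≤ k0) ∧
          ¬ ∃ b ∈ B, dist x b ≤ k1}) := by
      rintro _ ⟨x, ⟨hx, hxV⟩, rfl⟩
      by_cases h : ∃ b ∈ B, dist x b ≤ k1
      · exact Or.inl ⟨x, ⟨hx, hxV, h⟩, rfl⟩
      · exact Or.inr ⟨x, ⟨hx, hxV, h⟩, rfl⟩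
    refine ⟨(hB.1.union hC.1).subset hU, ?_⟩
    exact (Set.ncard_le_ncard hU (hB.1.union hC.1)).trans
      ((Set.ncard_union_le _ _).trans (add_le_add hB.2 hC.2))
  have hU : f '' Metric.closedBall z (k1 / 8) ⊆
      (f '' {x ∈ Metric.closedBall z (k1 / 8) | ∃ v ∈ V, dist x v ≤ k0}) ∪
      (f '' {x ∈ Metric.closedBall z (k1 / 8) | ¬ ∃ v ∈ V, dist x v ≤ k0}) := by
    rintro _ ⟨x, hx, rfl⟩
    by_cases h : ∃ v ∈ V, dist x v ≤ k0
    · exact Or.inl ⟨x, ⟨hx, h⟩, rfl⟩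
    · exact Or.inr ⟨x, ⟨hx, h⟩, rfl⟩
  refine ⟨(hA.1.union hBC.1).subset hU, ?_⟩
  refine (Set.ncard_le_ncard hU (hA.1.union hBC.1)).trans
    ((Set.ncard_union_le _ _).trans ?_)
  have := hA.2
  have := hBC.2
  omega

theorem round_seg (hX : CAT0 X) {ρ : ℝ} {N : ℕ} {f : X → X} (hρ : 0 < ρ)
    (hf : ∀ z, (f '' Metric.closedBall z ρ).Finite ∧ (f '' Metric.closedBall z ρ).ncard ≤ N)
    {a b : X} {L : ℝ} (hab : dist a b ≤ L) {S : Set X}
    (hS : ∀ c ∈ S, ∃ s : ℝ, 0 ≤ s ∧ s ≤ 1 ∧ dist c (pt hX a b s) ≤ ρ / 2) :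
    (f '' S).Finite ∧ ((f '' S).ncard : ℝ) ≤ N * (2 * L / ρ + 2) := by
  have hL : 0 ≤ L := dist_nonneg.trans hab
  have hLρ : 0 ≤ 2 * L / ρ := by positivity
  obtain ⟨n, hn⟩ : ∃ n, n = ⌈2 * L / ρ⌉₊ := ⟨_, rfl⟩
  have hn1 : 2 * L / ρ ≤ n := by rw [hn]; exact Nat.le_ceil _
  have hn2 : (n : ℝ) < 2 * L / ρ + 1 := by rw [hn]; exact Nat.ceil_lt_add_one hLρ
  have hLn : 2 * L ≤ n * ρ := by rwa [div_le_iff₀ hρ] at hn1
  have hU : f '' S ⊆ ⋃ i ∈ Finset.range (n + 1), f '' Metric.closedBall (pt hX a b (i / n)) ρ := by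
    rintro _ ⟨c, hc, rfl⟩
    obtain ⟨s, hs0, hs1, hcs⟩ := hS c hc
    rcases Nat.eq_zero_or_pos n with h0 | h0
    · subst h0
      have hab0 : dist a b = 0 := by
        have : 2 * L ≤ 0 := by simpa using hLn
        have := dist_nonneg (x := a) (y := b)
        linarith
      refine Set.mem_biUnion (x := 0) (Finset.mem_coe.2 (Finset.mem_range.2 (by omega))) ⟨c, ?_, rfl⟩
      rw [Metric.mem_closedBall, Nat.cast_zero, div_zero, pt_zero]
      have h1 := dist_left hX (x := a) (y := b) hs0 hs1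
      rw [hab0, mul_zero, dist_comm] at h1
      have := dist_triangle c (pt hX a b s) a
      linarith
    · have hn0 : (0 : ℝ) < n := by exact_mod_cast h0
      have hi0 : (0 : ℝ) ≤ s * n := by positivity
      have hi1 : ((⌊s * n⌋₊ : ℕ) : ℝ) ≤ s * n := Nat.floor_le hi0
      have hi2 : s * n < ⌊s * n⌋₊ + 1 := Nat.lt_floor_add_one _
      have hi3 : ((⌊s * n⌋₊ : ℕ) : ℝ) ≤ n := hi1.trans (mul_le_of_le_one_left hn0.le hs1)
      refine Set.mem_biUnion (x := ⌊s * n⌋₊) (Finset.mem_coe.2 (Finset.mem_range.2 ?_)) ⟨c, ?_, rfl⟩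
      · have : ⌊s * (n : ℝ)⌋₊ ≤ n := by exact_mod_cast hi3
        omega
      rw [Metric.mem_closedBall]
      have h1 : (0 : ℝ) ≤ ((⌊s * n⌋₊ : ℕ) : ℝ) / n := by positivity
      have h2 : ((⌊s * n⌋₊ : ℕ) : ℝ) / n ≤ 1 := (div_le_one hn0).2 hi3
      have h3 := dist_pt_pt hX (x := a) (y := b) hs0 hs1 h1 h2
      have h4 : |s - ((⌊s * n⌋₊ : ℕ) : ℝ) / n| * n ≤ 1 := by
        rw [← abs_of_pos hn0, ← abs_mul, sub_mul, abs_of_pos hn0, div_mul_cancel₀ _ hn0.ne',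
          abs_le]
        constructor <;> linarith
      have h5 : |s - ((⌊s * n⌋₊ : ℕ) : ℝ) / n| * dist a b ≤ ρ / 2 := by
        have h6 : |s - ((⌊s * n⌋₊ : ℕ) : ℝ) / n| * dist a b ≤
            |s - ((⌊s * n⌋₊ : ℕ) : ℝ) / n| * (n * ρ / 2) :=
          mul_le_mul_of_nonneg_left (by linarith) (abs_nonneg _)
        nlinarith
      have h7 := dist_triangle c (pt hX a b s) (pt hX a b (((⌊s * n⌋₊ : ℕ) : ℝ) / n))
      linarith
  have hfinU : (⋃ i ∈ Finset.range (n + 1), f '' Metric.closedBall (pt hX a b (i / n)) ρ).Finite :=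
    (Finset.finite_toSet (Finset.range (n + 1))).biUnion fun i _ => (hf _).1
  refine ⟨hfinU.subset hU, ?_⟩
  have h1 : (f '' S).ncard ≤ (n + 1) * N := by
    refine (Set.ncard_le_ncard hU hfinU).trans ?_
    have key : ∀ m : ℕ, (⋃ i ∈ Finset.range m,
        f '' Metric.closedBall (pt hX a b (i / n)) ρ).ncard ≤ m * N := by
      intro m
      induction m with
      | zero => simp
      | succ m ih =>
        have e : (⋃ i ∈ Finset.range (m + 1), f '' Metric.closedBall (pt hX a b (i / n)) ρ) =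
            (f '' Metric.closedBall (pt hX a b (m / n)) ρ) ∪
              ⋃ i ∈ Finset.range m, f '' Metric.closedBall (pt hX a b (i / n)) ρ := by
          rw [Finset.range_add_one, Finset.set_biUnion_insert]
        rw [e]
        refine (Set.ncard_union_le _ _).trans ?_
        have := (hf (pt hX a b (m / n))).2
        rw [add_mul, one_mul]
        omega
    exact key (n + 1)
  have h2 : ((f '' S).ncard : ℝ) ≤ ((n + 1 : ℕ) * N : ℕ) := by exact_mod_cast h1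
  push_cast at h2
  have h3 : ((n : ℝ) + 1) * N ≤ (2 * L / ρ + 2) * N :=
    mul_le_mul_of_nonneg_right (by linarith) (Nat.cast_nonneg N)
  linarith

end Pool.Agent.H78.TA
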