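import Pool.Agent.H78.TA.Rel
import Pool.Agent.H78.TA.Comb

/-!
# Parallel lines form a tree
-/

set_option autoImplicit false

namespace Pool.Agent.H78.TA

open Pool.Agent.H61.CZ

universe v

variable {X : Type v} [MetricSpace X]

theorem tree_of (hX : CAT0 X) {U : Set (ℝ → X)} {o : X} {h r : ℝ} (hr : 0 < r)
    (hl : ∀ a ∈ U, Ln o h a) (hp : ∀ a ∈ U, ∀ b ∈ U, Par 2 a b)
    (hs : ∀ a ∈ U, ∀ b ∈ U, wd a b = 0 ∨ r ≤ wd a b) : Tree wd (Down hX o h) U r where
  pos := hr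
  self := wd_self
  symm := fun a b => wd_symm b a
  nonneg := wd_nonneg
  tri := fun a ha b hb c hc => wd_tri (hp a ha b hb) (hp b hb c hc) (hp a ha c hc)
  uniq := fun a ha x hx y hy c hc h1 h2 h3 => btw_unique hX (hl a ha) (hl x hx) (hl y hy)
    (hl c hc) (hp a ha x hx) (hp a ha y hy) (hp a ha c hc) (hp x hx c hc) (hp y hy c hc)
    (hp x hx y hy) h1 h2 h3
  sep := hs
  d1 := fun a ha m hm c hc hb h1 h2 => down_d1 hX (hl a ha) (hl m hm) (hl c hc) (hp a ha m hm)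
    (hp m hm c hc) (hp a ha c hc) hb h1 h2
  d2a := fun a ha m hm c hc hb hw h1 => down_d2a hX (hl a ha) (hl m hm) (hl c hc) (hp a ha m hm)
    (hp m hm c hc) (hp a ha c hc) hb hw h1
  d2b := fun a ha m hm c hc hb h1 => down_d2b hX (hl a ha) (hl m hm) (hl c hc) (hp a ha m hm)
    (hp m hm c hc) (hp a ha c hc) hb h1
  d3 := fun b hb c hc hw => down_d3 hX (hl b hb) (hl c hc) (hp b hb c hc) hw

end Pool.Agent.H78.TA
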