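import Pool.Agent.H78.TA.Med
import Pool.Agent.H78.TA.TreeOf
import Pool.Agent.H78.TA.NoTri
import Pool.Agent.H78.TA.Round
import Pool.Agent.H78.TA.Flow

/-!
# The map on a sphere
-/

set_option autoImplicit false

namespace Pool.Agent.H78.TA

open Pool.Agent.H61.CZ

universe v

variable {X : Type v} [MetricSpace X] {V B : Set X}

theorem level (hT : Two X V B) : ∃ c : ℝ, ∀ L : ℝ, 1 ≤ L → ∃ D T : ℝ, ∀ (o : X) (Θ : ℝ),
    T ≤ Θ → ∃ out : X → X, (∀ q, dist o q = Θ → dist q (out q) ≤ D) ∧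
      ∀ S : Set X, (∀ q ∈ S, dist o q = Θ) → (∀ q ∈ S, ∀ q' ∈ S, dist q q' ≤ L) →
        (out '' S).Finite ∧ ((out '' S).ncard : ℝ) ≤ c * L := by
  classical
  have hX := hT.cat
  obtain ⟨C, hC⟩ := hT.exists_edgeC
  have hC0 : 0 ≤ C := hC.1
  obtain ⟨C₂, hC₂⟩ : ∃ C₂ : ℝ, C₂ = 2 * C + 4 := ⟨_, rfl⟩
  have hC₂0 : 0 < C₂ := by rw [hC₂]; linarith
  obtain ⟨r, hr, hsep⟩ := sep hT hC₂0
  obtain ⟨ρ, N, f, hρ, hf1, hf2⟩ := rounding hT
  obtain ⟨D₃, hD₃⟩ : ∃ D₃ : ℝ, D₃ = 4 * C + 10 := ⟨_, rfl⟩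
  have hD₃0 : 0 ≤ D₃ := by rw [hD₃]; linarith
  refine ⟨2 * ((6 + 5 * D₃) / r + 1) + N * (2 / ρ + 2), fun L hL => ?_⟩
  obtain ⟨Λ₀, hΛ₀⟩ : ∃ Λ₀ : ℝ, Λ₀ = L + D₃ := ⟨_, rfl⟩
  obtain ⟨L', hL'⟩ : ∃ L' : ℝ, L' = 2 * Λ₀ + L := ⟨_, rfl⟩
  obtain ⟨Λ₁, hΛ₁⟩ : ∃ Λ₁ : ℝ, Λ₁ = L' + D₃ := ⟨_, rfl⟩
  obtain ⟨W, hW⟩ : ∃ W : ℝ, W = Λ₁ + L' := ⟨_, rfl⟩
  obtain ⟨ΛU, hΛU⟩ : ∃ ΛU : ℝ, ΛU = 2 * W + D₃ := ⟨_, rfl⟩
  have hΛ₀0 : 0 ≤ Λ₀ := by linarith
  have hL'0 : 0 ≤ L' := by linarith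
  have hΛ₁0 : 0 ≤ Λ₁ := by linarith
  have hW0 : 0 ≤ W := by linarith
  have hΛU0 : 0 ≤ ΛU := by linarith
  obtain ⟨A₂, E₂, hA₂, hE₂, hE₂1, hlex⟩ := lex hT (Λ := 2 * ΛU) (P := C₂ + 4) (k := 1) hC₂0
    (by linarith) (by linarith) one_pos
  obtain ⟨A₁, E₁, hA₁, hE₁, hE₁1, hmed₁⟩ := med hT (Λ := 2 * W) (A₁ := A₂) (E₁ := E₂) hC
    (by linarith) (by linarith) hE₂
  obtain ⟨A₀, E₀, hA₀, hE₀, hE₀1, hmed₀⟩ := med hT (Λ := L') (A₁ := A₁) (E₁ := E₁) hC
    hL'0 (by linarith) hE₁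
  obtain ⟨d, hd, hseg⟩ := near_seg hX (L := L) (ρ := ρ / 2) (by linarith) (by linarith)
  obtain ⟨a, E', k', ha, hE', hk', hvl⟩ := vline hT (A := A₀) (E := E₀) (L := L) (d := d) (η := 1)
    hC (by linarith) hE₀ (by linarith) hd one_pos
  obtain ⟨T₀, hT₀, hflow⟩ := flow_tri hX (L := L) (a := a) (E := E') (k := k') (by linarith)
    (by linarith) hE' hk'
  rw [← hC₂] at hmed₁ hmed₀ hvl
  refine ⟨T₀ + Λ₀ + Λ₁ + 1, 2 * T₀, fun o Θ hΘ => ?_⟩
  obtain ⟨h, hh⟩ : ∃ h : ℝ, h = Θ - T₀ := ⟨_, rfl⟩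
  have hh0 : T₀ ≤ h := by linarith
  -- universes
  obtain ⟨U, hU⟩ : ∃ U : (ℝ → X) → Set (ℝ → X), U = fun s₀ =>
    {c | VL V o C₂ h A₂ E₂ c ∧ ∀ x ∈ Set.Icc (-A₂) A₂, dist (c x) (s₀ x) ≤ ΛU} := ⟨_, rfl⟩
  have hUpar : ∀ s₀, ∀ a ∈ U s₀, ∀ b ∈ U s₀, Par (C₂ + 4) a b := by
    intro s₀ a ha b hb
    rw [hU] at ha hb
    refine (hlex o h a b ha.1 hb.1 fun x hx => ?_).1
    have h1 := ha.2 x hx
    have h2 := hb.2 x hx
    rw [dist_comm] at h2
    have h3 := dist_triangle (a x) (s₀ x) (b x)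
    linarith
  have htree : ∀ s₀, Tree wd (Down hX o h) (U s₀) r := by
    intro s₀
    refine tree_of hX hr (fun a ha => ?_) (fun a ha b hb => ?_) fun a ha b hb => ?_
    · rw [hU] at ha
      exact ha.1.ln hX (by linarith) hE₂1
    · exact (hUpar s₀ a ha b hb).mono (by linarith)
    · have h1 := hUpar s₀ a ha b hb
      rw [hU] at ha hb
      exact hsep o h A₂ E₂ a b hA₂ ha.1 hb.1 h1
  -- start lines
  obtain ⟨St, hSt⟩ : ∃ St : X → Set (ℝ → X), St = fun q =>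
    {b | VL V o C₂ h A₀ E₀ b ∧ ∀ x ∈ Set.Icc (-A₀) A₀, dist (b x) (fl hX o q (h + x)) ≤ Λ₀} :=
    ⟨_, rfl⟩
  obtain ⟨R, hR⟩ : ∃ R : (ℝ → X) → Set (ℝ → X), R = fun s =>
    {c | VL V o C₂ h A₁ E₁ c ∧ (∀ x ∈ Set.Icc (-A₁) A₁, dist (c x) (s x) ≤ Λ₁) ∧
      (wd s c = 0 ∨ (Down hX o h s c ∧ ¬ Down hX o h c s))} := ⟨_, rfl⟩
  have mono0 : ∀ {b : ℝ → X}, VL V o C₂ h A₀ E₀ b → VL V o C₂ h A₁ E₁ b := fun hb =>
    hb.mono (by linarith) hA₀ hE₀1
  have mono1 : ∀ {b : ℝ → X}, VL V o C₂ h A₁ E₁ b → VL V o C₂ h A₂ E₂ b := fun hb =>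
    hb.mono (by linarith) hA₁ hE₁1
  have sub1 : ∀ {x : ℝ}, x ∈ Set.Icc (-A₁) A₁ → x ∈ Set.Icc (-A₀) A₀ := fun hx =>
    ⟨by linarith [hx.1], by linarith [hx.2]⟩
  have sub2 : ∀ {x : ℝ}, x ∈ Set.Icc (-A₂) A₂ → x ∈ Set.Icc (-A₁) A₁ := fun hx =>
    ⟨by linarith [hx.1], by linarith [hx.2]⟩
  have z2 : (0 : ℝ) ∈ Set.Icc (-A₂) A₂ := ⟨by linarith, by linarith⟩
  have zP : (0 : ℝ) ∈ Set.Icc (-(C₂ + 4)) (C₂ + 4) := ⟨by linarith, by linarith⟩
  have hfar : ∀ q, ∀ s ∈ St q, ∃ x ∈ R s, ∀ c ∈ R s, wd s c ≤ wd s x := by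
    intro q s hs
    rw [hSt] at hs
    have hsU : s ∈ U s := by
      rw [hU]
      exact ⟨mono1 (mono0 hs.1), fun x _ => by rw [dist_self]; exact hΛU0⟩
    have hRU : R s ⊆ U s := by
      intro c hc
      rw [hR] at hc
      rw [hU]
      exact ⟨mono1 hc.1, fun x hx => (hc.2.1 x (sub2 hx)).trans (by linarith)⟩
    refine exists_far (htree s) hsU hRU (fun c hc => ?_) ?_ (W := Λ₁) (fun c hc => ?_)
      fun c hc c' hc' => ?_
    · rw [hR] at hc
      exact hc.2.2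
    · rw [hR]
      exact ⟨mono0 hs.1, fun x _ => by rw [dist_self]; exact hΛ₁0, Or.inl (wd_self s)⟩
    · have h1 := wd_le_dist (hUpar s s hsU c (hRU hc)) zP zP
      rw [hR] at hc
      have h2 := hc.2.1 0 (sub2 z2)
      rw [dist_comm] at h2
      exact h1.trans h2
    · rw [hR] at hc hc'
      obtain ⟨m, hm, hms, -, -, b1, b2, b3⟩ := hmed₁ o h s c c' (mono0 hs.1) hc.1 hc'.1
        (fun x hx => by
          have := hc.2.1 x hx
          rw [dist_comm] at this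
          linarith)
        (fun x hx => by
          have := hc'.2.1 x hx
          rw [dist_comm] at this
          linarith)
        (fun x hx => by
          have h1 := hc.2.1 x hx
          have h2 := hc'.2.1 x hx
          rw [dist_comm] at h2
          have h3 := dist_triangle (c x) (s x) (c' x)
          linarith)
      refine ⟨m, ?_, b1, b2, b3⟩
      rw [hU]
      exact ⟨hm, fun x hx => (hms x hx).trans (by linarith)⟩
  -- the choice
  obtain ⟨s, hs⟩ : ∃ s : X → ℝ → X, ∀ q, (St q).Nonempty → s q ∈ St q := by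
    refine ⟨fun q => if hq : (St q).Nonempty then hq.choose else fun _ => q, fun q hq => ?_⟩
    simp only [dif_pos hq]
    exact hq.choose_spec
  obtain ⟨xx, hxx⟩ : ∃ xx : X → ℝ → X, ∀ q, (St q).Nonempty → xx q ∈ R (s q) ∧
      ∀ c ∈ R (s q), wd (s q) c ≤ wd (s q) (xx q) := by
    refine ⟨fun q => if hq : (St q).Nonempty then (hfar q (s q) (hs q hq)).choose else fun _ => q,
      fun q hq => ?_⟩
    simp only [dif_pos hq]
    exact (hfar q (s q) (hs q hq)).choose_spec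
  obtain ⟨out, hout⟩ : ∃ out : X → X, out = fun q =>
      if (St q).Nonempty then xx q 0 else f (fl hX o q h) := ⟨_, rfl⟩
  refine ⟨out, fun q hq => ?_, fun S hS hSL => ?_⟩
  · -- bounded displacement
    have h1 := dist_fl_self hX (o := o) (q := q) (x := h) (by linarith) (by linarith)
    rw [dist_comm, hq] at h1
    rw [hout]
    simp only
    split_ifs with hne
    · have h2 := hs q hne
      rw [hSt] at h2
      have h3 := h2.2 0 ⟨by linarith, by linarith⟩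
      rw [add_zero, dist_comm] at h3
      have h4 := (hxx q hne).1
      rw [hR] at h4
      have h5 := h4.2.1 0 ⟨by linarith, by linarith⟩
      rw [dist_comm] at h5
      have h6 := dist_triangle4 q (fl hX o q h) (s q 0) (xx q 0)
      linarith
    · have h2 := hf1 (fl hX o q h)
      have h3 := dist_triangle q (fl hX o q h) (f (fl hX o q h))
      linarith
  · -- counting
    obtain ⟨S₁, hS₁⟩ : ∃ S₁ : Set X, S₁ = {q ∈ S | (St q).Nonempty} := ⟨_, rfl⟩
    obtain ⟨S₂, hS₂⟩ : ∃ S₂ : Set X, S₂ = {q ∈ S | ¬ (St q).Nonempty} := ⟨_, rfl⟩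
    have hflip : ∀ q ∈ S, ∀ q' ∈ S, ∀ x ∈ Set.Icc (-a) a,
        dist (fl hX o q (h + x)) (fl hX o q' (h + x)) ≤ L := by
      intro q hq q' hq' x hx
      exact (fl_lip hX (by linarith [hx.1]) (by rw [hS q hq]; linarith [hx.2])
        (by rw [hS q' hq']; linarith [hx.2])).trans (hSL q hq q' hq')
    have claim1 : ((fun q => xx q 0) '' S₁).Finite ∧
        (((fun q => xx q 0) '' S₁).ncard : ℝ) ≤ 2 * (W / r + 1) := by
      rcases S₁.eq_empty_or_nonempty with h0 | ⟨q₀, hq₀⟩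
      · rw [h0, Set.image_empty, Set.ncard_empty]
        refine ⟨Set.finite_empty, ?_⟩
        push_cast
        positivity
      have hq : ∀ q ∈ S₁, q ∈ S ∧ s q ∈ St q ∧ xx q ∈ R (s q) ∧
          ∀ c ∈ R (s q), wd (s q) c ≤ wd (s q) (xx q) := by
        intro q hq
        rw [hS₁] at hq
        exact ⟨hq.1, hs q hq.2, hxx q hq.2⟩
      have near0 : ∀ q ∈ S₁, ∀ q' ∈ S₁, ∀ x ∈ Set.Icc (-A₀) A₀,
          dist (s q x) (s q' x) ≤ L' := by
        intro q hq1 q' hq1' x hx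
        obtain ⟨hqS, hst, -⟩ := hq q hq1
        obtain ⟨hqS', hst', -⟩ := hq q' hq1'
        rw [hSt] at hst hst'
        have h1 := hst.2 x hx
        have h2 := hst'.2 x hx
        rw [dist_comm] at h2
        have h3 := hflip q hqS q' hqS' x ⟨by linarith [hx.1], by linarith [hx.2]⟩
        have h4 := dist_triangle4 (s q x) (fl hX o q (h + x)) (fl hX o q' (h + x)) (s q' x)
        linarith
      have near1 : ∀ q ∈ S₁, ∀ q' ∈ S₁, ∀ x ∈ Set.Icc (-A₁) A₁,
          dist (s q x) (xx q' x) ≤ W := by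
        intro q hq1 q' hq1' x hx
        have h1 := near0 q hq1 q' hq1' x (sub1 hx)
        obtain ⟨-, -, h2, -⟩ := hq q' hq1'
        rw [hR] at h2
        have h3 := h2.2.1 x hx
        rw [dist_comm] at h3
        have h4 := dist_triangle (s q x) (s q' x) (xx q' x)
        linarith
      have near2 : ∀ q ∈ S₁, ∀ x ∈ Set.Icc (-A₁) A₁, dist (s q x) (xx q x) ≤ Λ₁ := by
        intro q hq1 x hx
        obtain ⟨-, -, h2, -⟩ := hq q hq1
        rw [hR] at h2
        rw [dist_comm]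
        exact h2.2.1 x hx
      have vs : ∀ q ∈ S₁, VL V o C₂ h A₀ E₀ (s q) := by
        intro q hq1
        obtain ⟨-, h2, -⟩ := hq q hq1
        rw [hSt] at h2
        exact h2.1
      have vx : ∀ q ∈ S₁, VL V o C₂ h A₁ E₁ (xx q) := by
        intro q hq1
        obtain ⟨-, -, h2, -⟩ := hq q hq1
        rw [hR] at h2
        exact h2.1
      have sU : ∀ q ∈ S₁, s q ∈ U (s q₀) := by
        intro q hq1
        rw [hU]
        exact ⟨mono1 (mono0 (vs q hq1)), fun x hx =>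
          (near0 q hq1 q₀ hq₀ x (sub1 (sub2 hx))).trans (by linarith)⟩
      have xU : ∀ q ∈ S₁, xx q ∈ U (s q₀) := by
        intro q hq1
        rw [hU]
        refine ⟨mono1 (vx q hq1), fun x hx => ?_⟩
        rw [dist_comm]
        exact (near1 q₀ hq₀ q hq1 x (sub2 hx)).trans (by linarith)
      refine count (htree (s q₀)) S₁ s xx hq₀ (W := W) sU xU (fun q hq1 => ?_) (fun q hq1 => ?_)
        (fun q hq1 => ?_) (fun q hq1 q' hq1' => ?_) (fun q hq1 q' hq1' => ?_) (fun a => a 0)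
        fun a ha b hb hab => ?_
      · exact (wd_le_dist (hUpar (s q₀) _ (sU q₀ hq₀) _ (xU q hq1)) zP zP).trans
          (near1 q₀ hq₀ q hq1 0 (sub2 z2))
      · obtain ⟨-, -, h2, -⟩ := hq q hq1
        rw [hR] at h2
        exact h2.2.2
      · obtain ⟨m, hm, hms, -, -, b1, b2, b3⟩ := hmed₁ o h (s q₀) (s q) (xx q)
          (mono0 (vs q₀ hq₀)) (mono0 (vs q hq1)) (vx q hq1)
          (fun x hx => (near0 q₀ hq₀ q hq1 x (sub1 hx)).trans (by linarith))
          (fun x hx => (near1 q₀ hq₀ q hq1 x hx).trans (by linarith))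
          (fun x hx => (near2 q hq1 x hx).trans (by linarith))
        refine ⟨m, ?_, b1, b2, b3⟩
        rw [hU]
        exact ⟨hm, fun x hx => (hms x hx).trans (by linarith)⟩
      · obtain ⟨m, hm, hms, -, -, b1, b2, b3⟩ := hmed₁ o h (s q₀) (xx q) (xx q')
          (mono0 (vs q₀ hq₀)) (vx q hq1) (vx q' hq1')
          (fun x hx => (near1 q₀ hq₀ q hq1 x hx).trans (by linarith))
          (fun x hx => (near1 q₀ hq₀ q' hq1' x hx).trans (by linarith))
          (fun x hx => by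
            have h1 := near1 q₀ hq₀ q hq1 x hx
            have h2 := near1 q₀ hq₀ q' hq1' x hx
            rw [dist_comm] at h1
            have h3 := dist_triangle (xx q x) (s q₀ x) (xx q' x)
            linarith)
        refine ⟨m, ?_, b1, b2, b3⟩
        rw [hU]
        exact ⟨hm, fun x hx => (hms x hx).trans (by linarith)⟩
      · obtain ⟨m, hm, hm0, hmq, hmq', b1, b2, b3⟩ := hmed₀ o h (s q₀) (s q) (s q')
          (vs q₀ hq₀) (vs q hq1) (vs q' hq1')
          (fun x hx => near0 q₀ hq₀ q hq1 x hx)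
          (fun x hx => near0 q₀ hq₀ q' hq1' x hx)
          (fun x hx => near0 q hq1 q' hq1' x hx)
        refine ⟨m, ?_, b1, b2, b3, fun e1 e2 => ?_, fun e1 e2 => ?_⟩
        · rw [hU]
          exact ⟨mono1 hm, fun x hx => (hm0 x (sub2 hx)).trans (by linarith)⟩
        · refine (hq q hq1).2.2.2 m ?_
          rw [hR]
          exact ⟨hm, fun x hx => (hmq x hx).trans (by linarith), Or.inr ⟨e1, e2⟩⟩
        · refine (hq q' hq1').2.2.2 m ?_
          rw [hR]
          exact ⟨hm, fun x hx => (hmq' x hx).trans (by linarith), Or.inr ⟨e1, e2⟩⟩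
      · have h1 := (hUpar (s q₀) a ha b hb).mono (P' := 2) (by linarith)
        rw [hU] at ha hb
        exact wd_eq_zero (ha.1.ln hX (by linarith) hE₂1) (hb.1.ln hX (by linarith) hE₂1) h1 hab
    have claim2 : ((fun q => f (fl hX o q h)) '' S₂).Finite ∧
        (((fun q => f (fl hX o q h)) '' S₂).ncard : ℝ) ≤ N * (2 * L / ρ + 2) := by
      rcases S₂.eq_empty_or_nonempty with h0 | hne
      · rw [h0, Set.image_empty, Set.ncard_empty]
        refine ⟨Set.finite_empty, ?_⟩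
        push_cast
        positivity
      obtain ⟨P, hP⟩ : ∃ P : Set X, P = (fun q => fl hX o q h) '' S₂ := ⟨_, rfl⟩
      have himg : (fun q => f (fl hX o q h)) '' S₂ = f '' P := by
        rw [hP, Set.image_image]
      have hPL : ∀ a ∈ P, ∀ b ∈ P, dist a b ≤ L := by
        intro p hp p' hp'
        rw [hP] at hp hp'
        obtain ⟨q, hq, rfl⟩ := hp
        obtain ⟨q', hq', rfl⟩ := hp'
        rw [hS₂] at hq hq'
        have h1 := hflip q hq.1 q' hq'.1 0 ⟨by linarith, by linarith⟩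
        rw [add_zero] at h1
        exact h1
      obtain ⟨u, w, huw, hPs⟩ := hseg P (by rw [hP]; exact hne.image _) hPL (by
        intro p₁ hp₁ p₂ hp₂ p₃ hp₃ l1 l2 l3
        have w12 := hPL _ hp₁ _ hp₂
        have w13 := hPL _ hp₁ _ hp₃
        have w23 := hPL _ hp₂ _ hp₃
        rw [hP] at hp₁ hp₂ hp₃
        obtain ⟨q₁, hq₁, rfl⟩ := hp₁
        obtain ⟨q₂, hq₂, rfl⟩ := hp₂
        obtain ⟨q₃, hq₃, rfl⟩ := hp₃
        rw [hS₂] at hq₁ hq₂ hq₃
        simp only at l1 l2 l3 w12 w13 w23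
        have htri := hflow o q₁ q₂ q₃ Θ h (hS _ hq₁.1) (hS _ hq₂.1) (hS _ hq₃.1)
          (hSL _ hq₁.1 _ hq₂.1) (hSL _ hq₁.1 _ hq₃.1) (hSL _ hq₂.1 _ hq₃.1) (by linarith) hh0
        obtain ⟨m, hm, hnear, -⟩ := hvl o _ _ _ h _ _ _ htri
          ⟨w12, w13, w23, l1, l2, l3⟩
        refine hq₁.2 ⟨m, ?_⟩
        rw [hSt]
        refine ⟨hm, fun x hx => ?_⟩
        obtain ⟨y, hy, hyx, hmy⟩ := hnear x hx
        have hya : y ∈ Set.Icc (-a) a := ⟨by linarith [hy.1], by linarith [hy.2]⟩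
        have hxa : x ∈ Set.Icc (-a) a := ⟨by linarith [hx.1], by linarith [hx.2]⟩
        have e1 := hflip q₁ hq₁.1 q₂ hq₂.1 y hya
        have hl0 : 0 ≤ (dist (fl hX o q₁ h) (fl hX o q₂ h) + dist (fl hX o q₁ h) (fl hX o q₃ h) -
            dist (fl hX o q₂ h) (fl hX o q₃ h)) / (2 * dist (fl hX o q₁ h) (fl hX o q₂ h)) :=
          div_nonneg (by linarith) (by positivity)
        have hl1 : (dist (fl hX o q₁ h) (fl hX o q₂ h) + dist (fl hX o q₁ h) (fl hX o q₃ h) -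
            dist (fl hX o q₂ h) (fl hX o q₃ h)) / (2 * dist (fl hX o q₁ h) (fl hX o q₂ h)) ≤
            1 := by
          rw [div_le_one (by linarith)]
          linarith
        have e2 : dist (fl hX o q₁ (h + y)) (zt hX (fl hX o q₁ (h + y)) (fl hX o q₂ (h + y))
            (dist (fl hX o q₁ h) (fl hX o q₂ h)) (dist (fl hX o q₁ h) (fl hX o q₃ h))
            (dist (fl hX o q₂ h) (fl hX o q₃ h))) ≤ L := by
          unfold zt
          rw [dist_left hX hl0 hl1]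
          exact (mul_le_of_le_one_left dist_nonneg hl1).trans e1
        rw [dist_comm] at e2
        have e3 : dist (fl hX o q₁ (h + y)) (fl hX o q₁ (h + x)) ≤ 2 * C + 5 := by
          rw [dist_fl_fl hX (by linarith [hya.1]) (by rw [hS _ hq₁.1]; linarith [hya.2])
            (by linarith [hxa.1]) (by rw [hS _ hq₁.1]; linarith [hxa.2])]
          have h1 : h + y - (h + x) = y - x := by ring
          rw [h1]
          exact hyx
        have e4 := dist_triangle4 (m x) (zt hX (fl hX o q₁ (h + y)) (fl hX o q₂ (h + y))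
            (dist (fl hX o q₁ h) (fl hX o q₂ h)) (dist (fl hX o q₁ h) (fl hX o q₃ h))
            (dist (fl hX o q₂ h) (fl hX o q₃ h))) (fl hX o q₁ (h + y)) (fl hX o q₁ (h + x))
        linarith)
      have h1 := round_seg hX hρ hf2 huw hPs
      rw [himg]
      exact h1
    have himg : out '' S = ((fun q => xx q 0) '' S₁) ∪ ((fun q => f (fl hX o q h)) '' S₂) := by
      ext z
      constructor
      · rintro ⟨q, hq, rfl⟩
        by_cases hne : (St q).Nonempty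
        · left
          refine ⟨q, by rw [hS₁]; exact ⟨hq, hne⟩, ?_⟩
          rw [hout]
          simp only [if_pos hne]
        · right
          refine ⟨q, by rw [hS₂]; exact ⟨hq, hne⟩, ?_⟩
          rw [hout]
          simp only [if_neg hne]
      · rintro (⟨q, hq, rfl⟩ | ⟨q, hq, rfl⟩)
        · rw [hS₁] at hq
          refine ⟨q, hq.1, ?_⟩
          rw [hout]
          simp only [if_pos hq.2]
        · rw [hS₂] at hq
          refine ⟨q, hq.1, ?_⟩
          rw [hout]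
          simp only [if_neg hq.2]
    rw [himg]
    refine ⟨claim1.1.union claim2.1, ?_⟩
    have h1 : ((((fun q => xx q 0) '' S₁) ∪ ((fun q => f (fl hX o q h)) '' S₂)).ncard : ℝ) ≤
        (((fun q => xx q 0) '' S₁).ncard : ℝ) +
          (((fun q => f (fl hX o q h)) '' S₂).ncard : ℝ) := by
      exact_mod_cast Set.ncard_union_le _ _
    refine h1.trans ((add_le_add claim1.2 claim2.2).trans ?_)
    have hW6 : W ≤ (6 + 5 * D₃) * L := by
      have : D₃ ≤ D₃ * L := le_mul_of_one_le_right hD₃0 hL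
      nlinarith
    have h2 : W / r ≤ (6 + 5 * D₃) / r * L := by
      rw [div_mul_eq_mul_div]
      exact div_le_div_of_nonneg_right hW6 hr.le
    have h3 : 2 * L / ρ + 2 ≤ (2 / ρ + 2) * L := by
      have : 2 * L / ρ = 2 / ρ * L := by ring
      nlinarith
    have h4 : (N : ℝ) * (2 * L / ρ + 2) ≤ N * ((2 / ρ + 2) * L) :=
      mul_le_mul_of_nonneg_left h3 (Nat.cast_nonneg N)
    nlinarith

end Pool.Agent.H78.TA
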