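import Pool.Agent.H78.TA.Defs

/-!
# An affine formula gives parallel segments
-/

set_option autoImplicit false

namespace Pool.Agent.H78.TA

open Pool.Agent.H61.CZ

universe v

variable {X : Type v} [MetricSpace X]

/-- an affine formula gives `Par` -/
theorem par_of_affine {a b : ℝ → X} {P α β : ℝ} (hP : 1 ≤ P) (hβ : |β| ≤ 1 / 2)
    (h : ∀ x ∈ Set.Icc (-P) P, ∀ y ∈ Set.Icc (-P) P,
      dist (a x) (b y) ^ 2 - (x - y) ^ 2 = α + β * (x - y)) :
    Par P a b ∧ sg a b = β / 2 := by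
  obtain ⟨hβ1, hβ2⟩ := abs_le.1 hβ
  have m0 : (0 : ℝ) ∈ Set.Icc (-P) P := ⟨by linarith, by linarith⟩
  have m1 : (1 : ℝ) ∈ Set.Icc (-P) P := ⟨by linarith, by linarith⟩
  have mβ : -(β / 2) ∈ Set.Icc (-P) P := ⟨by linarith, by linarith⟩
  have h10 := h 1 m1 0 m0
  have h01 := h 0 m0 1 m1
  have h00 := h 0 m0 0 m0
  have hb0 := h _ mβ 0 m0
  have hsg : sg a b = β / 2 := by
    rw [sg]
    linarith
  have hnn : 0 ≤ α - β ^ 2 / 4 := by
    have h1 := sq_nonneg (dist (a (-(β / 2))) (b 0))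
    have h2 : dist (a (-(β / 2))) (b 0) ^ 2 = α - β ^ 2 / 4 := by linear_combination hb0
    rwa [h2] at h1
  have hwd : wd a b ^ 2 = α - β ^ 2 / 4 := by
    have h1 : dist (a 0) (b 0) ^ 2 - sg a b ^ 2 = α - β ^ 2 / 4 := by
      rw [hsg]
      linear_combination h00
    rw [wd, h1, Real.sq_sqrt hnn]
  refine ⟨⟨?_, fun x hx y hy => ?_⟩, hsg⟩
  · rw [hsg, abs_le]
    exact ⟨by linarith, by linarith⟩
  · rw [hwd, hsg]
    linear_combination h x hx y hy

end Pool.Agent.H78.TA
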