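import Pool.Agent.H78.TA.NearP
import Pool.Agent.H78.TA.BiAff
import Pool.Agent.H78.TA.Gap
import Pool.Agent.H78.TA.ParAff

/-!
# Two lines of vertices at bounded distance are parallel
-/

set_option autoImplicit false

namespace Pool.Agent.H78.TA

open Pool.Agent.H61.CZ

universe v

variable {X : Type v} [MetricSpace X] {V B : Set X}

private theorem conv_H (hX : CAT0 X) {a : ℝ → X} {α β : ℝ}
    (ha : ∀ x ∈ Set.Icc α β, ∀ y ∈ Set.Icc α β, dist (a x) (a y) = |x - y|) (p : X) (y : ℝ) :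
    ConvexOn ℝ (Set.Icc α β) fun x => dist p (a x) ^ 2 - (x - y) ^ 2 := by
  have h1 := conv_sq hX ha p
  have h2 : ConvexOn ℝ (Set.Icc α β) fun x : ℝ => 2 * x * y - y ^ 2 :=
    ⟨convex_Icc α β, fun x _ z _ r s _ _ hrs => le_of_eq (by
      simp only [smul_eq_mul]
      linear_combination y ^ 2 * hrs)⟩
  have h3 := h1.add h2
  refine h3.congr ?_
  intro x _
  simp only [Pi.add_apply]
  ring

/-- the gap for the seven functions of six vertices -/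
private theorem six (hT : Two X V B) (R : ℝ) : ∃ g : ℝ, 0 < g ∧
    ∀ a₁ ∈ V, ∀ a₂ ∈ V, ∀ a₃ ∈ V, ∀ b₁ ∈ V, ∀ b₂ ∈ V, ∀ b₃ ∈ V,
      (dist a₁ a₂ ≤ R ∧ dist a₂ a₃ ≤ R ∧ dist a₁ a₃ ≤ R ∧
        dist b₁ b₂ ≤ R ∧ dist b₂ b₃ ≤ R ∧ dist b₁ b₃ ≤ R ∧
        dist a₁ b₁ ≤ R ∧ dist a₁ b₂ ≤ R ∧ dist a₁ b₃ ≤ R ∧
        dist a₂ b₁ ≤ R ∧ dist a₂ b₂ ≤ R ∧ dist a₂ b₃ ≤ R ∧
        dist a₃ b₁ ≤ R ∧ dist a₃ b₂ ≤ R ∧ dist a₃ b₃ ≤ R) → 0 ≤ R →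
      |(|dist a₂ b₁ ^ 2 * dist a₁ a₃ - dist a₁ b₁ ^ 2 * dist a₂ a₃ - dist a₃ b₁ ^ 2 * dist a₁ a₂ +
          dist a₁ a₂ * dist a₂ a₃ * dist a₁ a₃| +
        |dist a₂ b₂ ^ 2 * dist a₁ a₃ - dist a₁ b₂ ^ 2 * dist a₂ a₃ - dist a₃ b₂ ^ 2 * dist a₁ a₂ +
          dist a₁ a₂ * dist a₂ a₃ * dist a₁ a₃| +
        |dist a₂ b₃ ^ 2 * dist a₁ a₃ - dist a₁ b₃ ^ 2 * dist a₂ a₃ - dist a₃ b₃ ^ 2 * dist a₁ a₂ +
          dist a₁ a₂ * dist a₂ a₃ * dist a₁ a₃| +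
        |dist a₁ b₂ ^ 2 * dist b₁ b₃ - dist a₁ b₁ ^ 2 * dist b₂ b₃ - dist a₁ b₃ ^ 2 * dist b₁ b₂ +
          dist b₁ b₂ * dist b₂ b₃ * dist b₁ b₃| +
        |dist a₃ b₂ ^ 2 * dist b₁ b₃ - dist a₃ b₁ ^ 2 * dist b₂ b₃ - dist a₃ b₃ ^ 2 * dist b₁ b₂ +
          dist b₁ b₂ * dist b₂ b₃ * dist b₁ b₃| +
        |dist a₁ b₁ ^ 2 + dist a₃ b₃ ^ 2 - dist a₁ b₃ ^ 2 - dist a₃ b₁ ^ 2 +
          2 * dist a₁ a₃ * dist b₁ b₃| +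
        |(dist a₃ b₁ ^ 2 - dist a₁ b₁ ^ 2 - dist a₁ a₃ ^ 2) * dist b₁ b₃ +
          (dist a₁ b₃ ^ 2 - dist a₁ b₁ ^ 2 - dist b₁ b₃ ^ 2) * dist a₁ a₃|)| < g →
      |dist a₂ b₁ ^ 2 * dist a₁ a₃ - dist a₁ b₁ ^ 2 * dist a₂ a₃ - dist a₃ b₁ ^ 2 * dist a₁ a₂ +
          dist a₁ a₂ * dist a₂ a₃ * dist a₁ a₃| +
        |dist a₂ b₂ ^ 2 * dist a₁ a₃ - dist a₁ b₂ ^ 2 * dist a₂ a₃ - dist a₃ b₂ ^ 2 * dist a₁ a₂ +
          dist a₁ a₂ * dist a₂ a₃ * dist a₁ a₃| +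
        |dist a₂ b₃ ^ 2 * dist a₁ a₃ - dist a₁ b₃ ^ 2 * dist a₂ a₃ - dist a₃ b₃ ^ 2 * dist a₁ a₂ +
          dist a₁ a₂ * dist a₂ a₃ * dist a₁ a₃| +
        |dist a₁ b₂ ^ 2 * dist b₁ b₃ - dist a₁ b₁ ^ 2 * dist b₂ b₃ - dist a₁ b₃ ^ 2 * dist b₁ b₂ +
          dist b₁ b₂ * dist b₂ b₃ * dist b₁ b₃| +
        |dist a₃ b₂ ^ 2 * dist b₁ b₃ - dist a₃ b₁ ^ 2 * dist b₂ b₃ - dist a₃ b₃ ^ 2 * dist b₁ b₂ +
          dist b₁ b₂ * dist b₂ b₃ * dist b₁ b₃| +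
        |dist a₁ b₁ ^ 2 + dist a₃ b₃ ^ 2 - dist a₁ b₃ ^ 2 - dist a₃ b₁ ^ 2 +
          2 * dist a₁ a₃ * dist b₁ b₃| +
        |(dist a₃ b₁ ^ 2 - dist a₁ b₁ ^ 2 - dist a₁ a₃ ^ 2) * dist b₁ b₃ +
          (dist a₁ b₃ ^ 2 - dist a₁ b₁ ^ 2 - dist b₁ b₃ ^ 2) * dist a₁ a₃| = 0 := by
  obtain ⟨g, hg, h⟩ := gap hT.disc 6 R (fun D =>
    |D 1 3 ^ 2 * D 0 2 - D 0 3 ^ 2 * D 1 2 - D 2 3 ^ 2 * D 0 1 + D 0 1 * D 1 2 * D 0 2| +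
    |D 1 4 ^ 2 * D 0 2 - D 0 4 ^ 2 * D 1 2 - D 2 4 ^ 2 * D 0 1 + D 0 1 * D 1 2 * D 0 2| +
    |D 1 5 ^ 2 * D 0 2 - D 0 5 ^ 2 * D 1 2 - D 2 5 ^ 2 * D 0 1 + D 0 1 * D 1 2 * D 0 2| +
    |D 0 4 ^ 2 * D 3 5 - D 0 3 ^ 2 * D 4 5 - D 0 5 ^ 2 * D 3 4 + D 3 4 * D 4 5 * D 3 5| +
    |D 2 4 ^ 2 * D 3 5 - D 2 3 ^ 2 * D 4 5 - D 2 5 ^ 2 * D 3 4 + D 3 4 * D 4 5 * D 3 5| +
    |D 0 3 ^ 2 + D 2 5 ^ 2 - D 0 5 ^ 2 - D 2 3 ^ 2 + 2 * D 0 2 * D 3 5| +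
    |(D 2 3 ^ 2 - D 0 3 ^ 2 - D 0 2 ^ 2) * D 3 5 + (D 0 5 ^ 2 - D 0 3 ^ 2 - D 3 5 ^ 2) * D 0 2|)
  refine ⟨g, hg, ?_⟩
  intro a₁ ha₁ a₂ ha₂ a₃ ha₃ b₁ hb₁ b₂ hb₂ b₃ hb₃ hR hR0 hlt
  obtain ⟨r1, r2, r3, r4, r5, r6, r7, r8, r9, r10, r11, r12, r13, r14, r15⟩ := hR
  refine h ![a₁, a₂, a₃, b₁, b₂, b₃] ?_ ?_ hlt
  · intro i
    fin_cases i <;> assumption
  · have key : ∀ i j : Fin 6, i ≤ j → dist (![a₁, a₂, a₃, b₁, b₂, b₃] i)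
        (![a₁, a₂, a₃, b₁, b₂, b₃] j) ≤ R := by
      intro i j hij
      fin_cases i <;> fin_cases j <;> first
        | assumption
        | exact absurd hij (by decide)
        | exact (dist_self _).le.trans hR0
    intro i j
    rcases le_total i j with hij | hij
    · exact key i j hij
    · rw [dist_comm]
      exact key j i hij

private theorem bd3 {h₁ h₂ h₃ φ ν x₁ x₂ x₃ Q : ℝ} (e₁ : |h₁ - φ| ≤ ν) (e₂ : |h₂ - φ| ≤ ν)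
    (e₃ : |h₃ - φ| ≤ ν) (h12 : x₁ < x₂) (h23 : x₂ < x₃) (hQ : x₃ - x₁ ≤ Q) :
    |h₂ * (x₃ - x₁) - h₁ * (x₃ - x₂) - h₃ * (x₂ - x₁)| ≤ 2 * ν * Q := by
  have hν : 0 ≤ ν := (abs_nonneg _).trans e₁
  have i1 : h₂ * (x₃ - x₁) - h₁ * (x₃ - x₂) - h₃ * (x₂ - x₁) =
      (h₂ - φ) * (x₃ - x₁) + -((h₁ - φ) * (x₃ - x₂)) + -((h₃ - φ) * (x₂ - x₁)) := by ring
  rw [i1]
  have a1 : |(h₂ - φ) * (x₃ - x₁)| ≤ ν * (x₃ - x₁) := by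
    rw [abs_mul, abs_of_pos (by linarith : 0 < x₃ - x₁)]
    exact mul_le_mul_of_nonneg_right e₂ (by linarith)
  have a2 : |-((h₁ - φ) * (x₃ - x₂))| ≤ ν * (x₃ - x₂) := by
    rw [abs_neg, abs_mul, abs_of_pos (by linarith : 0 < x₃ - x₂)]
    exact mul_le_mul_of_nonneg_right e₁ (by linarith)
  have a3 : |-((h₃ - φ) * (x₂ - x₁))| ≤ ν * (x₂ - x₁) := by
    rw [abs_neg, abs_mul, abs_of_pos (by linarith : 0 < x₂ - x₁)]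
    exact mul_le_mul_of_nonneg_right e₃ (by linarith)
  have a4 := abs_add_three ((h₂ - φ) * (x₃ - x₁)) (-((h₁ - φ) * (x₃ - x₂)))
    (-((h₃ - φ) * (x₂ - x₁)))
  have a5 : ν * (x₃ - x₁) ≤ ν * Q := mul_le_mul_of_nonneg_left hQ hν
  linarith

theorem lex (hT : Two X V B) {C₂ Λ P k : ℝ} (hC : 0 < C₂) (hΛ : 0 ≤ Λ) (hP : 1 ≤ P) (hk : 0 < k) :
    ∃ A E : ℝ, P ≤ A ∧ 0 < E ∧ E ≤ 1 ∧ ∀ (o : X) (h : ℝ) (a b : ℝ → X), VL V o C₂ h A E a →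
      VL V o C₂ h A E b → (∀ x ∈ Set.Icc (-A) A, dist (a x) (b x) ≤ Λ) →
      Par P a b ∧ |sg a b| ≤ k := by
  set P₀ : ℝ := P + C₂ + 1 with hP₀
  set Q : ℝ := P₀ + C₂ with hQ
  have hQ1 : 1 ≤ Q := by linarith
  obtain ⟨g, hg, hsix⟩ := six hT (Λ + 2 * Q)
  set ν : ℝ := min (min (1 / 4) k) (g / (64 * Q)) with hν
  have hν1 : ν ≤ 1 / 4 := (min_le_left _ _).trans (min_le_left _ _)
  have hν2 : ν ≤ k := (min_le_left _ _).trans (min_le_right _ _)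
  have hν3 : ν * (64 * Q) ≤ g := by
    have : ν ≤ g / (64 * Q) := min_le_right _ _
    rwa [le_div_iff₀ (by positivity)] at this
  have hν0 : 0 < ν := lt_min (lt_min (by norm_num) hk) (by positivity)
  obtain ⟨A, E, hA, hE0, hE1, hnear⟩ := near_product hT.cat hΛ (by linarith : 0 < Q) hν0
  refine ⟨A, E, by linarith, hE0, hE1, fun o h a b ha hb hab => ?_⟩
  have N := hnear o h a b ha.big ha.iso hb.iso ha.ht hb.ht hab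
  obtain ⟨x₁, hx₁, vx₁⟩ := ha.ver (-Q) (by linarith) (by linarith)
  obtain ⟨x₂, hx₂, vx₂⟩ := ha.ver 0 (by linarith) (by linarith)
  obtain ⟨x₃, hx₃, vx₃⟩ := ha.ver P₀ (by linarith) (by linarith)
  obtain ⟨y₁, hy₁, vy₁⟩ := hb.ver (-Q) (by linarith) (by linarith)
  obtain ⟨y₂, hy₂, vy₂⟩ := hb.ver 0 (by linarith) (by linarith)
  obtain ⟨y₃, hy₃, vy₃⟩ := hb.ver P₀ (by linarith) (by linarith)
  obtain ⟨hx₁l, hx₁r⟩ := hx₁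
  obtain ⟨hx₂l, hx₂r⟩ := hx₂
  obtain ⟨hx₃l, hx₃r⟩ := hx₃
  obtain ⟨hy₁l, hy₁r⟩ := hy₁
  obtain ⟨hy₂l, hy₂r⟩ := hy₂
  obtain ⟨hy₃l, hy₃r⟩ := hy₃
  have hx12 : x₁ < x₂ := by linarith
  have hx23 : x₂ < x₃ := by linarith
  have hy12 : y₁ < y₂ := by linarith
  have hy23 : y₂ < y₃ := by linarith
  have mx₁ : x₁ ∈ Set.Icc (-Q) Q := ⟨by linarith, by linarith⟩
  have mx₂ : x₂ ∈ Set.Icc (-Q) Q := ⟨by linarith, by linarith⟩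
  have mx₃ : x₃ ∈ Set.Icc (-Q) Q := ⟨by linarith, by linarith⟩
  have my₁ : y₁ ∈ Set.Icc (-Q) Q := ⟨by linarith, by linarith⟩
  have my₂ : y₂ ∈ Set.Icc (-Q) Q := ⟨by linarith, by linarith⟩
  have my₃ : y₃ ∈ Set.Icc (-Q) Q := ⟨by linarith, by linarith⟩
  have hsub : ∀ x ∈ Set.Icc (-Q) Q, x ∈ Set.Icc (-A) A := fun x hx =>
    ⟨by linarith [hx.1], by linarith [hx.2]⟩
  have da : ∀ x ∈ Set.Icc (-Q) Q, ∀ y ∈ Set.Icc (-Q) Q, x < y → dist (a x) (a y) = y - x := by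
    intro x hx y hy hxy
    rw [ha.iso x (hsub x hx) y (hsub y hy), abs_sub_comm, abs_of_pos (by linarith)]
  have db : ∀ x ∈ Set.Icc (-Q) Q, ∀ y ∈ Set.Icc (-Q) Q, x < y → dist (b x) (b y) = y - x := by
    intro x hx y hy hxy
    rw [hb.iso x (hsub x hx) y (hsub y hy), abs_sub_comm, abs_of_pos (by linarith)]
  have dab : ∀ x ∈ Set.Icc (-Q) Q, ∀ y ∈ Set.Icc (-Q) Q, dist (a x) (b y) ≤ Λ + 2 * Q := by
    intro x hx y hy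
    have h1 := dist_triangle (a x) (b x) (b y)
    have h2 := hab x (hsub x hx)
    have h3 := hb.iso x (hsub x hx) y (hsub y hy)
    have h4 : |x - y| ≤ 2 * Q := by
      rw [abs_le]
      constructor <;> linarith [hx.1, hx.2, hy.1, hy.2]
    linarith
  have a12 := da x₁ mx₁ x₂ mx₂ hx12
  have a23 := da x₂ mx₂ x₃ mx₃ hx23
  have a13 := da x₁ mx₁ x₃ mx₃ (hx12.trans hx23)
  have b12 := db y₁ my₁ y₂ my₂ hy12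
  have b23 := db y₂ my₂ y₃ my₃ hy23
  have b13 := db y₁ my₁ y₃ my₃ (hy12.trans hy23)
  have key := hsix (a x₁) vx₁ (a x₂) vx₂ (a x₃) vx₃ (b y₁) vy₁ (b y₂) vy₂ (b y₃) vy₃
    ⟨by rw [a12]; linarith, by rw [a23]; linarith, by rw [a13]; linarith,
      by rw [b12]; linarith, by rw [b23]; linarith, by rw [b13]; linarith,
      dab _ mx₁ _ my₁, dab _ mx₁ _ my₂, dab _ mx₁ _ my₃,
      dab _ mx₂ _ my₁, dab _ mx₂ _ my₂, dab _ mx₂ _ my₃,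
      dab _ mx₃ _ my₁, dab _ mx₃ _ my₂, dab _ mx₃ _ my₃⟩ (by linarith)
  rw [a12, a23, a13, b12, b23, b13] at key
  -- the function `H`
  set φ : ℝ := dist (a 0) (b 0) ^ 2 with hφ
  have HN : ∀ x ∈ Set.Icc (-Q) Q, ∀ y ∈ Set.Icc (-Q) Q,
      |(dist (a x) (b y) ^ 2 - (x - y) ^ 2) - φ| ≤ ν := by
    intro x hx y hy
    have h1 := N x hx y hy
    have h2 : (dist (a x) (b y) ^ 2 - (x - y) ^ 2) - φ =
        dist (a x) (b y) ^ 2 - (φ + (x - y) ^ 2) := by ring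
    rw [h2]
    exact h1
  have hX3 : x₃ - x₁ ≤ 2 * Q := by linarith
  have hY3 : y₃ - y₁ ≤ 2 * Q := by linarith
  have E1 : ∀ y ∈ Set.Icc (-Q) Q,
      |dist (a x₂) (b y) ^ 2 * (x₃ - x₁) - dist (a x₁) (b y) ^ 2 * (x₃ - x₂) -
        dist (a x₃) (b y) ^ 2 * (x₂ - x₁) + (x₂ - x₁) * (x₃ - x₂) * (x₃ - x₁)| ≤
        2 * ν * (2 * Q) := by
    intro y hy
    have h1 := bd3 (HN x₁ mx₁ y hy) (HN x₂ mx₂ y hy) (HN x₃ mx₃ y hy) hx12 hx23 hX3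
    refine le_trans (le_of_eq (congrArg abs ?_)) h1
    ring
  have E2 : ∀ x ∈ Set.Icc (-Q) Q,
      |dist (a x) (b y₂) ^ 2 * (y₃ - y₁) - dist (a x) (b y₁) ^ 2 * (y₃ - y₂) -
        dist (a x) (b y₃) ^ 2 * (y₂ - y₁) + (y₂ - y₁) * (y₃ - y₂) * (y₃ - y₁)| ≤
        2 * ν * (2 * Q) := by
    intro x hx
    have h1 := bd3 (HN x hx y₁ my₁) (HN x hx y₂ my₂) (HN x hx y₃ my₃) hy12 hy23 hY3
    refine le_trans (le_of_eq (congrArg abs ?_)) h1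
    ring
  have n11 := abs_le.1 (HN x₁ mx₁ y₁ my₁)
  have n13 := abs_le.1 (HN x₁ mx₁ y₃ my₃)
  have n31 := abs_le.1 (HN x₃ mx₃ y₁ my₁)
  have n33 := abs_le.1 (HN x₃ mx₃ y₃ my₃)
  have E3 : |dist (a x₁) (b y₁) ^ 2 + dist (a x₃) (b y₃) ^ 2 - dist (a x₁) (b y₃) ^ 2 -
      dist (a x₃) (b y₁) ^ 2 + 2 * (x₃ - x₁) * (y₃ - y₁)| ≤ 4 * ν := by
    have i1 : dist (a x₁) (b y₁) ^ 2 + dist (a x₃) (b y₃) ^ 2 - dist (a x₁) (b y₃) ^ 2 -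
        dist (a x₃) (b y₁) ^ 2 + 2 * (x₃ - x₁) * (y₃ - y₁) =
        (dist (a x₁) (b y₁) ^ 2 - (x₁ - y₁) ^ 2 - φ) + (dist (a x₃) (b y₃) ^ 2 - (x₃ - y₃) ^ 2 - φ) -
          (dist (a x₁) (b y₃) ^ 2 - (x₁ - y₃) ^ 2 - φ) -
          (dist (a x₃) (b y₁) ^ 2 - (x₃ - y₁) ^ 2 - φ) := by ring
    rw [i1, abs_le]
    constructor <;> linarith [n11.1, n11.2, n13.1, n13.2, n31.1, n31.2, n33.1, n33.2]
  have E4 : |(dist (a x₃) (b y₁) ^ 2 - dist (a x₁) (b y₁) ^ 2 - (x₃ - x₁) ^ 2) * (y₃ - y₁) +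
      (dist (a x₁) (b y₃) ^ 2 - dist (a x₁) (b y₁) ^ 2 - (y₃ - y₁) ^ 2) * (x₃ - x₁)| ≤
      8 * ν * Q := by
    have i1 : (dist (a x₃) (b y₁) ^ 2 - dist (a x₁) (b y₁) ^ 2 - (x₃ - x₁) ^ 2) * (y₃ - y₁) +
        (dist (a x₁) (b y₃) ^ 2 - dist (a x₁) (b y₁) ^ 2 - (y₃ - y₁) ^ 2) * (x₃ - x₁) =
        ((dist (a x₃) (b y₁) ^ 2 - (x₃ - y₁) ^ 2 - φ) -
          (dist (a x₁) (b y₁) ^ 2 - (x₁ - y₁) ^ 2 - φ)) * (y₃ - y₁) +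
        ((dist (a x₁) (b y₃) ^ 2 - (x₁ - y₃) ^ 2 - φ) -
          (dist (a x₁) (b y₁) ^ 2 - (x₁ - y₁) ^ 2 - φ)) * (x₃ - x₁) := by ring
    rw [i1]
    have j1 : |(dist (a x₃) (b y₁) ^ 2 - (x₃ - y₁) ^ 2 - φ) -
        (dist (a x₁) (b y₁) ^ 2 - (x₁ - y₁) ^ 2 - φ)| ≤ 2 * ν := by
      rw [abs_le]
      constructor <;> linarith [n11.1, n11.2, n31.1, n31.2]
    have j2 : |(dist (a x₁) (b y₃) ^ 2 - (x₁ - y₃) ^ 2 - φ) -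
        (dist (a x₁) (b y₁) ^ 2 - (x₁ - y₁) ^ 2 - φ)| ≤ 2 * ν := by
      rw [abs_le]
      constructor <;> linarith [n11.1, n11.2, n13.1, n13.2]
    refine (abs_add_le _ _).trans ?_
    rw [abs_mul, abs_mul, abs_of_pos (by linarith : 0 < y₃ - y₁),
      abs_of_pos (by linarith : 0 < x₃ - x₁)]
    have k1 := mul_le_mul j1 hY3 (by linarith) (by linarith)
    have k2 := mul_le_mul j2 hX3 (by linarith) (by linarith)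
    linarith
  have c1 := E1 y₁ my₁
  have c2 := E1 y₂ my₂
  have c3 := E1 y₃ my₃
  have c4 := E2 x₁ mx₁
  have c5 := E2 x₃ mx₃
  have hS := key (by
    rw [abs_of_nonneg (by positivity)]
    have q1 : ν * 1 ≤ ν * Q := mul_le_mul_of_nonneg_left hQ1 hν0.le
    have q2 : 0 < ν * Q := mul_pos hν0 (by linarith)
    linarith)
  have z1 := abs_nonneg (dist (a x₂) (b y₁) ^ 2 * (x₃ - x₁) - dist (a x₁) (b y₁) ^ 2 * (x₃ - x₂) -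
    dist (a x₃) (b y₁) ^ 2 * (x₂ - x₁) + (x₂ - x₁) * (x₃ - x₂) * (x₃ - x₁))
  have z2 := abs_nonneg (dist (a x₂) (b y₂) ^ 2 * (x₃ - x₁) - dist (a x₁) (b y₂) ^ 2 * (x₃ - x₂) -
    dist (a x₃) (b y₂) ^ 2 * (x₂ - x₁) + (x₂ - x₁) * (x₃ - x₂) * (x₃ - x₁))
  have z3 := abs_nonneg (dist (a x₂) (b y₃) ^ 2 * (x₃ - x₁) - dist (a x₁) (b y₃) ^ 2 * (x₃ - x₂) -
    dist (a x₃) (b y₃) ^ 2 * (x₂ - x₁) + (x₂ - x₁) * (x₃ - x₂) * (x₃ - x₁))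
  have z4 := abs_nonneg (dist (a x₁) (b y₂) ^ 2 * (y₃ - y₁) - dist (a x₁) (b y₁) ^ 2 * (y₃ - y₂) -
    dist (a x₁) (b y₃) ^ 2 * (y₂ - y₁) + (y₂ - y₁) * (y₃ - y₂) * (y₃ - y₁))
  have z5 := abs_nonneg (dist (a x₃) (b y₂) ^ 2 * (y₃ - y₁) - dist (a x₃) (b y₁) ^ 2 * (y₃ - y₂) -
    dist (a x₃) (b y₃) ^ 2 * (y₂ - y₁) + (y₂ - y₁) * (y₃ - y₂) * (y₃ - y₁))
  have z6 := abs_nonneg (dist (a x₁) (b y₁) ^ 2 + dist (a x₃) (b y₃) ^ 2 -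
    dist (a x₁) (b y₃) ^ 2 - dist (a x₃) (b y₁) ^ 2 + 2 * (x₃ - x₁) * (y₃ - y₁))
  have z7 := abs_nonneg ((dist (a x₃) (b y₁) ^ 2 - dist (a x₁) (b y₁) ^ 2 - (x₃ - x₁) ^ 2) *
    (y₃ - y₁) + (dist (a x₁) (b y₃) ^ 2 - dist (a x₁) (b y₁) ^ 2 - (y₃ - y₁) ^ 2) * (x₃ - x₁))
  have w1 := abs_eq_zero.1 (le_antisymm (by linarith) z1)
  have w2 := abs_eq_zero.1 (le_antisymm (by linarith) z2)
  have w3 := abs_eq_zero.1 (le_antisymm (by linarith) z3)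
  have w4 := abs_eq_zero.1 (le_antisymm (by linarith) z4)
  have w5 := abs_eq_zero.1 (le_antisymm (by linarith) z5)
  have w6 := abs_eq_zero.1 (le_antisymm (by linarith) z6)
  have w7 := abs_eq_zero.1 (le_antisymm (by linarith) z7)
  have isoa : ∀ x ∈ Set.Icc x₁ x₃, ∀ y ∈ Set.Icc x₁ x₃, dist (a x) (a y) = |x - y| := by
    intro x hx y hy
    exact ha.iso x ⟨by linarith [hx.1], by linarith [hx.2]⟩ y ⟨by linarith [hy.1], by linarith [hy.2]⟩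
  have isob : ∀ x ∈ Set.Icc y₁ y₃, ∀ y ∈ Set.Icc y₁ y₃, dist (b x) (b y) = |x - y| := by
    intro x hx y hy
    exact hb.iso x ⟨by linarith [hx.1], by linarith [hx.2]⟩ y ⟨by linarith [hy.1], by linarith [hy.2]⟩
  obtain ⟨α, β, hαβ⟩ := biaff (H := fun x y => dist (a x) (b y) ^ 2 - (x - y) ^ 2)
    hx12 hx23 hy12 hy23
    (fun y _ => by
      refine (conv_H hT.cat isoa (b y) y).congr ?_
      intro x _
      simp only [dist_comm (b y) (a x)])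
    (fun x _ => by
      refine (conv_H hT.cat isob (a x) x).congr ?_
      intro y _
      simp only
      ring)
    (by linear_combination w1) (by linear_combination w2) (by linear_combination w3)
    (by linear_combination w4) (by linear_combination w5) (by linear_combination w6)
    (by linear_combination w7)
  have haff : ∀ x ∈ Set.Icc (-P) P, ∀ y ∈ Set.Icc (-P) P,
      dist (a x) (b y) ^ 2 - (x - y) ^ 2 = α + β * (x - y) := by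
    intro x hx y hy
    exact hαβ x ⟨by linarith [hx.1], by linarith [hx.2]⟩ y ⟨by linarith [hy.1], by linarith [hy.2]⟩
  have t1 := haff 1 ⟨by linarith, hP⟩ 0 ⟨by linarith, by linarith⟩
  have t0 := haff 0 ⟨by linarith, by linarith⟩ 0 ⟨by linarith, by linarith⟩
  have u1 := abs_le.1 (HN 1 ⟨by linarith, by linarith⟩ 0 ⟨by linarith, by linarith⟩)
  have u0 := abs_le.1 (HN 0 ⟨by linarith, by linarith⟩ 0 ⟨by linarith, by linarith⟩)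
  have hβ : |β| ≤ 2 * ν := by
    rw [abs_le]
    constructor <;> linarith [u1.1, u1.2, u0.1, u0.2]
  obtain ⟨hpar, hsg⟩ := par_of_affine hP (hβ.trans (by linarith)) haff
  refine ⟨hpar, ?_⟩
  rw [hsg, abs_div, abs_two]
  linarith

end Pool.Agent.H78.TA
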