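import Pool.Agent.H78.TA.Rel
import Pool.Agent.H78.TA.Gap

/-!
# Discreteness of the distances between parallel lines of vertices
-/

set_option autoImplicit false

namespace Pool.Agent.H78.TA

open Pool.Agent.H61.CZ

universe v

variable {X : Type v} [MetricSpace X] {V B : Set X}

/-- the distance of two parallel lines in terms of the distances between three points -/
noncomputable def wf (p q r : ℝ) : ℝ := √(q ^ 2 - ((r ^ 2 - q ^ 2 - p ^ 2) / (2 * p)) ^ 2)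

theorem wf_eq {P : ℝ} {a b : ℝ → X} (h : Par P a b)
    (ha : ∀ x ∈ Set.Icc (-P) P, ∀ y ∈ Set.Icc (-P) P, dist (a x) (a y) = |x - y|)
    {x y z : ℝ} (hx : x ∈ Set.Icc (-P) P) (hy : y ∈ Set.Icc (-P) P) (hz : z ∈ Set.Icc (-P) P)
    (hxy : x < y) : wd a b = wf (dist (a x) (a y)) (dist (a x) (b z)) (dist (a y) (b z)) := by
  have hpos : 0 < y - x := by linarith
  have e1 : dist (a x) (a y) = y - x := by
    rw [ha x hx y hy, abs_sub_comm, abs_of_pos hpos]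
  unfold wf
  rw [e1, h.2 x hx z hz, h.2 y hy z hz]
  have e2 : (wd a b ^ 2 + (y - z + sg a b) ^ 2 - (wd a b ^ 2 + (x - z + sg a b) ^ 2) -
      (y - x) ^ 2) / (2 * (y - x)) = x - z + sg a b := by
    rw [div_eq_iff (by linarith)]
    ring
  rw [e2, add_sub_cancel_right, Real.sqrt_sq (wd_nonneg a b)]

/-- a bound for the distances -/
private theorem Sep_le {P : ℝ} {a b : ℝ → X} (h : Par P a b) {x z u R : ℝ}
    (hx : x ∈ Set.Icc (-P) P) (hz : z ∈ Set.Icc (-P) P) (hw : wd a b ≤ u)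
    (hR : u + |x - z| + 1 ≤ R) : dist (a x) (b z) ≤ R := by
  have h0 := wd_nonneg a b
  have h1 := h.2 x hx z hz
  have h2 : |x - z + sg a b| ≤ |x - z| + 1 := by
    have := abs_add_le (x - z) (sg a b)
    have := h.1
    linarith
  have h3 : (x - z + sg a b) ^ 2 ≤ (|x - z| + 1) ^ 2 := by
    rw [← sq_abs (x - z + sg a b)]
    exact pow_le_pow_left₀ (abs_nonneg _) h2 2
  have h4 : dist (a x) (b z) ^ 2 ≤ (wd a b + (|x - z| + 1)) ^ 2 := by
    have := mul_nonneg h0 (by positivity : 0 ≤ |x - z| + 1)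
    nlinarith
  have h5 : dist (a x) (b z) ≤ wd a b + (|x - z| + 1) :=
    abs_le_of_sq_le_sq' h4 (by positivity) |>.2
  linarith

theorem sep (hT : Two X V B) {C₂ : ℝ} (hC : 0 < C₂) : ∃ r : ℝ, 0 < r ∧ ∀ (o : X)
    (h A E : ℝ) (a b : ℝ → X), C₂ + 4 ≤ A → VL V o C₂ h A E a → VL V o C₂ h A E b →
      Par (C₂ + 4) a b → wd a b = 0 ∨ r ≤ wd a b := by
  obtain ⟨g, g0, hg⟩ := gap hT.disc 3 (2 * C₂ + 4)
    (fun D : Fin 3 → Fin 3 → ℝ => wf (D 0 1) (D 0 2) (D 1 2))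
  refine ⟨min g 1, lt_min g0 one_pos, fun o h A E a b hA ha hb hab => ?_⟩
  by_contra hcon
  rw [not_or, not_le] at hcon
  obtain ⟨h1, h2⟩ := hcon
  have h3 : wd a b < g := h2.trans_le (min_le_left _ _)
  have h4 : wd a b ≤ 1 := (h2.trans_le (min_le_right _ _)).le
  obtain ⟨x, hx, hxV⟩ := ha.ver (-C₂ - 1) (by linarith) (by linarith)
  obtain ⟨y, hy, hyV⟩ := ha.ver 0 (by linarith) (by linarith)
  obtain ⟨z, hz, hzV⟩ := hb.ver 0 (by linarith) (by linarith)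
  have hx' : x ∈ Set.Icc (-(C₂ + 4)) (C₂ + 4) := ⟨by linarith [hx.1], by linarith [hx.2]⟩
  have hy' : y ∈ Set.Icc (-(C₂ + 4)) (C₂ + 4) := ⟨by linarith [hy.1], by linarith [hy.2]⟩
  have hz' : z ∈ Set.Icc (-(C₂ + 4)) (C₂ + 4) := ⟨by linarith [hz.1], by linarith [hz.2]⟩
  have hiso : ∀ x ∈ Set.Icc (-(C₂ + 4)) (C₂ + 4), ∀ y ∈ Set.Icc (-(C₂ + 4)) (C₂ + 4),
      dist (a x) (a y) = |x - y| := fun x hx y hy =>
    ha.iso x ⟨by linarith [hx.1], by linarith [hx.2]⟩ y ⟨by linarith [hy.1], by linarith [hy.2]⟩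
  have hxy : x < y := by linarith [hx.2, hy.1]
  have h5 := wf_eq hab hiso hx' hy' hz' hxy
  have d1 : dist (a x) (a y) ≤ 2 * C₂ + 4 := by
    rw [hiso x hx' y hy']
    exact abs_le.2 ⟨by linarith [hx.1, hy.2], by linarith [hx.2, hy.1]⟩
  have d2 : dist (a x) (b z) ≤ 2 * C₂ + 4 := by
    refine Sep_le hab hx' hz' h4 ?_
    have : |x - z| ≤ 2 * C₂ + 1 := abs_le.2 ⟨by linarith [hx.1, hz.2], by linarith [hx.2, hz.1]⟩
    linarith
  have d3 : dist (a y) (b z) ≤ 2 * C₂ + 4 := by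
    refine Sep_le hab hy' hz' h4 ?_
    have : |y - z| ≤ 2 * C₂ + 1 := abs_le.2 ⟨by linarith [hy.1, hz.2], by linarith [hy.2, hz.1]⟩
    linarith
  have h6 := hg ![a x, a y, b z]
    (fun i => by fin_cases i <;> assumption)
    (fun i j => by
      fin_cases i <;> fin_cases j <;>
        simp only [Matrix.cons_val_zero, Matrix.cons_val_one, Matrix.cons_val, Fin.zero_eta,
          Fin.mk_one, Fin.reduceFinMk, dist_self]
      all_goals first | assumption | (rw [dist_comm]; assumption) | linarith)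
  simp only [Matrix.cons_val_zero, Matrix.cons_val_one, Matrix.cons_val] at h6
  rw [← h5] at h6
  exact h1 (h6 (by rw [abs_of_nonneg (wd_nonneg a b)]; exact h3))

/-- the legs of a tripod of lines are zero or bounded below -/
theorem sep_legs (hT : Two X V B) {C₂ Λ : ℝ} (hC : 0 < C₂) (hΛ : 0 ≤ Λ) : ∃ r : ℝ, 0 < r ∧
    ∀ (o : X) (h A E : ℝ) (a b c : ℝ → X), C₂ + 4 ≤ A → VL V o C₂ h A E a →
      VL V o C₂ h A E b → VL V o C₂ h A E c → Par (C₂ + 4) a b → Par (C₂ + 4) a c →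
      Par (C₂ + 4) b c → wd a b ≤ Λ → wd a c ≤ Λ → wd b c ≤ Λ →
      (|wd a b + wd b c - wd a c| < r → wd a c = wd a b + wd b c) := by
  obtain ⟨g, g0, hg⟩ := gap hT.disc 5 (Λ + 2 * C₂ + 4)
    (fun D : Fin 5 → Fin 5 → ℝ => wf (D 0 1) (D 0 2) (D 1 2) + wf (D 2 3) (D 2 4) (D 3 4) -
      wf (D 0 1) (D 0 4) (D 1 4))
  refine ⟨g, g0, fun o h A E a b c hA ha hb hc hab hac hbc lab lac lbc hlt => ?_⟩
  obtain ⟨x, hx, hxV⟩ := ha.ver (-C₂ - 1) (by linarith) (by linarith)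
  obtain ⟨y, hy, hyV⟩ := ha.ver 0 (by linarith) (by linarith)
  obtain ⟨z, hz, hzV⟩ := hb.ver (-C₂ - 1) (by linarith) (by linarith)
  obtain ⟨w, hw, hwV⟩ := hb.ver 0 (by linarith) (by linarith)
  obtain ⟨u, hu, huV⟩ := hc.ver 0 (by linarith) (by linarith)
  have hx' : x ∈ Set.Icc (-(C₂ + 4)) (C₂ + 4) := ⟨by linarith [hx.1], by linarith [hx.2]⟩
  have hy' : y ∈ Set.Icc (-(C₂ + 4)) (C₂ + 4) := ⟨by linarith [hy.1], by linarith [hy.2]⟩
  have hz' : z ∈ Set.Icc (-(C₂ + 4)) (C₂ + 4) := ⟨by linarith [hz.1], by linarith [hz.2]⟩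
  have hw' : w ∈ Set.Icc (-(C₂ + 4)) (C₂ + 4) := ⟨by linarith [hw.1], by linarith [hw.2]⟩
  have hu' : u ∈ Set.Icc (-(C₂ + 4)) (C₂ + 4) := ⟨by linarith [hu.1], by linarith [hu.2]⟩
  have hisoa : ∀ x ∈ Set.Icc (-(C₂ + 4)) (C₂ + 4), ∀ y ∈ Set.Icc (-(C₂ + 4)) (C₂ + 4),
      dist (a x) (a y) = |x - y| := fun x hx y hy =>
    ha.iso x ⟨by linarith [hx.1], by linarith [hx.2]⟩ y ⟨by linarith [hy.1], by linarith [hy.2]⟩
  have hisob : ∀ x ∈ Set.Icc (-(C₂ + 4)) (C₂ + 4), ∀ y ∈ Set.Icc (-(C₂ + 4)) (C₂ + 4),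
      dist (b x) (b y) = |x - y| := fun x hx y hy =>
    hb.iso x ⟨by linarith [hx.1], by linarith [hx.2]⟩ y ⟨by linarith [hy.1], by linarith [hy.2]⟩
  have hxy : x < y := by linarith [hx.2, hy.1]
  have hzw : z < w := by linarith [hz.2, hw.1]
  have e1 := wf_eq hab hisoa hx' hy' hz' hxy
  have e2 := wf_eq hbc hisob hz' hw' hu' hzw
  have e3 := wf_eq hac hisoa hx' hy' hu' hxy
  have bd : ∀ s t : ℝ, -C₂ - 1 ≤ s → s ≤ C₂ → -C₂ - 1 ≤ t → t ≤ C₂ → |s - t| ≤ 2 * C₂ + 1 :=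
    fun s t h1 h2 h3 h4 => abs_le.2 ⟨by linarith, by linarith⟩
  have bx := bd x
  have xl := hx.1
  have xr : x ≤ C₂ := by linarith [hx.2]
  have yl : -C₂ - 1 ≤ y := by linarith [hy.1]
  have yr : y ≤ C₂ := by linarith [hy.2]
  have zl := hz.1
  have zr : z ≤ C₂ := by linarith [hz.2]
  have wl : -C₂ - 1 ≤ w := by linarith [hw.1]
  have wr : w ≤ C₂ := by linarith [hw.2]
  have ul : -C₂ - 1 ≤ u := by linarith [hu.1]
  have ur : u ≤ C₂ := by linarith [hu.2]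
  have d01 : dist (a x) (a y) ≤ Λ + 2 * C₂ + 4 := by
    rw [hisoa x hx' y hy']
    linarith [bd x y xl xr yl yr]
  have d23 : dist (b z) (b w) ≤ Λ + 2 * C₂ + 4 := by
    rw [hisob z hz' w hw']
    linarith [bd z w zl zr wl wr]
  have d02 : dist (a x) (b z) ≤ Λ + 2 * C₂ + 4 :=
    Sep_le hab hx' hz' lab (by linarith [bd x z xl xr zl zr])
  have d03 : dist (a x) (b w) ≤ Λ + 2 * C₂ + 4 :=
    Sep_le hab hx' hw' lab (by linarith [bd x w xl xr wl wr])
  have d12 : dist (a y) (b z) ≤ Λ + 2 * C₂ + 4 :=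
    Sep_le hab hy' hz' lab (by linarith [bd y z yl yr zl zr])
  have d13 : dist (a y) (b w) ≤ Λ + 2 * C₂ + 4 :=
    Sep_le hab hy' hw' lab (by linarith [bd y w yl yr wl wr])
  have d04 : dist (a x) (c u) ≤ Λ + 2 * C₂ + 4 :=
    Sep_le hac hx' hu' lac (by linarith [bd x u xl xr ul ur])
  have d14 : dist (a y) (c u) ≤ Λ + 2 * C₂ + 4 :=
    Sep_le hac hy' hu' lac (by linarith [bd y u yl yr ul ur])
  have d24 : dist (b z) (c u) ≤ Λ + 2 * C₂ + 4 :=
    Sep_le hbc hz' hu' lbc (by linarith [bd z u zl zr ul ur])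
  have d34 : dist (b w) (c u) ≤ Λ + 2 * C₂ + 4 :=
    Sep_le hbc hw' hu' lbc (by linarith [bd w u wl wr ul ur])
  have h6 := hg ![a x, a y, b z, b w, c u]
    (fun i => by fin_cases i <;> assumption)
    (fun i j => by
      fin_cases i <;> fin_cases j <;>
        simp only [Matrix.cons_val_zero, Matrix.cons_val_one, Matrix.cons_val, Fin.zero_eta,
          Fin.mk_one, Fin.reduceFinMk, dist_self]
      all_goals first | assumption | (rw [dist_comm]; assumption) | linarith)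
  simp only [Matrix.cons_val_zero, Matrix.cons_val_one, Matrix.cons_val] at h6
  rw [← e1, ← e2, ← e3] at h6
  have := h6 hlt
  linarith

end Pool.Agent.H78.TA
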