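import Pool.Agent.H78.TA.VLine
import Pool.Agent.H78.TA.Lex
import Pool.Agent.H78.TA.Sep

/-!
# Medians of lines of vertices
-/

set_option autoImplicit false

namespace Pool.Agent.H78.TA

open Pool.Agent.H61.CZ

universe v

variable {X : Type v} [MetricSpace X] {V B : Set X}

theorem wd_le_dist {P : ℝ} {a b : ℝ → X} (h : Par P a b) {x : ℝ} (hx : x ∈ Set.Icc (-P) P) {y : ℝ}
    (hy : y ∈ Set.Icc (-P) P) : wd a b ≤ dist (a x) (b y) := by
  have h1 := h.2 x hx y hy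
  refine abs_le_of_sq_le_sq' ?_ dist_nonneg |>.2
  rw [h1]
  have := sq_nonneg (x - y + sg a b)
  linarith

theorem dist_le_wd {P : ℝ} {a b : ℝ → X} (h : Par P a b) {x : ℝ} (hx : x ∈ Set.Icc (-P) P) :
    dist (a x) (b x) ≤ wd a b + |sg a b| := by
  have h1 := h.2 x hx x hx
  have h2 := wd_nonneg a b
  have h3 := abs_nonneg (sg a b)
  refine abs_le_of_sq_le_sq' ?_ (by positivity) |>.2
  rw [h1, sub_self, zero_add]
  have h4 := sq_abs (sg a b)
  nlinarith [mul_nonneg h2 h3]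

/-- the tripod of three parallel lines -/
theorem tri_of_par {o : X} {h a' T Λ E E' k' : ℝ} {a b c : ℝ → X} {A : ℝ}
    (hT3 : 3 ≤ T) (hE' : 0 < E') (hE1 : E ≤ 1)
    (hE : E ≤ E' / 4) (hTΛ : Λ ^ 2 ≤ E' * T) (hA : a' + T ≤ A) (hh : A + 2 ≤ h)
    (isoa : ∀ x ∈ Set.Icc (-A) A, ∀ y ∈ Set.Icc (-A) A, dist (a x) (a y) = |x - y|)
    (isob : ∀ x ∈ Set.Icc (-A) A, ∀ y ∈ Set.Icc (-A) A, dist (b x) (b y) = |x - y|)
    (isoc : ∀ x ∈ Set.Icc (-A) A, ∀ y ∈ Set.Icc (-A) A, dist (c x) (c y) = |x - y|)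
    (hta : ∀ x ∈ Set.Icc (-A) A, |dist o (a x) - (h + x)| ≤ E)
    (htb : ∀ x ∈ Set.Icc (-A) A, |dist o (b x) - (h + x)| ≤ E)
    (htc : ∀ x ∈ Set.Icc (-A) A, |dist o (c x) - (h + x)| ≤ E)
    (pab : Par (a' + T) a b) (pac : Par (a' + T) a c) (pbc : Par (a' + T) b c)
    (sab : |sg a b| ≤ E' / 4) (sac : |sg a c| ≤ E' / 4)
    (sab' : |sg a b| ≤ k') (sac' : |sg a c| ≤ k') (sbc' : |sg b c| ≤ k')
    (wab : wd a b ≤ Λ) (wac : wd a c ≤ Λ) :
    Tri o (fun x => a (x - h)) (fun x => b (x - h)) (fun x => c (x - h)) (h - a') (h + a')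
      (wd a b) (wd a c) (wd b c) E' k' := by
  have key : ∀ (b : ℝ → X), Par (a' + T) a b → |sg a b| ≤ E' / 4 → wd a b ≤ Λ →
      ∀ y ∈ Set.Icc (-a') a', dist (b y) (a (y + T)) ≤ T + 3 * E' / 4 := by
    intro b pab sab wab y hy
    obtain ⟨hy1, hy2⟩ := hy
    have h1 := pab.2 (y + T) ⟨by linarith, by linarith⟩ y ⟨by linarith, by linarith⟩
    rw [dist_comm]
    refine abs_le_of_sq_le_sq' ?_ (by positivity) |>.2
    rw [h1]
    have h2 : wd a b ^ 2 ≤ Λ ^ 2 := pow_le_pow_left₀ (wd_nonneg a b) wab 2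
    have h3 : y + T - y + sg a b = T + sg a b := by ring
    rw [h3]
    have h4 := abs_le.1 sab
    have h5 : (T + sg a b) ^ 2 ≤ (T + E' / 4) ^ 2 := pow_le_pow_left₀ (by linarith [abs_le.1 pab.1])
      (by linarith) 2
    nlinarith
  have mem : ∀ x ∈ Set.Icc (h - a') (h + a'), x - h ∈ Set.Icc (-A) A := fun x hx =>
    ⟨by linarith [hx.1], by linarith [hx.2]⟩
  have lip : ∀ (b : ℝ → X), (∀ x ∈ Set.Icc (-A) A, ∀ y ∈ Set.Icc (-A) A,
      dist (b x) (b y) = |x - y|) → ∀ x ∈ Set.Icc (h - a') (h + a'),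
      ∀ y ∈ Set.Icc (h - a') (h + a'), dist (b (x - h)) (b (y - h)) ≤ |x - y| := by
    intro b isob x hx y hy
    rw [isob _ (mem x hx) _ (mem y hy)]
    exact le_of_eq (by congr 1; ring)
  have dd : ∀ (a b : ℝ → X), Par (a' + T) a b → |sg a b| ≤ k' → ∀ x ∈ Set.Icc (h - a') (h + a'),
      |dist (a (x - h)) (b (x - h)) - wd a b| ≤ k' := by
    intro a b pab sab x hx
    have h1 : x - h ∈ Set.Icc (-(a' + T)) (a' + T) :=
      ⟨by linarith [hx.1], by linarith [hx.2]⟩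
    have h2 := wd_le_dist pab h1 h1
    have h3 := dist_le_wd pab h1
    rw [abs_le]
    constructor <;> linarith [abs_nonneg (sg a b)]
  refine ⟨by linarith, lip a isoa, lip b isob, lip c isoc, ?_, dd a b pab sab', dd a c pac sac',
    dd b c pbc sbc'⟩
  intro x hx
  have hy : x - h ∈ Set.Icc (-a') a' := ⟨by linarith [hx.1], by linarith [hx.2]⟩
  have hyT : x - h + T ∈ Set.Icc (-A) A := ⟨by linarith [hy.1], by linarith [hy.2]⟩
  have h1 := abs_le.1 (hta _ hyT)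
  have h2 := abs_le.1 (hta _ (mem x hx))
  have h3 := abs_le.1 (htb _ (mem x hx))
  have h4 := abs_le.1 (htc _ (mem x hx))
  refine ⟨a (x - h + T), by linarith, ⟨by linarith, ?_⟩, ⟨by linarith, ?_⟩, ⟨by linarith, ?_⟩⟩
  · rw [isoa _ (mem x hx) _ hyT]
    have h5 : x - h - (x - h + T) = -T := by ring
    rw [h5, abs_neg, abs_of_nonneg (by linarith)]
    linarith
  · have := key b pab sab wab _ hy
    linarith
  · have := key c pac sac wac _ hy
    linarith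

theorem med (hT : Two X V B) {C Λ A₁ E₁ : ℝ} (hC : EdgeC V B C) (hΛ : 0 ≤ Λ) (hA₁ : 0 < A₁)
    (hE₁ : 0 < E₁) : ∃ A E : ℝ, A₁ ≤ A ∧ 0 < E ∧ E ≤ E₁ ∧ ∀ (o : X) (h : ℝ) (a b c : ℝ → X),
      VL V o (2 * C + 4) h A E a → VL V o (2 * C + 4) h A E b → VL V o (2 * C + 4) h A E c →
      (∀ x ∈ Set.Icc (-A) A, dist (a x) (b x) ≤ Λ) →
      (∀ x ∈ Set.Icc (-A) A, dist (a x) (c x) ≤ Λ) →
      (∀ x ∈ Set.Icc (-A) A, dist (b x) (c x) ≤ Λ) →
      ∃ m : ℝ → X, VL V o (2 * C + 4) h A₁ E₁ m ∧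
        (∀ x ∈ Set.Icc (-A₁) A₁, dist (m x) (a x) ≤ Λ + 4 * C + 10) ∧
        (∀ x ∈ Set.Icc (-A₁) A₁, dist (m x) (b x) ≤ Λ + 4 * C + 10) ∧
        (∀ x ∈ Set.Icc (-A₁) A₁, dist (m x) (c x) ≤ Λ + 4 * C + 10) ∧
        Btw a m b ∧ Btw a m c ∧ Btw b m c := by
  have hX := hT.cat
  have hC0 : 0 ≤ C := hC.1
  obtain ⟨C₂, hC₂⟩ : ∃ C₂ : ℝ, C₂ = 2 * C + 4 := ⟨_, rfl⟩
  have hC₂0 : 0 < C₂ := by rw [hC₂]; linarith
  obtain ⟨Λ', hΛ'⟩ : ∃ Λ' : ℝ, Λ' = Λ + 4 * C + 10 := ⟨_, rfl⟩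
  have hΛ'0 : 0 ≤ Λ' := by rw [hΛ']; linarith
  have hΛΛ' : Λ ≤ Λ' := by rw [hΛ']; linarith
  obtain ⟨A₂, E₂, hA₂, hE₂, -, hlex₂⟩ := lex hT (Λ := Λ') (P := C₂ + 4) (k := 1) hC₂0 hΛ'0
    (by linarith) one_pos
  obtain ⟨r, hr, hsep⟩ := sep_legs hT (Λ := Λ') hC₂0 hΛ'0
  obtain ⟨Ap, hAp⟩ : ∃ Ap : ℝ, Ap = max A₁ A₂ := ⟨_, rfl⟩
  have hAp1 : A₁ ≤ Ap := hAp ▸ le_max_left _ _
  have hAp2 : A₂ ≤ Ap := hAp ▸ le_max_right _ _
  obtain ⟨Ep, hEp⟩ : ∃ Ep : ℝ, Ep = min E₁ E₂ := ⟨_, rfl⟩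
  have hEp0 : 0 < Ep := hEp ▸ lt_min hE₁ hE₂
  have hEp1 : Ep ≤ E₁ := hEp ▸ min_le_left _ _
  have hEp2 : Ep ≤ E₂ := hEp ▸ min_le_right _ _
  obtain ⟨a', E', k', ha', hE', hk', hvl⟩ := vline hT (A := Ap) (E := Ep) (L := Λ + 1)
    (d := r / 2) (η := r / 10) hC (by linarith) hEp0 (by linarith) (by linarith) (by linarith)
  obtain ⟨k₀, hk₀⟩ : ∃ k₀ : ℝ, k₀ = min k' (min (E' / 4) (r / 10)) := ⟨_, rfl⟩
  have hk₀0 : 0 < k₀ := by
    rw [hk₀]
    exact lt_min hk' (lt_min (by linarith) (by linarith))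
  have hk₀1 : k₀ ≤ k' := hk₀ ▸ min_le_left _ _
  have hk₀2 : k₀ ≤ E' / 4 := hk₀ ▸ (min_le_right _ _).trans (min_le_left _ _)
  have hk₀3 : k₀ ≤ r / 10 := hk₀ ▸ (min_le_right _ _).trans (min_le_right _ _)
  obtain ⟨T, hTdef⟩ : ∃ T : ℝ, T = max (C₂ + 4) (Λ ^ 2 / E') := ⟨_, rfl⟩
  have hT1 : C₂ + 4 ≤ T := hTdef ▸ le_max_left _ _
  have hT2 : Λ ^ 2 ≤ E' * T := by
    have h1 : Λ ^ 2 / E' ≤ T := hTdef ▸ le_max_right _ _
    rw [div_le_iff₀ hE'] at h1
    linarith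
  have ha'0 : 0 ≤ a' := by linarith
  obtain ⟨A₃, E₃, hA₃, hE₃, hE₃1, hlex₃⟩ := lex hT (Λ := Λ) (P := a' + T) (k := k₀) hC₂0 hΛ
    (by linarith) hk₀0
  obtain ⟨A, hAdef⟩ : ∃ A : ℝ, A = max A₃ Ap := ⟨_, rfl⟩
  have hAA₃ : A₃ ≤ A := hAdef ▸ le_max_left _ _
  have hAAp : Ap ≤ A := hAdef ▸ le_max_right _ _
  obtain ⟨E, hEdef⟩ : ∃ E : ℝ, E = min E₃ (min Ep (E' / 4)) := ⟨_, rfl⟩
  have hE0 : 0 < E := by
    rw [hEdef]
    exact lt_min hE₃ (lt_min hEp0 (by linarith))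
  have hEE₃ : E ≤ E₃ := hEdef ▸ min_le_left _ _
  have hEEp : E ≤ Ep := hEdef ▸ (min_le_right _ _).trans (min_le_left _ _)
  have hEE' : E ≤ E' / 4 := hEdef ▸ (min_le_right _ _).trans (min_le_right _ _)
  refine ⟨A, E, hAp1.trans hAAp, hE0, hEEp.trans hEp1, ?_⟩
  intro o h a b c ha hb hc cab cac cbc
  rw [← hC₂] at ha hb hc hvl ⊢
  rw [← hΛ']
  -- the three pairs are parallel on a long window
  have mono3 : ∀ {b : ℝ → X}, VL V o C₂ h A E b → VL V o C₂ h A₃ E₃ b := fun hb =>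
    hb.mono (by linarith) hAA₃ hEE₃
  have monop : ∀ {b : ℝ → X}, VL V o C₂ h A E b → VL V o C₂ h Ap Ep b := fun hb =>
    hb.mono (by linarith) hAAp hEEp
  have sub3 : ∀ {x : ℝ}, x ∈ Set.Icc (-A₃) A₃ → x ∈ Set.Icc (-A) A := fun hx =>
    ⟨by linarith [hx.1], by linarith [hx.2]⟩
  obtain ⟨pab, sab⟩ := hlex₃ o h a b (mono3 ha) (mono3 hb) fun x hx => cab x (sub3 hx)
  obtain ⟨pac, sac⟩ := hlex₃ o h a c (mono3 ha) (mono3 hc) fun x hx => cac x (sub3 hx)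
  obtain ⟨pbc, sbc⟩ := hlex₃ o h b c (mono3 hb) (mono3 hc) fun x hx => cbc x (sub3 hx)
  have h0P : (0 : ℝ) ∈ Set.Icc (-(a' + T)) (a' + T) := ⟨by linarith, by linarith⟩
  have h0A : (0 : ℝ) ∈ Set.Icc (-A) A := ⟨by linarith [ha.pos], ha.pos⟩
  have wab : wd a b ≤ Λ := (wd_le_dist pab h0P h0P).trans (cab 0 h0A)
  have wac : wd a c ≤ Λ := (wd_le_dist pac h0P h0P).trans (cac 0 h0A)
  have wbc : wd b c ≤ Λ := (wd_le_dist pbc h0P h0P).trans (cbc 0 h0A)
  have pab' : Par (C₂ + 4) a b := pab.mono (by linarith)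
  have pac' : Par (C₂ + 4) a c := pac.mono (by linarith)
  have pbc' : Par (C₂ + 4) b c := pbc.mono (by linarith)
  have two : (2 : ℝ) ≤ C₂ + 4 := by linarith
  have t1 := wd_tri (pab'.symm.mono two) (pac'.mono two) (pbc'.mono two)
  have t2 := wd_tri (pab'.mono two) (pbc'.mono two) (pac'.mono two)
  have t3 := wd_tri (pac'.mono two) (pbc'.symm.mono two) (pab'.mono two)
  rw [wd_symm a b] at t1
  rw [wd_symm b c] at t3
  have hAp4 : C₂ + 4 ≤ Ap := by linarith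
  have hApA : ∀ {x : ℝ}, x ∈ Set.Icc (-Ap) Ap → x ∈ Set.Icc (-A) A := fun hx =>
    ⟨by linarith [hx.1], by linarith [hx.2]⟩
  have h1A : ∀ {x : ℝ}, x ∈ Set.Icc (-A₁) A₁ → x ∈ Set.Icc (-Ap) Ap := fun hx =>
    ⟨by linarith [hx.1], by linarith [hx.2]⟩
  -- degenerate tripods
  by_cases q1 : wd a b + wd a c - wd b c < r
  · have h1 : Btw b a c := hsep o h Ap Ep b a c hAp4 (monop hb) (monop ha) (monop hc) pab'.symm
      pbc' pac' (by rw [wd_symm a b]; linarith) (by linarith) (by linarith)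
      (by rw [wd_symm a b, abs_lt]; constructor <;> linarith)
    refine ⟨a, (monop ha).mono hA₁.le hAp1 hEp1, fun x hx => ?_, fun x hx => ?_, fun x hx => ?_,
      ?_, ?_, h1⟩
    · rw [dist_self]
      exact hΛ'0
    · exact (cab x (hApA (h1A hx))).trans hΛΛ'
    · exact (cac x (hApA (h1A hx))).trans hΛΛ'
    · show wd a b = wd a a + wd a b
      rw [wd_self, zero_add]
    · show wd a c = wd a a + wd a c
      rw [wd_self, zero_add]
  by_cases q2 : wd a b + wd b c - wd a c < r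
  · have h1 : Btw a b c := hsep o h Ap Ep a b c hAp4 (monop ha) (monop hb) (monop hc) pab'
      pac' pbc' (by linarith) (by linarith) (by linarith)
      (by rw [abs_lt]; constructor <;> linarith)
    refine ⟨b, (monop hb).mono hA₁.le hAp1 hEp1, fun x hx => ?_, fun x hx => ?_, fun x hx => ?_,
      ?_, h1, ?_⟩
    · rw [dist_comm]
      exact (cab x (hApA (h1A hx))).trans hΛΛ'
    · rw [dist_self]
      exact hΛ'0
    · exact (cbc x (hApA (h1A hx))).trans hΛΛ'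
    · show wd a b = wd a b + wd b b
      rw [wd_self, add_zero]
    · show wd b c = wd b b + wd b c
      rw [wd_self, zero_add]
  by_cases q3 : wd a c + wd b c - wd a b < r
  · have h1 : Btw a c b := hsep o h Ap Ep a c b hAp4 (monop ha) (monop hc) (monop hb) pac'
      pab' pbc'.symm (by linarith) (by linarith) (by rw [wd_symm b c]; linarith)
      (by rw [wd_symm b c, abs_lt]; constructor <;> linarith)
    refine ⟨c, (monop hc).mono hA₁.le hAp1 hEp1, fun x hx => ?_, fun x hx => ?_, fun x hx => ?_,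
      h1, ?_, ?_⟩
    · rw [dist_comm]
      exact (cac x (hApA (h1A hx))).trans hΛΛ'
    · rw [dist_comm]
      exact (cbc x (hApA (h1A hx))).trans hΛΛ'
    · rw [dist_self]
      exact hΛ'0
    · show wd a c = wd a c + wd c c
      rw [wd_self, add_zero]
    · show wd b c = wd b c + wd c c
      rw [wd_self, add_zero]
  push Not at q1 q2 q3
  have legs : Legs (wd a b) (wd a c) (wd b c) (Λ + 1) (r / 2) :=
    ⟨by linarith, by linarith, by linarith, by linarith, by linarith, by linarith⟩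
  have tri := tri_of_par (o := o) (h := h) (a' := a') (T := T) (Λ := Λ) (E := E) (E' := E')
    (k' := k') (A := A) (by linarith) hE' (hEE₃.trans hE₃1) hEE' hT2
    (hA₃.trans hAA₃) ha.big ha.iso hb.iso hc.iso ha.ht hb.ht hc.ht pab pac pbc
    (sab.trans hk₀2) (sac.trans hk₀2) (sab.trans hk₀1) (sac.trans hk₀1) (sbc.trans hk₀1) wab wac
  obtain ⟨m, hm, hnear, y, hy, hy1, hy2⟩ := hvl o _ _ _ h _ _ _ tri legs
  have hw0 : 0 < wd a b := by linarith
  obtain ⟨l, hl⟩ : ∃ l : ℝ, l = (wd a b + wd a c - wd b c) / (2 * wd a b) := ⟨_, rfl⟩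
  have hl0 : 0 ≤ l := by
    rw [hl]
    exact div_nonneg (by linarith) (by linarith)
  have hl1 : l ≤ 1 := by
    rw [hl, div_le_one (by linarith)]
    linarith
  have hlw : l * wd a b = (wd a b + wd a c - wd b c) / 2 := by
    rw [hl]
    field_simp
  have hz : ∀ y : ℝ, zt hX (a y) (b y) (wd a b) (wd a c) (wd b c) = pt hX (a y) (b y) l := by
    intro y
    rw [hl]
    rfl
  simp only [add_sub_cancel_left, hz] at hnear hy1 hy2
  have near : ∀ x ∈ Set.Icc (-Ap) Ap, dist (m x) (a x) ≤ Λ' ∧ dist (m x) (b x) ≤ Λ' ∧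
      dist (m x) (c x) ≤ Λ' := by
    intro x hx
    obtain ⟨y, hy, hyx, hmy⟩ := hnear x hx
    have hya : y ∈ Set.Icc (-A) A := ⟨by linarith [hy.1], by linarith [hy.2]⟩
    have hxA := hApA hx
    have d1 : dist (pt hX (a y) (b y) l) (a y) ≤ Λ := by
      rw [dist_comm]
      have h1 := dist_pt_le hX (x := a y) (y := b y) hl0 hl1 (a y)
      rw [dist_self] at h1
      have h2 := cab y hya
      nlinarith
    have d2 : dist (pt hX (a y) (b y) l) (b y) ≤ Λ := by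
      rw [dist_comm]
      have h1 := dist_pt_le hX (x := a y) (y := b y) hl0 hl1 (b y)
      rw [dist_self, dist_comm (b y) (a y)] at h1
      have h2 := cab y hya
      nlinarith
    have d3 : dist (pt hX (a y) (b y) l) (c y) ≤ Λ := by
      rw [dist_comm]
      have h1 := dist_pt_le hX (x := a y) (y := b y) hl0 hl1 (c y)
      have h2 := cac y hya
      have h3 := cbc y hya
      rw [dist_comm] at h2 h3
      nlinarith
    have e1 := ha.iso y hya x hxA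
    have e2 := hb.iso y hya x hxA
    have e3 := hc.iso y hya x hxA
    have t1 := dist_triangle4 (m x) (pt hX (a y) (b y) l) (a y) (a x)
    have t2 := dist_triangle4 (m x) (pt hX (a y) (b y) l) (b y) (b x)
    have t3 := dist_triangle4 (m x) (pt hX (a y) (b y) l) (c y) (c x)
    rw [hΛ']
    refine ⟨by linarith, by linarith, by linarith⟩
  have mono2 : ∀ {b : ℝ → X}, VL V o C₂ h Ap Ep b → VL V o C₂ h A₂ E₂ b := fun hb =>
    hb.mono (by linarith) hAp2 hEp2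
  have sub2 : ∀ {x : ℝ}, x ∈ Set.Icc (-A₂) A₂ → x ∈ Set.Icc (-Ap) Ap := fun hx =>
    ⟨by linarith [hx.1], by linarith [hx.2]⟩
  have pma : Par (C₂ + 4) m a := (hlex₂ o h m a (mono2 hm) (mono2 (monop ha))
    fun x hx => (near x (sub2 hx)).1).1
  have pmb : Par (C₂ + 4) m b := (hlex₂ o h m b (mono2 hm) (mono2 (monop hb))
    fun x hx => (near x (sub2 hx)).2.1).1
  have pmc : Par (C₂ + 4) m c := (hlex₂ o h m c (mono2 hm) (mono2 (monop hc))
    fun x hx => (near x (sub2 hx)).2.2).1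
  have hyP : y ∈ Set.Icc (-(C₂ + 4)) (C₂ + 4) := by
    obtain ⟨h1, h2⟩ := abs_le.1 hy
    exact ⟨by rw [hC₂]; linarith, by rw [hC₂]; linarith⟩
  have hyP' : y ∈ Set.Icc (-(a' + T)) (a' + T) := ⟨by linarith [hyP.1], by linarith [hyP.2]⟩
  have hd := dist_le_wd pab hyP'
  have w1 : wd m a ≤ (wd a b + wd a c - wd b c) / 2 + r / 5 := by
    have h1 := wd_le_dist pma hyP hyP
    have h2 := dist_triangle (m y) (pt hX (a y) (b y) l) (a y)
    have h3 := dist_left hX (x := a y) (y := b y) hl0 hl1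
    rw [dist_comm] at h3
    have h4 : l * dist (a y) (b y) ≤ l * (wd a b + |sg a b|) := mul_le_mul_of_nonneg_left hd hl0
    have h5 : l * |sg a b| ≤ |sg a b| := mul_le_of_le_one_left (abs_nonneg _) hl1
    linarith
  have w2 : wd m b ≤ (wd a b + wd b c - wd a c) / 2 + r / 5 := by
    have h1 := wd_le_dist pmb hyP hyP
    have h2 := dist_triangle (m y) (pt hX (a y) (b y) l) (b y)
    have h3 := dist_right hX (x := a y) (y := b y) hl0 hl1
    have h4 : (1 - l) * dist (a y) (b y) ≤ (1 - l) * (wd a b + |sg a b|) :=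
      mul_le_mul_of_nonneg_left hd (by linarith)
    have h5 : (1 - l) * |sg a b| ≤ |sg a b| :=
      mul_le_of_le_one_left (abs_nonneg _) (by linarith)
    linarith
  have w3 : wd m c ≤ (wd a c + wd b c - wd a b) / 2 + r / 5 := by
    have h1 := wd_le_dist pmc hyP hyP
    have h2 := dist_triangle (m y) (pt hX (a y) (b y) l) (c y)
    have h3 := (abs_le.1 hy2).2
    linarith
  have u1 := wd_tri (pma.symm.mono two) (pmb.mono two) (pab'.mono two)
  have u2 := wd_tri (pma.symm.mono two) (pmc.mono two) (pac'.mono two)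
  have u3 := wd_tri (pmb.symm.mono two) (pmc.mono two) (pbc'.mono two)
  rw [wd_symm m a] at u1 u2
  rw [wd_symm m b] at u3
  have n1 := wd_nonneg m a
  have n2 := wd_nonneg m b
  have n3 := wd_nonneg m c
  have z0 : (0 : ℝ) ∈ Set.Icc (-Ap) Ap := ⟨by linarith, by linarith⟩
  have z1 : (0 : ℝ) ∈ Set.Icc (-(C₂ + 4)) (C₂ + 4) := ⟨by linarith, by linarith⟩
  have v1 : wd m a ≤ Λ' := (wd_le_dist pma z1 z1).trans (near 0 z0).1
  have v2 : wd m b ≤ Λ' := (wd_le_dist pmb z1 z1).trans (near 0 z0).2.1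
  have v3 : wd m c ≤ Λ' := (wd_le_dist pmc z1 z1).trans (near 0 z0).2.2
  refine ⟨m, hm.mono hA₁.le hAp1 hEp1, fun x hx => (near x (h1A hx)).1,
    fun x hx => (near x (h1A hx)).2.1, fun x hx => (near x (h1A hx)).2.2, ?_, ?_, ?_⟩
  · refine hsep o h Ap Ep a m b hAp4 (monop ha) hm (monop hb) pma.symm pab' pmb
      (by rw [wd_symm m a]; exact v1) (by linarith) v2 ?_
    rw [wd_symm m a, abs_lt]
    constructor <;> linarith
  · refine hsep o h Ap Ep a m c hAp4 (monop ha) hm (monop hc) pma.symm pac' pmc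
      (by rw [wd_symm m a]; exact v1) (by linarith) v3 ?_
    rw [wd_symm m a, abs_lt]
    constructor <;> linarith
  · refine hsep o h Ap Ep b m c hAp4 (monop hb) hm (monop hc) pmb.symm pbc' pmc
      (by rw [wd_symm m b]; exact v2) (by linarith) v3 ?_
    rw [wd_symm m b, abs_lt]
    constructor <;> linarith

end Pool.Agent.H78.TA
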