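import Pool.Agent.H78.TA.Cat

/-!
# Two lines at bounded distance: near product
-/

set_option autoImplicit false

namespace Pool.Agent.H78.TA

open Pool.Agent.H61.CZ

universe v

variable {X : Type v} [MetricSpace X]

/-- the downward estimate -/
private theorem down (hX : CAT0 X) {Λ S ν : ℝ} (hΛ : 0 ≤ Λ) (hS : 0 ≤ S) (hν : 0 < ν) :
    ∃ E₀ : ℝ, 0 < E₀ ∧ E₀ ≤ 1 ∧ ∀ (E : ℝ), 0 ≤ E → E ≤ E₀ → ∀ (o p z y : X) (s : ℝ),
      1 ≤ dist o z → 0 ≤ s → s ≤ S → s ≤ dist o z → dist z y = s → dist p z ≤ Λ →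
      dist o p ≤ dist o z + 2 * E → dist o y ≤ dist o z - s + 2 * E →
      dist p y ^ 2 ≤ dist p z ^ 2 + s ^ 2 + ν := by
  set K : ℝ := Λ ^ 2 + S ^ 2 + 8 * S + 1 with hK
  have hKpos : 0 < K := by positivity
  set η : ℝ := ν / (2 * K) with hη
  have hηpos : 0 < η := by positivity
  set M : ℝ := 8 * S + 8 * (S + 1) + 8 * (S + 1) / η with hM
  have hMpos : 0 < M := by positivity
  refine ⟨min 1 (ν / (2 * M)), lt_min one_pos (by positivity), min_le_left _ _, ?_⟩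
  intro E hE0 hE o p z y s hF hs0 hsS hsF hzy hpz hop hoy
  have hE1 : E ≤ 1 := hE.trans (min_le_left _ _)
  have hE2 : E * M ≤ ν / 2 := by
    have h1 : E ≤ ν / (2 * M) := hE.trans (min_le_right _ _)
    calc E * M ≤ ν / (2 * M) * M := mul_le_mul_of_nonneg_right h1 hMpos.le
      _ = ν / 2 := by field_simp
  set F : ℝ := dist o z with hFdef
  have hFpos : 0 < F := by linarith
  have hr0 : 0 ≤ s / F := by positivity
  have hr1 : s / F ≤ 1 := (div_le_one hFpos).2 hsF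
  set n : X := pt hX z o (s / F) with hn
  have h1 := pt_le hX (x := z) (y := o) hr0 hr1 p
  have h2 := pt_le hX (x := z) (y := o) hr0 hr1 y
  rw [← hn, dist_comm z o, ← hFdef] at h1 h2
  have e1 : s / F * F = s := div_mul_cancel₀ _ hFpos.ne'
  -- the distance of `p` and `n`
  have h3 : dist p n ^ 2 ≤ dist p z ^ 2 + s ^ 2 + 8 * E * s := by
    have h4 : dist p o ^ 2 ≤ (F + 2 * E) ^ 2 := by
      rw [dist_comm]
      exact pow_le_pow_left₀ dist_nonneg hop 2
    have h5 : s / F * dist p o ^ 2 ≤ s / F * (F + 2 * E) ^ 2 := mul_le_mul_of_nonneg_left h4 hr0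
    have h6 : s / F * (F + 2 * E) ^ 2 = s * F + 4 * E * s + 4 * E ^ 2 * (s / F) := by
      have : s / F * (F + 2 * E) ^ 2 = (s / F * F) * F + 4 * E * (s / F * F) +
        4 * E ^ 2 * (s / F) := by ring
      rw [this, e1]
    have h7 : s / F * (1 - s / F) * F ^ 2 = s * F - s ^ 2 := by
      have : s / F * (1 - s / F) * F ^ 2 = (s / F * F) * F - (s / F * F) ^ 2 := by ring
      rw [this, e1]
    have h8 : E ^ 2 * (s / F) ≤ E * s := by
      have h9 : s / F ≤ s := div_le_self hs0 hF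
      have h10 : E ^ 2 ≤ E := by nlinarith
      calc E ^ 2 * (s / F) ≤ E * (s / F) := mul_le_mul_of_nonneg_right h10 hr0
        _ ≤ E * s := mul_le_mul_of_nonneg_left h9 hE0
    have h9 : 0 ≤ s / F * dist p z ^ 2 := by positivity
    have h10 : (1 - s / F) * dist p z ^ 2 = dist p z ^ 2 - s / F * dist p z ^ 2 := by ring
    rw [h7, h10] at h1
    linarith
  -- the distance of `y` and `n`
  have h4 : dist y n ^ 2 ≤ 8 * E * (s + 1) := by
    have h5 : dist y o ^ 2 ≤ (F - s + 2 * E) ^ 2 := by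
      rw [dist_comm]
      exact pow_le_pow_left₀ dist_nonneg hoy 2
    have h6 : s / F * dist y o ^ 2 ≤ s / F * (F - s + 2 * E) ^ 2 :=
      mul_le_mul_of_nonneg_left h5 hr0
    rw [dist_comm y z, hzy] at h2
    have h7 : (1 - s / F) * s ^ 2 + s / F * (F - s + 2 * E) ^ 2 - s / F * (1 - s / F) * F ^ 2 =
        s / F * (4 * E * (F - s) + 4 * E ^ 2) := by
      field_simp
      ring
    have h8 : s / F * (4 * E * (F - s) + 4 * E ^ 2) ≤ 4 * E * s + 4 * E ^ 2 := by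
      have h9 : s / F * (4 * E * (F - s) + 4 * E ^ 2) =
          4 * E * (s / F * F) - 4 * E * s * (s / F) + 4 * E ^ 2 * (s / F) := by ring
      rw [h9, e1]
      have h10 : 0 ≤ 4 * E * s * (s / F) := by positivity
      have h11 : 4 * E ^ 2 * (s / F) ≤ 4 * E ^ 2 * 1 :=
        mul_le_mul_of_nonneg_left hr1 (by positivity)
      linarith
    have h9 : E ^ 2 ≤ E := by nlinarith
    have h10 : 0 ≤ E * s := by positivity
    nlinarith
  -- conclusion
  have h5 : dist p y ≤ dist p n + dist y n := by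
    rw [dist_comm y n]
    exact dist_triangle p n y
  have h6 : dist p y ^ 2 ≤ (dist p n + dist y n) ^ 2 := pow_le_pow_left₀ dist_nonneg h5 2
  have h7 : 2 * (dist p n * dist y n) ≤ η * dist p n ^ 2 + dist y n ^ 2 / η := by
    have h8 : 0 ≤ (η * dist p n - dist y n) ^ 2 / η := by positivity
    have h9 : (η * dist p n - dist y n) ^ 2 / η =
        η * dist p n ^ 2 - 2 * (dist p n * dist y n) + dist y n ^ 2 / η := by
      field_simp
      ring
    linarith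
  have h8 : η * dist p n ^ 2 ≤ ν / 2 := by
    have h9 : dist p n ^ 2 ≤ K := by
      have h10 : dist p z ^ 2 ≤ Λ ^ 2 := pow_le_pow_left₀ dist_nonneg hpz 2
      have h11 : s ^ 2 ≤ S ^ 2 := pow_le_pow_left₀ hs0 hsS 2
      have h12 : E * s ≤ 1 * S := mul_le_mul hE1 hsS hs0 zero_le_one
      linarith
    calc η * dist p n ^ 2 ≤ η * K := mul_le_mul_of_nonneg_left h9 hηpos.le
      _ = ν / 2 := by rw [hη]; field_simp
  have h9 : dist y n ^ 2 / η ≤ E * (8 * (S + 1) / η) := by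
    have h10 : dist y n ^ 2 ≤ E * (8 * (S + 1)) := by
      have h11 : E * s ≤ E * S := mul_le_mul_of_nonneg_left hsS hE0
      linarith
    rw [← mul_div_assoc]
    exact div_le_div_of_nonneg_right h10 hηpos.le
  have h10 : E * s ≤ E * S := mul_le_mul_of_nonneg_left hsS hE0
  have h11 : E * M = E * (8 * S) + E * (8 * (S + 1)) + E * (8 * (S + 1) / η) := by
    rw [hM]
    ring
  have h12 : (dist p n + dist y n) ^ 2 =
      dist p n ^ 2 + 2 * (dist p n * dist y n) + dist y n ^ 2 := by ring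
  linarith

/-- the estimate for two curves at a given point of the first one -/
private theorem one_side (hX : CAT0 X) {Λ P ν T A E : ℝ} (hP : 0 < P) (hν : 0 < ν) (hT : 0 < T)
    (hTP : 2 * P ≤ T) (hTν : 2 * P * (Λ ^ 2 + 1) / T ≤ ν) (hA : A = T + 3 * P + 1) (hE0 : 0 ≤ E) (hE1 : E ≤ 1)
    (hd1 : ∀ (o p z y : X) (s : ℝ),
      1 ≤ dist o z → 0 ≤ s → s ≤ 2 * P → s ≤ dist o z → dist z y = s → dist p z ≤ Λ →
      dist o p ≤ dist o z + 2 * E → dist o y ≤ dist o z - s + 2 * E →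
      dist p y ^ 2 ≤ dist p z ^ 2 + s ^ 2 + ν)
    (hd2 : ∀ (o p z y : X) (s : ℝ),
      1 ≤ dist o z → 0 ≤ s → s ≤ T → s ≤ dist o z → dist z y = s → dist p z ≤ Λ →
      dist o p ≤ dist o z + 2 * E → dist o y ≤ dist o z - s + 2 * E →
      dist p y ^ 2 ≤ dist p z ^ 2 + s ^ 2 + 1)
    {o : X} {h : ℝ} {a b : ℝ → X} (hh : A + 2 ≤ h)
    (ha : ∀ x ∈ Set.Icc (-A) A, ∀ y ∈ Set.Icc (-A) A, dist (a x) (a y) = |x - y|)
    (hb : ∀ x ∈ Set.Icc (-A) A, ∀ y ∈ Set.Icc (-A) A, dist (b x) (b y) = |x - y|)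
    (hfa : ∀ x ∈ Set.Icc (-A) A, |dist o (a x) - (h + x)| ≤ E)
    (hfb : ∀ x ∈ Set.Icc (-A) A, |dist o (b x) - (h + x)| ≤ E)
    (hab : ∀ x ∈ Set.Icc (-A) A, dist (a x) (b x) ≤ Λ) {x y : ℝ} (hx : x ∈ Set.Icc (-P) P)
    (hy : y ∈ Set.Icc (-P) P) :
    |dist (a x) (b y) ^ 2 - (dist (a x) (b x) ^ 2 + (x - y) ^ 2)| ≤ ν := by
  have hx1 := hx.1
  have hx2 := hx.2
  have hy1 := hy.1
  have hy2 := hy.2
  have hxA : x ∈ Set.Icc (-A) A := ⟨by linarith, by linarith⟩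
  -- the downward estimate
  have hdown : ∀ s : ℝ, 0 ≤ s → s ≤ 2 * P →
      dist (a x) (b (x - s)) ^ 2 ≤ dist (a x) (b x) ^ 2 + s ^ 2 + ν := by
    intro s hs0 hs1
    have hm : x - s ∈ Set.Icc (-A) A := ⟨by linarith, by linarith⟩
    have f1 := abs_le.1 (hfa x hxA)
    have f2 := abs_le.1 (hfb x hxA)
    have f3 := abs_le.1 (hfb _ hm)
    refine hd1 o (a x) (b x) (b (x - s)) s (by linarith [f2.1]) hs0 hs1 (by linarith [f2.1]) ?_
      (hab x hxA) (by linarith [f1.2, f2.1]) (by linarith [f3.2, f2.1])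
    rw [hb x hxA _ hm, sub_sub_cancel, abs_of_nonneg hs0]
  -- the upward estimate
  have hup : ∀ s : ℝ, 0 ≤ s → s ≤ 2 * P → s ≤ T →
      dist (a x) (b (x + s)) ^ 2 ≤ dist (a x) (b x) ^ 2 + s ^ 2 + ν := by
    intro s hs0 hs1 hsT
    have hm : x + T ∈ Set.Icc (-A) A := ⟨by linarith, by linarith⟩
    have f1 := abs_le.1 (hfa _ hm)
    have f2 := abs_le.1 (hfb _ hm)
    have f3 := abs_le.1 (hfa x hxA)
    have h1 := hd2 o (b (x + T)) (a (x + T)) (a x) T (by linarith [f1.1]) hT.le le_rfl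
      (by linarith [f1.1]) (by rw [ha _ hm x hxA, add_sub_cancel_left, abs_of_pos hT])
      (by rw [dist_comm]; exact hab _ hm) (by linarith [f2.2, f1.1]) (by linarith [f3.2, f1.1])
    have h2 : dist (b (x + T)) (a (x + T)) ^ 2 ≤ Λ ^ 2 := by
      rw [dist_comm]
      exact pow_le_pow_left₀ dist_nonneg (hab _ hm) 2
    have hr0 : 0 ≤ s / T := by positivity
    have hr1 : s / T ≤ 1 := (div_le_one hT).2 hsT
    have e1 : s / T * T = s := div_mul_cancel₀ _ hT.ne'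
    have h3 : b (x + s) = pt hX (b x) (b (x + T)) (s / T) := by
      rw [← iso_pt hX hb hxA hm hr0 hr1]
      congr 1
      linear_combination -e1
    have h4 := pt_le hX (x := b x) (y := b (x + T)) hr0 hr1 (a x)
    have h6 : |x - (x + T)| = T := by
      rw [sub_add_cancel_left, abs_neg, abs_of_pos hT]
    rw [← h3, hb x hxA _ hm, h6] at h4
    rw [dist_comm (b (x + T)) (a x)] at h1
    have h7 : s / T * dist (a x) (b (x + T)) ^ 2 ≤ s / T * (Λ ^ 2 + T ^ 2 + 1) :=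
      mul_le_mul_of_nonneg_left (by linarith) hr0
    have h8 : s / T * (Λ ^ 2 + T ^ 2 + 1) = s / T * (Λ ^ 2 + 1) + s * T := by
      have : s / T * (Λ ^ 2 + T ^ 2 + 1) = s / T * (Λ ^ 2 + 1) + (s / T * T) * T := by ring
      rw [this, e1]
    have h9 : s / T * (1 - s / T) * T ^ 2 = s * T - s ^ 2 := by
      have : s / T * (1 - s / T) * T ^ 2 = (s / T * T) * T - (s / T * T) ^ 2 := by ring
      rw [this, e1]
    have h10 : s / T * (Λ ^ 2 + 1) ≤ ν := by
      refine le_trans ?_ hTν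
      have h11 : s / T * (Λ ^ 2 + 1) = s * (Λ ^ 2 + 1) / T := by ring
      rw [h11]
      refine div_le_div_of_nonneg_right ?_ hT.le
      exact mul_le_mul_of_nonneg_right hs1 (by positivity)
    have h11 : 0 ≤ s / T * dist (a x) (b x) ^ 2 := by positivity
    have h12 : (1 - s / T) * dist (a x) (b x) ^ 2 =
        dist (a x) (b x) ^ 2 - s / T * dist (a x) (b x) ^ 2 := by ring
    rw [h9, h12] at h4
    linarith
  -- convexity
  have hlow : ∀ s : ℝ, 0 ≤ s → s ≤ 2 * P → 2 * dist (a x) (b x) ^ 2 ≤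
      (dist (a x) (b (x + s)) ^ 2 - s ^ 2) + (dist (a x) (b (x - s)) ^ 2 - s ^ 2) := by
    intro s hs0 hs1
    have hm1 : x - s ∈ Set.Icc (-A) A := ⟨by linarith, by linarith⟩
    have hm2 : x + s ∈ Set.Icc (-A) A := ⟨by linarith, by linarith⟩
    have h1 := pt_le hX (x := b (x - s)) (y := b (x + s)) (s := 1 / 2) (by norm_num)
      (by norm_num) (a x)
    have h2 : b x = pt hX (b (x - s)) (b (x + s)) (1 / 2) := by
      rw [← iso_pt hX hb hm1 hm2 (by norm_num) (by norm_num)]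
      congr 1
      ring
    rw [← h2, hb _ hm1 _ hm2, sq_abs] at h1
    linarith
  rcases le_total x y with hxy | hxy
  · have h1 := hup (y - x) (by linarith) (by linarith) (by linarith)
    have h2 := hdown (y - x) (by linarith) (by linarith)
    have h3 := hlow (y - x) (by linarith) (by linarith)
    rw [add_sub_cancel] at h1 h3
    have e : (x - y) ^ 2 = (y - x) ^ 2 := by ring
    rw [abs_le, e]
    constructor <;> linarith
  · have h1 := hup (x - y) (by linarith) (by linarith) (by linarith)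
    have h2 := hdown (x - y) (by linarith) (by linarith)
    have h3 := hlow (x - y) (by linarith) (by linarith)
    rw [sub_sub_cancel] at h2 h3
    rw [abs_le]
    constructor <;> linarith

theorem near_product (hX : CAT0 X) {Λ P ν : ℝ} (hΛ : 0 ≤ Λ) (hP : 0 < P) (hν : 0 < ν) :
    ∃ A E : ℝ, P ≤ A ∧ 0 < E ∧ E ≤ 1 ∧ ∀ (o : X) (h : ℝ) (a b : ℝ → X), A + 2 ≤ h →
      (∀ x ∈ Set.Icc (-A) A, ∀ y ∈ Set.Icc (-A) A, dist (a x) (a y) = |x - y|) →
      (∀ x ∈ Set.Icc (-A) A, ∀ y ∈ Set.Icc (-A) A, dist (b x) (b y) = |x - y|) →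
      (∀ x ∈ Set.Icc (-A) A, |dist o (a x) - (h + x)| ≤ E) →
      (∀ x ∈ Set.Icc (-A) A, |dist o (b x) - (h + x)| ≤ E) →
      (∀ x ∈ Set.Icc (-A) A, dist (a x) (b x) ≤ Λ) →
      ∀ x ∈ Set.Icc (-P) P, ∀ y ∈ Set.Icc (-P) P,
        |dist (a x) (b y) ^ 2 - (dist (a 0) (b 0) ^ 2 + (x - y) ^ 2)| ≤ ν := by
  set T : ℝ := 2 * P * (Λ ^ 2 + 1) / (ν / 3) + 2 * P + 1 with hT
  have hTpos : 0 < T := by positivity
  have hTP : 2 * P ≤ T := by
    have : 0 ≤ 2 * P * (Λ ^ 2 + 1) / (ν / 3) := by positivity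
    linarith
  have hTν : 2 * P * (Λ ^ 2 + 1) / T ≤ ν / 3 := by
    rw [div_le_iff₀ hTpos]
    have h1 : ν / 3 * (2 * P * (Λ ^ 2 + 1) / (ν / 3)) = 2 * P * (Λ ^ 2 + 1) := by
      field_simp
    have h2 : 0 ≤ ν / 3 * (2 * P + 1) := by positivity
    calc 2 * P * (Λ ^ 2 + 1) ≤ ν / 3 * (2 * P * (Λ ^ 2 + 1) / (ν / 3)) + ν / 3 * (2 * P + 1) := by
          linarith
      _ = ν / 3 * T := by rw [hT]; ring
  obtain ⟨E₁, hE₁, hE₁', hd1⟩ := down hX (Λ := Λ) (S := 2 * P) (ν := ν / 3) hΛ (by linarith)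
    (by positivity)
  obtain ⟨E₂, hE₂, hE₂', hd2⟩ := down hX (Λ := Λ) (S := T) (ν := 1) hΛ hTpos.le one_pos
  have hEpos : 0 < min E₁ E₂ := lt_min hE₁ hE₂
  have hE1 : min E₁ E₂ ≤ 1 := (min_le_left _ _).trans hE₁'
  refine ⟨T + 3 * P + 1, min E₁ E₂, by linarith, hEpos, hE1, ?_⟩
  intro o h a b hh ha hb hfa hfb hab x hx y hy
  have hd1' := hd1 (min E₁ E₂) hEpos.le (min_le_left _ _)
  have hd2' := hd2 (min E₁ E₂) hEpos.le (min_le_right _ _)
  have key1 := fun {x y : ℝ} (hx : x ∈ Set.Icc (-P) P) (hy : y ∈ Set.Icc (-P) P) =>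
    one_side hX (A := T + 3 * P + 1) hP (by positivity : 0 < ν / 3) hTpos hTP hTν rfl hEpos.le hE1
      hd1' hd2' hh ha hb hfa hfb hab hx hy
  have hab' : ∀ x ∈ Set.Icc (-(T + 3 * P + 1)) (T + 3 * P + 1), dist (b x) (a x) ≤ Λ := by
    intro x hx
    rw [dist_comm]
    exact hab x hx
  have key2 := fun {x y : ℝ} (hx : x ∈ Set.Icc (-P) P) (hy : y ∈ Set.Icc (-P) P) =>
    one_side hX (A := T + 3 * P + 1) hP (by positivity : 0 < ν / 3) hTpos hTP hTν rfl hEpos.le hE1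
      hd1' hd2' hh hb ha hfb hfa hab' hx hy
  have h0 : (0 : ℝ) ∈ Set.Icc (-P) P := ⟨by linarith, by linarith⟩
  have h1 := abs_le.1 (key1 hx hy)
  have h2 := abs_le.1 (key1 hx h0)
  have h3 := abs_le.1 (key2 h0 hx)
  rw [dist_comm (b 0) (a x), dist_comm (b 0) (a 0)] at h3
  rw [abs_le]
  constructor <;> nlinarith [h1.1, h1.2, h2.1, h2.2, h3.1, h3.2]

end Pool.Agent.H78.TA
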