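import Pool.Agent.H78.TA.Cat

/-!
# Parallel lines: the distance, betweenness, and the relation `Down`
-/

set_option autoImplicit false

namespace Pool.Agent.H78.TA

open Pool.Agent.H61.CZ

universe v

variable {X : Type v} [MetricSpace X]

theorem VL.mono {V : Set X} {o : X} {C₂ h A A' E E' : ℝ} {b : ℝ → X} (hb : VL V o C₂ h A E b)
    (h0 : 0 ≤ A') (hA : A' ≤ A) (hE : E ≤ E') : VL V o C₂ h A' E' b where
  pos := h0
  big := by
    have := hb.big
    linarith
  iso := fun x hx y hy => hb.iso x ⟨by linarith [hx.1], by linarith [hx.2]⟩ y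
    ⟨by linarith [hy.1], by linarith [hy.2]⟩
  lev := hb.lev
  ht := fun x hx => (hb.ht x ⟨by linarith [hx.1], by linarith [hx.2]⟩).trans hE
  ver := fun x h1 h2 => hb.ver x (by linarith) (by linarith)

theorem VL.ln {V : Set X} {o : X} {C₂ h A E : ℝ} {b : ℝ → X} (hX : CAT0 X)
    (hb : VL V o C₂ h A E b) (hA : 2 < A) (hE : E ≤ 1) : Ln o h b := by
  have hc : ∀ x ∈ Set.Icc (-A) A, ∀ y ∈ Set.Icc (-A) A, ∀ r s : ℝ, 0 ≤ r → 0 ≤ s → r + s = 1 →
      dist o (b (r * x + s * y)) ≤ r * dist o (b x) + s * dist o (b y) :=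
    fun x hx y hy r s hr hs hrs => (conv_dist hX (b := b) (α := -A) (β := A) hb.iso o).2
      hx hy hr hs hrs
  have hm : -A ∈ Set.Icc (-A) A := ⟨le_rfl, by linarith⟩
  have h0m : (0 : ℝ) ∈ Set.Icc (-A) A := ⟨by linarith, by linarith⟩
  have h1 : dist o (b (-A)) < h := by
    have := (abs_le.1 (hb.ht (-A) hm)).2
    linarith
  refine ⟨fun x hx y hy => hb.iso x ⟨by linarith [hx.1], by linarith [hx.2]⟩ y
    ⟨by linarith [hy.1], by linarith [hy.2]⟩, hb.lev, fun x hx0 hx2 => ?_, fun x hx2 hx0 => ?_⟩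
  · by_contra hcon
    rw [not_lt] at hcon
    have hpos : 0 < x + A := by linarith
    have h2 := hc _ hm x ⟨by linarith, by linarith⟩ (x / (x + A)) (A / (x + A))
      (by positivity) (by positivity) (by field_simp)
    have h3 : x / (x + A) * -A + A / (x + A) * x = 0 := by
      field_simp
      ring
    rw [h3, hb.lev] at h2
    have h4 : x / (x + A) + A / (x + A) = 1 := by
      field_simp
    have h5 : 0 < x / (x + A) := by positivity
    have h6 : 0 < A / (x + A) := by positivity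
    have h7 := mul_lt_mul_of_pos_left h1 h5
    have h8 := mul_le_mul_of_nonneg_left hcon h6.le
    have h9 : x / (x + A) * h + A / (x + A) * h = h := by rw [← add_mul, h4, one_mul]
    linarith
  · have hpos : 0 < A := by linarith
    have h2 := hc _ hm 0 h0m (-x / A) (1 + x / A)
      (div_nonneg (by linarith) hpos.le) (by
        have : -1 ≤ x / A := by
          rw [le_div_iff₀ hpos]
          linarith
        linarith) (by ring)
    have h3 : -x / A * -A + (1 + x / A) * 0 = x := by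
      field_simp
      ring
    rw [h3, hb.lev] at h2
    have h4 : 0 < -x / A := div_pos (by linarith) hpos
    have h5 : 1 + x / A = 1 - -x / A := by ring
    rw [h5] at h2
    nlinarith

theorem sg_symm (a b : ℝ → X) : sg b a = -sg a b := by
  unfold sg
  rw [dist_comm (b 1) (a 0), dist_comm (b 0) (a 1)]
  ring

theorem wd_symm (a b : ℝ → X) : wd b a = wd a b := by
  unfold wd
  rw [sg_symm a b, dist_comm (b 0) (a 0), neg_sq]

theorem wd_nonneg (a b : ℝ → X) : 0 ≤ wd a b := Real.sqrt_nonneg _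

theorem sg_self (a : ℝ → X) : sg a a = 0 := by
  unfold sg
  rw [dist_comm (a 1) (a 0), sub_self, zero_div]

theorem wd_self (a : ℝ → X) : wd a a = 0 := by
  unfold wd
  rw [sg_self, dist_self]
  simp

theorem Par.symm {P : ℝ} {a b : ℝ → X} (h : Par P a b) : Par P b a := by
  refine ⟨by rw [sg_symm a b, abs_neg]; exact h.1, fun x hx y hy => ?_⟩
  rw [dist_comm, h.2 y hy x hx, wd_symm a b, sg_symm a b]
  ring

theorem Par.mono {P P' : ℝ} {a b : ℝ → X} (h : Par P a b) (hP : P' ≤ P) : Par P' a b :=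
  ⟨h.1, fun x hx y hy => h.2 x ⟨by linarith [hx.1], by linarith [hx.2]⟩ y
    ⟨by linarith [hy.1], by linarith [hy.2]⟩⟩

/-- the foot of the perpendicular from `a 0` -/
theorem Par.foot {P : ℝ} {a b : ℝ → X} (h : Par P a b) (hP : 1 ≤ P) :
    dist (a 0) (b (sg a b)) = wd a b := by
  have h1 := abs_le.1 h.1
  have h2 := h.2 0 ⟨by linarith, by linarith⟩ (sg a b) ⟨by linarith, by linarith⟩
  have h3 : (0 : ℝ) - sg a b + sg a b = 0 := by ring
  rw [h3] at h2
  have h4 : dist (a 0) (b (sg a b)) ^ 2 = wd a b ^ 2 := by linarith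
  exact (sq_eq_sq₀ dist_nonneg (wd_nonneg a b)).1 h4

/-- two points with a given defect -/
private theorem Rel_dist {a b : ℝ → X} (h : Par 2 a b) {x y : ℝ} (hx : |x| ≤ 2) (hy : |y| ≤ 2)
    {u : ℝ} (hu : x - y + sg a b = u) : dist (a x) (b y) = √(wd a b ^ 2 + u ^ 2) := by
  have h2 := h.2 x (abs_le.1 hx) y (abs_le.1 hy)
  rw [hu] at h2
  rw [← h2, Real.sqrt_sq dist_nonneg]

private theorem Rel_dist0 {a b : ℝ → X} (h : Par 2 a b) {x y : ℝ} (hx : |x| ≤ 2) (hy : |y| ≤ 2)
    (hu : x - y + sg a b = 0) : dist (a x) (b y) = wd a b := by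
  rw [Rel_dist h hx hy hu, zero_pow two_ne_zero, add_zero, Real.sqrt_sq (wd_nonneg a b)]

private theorem Rel_le {a b : ℝ → X} (h : Par 2 a b) {x y : ℝ} (hx : |x| ≤ 2) (hy : |y| ≤ 2) :
    wd a b ≤ dist (a x) (b y) := by
  have h2 := h.2 x (abs_le.1 hx) y (abs_le.1 hy)
  refine abs_le_of_sq_le_sq' ?_ dist_nonneg |>.2
  rw [h2]
  have := sq_nonneg (x - y + sg a b)
  linarith

theorem wd_tri {a b c : ℝ → X} (hab : Par 2 a b) (hbc : Par 2 b c) (hac : Par 2 a c) :
    wd a c ≤ wd a b + wd b c := by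
  have h1 := abs_le.1 hab.1
  have h2 := abs_le.1 hbc.1
  have h3 : dist (a 0) (b (sg a b)) = wd a b := hab.foot (by norm_num)
  have h4 : dist (b (sg a b)) (c (sg a b + sg b c)) = wd b c :=
    Rel_dist0 hbc (abs_le.2 ⟨by linarith, by linarith⟩) (abs_le.2 ⟨by linarith, by linarith⟩)
      (by ring)
  have h5 := Rel_le hac (x := 0) (y := sg a b + sg b c) (by norm_num)
    (abs_le.2 ⟨by linarith, by linarith⟩)
  have h6 := dist_triangle (a 0) (b (sg a b)) (c (sg a b + sg b c))
  linarith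

private theorem Rel_lev {a : ℝ → X} {o : X} {h : ℝ} (ha : Ln o h a) {x : ℝ} (hx : |x| ≤ 2)
    (h1 : dist o (a x) = h) : x = 0 := by
  have hx' := abs_le.1 hx
  rcases lt_trichotomy x 0 with h2 | h2 | h2
  · have := ha.dn x hx'.1 h2
    linarith
  · exact h2
  · have := ha.up x h2 hx'.2
    linarith

private theorem Rel_zero {a b : ℝ → X} {o : X} {h : ℝ} (ha : Ln o h a) (hb : Ln o h b)
    (hab : Par 2 a b) (hw : wd a b = 0) : sg a b = 0 ∧ a 0 = b 0 := by
  have h1 := hab.foot (by norm_num)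
  rw [hw] at h1
  have h2 := dist_eq_zero.1 h1
  have h3 : sg a b = 0 := by
    refine Rel_lev hb ?_ ?_
    · have := hab.1
      linarith
    · rw [← h2]
      exact ha.lev
  exact ⟨h3, by rw [h2, h3]⟩

/-- the defects add up to a number of absolute value at least `2` -/
private theorem Rel_mink {a m c : ℝ → X} (ham : Par 2 a m) (hmc : Par 2 m c) (hac : Par 2 a c)
    (hb : Btw a m c) (hw : 0 < wd a c) {x z u : ℝ} (hx : |x| ≤ 2) (hz : |z| ≤ 2)
    (hu : x - z + sg a c = u)
    (hy : |x + sg a m - wd a m / wd a c * (x - z + sg a m + sg m c)| ≤ 2) :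
    u ^ 2 ≤ (x - z + sg a m + sg m c) ^ 2 := by
  set v : ℝ := x - z + sg a m + sg m c with hv
  set y : ℝ := x + sg a m - wd a m / wd a c * v with hydef
  have hb' : wd a c = wd a m + wd m c := hb
  have h1 := Rel_dist hac hx hz hu
  have hp : wd a c ≠ 0 := hw.ne'
  have h2 := Rel_dist ham (x := x) (y := y) hx hy (u := wd a m / wd a c * v) (by
    rw [hydef]; ring)
  have h3 := Rel_dist hmc (x := y) (y := z) hy hz (u := wd m c / wd a c * v) (by
    have e1 : wd m c / wd a c = 1 - wd a m / wd a c := by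
      rw [hb']
      rw [hb'] at hp
      field_simp
      ring
    rw [e1, hydef]
    have : v = x - z + sg a m + sg m c := hv
    linear_combination -this)
  have e2 : √(wd a m ^ 2 + (wd a m / wd a c * v) ^ 2) =
      wd a m / wd a c * √(wd a c ^ 2 + v ^ 2) := by
    have : wd a m ^ 2 + (wd a m / wd a c * v) ^ 2 =
        (wd a m / wd a c) ^ 2 * (wd a c ^ 2 + v ^ 2) := by
      field_simp
    rw [this, Real.sqrt_mul (sq_nonneg _), Real.sqrt_sq (div_nonneg (wd_nonneg _ _) hw.le)]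
  have e3 : √(wd m c ^ 2 + (wd m c / wd a c * v) ^ 2) =
      wd m c / wd a c * √(wd a c ^ 2 + v ^ 2) := by
    have : wd m c ^ 2 + (wd m c / wd a c * v) ^ 2 =
        (wd m c / wd a c) ^ 2 * (wd a c ^ 2 + v ^ 2) := by
      field_simp
    rw [this, Real.sqrt_mul (sq_nonneg _), Real.sqrt_sq (div_nonneg (wd_nonneg _ _) hw.le)]
  have h4 := dist_triangle (a x) (m y) (c z)
  rw [h1, h2, h3, e2, e3] at h4
  have h5 : wd a m / wd a c * √(wd a c ^ 2 + v ^ 2) + wd m c / wd a c * √(wd a c ^ 2 + v ^ 2) =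
      √(wd a c ^ 2 + v ^ 2) := by
    rw [← add_mul, ← add_div, ← hb', div_self hp, one_mul]
  rw [h5] at h4
  have h6 := (Real.sqrt_le_sqrt_iff (by positivity)).1 h4
  linarith

/-- no holonomy -/
theorem Btw.sg {a m c : ℝ → X} {o : X} {h : ℝ} (hla : Ln o h a) (hlm : Ln o h m) (hlc : Ln o h c)
    (ham : Par 2 a m) (hmc : Par 2 m c) (hac : Par 2 a c) (hb : Btw a m c) :
    sg a c = sg a m + sg m c := by
  have hb' : wd a c = wd a m + wd m c := hb
  have n1 := wd_nonneg a m
  have n2 := wd_nonneg m c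
  rcases eq_or_lt_of_le (wd_nonneg a c) with hw | hw
  · have e1 : wd a m = 0 := by linarith
    have e2 : wd m c = 0 := by linarith
    rw [(Rel_zero hla hlc hac hw.symm).1, (Rel_zero hla hlm ham e1).1,
      (Rel_zero hlm hlc hmc e2).1, add_zero]
  · have b1 := abs_le.1 ham.1
    have b2 := abs_le.1 hmc.1
    have b3 := abs_le.1 hac.1
    have r0 : 0 ≤ wd a m / wd a c := div_nonneg n1 hw.le
    have r1 : wd a m / wd a c ≤ 1 := (div_le_one hw).2 (by linarith)
    set κ : ℝ := TA.sg a m + TA.sg m c - TA.sg a c with hκ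
    have k1 : (2 : ℝ) ^ 2 ≤ (2 + κ) ^ 2 := by
      have e : (1 : ℝ) - (-1 + TA.sg a c) + TA.sg a m + TA.sg m c = 2 + κ := by
        rw [hκ]; ring
      have := Rel_mink ham hmc hac hb hw (x := 1) (z := -1 + TA.sg a c) (u := 2) (by norm_num)
        (abs_le.2 ⟨by linarith, by linarith⟩) (by ring) (by
          rw [e]
          have t0 : 0 ≤ wd a m / wd a c * (2 + κ) := mul_nonneg r0 (by linarith)
          have t1 : wd a m / wd a c * (2 + κ) ≤ 2 + κ :=
            mul_le_of_le_one_left (by linarith) r1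
          exact abs_le.2 ⟨by linarith, by linarith⟩)
      rwa [e] at this
    have k2 : (-2 : ℝ) ^ 2 ≤ (-2 + κ) ^ 2 := by
      have e : (-1 : ℝ) - (1 + TA.sg a c) + TA.sg a m + TA.sg m c = -2 + κ := by
        rw [hκ]; ring
      have := Rel_mink ham hmc hac hb hw (x := -1) (z := 1 + TA.sg a c) (u := -2) (by norm_num)
        (abs_le.2 ⟨by linarith, by linarith⟩) (by ring) (by
          rw [e]
          have t0 : 0 ≤ wd a m / wd a c * (2 - κ) := mul_nonneg r0 (by linarith)
          have t1 : wd a m / wd a c * (2 - κ) ≤ 2 - κ :=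
            mul_le_of_le_one_left (by linarith) r1
          have t2 : wd a m / wd a c * (-2 + κ) = -(wd a m / wd a c * (2 - κ)) := by ring
          rw [t2]
          exact abs_le.2 ⟨by linarith, by linarith⟩)
      rwa [e] at this
    have k3 : 0 ≤ κ := by nlinarith
    have k4 : κ ≤ 0 := by nlinarith
    linarith

/-- the foot on the third line -/
private theorem Rel_foot {a m c : ℝ → X} {o : X} {h : ℝ} (hla : Ln o h a) (hlm : Ln o h m)
    (hlc : Ln o h c) (ham : Par 2 a m) (hmc : Par 2 m c) (hac : Par 2 a c) (hb : Btw a m c) :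
    dist (m (TA.sg a m)) (c (TA.sg a c)) = wd m c := by
  have b1 := abs_le.1 ham.1
  have b3 := abs_le.1 hac.1
  refine Rel_dist0 hmc (abs_le.2 ⟨by linarith, by linarith⟩)
    (abs_le.2 ⟨by linarith, by linarith⟩) ?_
  rw [Btw.sg hla hlm hlc ham hmc hac hb]
  ring

/-- the point of `m` is on the horizontal segment -/
theorem Btw.pt (hX : CAT0 X) {a m c : ℝ → X} {o : X} {h : ℝ} (hla : Ln o h a) (hlm : Ln o h m)
    (hlc : Ln o h c) (ham : Par 2 a m) (hmc : Par 2 m c) (hac : Par 2 a c) (hb : Btw a m c)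
    (hw : 0 < wd a c) :
    m (TA.sg a m) = TA.pt hX (a 0) (c (TA.sg a c)) (wd a m / wd a c) := by
  have hb' : wd a c = wd a m + wd m c := hb
  have n1 := wd_nonneg a m
  have n2 := wd_nonneg m c
  refine pt_unique hX (div_nonneg n1 hw.le) ((div_le_one hw).2 (by linarith)) ?_ ?_
  · rw [ham.foot (by norm_num), hac.foot (by norm_num), div_mul_cancel₀ _ hw.ne']
  · rw [Rel_foot hla hlm hlc ham hmc hac hb, hac.foot (by norm_num), sub_mul, one_mul,
      div_mul_cancel₀ _ hw.ne']
    linarith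

theorem wd_eq_zero {a b : ℝ → X} {o : X} {h : ℝ} (ha : Ln o h a) (hb : Ln o h b) (hab : Par 2 a b)
    (hw : wd a b = 0) : a 0 = b 0 := (Rel_zero ha hb hab hw).2

/-- two lines on the same horizontal segment -/
theorem btw_unique (hX : CAT0 X) {a x y c : ℝ → X} {o : X} {h : ℝ} (hla : Ln o h a)
    (hlx : Ln o h x) (hly : Ln o h y) (hlc : Ln o h c) (hax : Par 2 a x) (hay : Par 2 a y)
    (hac : Par 2 a c) (hxc : Par 2 x c) (hyc : Par 2 y c) (hxy : Par 2 x y) (h1 : Btw a x c)
    (h2 : Btw a y c) (h3 : wd a x ≤ wd a y) : wd x y = wd a y - wd a x := by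
  have h1' : wd a c = wd a x + wd x c := h1
  have h2' : wd a c = wd a y + wd y c := h2
  have n1 := wd_nonneg a x
  have n2 := wd_nonneg x c
  have n3 := wd_nonneg a y
  have n4 := wd_nonneg y c
  have n5 := wd_nonneg x y
  have lo := wd_tri hax hxy hay
  refine le_antisymm ?_ (by linarith)
  rcases eq_or_lt_of_le (wd_nonneg a c) with hw | hw
  · have hi := wd_tri hax.symm hay hxy
    rw [wd_symm a x] at hi
    linarith
  · have e1 := Btw.pt hX hla hlx hlc hax hxc hac h1 hw
    have e2 := Btw.pt hX hla hly hlc hay hyc hac h2 hw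
    have e3 := dist_pt_pt hX (x := a 0) (y := c (TA.sg a c)) (s := wd a x / wd a c)
      (s' := wd a y / wd a c) (div_nonneg n1 hw.le) ((div_le_one hw).2 (by linarith))
      (div_nonneg n3 hw.le) ((div_le_one hw).2 (by linarith))
    rw [← e1, ← e2, hac.foot (by norm_num), ← sub_div, abs_div, abs_of_pos hw,
      div_mul_cancel₀ _ hw.ne', abs_sub_comm, abs_of_nonneg (by linarith)] at e3
    rw [← e3]
    have b1 := abs_le.1 hax.1
    have b2 := abs_le.1 hay.1
    exact Rel_le hxy (abs_le.2 ⟨by linarith, by linarith⟩) (abs_le.2 ⟨by linarith, by linarith⟩)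

theorem down_d1 (hX : CAT0 X) {a m c : ℝ → X} {o : X} {h : ℝ} (hla : Ln o h a) (hlm : Ln o h m)
    (hlc : Ln o h c) (ham : Par 2 a m) (hmc : Par 2 m c) (hac : Par 2 a c) (hb : Btw a m c)
    (h1 : Down hX o h m a) (h2 : Down hX o h m c) : False := by
  obtain ⟨s, s0, s1, hs⟩ := h1
  obtain ⟨t, t0, t1, ht⟩ := h2
  have hb' : wd a c = wd a m + wd m c := hb
  have b1 := abs_le.1 ham.1
  have b2 := abs_le.1 hmc.1
  have f1 : dist (m 0) (a (TA.sg m a)) = wd m a := ham.symm.foot (by norm_num)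
  have f2 : dist (m 0) (c (TA.sg m c)) = wd m c := hmc.foot (by norm_num)
  have f3 : dist (a (TA.sg m a)) (c (TA.sg m c)) = wd a c := by
    refine Rel_dist0 hac ?_ ?_ ?_
    · rw [sg_symm a m, abs_neg]
      have := ham.1
      linarith
    · have := hmc.1
      linarith
    · rw [sg_symm a m, Btw.sg hla hlm hlc ham hmc hac hb]
      ring
  set p := TA.pt hX (m 0) (a (TA.sg m a)) s with hp
  set q := TA.pt hX (m 0) (c (TA.sg m c)) t with hq
  rw [wd_symm a m] at f1
  have g1 : dist (m 0) p = s * wd a m := by rw [hp, dist_left hX s0 s1, f1]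
  have g2 : dist p (a (TA.sg m a)) = (1 - s) * wd a m := by rw [hp, dist_right hX s0 s1, f1]
  have g3 : dist (m 0) q = t * wd m c := by rw [hq, dist_left hX t0 t1, f2]
  have g4 : dist q (c (TA.sg m c)) = (1 - t) * wd m c := by rw [hq, dist_right hX t0 t1, f2]
  have g5 := dist_triangle4 (a (TA.sg m a)) p q (c (TA.sg m c))
  have g6 := dist_triangle p (m 0) q
  rw [dist_comm (a (TA.sg m a)) p, f3, g2, g4, hb'] at g5
  rw [dist_comm p (m 0), g1, g3] at g6
  have g7 : dist p q = dist p (m 0) + dist (m 0) q := by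
    rw [dist_comm p (m 0), g1, g3]
    linarith
  obtain ⟨r, r0, r1, hr⟩ := exists_pt hX g7
  have g8 := dist_pt_le hX (x := p) (y := q) r0 r1 o
  rw [← hr, hlm.lev] at g8
  rcases eq_or_lt_of_le r0 with h0 | h0
  · rw [← h0] at g8
    linarith
  · nlinarith

private theorem Rel_lt {a b : X} (hX : CAT0 X) {o : X} {h s t : ℝ} (h0 : dist o a = h)
    (s1 : s ≤ 1) (t0 : 0 < t) (ts : t ≤ s) (hs : dist o (TA.pt hX a b s) < h) :
    dist o (TA.pt hX a b t) < h := by
  have s0 : 0 < s := by linarith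
  have r0 : 0 < t / s := by positivity
  have r1 : t / s ≤ 1 := (div_le_one s0).2 ts
  have h1 := dist_pt_le hX (x := a) (y := TA.pt hX a b s) r0.le r1 o
  rw [pt_pt_left hX s0.le s1 r0.le r1, div_mul_cancel₀ _ s0.ne', h0] at h1
  nlinarith

theorem down_d2a (hX : CAT0 X) {a m c : ℝ → X} {o : X} {h : ℝ} (hla : Ln o h a) (hlm : Ln o h m)
    (hlc : Ln o h c) (ham : Par 2 a m) (hmc : Par 2 m c) (hac : Par 2 a c) (hb : Btw a m c)
    (hw : 0 < wd a m) (h1 : Down hX o h a c) : Down hX o h a m := by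
  obtain ⟨s, s0, s1, hs⟩ := h1
  have hb' : wd a c = wd a m + wd m c := hb
  have n2 := wd_nonneg m c
  have hw' : 0 < wd a c := by linarith
  have e1 := Btw.pt hX hla hlm hlc ham hmc hac hb hw'
  have s0' : 0 < s := by
    rcases eq_or_lt_of_le s0 with h0 | h0
    · rw [← h0, pt_zero, hla.lev] at hs
      exact absurd hs (lt_irrefl _)
    · exact h0
  have r0 : 0 < wd a m / wd a c := by positivity
  have r1 : wd a m / wd a c ≤ 1 := (div_le_one hw').2 (by linarith)
  set r := wd a m / wd a c with hr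
  have t0 : 0 < min s r := lt_min s0' r0
  have u1 : min s r / r ≤ 1 := (div_le_one r0).2 (min_le_right _ _)
  refine ⟨min s r / r, by positivity, u1, ?_⟩
  rw [e1, pt_pt_left hX r0.le r1 (by positivity) u1, div_mul_cancel₀ _ r0.ne']
  exact Rel_lt hX hla.lev s1 t0 (min_le_left _ _) hs

theorem down_d2b (hX : CAT0 X) {a m c : ℝ → X} {o : X} {h : ℝ} (hla : Ln o h a) (hlm : Ln o h m)
    (hlc : Ln o h c) (ham : Par 2 a m) (hmc : Par 2 m c) (hac : Par 2 a c) (hb : Btw a m c)
    (h1 : Down hX o h a m) : Down hX o h a c := by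
  obtain ⟨s, s0, s1, hs⟩ := h1
  have hb' : wd a c = wd a m + wd m c := hb
  have n1 := wd_nonneg a m
  have n2 := wd_nonneg m c
  rcases eq_or_lt_of_le (wd_nonneg a c) with hw | hw
  · have e1 : wd a m = 0 := by linarith
    have e2 := Rel_zero hla hlm ham e1
    rw [e2.1, ← e2.2, pt_self hX _ s0 s1, hla.lev] at hs
    exact absurd hs (lt_irrefl _)
  · have e1 := Btw.pt hX hla hlm hlc ham hmc hac hb hw
    have r0 : 0 ≤ wd a m / wd a c := by positivity
    have r1 : wd a m / wd a c ≤ 1 := (div_le_one hw).2 (by linarith)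
    rw [e1, pt_pt_left hX r0 r1 s0 s1] at hs
    exact ⟨s * (wd a m / wd a c), mul_nonneg s0 r0, mul_le_one₀ s1 r0 r1, hs⟩

theorem down_d3 (hX : CAT0 X) {b c : ℝ → X} {o : X} {h : ℝ} (hlb : Ln o h b) (hlc : Ln o h c)
    (hbc : Par 2 b c) (hw : 0 < wd b c) : Down hX o h b c ∨ Down hX o h c b := by
  have b1 := abs_le.1 hbc.1
  rcases lt_trichotomy (TA.sg b c) 0 with h1 | h1 | h1
  · refine Or.inl ⟨1, zero_le_one, le_rfl, ?_⟩
    rw [pt_one]
    exact hlc.dn _ (by linarith) h1
  · refine Or.inl ⟨1 / 2, by norm_num, by norm_num, ?_⟩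
    have h2 := pt_le hX (x := b 0) (y := c (TA.sg b c)) (s := 1 / 2) (by norm_num) (by norm_num) o
    have h3 : dist (b 0) (c (TA.sg b c)) = wd b c := hbc.foot (by norm_num)
    rw [h3, h1, hlb.lev, hlc.lev] at h2
    rw [h1]
    have h4 : 0 ≤ h := by
      rw [← hlb.lev]
      exact dist_nonneg
    refine abs_lt_of_sq_lt_sq' ?_ h4 |>.2
    nlinarith
  · refine Or.inr ⟨1, zero_le_one, le_rfl, ?_⟩
    rw [pt_one, sg_symm b c]
    exact hlb.dn _ (by linarith) (by linarith)

end Pool.Agent.H78.TA
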