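import Pool.Agent.H78.TA.LL

/-!
# The center of a tripod is next to `B`
-/

set_option autoImplicit false

namespace Pool.Agent.H78.TA

open Pool.Agent.H61.CZ

universe v

variable {X : Type v} [MetricSpace X] {V B : Set X}

/-- the estimate of the third leg and the third direction -/
private theorem third (hX : CAT0 X) {a b c z : X} {la lb lc k e L : ℝ} (hL : 0 < L) (he : 0 < e)
    (he1 : e ≤ 1 / 4) (hk0 : 0 ≤ k) (hk : 40 * k ≤ e) (hA : |dist z a - la| ≤ k)
    (hB : |dist z b - lb| ≤ k) (hac : |dist a c - (la + lc)| ≤ k)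
    (hbc : |dist b c - (lb + lc)| ≤ k) (hla : e ≤ dist z a) (hlb : e ≤ dist z b)
    (hlc : e ≤ dist z c) (hLa : la ≤ L) (hLb : lb ≤ L) (hLc : lc ≤ L)
    (hfar : 2 * e - e ^ 2 / (100 * (L + 1)) ≤
      dist (pt hX z b (e / dist z b)) (pt hX z c (e / dist z c))) :
    dist z c ≤ lc + e / 10 ∧
      ¬ dist (pt hX z a (e / dist z a)) (pt hX z c (e / dist z c)) ≤ e ^ 2 / (100 * (L + 1)) := by
  obtain ⟨hA1, hA2⟩ := abs_le.1 hA
  obtain ⟨hB1, hB2⟩ := abs_le.1 hB
  obtain ⟨hac1, hac2⟩ := abs_le.1 hac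
  obtain ⟨hbc1, hbc2⟩ := abs_le.1 hbc
  have hK : 0 < 100 * (L + 1) := by positivity
  have hBpos : 0 < dist z b := he.trans_le hlb
  have hCpos : 0 < dist z c := he.trans_le hlc
  have hApos : 0 < dist z a := he.trans_le hla
  -- the ratio `t = e / K`
  obtain ⟨t, ht⟩ : ∃ t, t = e / (100 * (L + 1)) := ⟨_, rfl⟩
  have ht0 : 0 < t := by rw [ht]; exact div_pos he hK
  have htK : t * (100 * (L + 1)) = e := by rw [ht]; exact div_mul_cancel₀ _ hK.ne'
  have ht1 : t ≤ e / 100 := by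
    have h1 : t * 100 ≤ t * (100 * (L + 1)) := mul_le_mul_of_nonneg_left (by linarith) ht0.le
    linarith
  have he2 : e ^ 2 / (100 * (L + 1)) = e * t := by rw [ht]; ring
  rw [he2] at hfar ⊢
  have hm0 : ∀ r, e ≤ r → 0 ≤ e / r ∧ e / r ≤ 1 := fun r hr =>
    ⟨div_nonneg he.le (he.le.trans hr), (div_le_one (he.trans_le hr)).2 hr⟩
  have hcmp := compare hX (z := z) (a := b) (c := c) (hm0 _ hlb).1 (hm0 _ hlb).2 (hm0 _ hlc).1
    (hm0 _ hlc).2
  have hmB : e / dist z b * dist z b = e := div_mul_cancel₀ _ hBpos.ne'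
  have hmC : e / dist z c * dist z c = e := div_mul_cancel₀ _ hCpos.ne'
  have hmA : e / dist z a * dist z a = e := div_mul_cancel₀ _ hApos.ne'
  have hsum : (dist z b + dist z c) * (1 - t) ≤ dist b c := by
    have h1 : (2 * e - e * t) ^ 2 ≤ dist (pt hX z b (e / dist z b)) (pt hX z c (e / dist z c)) ^ 2 :=
      pow_le_pow_left₀ (by nlinarith) hfar 2
    have h2 := h1.trans hcmp
    have h3 : (e / dist z b) ^ 2 * dist z b ^ 2 = e ^ 2 := by rw [← mul_pow, hmB]
    have h4 : (e / dist z c) ^ 2 * dist z c ^ 2 = e ^ 2 := by rw [← mul_pow, hmC]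
    rw [h3, h4] at h2
    have h5 : (2 * e - e * t) ^ 2 * (dist z b * dist z c) ≤
        2 * e ^ 2 * (dist z b * dist z c) + e ^ 2 * (dist b c ^ 2 - dist z b ^ 2 - dist z c ^ 2) := by
      have h6 := mul_le_mul_of_nonneg_right h2 (mul_pos hBpos hCpos).le
      have h7 : (e ^ 2 + e ^ 2 + e / dist z b * (e / dist z c) *
          (dist b c ^ 2 - dist z b ^ 2 - dist z c ^ 2)) * (dist z b * dist z c) =
          2 * e ^ 2 * (dist z b * dist z c) + (e / dist z b * dist z b) * (e / dist z c * dist z c) *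
            (dist b c ^ 2 - dist z b ^ 2 - dist z c ^ 2) := by ring
      rw [h7, hmB, hmC] at h6
      linarith
    have h6 : (2 - t) ^ 2 * (dist z b * dist z c) ≤
        2 * (dist z b * dist z c) + (dist b c ^ 2 - dist z b ^ 2 - dist z c ^ 2) := by
      have h7 : e ^ 2 * ((2 - t) ^ 2 * (dist z b * dist z c)) ≤
          e ^ 2 * (2 * (dist z b * dist z c) + (dist b c ^ 2 - dist z b ^ 2 - dist z c ^ 2)) := by
        linear_combination h5
      exact le_of_mul_le_mul_left h7 (by positivity)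
    have h8 : ((dist z b + dist z c) * (1 - t)) ^ 2 ≤ dist b c ^ 2 := by
      have h9 : 0 ≤ t * (dist z b - dist z c) ^ 2 := by positivity
      have h10 : 0 ≤ t ^ 2 * (dist z b * dist z c) := by positivity
      have h11 : 0 ≤ t * (1 - t) * (dist z b + dist z c) ^ 2 := by
        have h12 : 0 ≤ 1 - t := by linarith
        positivity
      linear_combination h6 + h9 + h10 + h11
    exact (pow_le_pow_iff_left₀ (mul_nonneg (by positivity) (by linarith)) dist_nonneg
      two_ne_zero).1 h8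
  have hCle : dist z c ≤ lc + e / 10 := by
    have h1 : dist z c ≤ dist z a + dist a c := dist_triangle _ _ _
    have h2 : dist z b + dist z c ≤ 5 * (L + 1) := by linarith
    have h3 : t * (dist z b + dist z c) ≤ t * (5 * (L + 1)) := mul_le_mul_of_nonneg_left h2 ht0.le
    have h4 : t * (5 * (L + 1)) = e / 20 := by linear_combination htK / 20
    rw [h4] at h3
    linarith
  refine ⟨hCle, fun hne => ?_⟩
  have h1 := dist_right hX (x := z) (y := a) (hm0 _ hla).1 (hm0 _ hla).2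
  have h2 := dist_right hX (x := z) (y := c) (hm0 _ hlc).1 (hm0 _ hlc).2
  have h3 := dist_triangle4 a (pt hX z a (e / dist z a)) (pt hX z c (e / dist z c)) c
  rw [dist_comm a (pt hX z a (e / dist z a)), h1, h2, sub_mul, one_mul, hmA, sub_mul, one_mul,
    hmC] at h3
  have h4 : e * t ≤ e / 100 := by
    have h5 : e * t ≤ 1 * t := mul_le_mul_of_nonneg_right (by linarith) ht0.le
    linarith
  linarith

theorem step (hT : Two X V B) {δ L d e₀ : ℝ} (hδ : 0 < δ) (hL : 0 < L) (hd : 0 < d)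
    (he₀ : 0 < e₀) : ∃ E k : ℝ, 0 < E ∧ 0 < k ∧ ∀ (o u a b c : X) (x wab wac wbc : ℝ),
      2 ≤ x → x + 2 ≤ dist o u → a ∈ Slab o u x E → b ∈ Slab o u x E → c ∈ Slab o u x E →
      |dist a b - wab| ≤ k → |dist a c - wac| ≤ k → |dist b c - wbc| ≤ k →
      Legs wab wac wbc L d → (∀ v ∈ V, δ ≤ dist (zt hT.cat a b wab wac wbc) v) →
      (∃ c' ∈ B, dist c' (zt hT.cat a b wab wac wbc) ≤ e₀) ∧
        |dist (zt hT.cat a b wab wac wbc) c - (wac + wbc - wab) / 2| ≤ e₀ := by
  obtain ⟨e₁, e₂, E₀, he1, he1', he2, he2', hE₀, hloc⟩ := local_lemma hT hδ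
    (K := 100 * (L + 1)) (e₀ := min e₀ (min (d / 4) (1 / 4))) (by linarith)
    (lt_min he₀ (lt_min (by linarith) (by norm_num)))
    ((min_le_right _ _).trans ((min_le_right _ _).trans (by norm_num)))
  refine ⟨min E₀ (1 / 2), min e₁ e₂ / 40, lt_min hE₀ (by norm_num),
    div_pos (lt_min he1 he2) (by norm_num), ?_⟩
  intro o u a b c x wab wac wbc hx hxu ha hb hc hab hac hbc hl hV
  have hX := hT.cat
  -- the constants
  obtain ⟨k, hk⟩ : ∃ k, k = min e₁ e₂ / 40 := ⟨_, rfl⟩
  rw [← hk] at hab hac hbc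
  have hEE : min E₀ (1 / 2) ≤ E₀ := min_le_left _ _
  have hE2 : min E₀ (1 / 2) ≤ 1 / 2 := min_le_right _ _
  -- the point `ζ`
  have hw : 0 < wab := by have h1 := hl.la; have h2 := hl.lb; linarith
  obtain ⟨s, hs⟩ : ∃ s, s = (wab + wac - wbc) / (2 * wab) := ⟨_, rfl⟩
  have hsw : s * wab = (wab + wac - wbc) / 2 := by
    rw [hs]; field_simp
  have hs0 : 0 ≤ s := by rw [hs]; exact div_nonneg (by have h1 := hl.la; linarith) (by linarith)
  have hs1 : s ≤ 1 := by
    rw [hs, div_le_one (by linarith)]; have h1 := hl.lb; linarith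
  obtain ⟨z, hz⟩ : ∃ z, z = zt hX a b wab wac wbc := ⟨_, rfl⟩
  have hz' : z = pt hX a b s := by rw [hz, zt, hs]
  rw [← hz] at hV ⊢
  have hzS : z ∈ Slab o u x (min E₀ (1 / 2)) := by rw [hz']; exact slab_pt hX hs0 hs1 ha hb
  have hoz : 1 ≤ dist o z := by have h1 := slab_ge hzS; linarith
  have hzu : 1 ≤ dist z u := by
    have h1 := dist_triangle o z u
    have h2 : dist o z ≤ x + min E₀ (1 / 2) := hzS.1
    linarith
  obtain ⟨e, hee, hLa, hLb⟩ := hloc z hV
  have he : 0 < e := by rcases hee with rfl | rfl <;> assumption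
  have hem : e ≤ min e₀ (min (d / 4) (1 / 4)) := by rcases hee with rfl | rfl <;> assumption
  have hee0 : e ≤ e₀ := hem.trans (min_le_left _ _)
  have hed : e ≤ d / 4 := hem.trans ((min_le_right _ _).trans (min_le_left _ _))
  have he4 : e ≤ 1 / 4 := hem.trans ((min_le_right _ _).trans (min_le_right _ _))
  have hke : 40 * k ≤ e := by
    have h1 : 40 * k = min e₁ e₂ := by rw [hk]; ring
    rw [h1]
    rcases hee with rfl | rfl
    · exact min_le_left _ _
    · exact min_le_right _ _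
  have hk0 : 0 ≤ k := by rw [hk]; exact div_nonneg (lt_min he1 he2).le (by norm_num)
  -- the legs
  obtain ⟨la, hla⟩ : ∃ la, la = (wab + wac - wbc) / 2 := ⟨_, rfl⟩
  obtain ⟨lb, hlb⟩ : ∃ lb, lb = (wab + wbc - wac) / 2 := ⟨_, rfl⟩
  obtain ⟨lc, hlc⟩ : ∃ lc, lc = (wac + wbc - wab) / 2 := ⟨_, rfl⟩
  have hlad : d ≤ la := by have h1 := hl.la; linarith
  have hlbd : d ≤ lb := by have h1 := hl.lb; linarith
  have hlcd : d ≤ lc := by have h1 := hl.lc; linarith
  have hab' : la + lb = wab := by rw [hla, hlb]; ring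
  have hac' : la + lc = wac := by rw [hla, hlc]; ring
  have hbc' : lb + lc = wbc := by rw [hlb, hlc]; ring
  rw [← hab'] at hab
  rw [← hac'] at hac
  rw [← hbc'] at hbc
  have hwab := hl.ab
  have hwac := hl.ac
  have hwbc := hl.bc
  obtain ⟨hab1, hab2⟩ := abs_le.1 hab
  obtain ⟨hac1, hac2⟩ := abs_le.1 hac
  obtain ⟨hbc1, hbc2⟩ := abs_le.1 hbc
  have dza : dist z a = s * dist a b := by rw [hz', dist_comm, dist_left hX hs0 hs1]
  have dzb : dist z b = (1 - s) * dist a b := by rw [hz', dist_right hX hs0 hs1]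
  have hsla : s * (la + lb) = la := by rw [hab', hsw, hla]
  have hA : |dist z a - la| ≤ k := by
    have h1 : dist z a - la = s * (dist a b - (la + lb)) := by rw [dza]; linear_combination hsla
    rw [h1, abs_mul, abs_of_nonneg hs0]
    calc s * |dist a b - (la + lb)| ≤ 1 * k := mul_le_mul hs1 hab (abs_nonneg _) (by norm_num)
      _ = k := one_mul k
  have hB : |dist z b - lb| ≤ k := by
    have h1 : dist z b - lb = (1 - s) * (dist a b - (la + lb)) := by
      rw [dzb]; linear_combination -hsla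
    rw [h1, abs_mul, abs_of_nonneg (sub_nonneg.2 hs1)]
    calc (1 - s) * |dist a b - (la + lb)| ≤ 1 * k :=
          mul_le_mul (by linarith) hab (abs_nonneg _) (by norm_num)
      _ = k := one_mul k
  obtain ⟨hA1, hA2⟩ := abs_le.1 hA
  obtain ⟨hB1, hB2⟩ := abs_le.1 hB
  have hClow : lc - 2 * k ≤ dist z c := by
    have h1 := dist_triangle a z c
    rw [dist_comm a z] at h1
    linarith
  have hea : e ≤ dist z a := by linarith
  have heb : e ≤ dist z b := by linarith
  have hec : e ≤ dist z c := by linarith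
  -- the three points at distance `e`
  have hm0 : ∀ r, e ≤ r → 0 ≤ e / r ∧ e / r ≤ 1 := fun r hr =>
    ⟨div_nonneg he.le (he.le.trans hr), (div_le_one (he.trans_le hr)).2 hr⟩
  have hmul : ∀ r, e ≤ r → e / r * r = e := fun r hr => div_mul_cancel₀ _ (he.trans_le hr).ne'
  obtain ⟨pa, hpa⟩ : ∃ p, p = pt hX z a (e / dist z a) := ⟨_, rfl⟩
  obtain ⟨pb, hpb⟩ : ∃ p, p = pt hX z b (e / dist z b) := ⟨_, rfl⟩
  obtain ⟨pc, hpc⟩ : ∃ p, p = pt hX z c (e / dist z c) := ⟨_, rfl⟩
  have dpa : dist z pa = e := by rw [hpa, dist_left hX (hm0 _ hea).1 (hm0 _ hea).2, hmul _ hea]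
  have dpb : dist z pb = e := by rw [hpb, dist_left hX (hm0 _ heb).1 (hm0 _ heb).2, hmul _ heb]
  have dpc : dist z pc = e := by rw [hpc, dist_left hX (hm0 _ hec).1 (hm0 _ hec).2, hmul _ hec]
  have dpa' : dist pa a = dist z a - e := by
    rw [hpa, dist_right hX (hm0 _ hea).1 (hm0 _ hea).2, sub_mul, one_mul, hmul _ hea]
  have dpb' : dist pb b = dist z b - e := by
    rw [hpb, dist_right hX (hm0 _ heb).1 (hm0 _ heb).2, sub_mul, one_mul, hmul _ heb]
  have hpp : 2 * e ≤ dist pa pb := by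
    have h1 := dist_triangle4 a pa pb b
    rw [dist_comm a pa, dpa', dpb'] at h1
    have h2 : dist a b = dist z a + dist z b := by rw [dza, dzb]; ring
    linarith
  have Spa : pa ∈ Slab o u x E₀ := by
    rw [hpa]
    exact slab_mono hEE (slab_pt hX (hm0 _ hea).1 (hm0 _ hea).2 hzS ha)
  have Spb : pb ∈ Slab o u x E₀ := by
    rw [hpb]
    exact slab_mono hEE (slab_pt hX (hm0 _ heb).1 (hm0 _ heb).2 hzS hb)
  have Spc : pc ∈ Slab o u x E₀ := by
    rw [hpc]
    exact slab_mono hEE (slab_pt hX (hm0 _ hec).1 (hm0 _ hec).2 hzS hc)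
  have hK : 0 < 100 * (L + 1) := by positivity
  have hsm0 : 0 ≤ e ^ 2 / (100 * (L + 1)) := by positivity
  have hsm : e ^ 2 / (100 * (L + 1)) < e := by
    rw [div_lt_iff₀ hK]
    have h1 : e ^ 2 = e * e := sq e
    rw [h1]
    exact mul_lt_mul_of_pos_left (by linarith) he
  have D1 := hLa o u x pa pc hoz hzu (slab_mono hEE hzS) Spa Spc dpa dpc
  have D2 := hLa o u x pb pc hoz hzu (slab_mono hEE hzS) Spb Spc dpb dpc
  -- the conclusion
  have hfin : dist z c ≤ lc + e / 10 → 2 * e - e ^ 2 / (100 * (L + 1)) ≤ dist pa pc →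
      2 * e - e ^ 2 / (100 * (L + 1)) ≤ dist pb pc →
      (∃ c' ∈ B, dist c' z ≤ e₀) ∧ |dist z c - (wac + wbc - wab) / 2| ≤ e₀ := by
    intro h1 h2 h3
    obtain ⟨c', hc', hcz⟩ := hLb pa pb pc dpa dpb dpc (by linarith) h2 h3
    refine ⟨⟨c', hc', hcz.trans hee0⟩, ?_⟩
    rw [← hlc, abs_le]
    exact ⟨by linarith, by linarith⟩
  have hT1 : 2 * e - e ^ 2 / (100 * (L + 1)) ≤ dist pb pc → dist z c ≤ lc + e / 10 ∧
      ¬ dist pa pc ≤ e ^ 2 / (100 * (L + 1)) := by
    intro h1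
    rw [hpa, hpc]
    rw [hpb, hpc] at h1
    exact third hX hL he he4 hk0 hke hA hB hac hbc hea heb hec (by linarith) (by linarith)
      (by linarith) h1
  have hT2 : 2 * e - e ^ 2 / (100 * (L + 1)) ≤ dist pa pc → dist z c ≤ lc + e / 10 ∧
      ¬ dist pb pc ≤ e ^ 2 / (100 * (L + 1)) := by
    intro h1
    rw [hpb, hpc]
    rw [hpa, hpc] at h1
    exact third hX hL he he4 hk0 hke hB hA hbc hac heb hea hec (by linarith) (by linarith)
      (by linarith) h1
  rcases D2 with D2 | D2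
  · rcases D1 with D1 | D1
    · exfalso
      have h1 := dist_triangle pa pc pb
      rw [dist_comm pc pb] at h1
      linarith
    · exact absurd D2 (hT2 D1).2
  · rcases D1 with D1 | D1
    · exact absurd D1 (hT1 D2).2
    · exact hfin (hT1 D2).1 D1 D2

end Pool.Agent.H78.TA
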