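import Pool.Agent.H78.TA.Step

/-!
# Tripods of curves: vertices next to the centers
-/

set_option autoImplicit false

namespace Pool.Agent.H78.TA

open Pool.Agent.H61.CZ

universe v

variable {X : Type v} [MetricSpace X] {V B : Set X}

/-- the parameter of the center is between `0` and `1` -/
private theorem par_mem {wab wac wbc L d : ℝ} (hl : Legs wab wac wbc L d) (hd : 0 < d) :
    0 ≤ (wab + wac - wbc) / (2 * wab) ∧ (wab + wac - wbc) / (2 * wab) ≤ 1 := by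
  have h1 := hl.la
  have h2 := hl.lb
  have hw : 0 < 2 * wab := by linarith
  exact ⟨div_nonneg (by linarith) hw.le, (div_le_one hw).2 (by linarith)⟩

/-- the centers form a curve which is `1`-Lipschitz -/
theorem zt_lip (hX : CAT0 X) {o : X} {a b c : ℝ → X} {α β wab wac wbc E k L d : ℝ}
    (h : Tri o a b c α β wab wac wbc E k) (hl : Legs wab wac wbc L d) (hd : 0 < d) {x y : ℝ}
    (hx : x ∈ Set.Icc α β) (hy : y ∈ Set.Icc α β) :
    dist (zt hX (a x) (b x) wab wac wbc) (zt hX (a y) (b y) wab wac wbc) ≤ |x - y| := by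
  obtain ⟨h0, h1⟩ := par_mem hl hd
  rw [zt, zt]
  refine (dist_two hX h0 h1).trans ?_
  have h2 := mul_le_mul_of_nonneg_left (h.lipa x hx y hy) (sub_nonneg.2 h1)
  have h3 := mul_le_mul_of_nonneg_left (h.lipb x hx y hy) h0
  linarith

/-- the level of a center -/
theorem zt_lev (hX : CAT0 X) {o : X} {a b c : ℝ → X} {α β wab wac wbc E k L d : ℝ}
    (h : Tri o a b c α β wab wac wbc E k) (hl : Legs wab wac wbc L d) (hd : 0 < d) {x : ℝ}
    (hx : x ∈ Set.Icc α β) : |dist o (zt hX (a x) (b x) wab wac wbc) - x| ≤ E := by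
  obtain ⟨h0, h1⟩ := par_mem hl hd
  obtain ⟨u, -, ha, hb, -⟩ := h.slab x hx
  have h2 := slab_pt hX h0 h1 ha hb
  rw [zt, abs_le]
  have h3 := slab_ge h2
  have h4 := h2.1
  exact ⟨by linarith, by linarith⟩

theorem tripod (hT : Two X V B) {C δ L d : ℝ} (hC : EdgeC V B C) (hδ : 0 < δ) (hL : 0 < L)
    (hd : 0 < d) : ∃ E k : ℝ, 0 < E ∧ 0 < k ∧ ∀ (o : X) (a b c : ℝ → X)
      (α β wab wac wbc : ℝ), Tri o a b c α β wab wac wbc E k → Legs wab wac wbc L d →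
      β = α + (C + 1) → ∃ x ∈ Set.Icc α β, ∃ v ∈ V,
        dist v (zt hT.cat (a x) (b x) wab wac wbc) < δ := by
  obtain ⟨hC0, hCe⟩ := hC
  obtain ⟨ρ, hρ, hρe⟩ := hCe (δ / 2) (half_pos hδ)
  have he₀ : 0 < min (min (ρ / 4) (δ / 2)) (1 / 8) :=
    lt_min (lt_min (by linarith) (by linarith)) (by norm_num)
  obtain ⟨E, k, hE, hk, hst⟩ := step hT hδ hL hd he₀
  refine ⟨min E (1 / 8), k, lt_min hE (by norm_num), hk, ?_⟩
  intro o a b c α β wab wac wbc h hl hβ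
  by_contra hcon
  push Not at hcon
  have hX := hT.cat
  have hαβ : α ≤ β := by linarith
  have e1 : min (min (ρ / 4) (δ / 2)) (1 / 8) ≤ ρ / 4 := (min_le_left _ _).trans (min_le_left _ _)
  have e2 : min (min (ρ / 4) (δ / 2)) (1 / 8) ≤ δ / 2 := (min_le_left _ _).trans (min_le_right _ _)
  have e3 : min (min (ρ / 4) (δ / 2)) (1 / 8) ≤ 1 / 8 := min_le_right _ _
  -- the points of `B` next to the centers
  have hpt : ∀ x : ℝ, ∃ c' : X, x ∈ Set.Icc α β → c' ∈ B ∧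
      dist c' (zt hX (a x) (b x) wab wac wbc) ≤ min (min (ρ / 4) (δ / 2)) (1 / 8) := by
    intro x
    by_cases hx : x ∈ Set.Icc α β
    · obtain ⟨u, hu, ha, hb, hc⟩ := h.slab x hx
      obtain ⟨⟨c', hc', hcz⟩, -⟩ := hst o u (a x) (b x) (c x) x wab wac wbc (h.lo.trans hx.1) hu
        (slab_mono (min_le_left _ _) ha) (slab_mono (min_le_left _ _) hb)
        (slab_mono (min_le_left _ _) hc) (h.dab x hx) (h.dac x hx) (h.dbc x hx) hl
        (fun v hv => by rw [dist_comm]; exact hcon x hx v hv)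
      exact ⟨c', fun _ => ⟨hc', hcz⟩⟩
    · exact ⟨o, fun h1 => absurd h1 hx⟩
  choose g hg using hpt
  -- the grid
  obtain ⟨n, hn⟩ := exists_nat_gt ((C + 1) / (ρ / 4))
  have hρ4 : 0 < ρ / 4 := by linarith
  have hn0 : (0 : ℝ) < n := (div_pos (by linarith) hρ4).trans hn
  have hstep : (C + 1) / n ≤ ρ / 4 := by
    rw [div_lt_iff₀ hρ4] at hn
    rw [div_le_iff₀ hn0]
    linarith
  have hgrid : ∀ i : ℕ, i ≤ n → α + i * ((C + 1) / n) ∈ Set.Icc α β := by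
    intro i hi
    have h1 : (i : ℝ) ≤ n := Nat.cast_le.2 hi
    have h2 : 0 ≤ (C + 1) / (n : ℝ) := div_nonneg (by linarith) hn0.le
    have h3 : (i : ℝ) * ((C + 1) / n) ≤ n * ((C + 1) / n) := mul_le_mul_of_nonneg_right h1 h2
    have h4 : (n : ℝ) * ((C + 1) / n) = C + 1 := mul_div_cancel₀ _ hn0.ne'
    have h5 : 0 ≤ (i : ℝ) * ((C + 1) / n) := mul_nonneg (Nat.cast_nonneg i) h2
    exact ⟨by linarith, by linarith⟩
  have hlen := hρe n (fun i => g (α + i * ((C + 1) / n))) (by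
    intro i hi
    obtain ⟨h1, h2⟩ := hg _ (hgrid i hi)
    refine ⟨h1, fun v hv => ?_⟩
    have h3 := hcon _ (hgrid i hi) v hv
    have h4 := dist_triangle v (g (α + i * ((C + 1) / n)))
      (zt hX (a (α + i * ((C + 1) / n))) (b (α + i * ((C + 1) / n))) wab wac wbc)
    rw [dist_comm v (g (α + i * ((C + 1) / n)))] at h4
    linarith) (by
    intro i hi
    obtain ⟨-, h1⟩ := hg _ (hgrid i hi.le)
    obtain ⟨-, h2⟩ := hg _ (hgrid (i + 1) hi)
    have h3 := zt_lip hX h hl hd (hgrid i hi.le) (hgrid (i + 1) hi)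
    have h4 : |α + (i : ℝ) * ((C + 1) / n) - (α + ((i + 1 : ℕ) : ℝ) * ((C + 1) / n))| =
        (C + 1) / n := by
      have h5 : α + (i : ℝ) * ((C + 1) / n) - (α + ((i + 1 : ℕ) : ℝ) * ((C + 1) / n)) =
          -((C + 1) / n) := by push_cast; ring
      rw [h5, abs_neg, abs_of_nonneg (div_nonneg (by linarith) hn0.le)]
    rw [h4] at h3
    have h5 := dist_triangle4 (g (α + (i : ℝ) * ((C + 1) / n)))
      (zt hX (a (α + (i : ℝ) * ((C + 1) / n))) (b (α + (i : ℝ) * ((C + 1) / n))) wab wac wbc)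
      (zt hX (a (α + ((i + 1 : ℕ) : ℝ) * ((C + 1) / n)))
        (b (α + ((i + 1 : ℕ) : ℝ) * ((C + 1) / n))) wab wac wbc)
      (g (α + ((i + 1 : ℕ) : ℝ) * ((C + 1) / n)))
    rw [dist_comm (zt hX (a (α + ((i + 1 : ℕ) : ℝ) * ((C + 1) / n)))
      (b (α + ((i + 1 : ℕ) : ℝ) * ((C + 1) / n))) wab wac wbc)] at h5
    show dist (g (α + (i : ℝ) * ((C + 1) / n))) (g (α + ((i + 1 : ℕ) : ℝ) * ((C + 1) / n))) ≤ ρ
    linarith)
  beta_reduce at hlen
  have hn1 : α + ((n : ℕ) : ℝ) * ((C + 1) / n) = β := by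
    rw [mul_div_cancel₀ _ hn0.ne', hβ]
  have h01 : α + ((0 : ℕ) : ℝ) * ((C + 1) / n) = α := by rw [Nat.cast_zero, zero_mul, add_zero]
  rw [hn1, h01] at hlen
  have mα : α ∈ Set.Icc α β := ⟨le_rfl, hαβ⟩
  have mβ : β ∈ Set.Icc α β := ⟨hαβ, le_rfl⟩
  obtain ⟨-, g1⟩ := hg α mα
  obtain ⟨-, g2⟩ := hg β mβ
  obtain ⟨l1, l2⟩ := abs_le.1 (zt_lev hX h hl hd mα)
  obtain ⟨l3, l4⟩ := abs_le.1 (zt_lev hX h hl hd mβ)
  have hE8 : min E (1 / 8) ≤ 1 / 8 := min_le_right _ _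
  have t1 := dist_triangle o (zt hX (a α) (b α) wab wac wbc) (zt hX (a β) (b β) wab wac wbc)
  have t2 := dist_triangle4 (zt hX (a α) (b α) wab wac wbc) (g α) (g β)
    (zt hX (a β) (b β) wab wac wbc)
  rw [dist_comm (zt hX (a α) (b α) wab wac wbc) (g α)] at t2
  linarith

end Pool.Agent.H78.TA
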