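import Pool.Agent.H78.TA.TL
import Pool.Agent.H78.TA.Gap

/-!
# Tripods of curves: the line of vertices
-/

set_option autoImplicit false

namespace Pool.Agent.H78.TA

open Pool.Agent.H61.CZ

universe v

variable {X : Type v} [MetricSpace X] {V B : Set X}

/-- vertices which are nearly collinear are on a geodesic -/
theorem chain_geod (hX : CAT0 X) (v : ℕ → X) (n : ℕ)
    (h1 : ∀ i, i + 2 ≤ n → dist (v i) (v (i + 2)) = dist (v i) (v (i + 1)) +
      dist (v (i + 1)) (v (i + 2))) (h2 : ∀ i < n, v i ≠ v (i + 1)) :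
    ∀ i j k, i ≤ j → j ≤ k → k ≤ n → dist (v i) (v k) = dist (v i) (v j) + dist (v j) (v k) := by
  have key : ∀ i l, i + l + 1 ≤ n →
      dist (v i) (v (i + l + 1)) = dist (v i) (v (i + l)) + dist (v (i + l)) (v (i + l + 1)) := by
    intro i l
    induction l with
    | zero =>
      intro _
      simp
    | succ l ih =>
      intro h
      have h3 := ih (by omega)
      have h4 := h1 (i + l) (by omega)
      have h5 := collinear_ext hX h3 h4 (h2 (i + l) (by omega))
      show dist (v i) (v (i + l + 2)) = dist (v i) (v (i + l + 1)) +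
        dist (v (i + l + 1)) (v (i + l + 2))
      linarith
  intro i j k hij hjk hkn
  obtain ⟨m, rfl⟩ : ∃ m, k = j + m := ⟨k - j, by omega⟩
  clear hjk
  induction m with
  | zero => simp
  | succ m ih =>
    have h3 := ih (by omega)
    obtain ⟨l, hl⟩ : ∃ l, j + m = i + l := ⟨j + m - i, by omega⟩
    have h4 := key i l (by omega)
    have h5 := key j m (by omega)
    rw [← hl] at h4
    show dist (v i) (v (j + m + 1)) = dist (v i) (v j) + dist (v j) (v (j + m + 1))
    linarith

theorem Tri.mono {o : X} {a b c : ℝ → X} {α β α' β' wab wac wbc E k E' k' : ℝ}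
    (h : Tri o a b c α β wab wac wbc E k) (h1 : α ≤ α') (h2 : β' ≤ β) (h3 : E ≤ E') (h4 : k ≤ k') :
    Tri o a b c α' β' wab wac wbc E' k' := by
  have hsub : Set.Icc α' β' ⊆ Set.Icc α β := Set.Icc_subset_Icc h1 h2
  refine ⟨h.lo.trans h1, fun x hx y hy => h.lipa x (hsub hx) y (hsub hy),
    fun x hx y hy => h.lipb x (hsub hx) y (hsub hy), fun x hx y hy => h.lipc x (hsub hx) y (hsub hy),
    fun x hx => ?_, fun x hx => (h.dab x (hsub hx)).trans h4, fun x hx => (h.dac x (hsub hx)).trans h4,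
    fun x hx => (h.dbc x (hsub hx)).trans h4⟩
  obtain ⟨u, hu, ha, hb, hc⟩ := h.slab x (hsub hx)
  exact ⟨u, hu, slab_mono h3 ha, slab_mono h3 hb, slab_mono h3 hc⟩

theorem vline (hT : Two X V B) {C A E L d η : ℝ} (hC : EdgeC V B C) (hA : 0 < A) (hE : 0 < E)
    (hL : 0 < L) (hd : 0 < d) (hη : 0 < η) : ∃ a E' k' : ℝ, A + 2 * C + 5 ≤ a ∧ 0 < E' ∧ 0 < k' ∧
      ∀ (o : X) (fa fb fc : ℝ → X) (h wab wac wbc : ℝ),
        Tri o fa fb fc (h - a) (h + a) wab wac wbc E' k' → Legs wab wac wbc L d →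
        ∃ m : ℝ → X, VL V o (2 * C + 4) h A E m ∧
          (∀ x ∈ Set.Icc (-A) A, ∃ y : ℝ, h + y ∈ Set.Icc (h - a) (h + a) ∧ |y - x| ≤ 2 * C + 5 ∧
            dist (m x) (zt hT.cat (fa (h + y)) (fb (h + y)) wab wac wbc) ≤ 2 * C + 5) ∧
          ∃ y : ℝ, |y| ≤ 2 * C + 5 ∧
            dist (m y) (zt hT.cat (fa (h + y)) (fb (h + y)) wab wac wbc) ≤ η ∧
            |dist (zt hT.cat (fa (h + y)) (fb (h + y)) wab wac wbc) (fc (h + y)) -
              (wac + wbc - wab) / 2| ≤ η := by
  have hX := hT.cat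
  have hC0 : 0 ≤ C := hC.1
  obtain ⟨G, hG, hgap3⟩ := gap hT.disc 3 (4 * C + 8) fun D => D 0 1 + D 1 2 - D 0 2
  obtain ⟨r₀, hr₀, hgap2⟩ := gap hT.disc 2 1 fun D => D 0 1
  -- the small number
  obtain ⟨δ, hδ, hδG, hδr, hδη, hδE, hδ1⟩ : ∃ δ : ℝ, 0 < δ ∧ 12 * δ ≤ G ∧ 12 * δ ≤ r₀ ∧
      20 * δ ≤ η ∧ 8 * δ ≤ E ∧ 16 * δ ≤ 1 := by
    refine ⟨min (min (G / 12) (r₀ / 12)) (min (η / 20) (min (E / 8) (1 / 16))), by positivity,
      ?_, ?_, ?_, ?_, ?_⟩
    · have := (min_le_left (min (G / 12) (r₀ / 12)) (min (η / 20) (min (E / 8) (1 / 16)))).trans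
        (min_le_left _ _)
      linarith
    · have := (min_le_left (min (G / 12) (r₀ / 12)) (min (η / 20) (min (E / 8) (1 / 16)))).trans
        (min_le_right _ _)
      linarith
    · have := (min_le_right (min (G / 12) (r₀ / 12)) (min (η / 20) (min (E / 8) (1 / 16)))).trans
        (min_le_left _ _)
      linarith
    · have := ((min_le_right (min (G / 12) (r₀ / 12)) (min (η / 20) (min (E / 8) (1 / 16)))).trans
        (min_le_right _ _)).trans (min_le_left _ _)
      linarith
    · have := ((min_le_right (min (G / 12) (r₀ / 12)) (min (η / 20) (min (E / 8) (1 / 16)))).trans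
        (min_le_right _ _)).trans (min_le_right _ _)
      linarith
  obtain ⟨E₁, k₁, hE₁, hk₁, htri⟩ := tripod hT hC hδ hL hd
  obtain ⟨E₂, k₂, hE₂, hk₂, hstep⟩ := step hT hδ hL hd hη
  obtain ⟨E', hE', hE'1, hE'2, hE'δ⟩ : ∃ E' : ℝ, 0 < E' ∧ E' ≤ E₁ ∧ E' ≤ E₂ ∧ 4 * E' ≤ δ := by
    refine ⟨min (min E₁ E₂) (δ / 4), by positivity, (min_le_left _ _).trans (min_le_left _ _),
      (min_le_left _ _).trans (min_le_right _ _), ?_⟩
    have := min_le_right (min E₁ E₂) (δ / 4)
    linarith
  -- the number of the windows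
  obtain ⟨n, hn⟩ := exists_nat_gt (2 * (A + 4 * C + 12))
  have hnC : 2 * (A + 4 * C + 12) < n * (C + 2) := by nlinarith
  have hn0 : 0 < n := by
    rcases Nat.eq_zero_or_pos n with h | h
    · subst h
      norm_num at hn
      linarith
    · exact h
  obtain ⟨a, ha⟩ : ∃ a : ℝ, 2 * a = n * (C + 2) + (C + 1) := ⟨(n * (C + 2) + (C + 1)) / 2, by ring⟩
  have haA : A + 4 * C + 12 ≤ a := by linarith
  refine ⟨a, E', min k₁ k₂, by linarith, hE', by positivity, ?_⟩
  intro o fa fb fc h wab wac wbc ht hl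
  set ζ : ℝ → X := fun y => zt hT.cat (fa y) (fb y) wab wac wbc with hζ
  have hlip : ∀ x ∈ Set.Icc (h - a) (h + a), ∀ y ∈ Set.Icc (h - a) (h + a),
      dist (ζ x) (ζ y) ≤ |x - y| := fun x hx y hy => zt_lip hX ht hl hd hx hy
  have hlev : ∀ x ∈ Set.Icc (h - a) (h + a), |dist o (ζ x) - x| ≤ E' :=
    fun x hx => zt_lev hX ht hl hd hx
  -- the vertices
  have hex : ∀ i : ℕ, ∃ (x : ℝ) (w : X), i ≤ n →
      x ∈ Set.Icc (h - a + i * (C + 2)) (h - a + i * (C + 2) + (C + 1)) ∧
      x ∈ Set.Icc (h - a) (h + a) ∧ w ∈ V ∧ dist w (ζ x) < δ := by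
    intro i
    by_cases hi : i ≤ n
    · have hi' : (i : ℝ) ≤ n := by exact_mod_cast hi
      have hi0 : (0 : ℝ) ≤ i := Nat.cast_nonneg i
      have h1 : 0 ≤ (i : ℝ) * (C + 2) := by positivity
      have h2 : (i : ℝ) * (C + 2) ≤ n * (C + 2) := mul_le_mul_of_nonneg_right hi' (by linarith)
      have h3 := ht.mono (α' := h - a + i * (C + 2)) (β' := h - a + i * (C + 2) + (C + 1))
        (by linarith) (by linarith) hE'1 (min_le_left k₁ k₂)
      obtain ⟨x, hx, w, hw, hwx⟩ := htri o fa fb fc _ _ wab wac wbc h3 hl rfl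
      exact ⟨x, w, fun _ => ⟨hx, ⟨by linarith [hx.1], by linarith [hx.2]⟩, hw, hwx⟩⟩
    · exact ⟨0, o, fun h' => absurd h' hi⟩
  choose x w hxw using hex
  have hwin : ∀ i ≤ n, x i ∈ Set.Icc (h - a + i * (C + 2)) (h - a + i * (C + 2) + (C + 1)) :=
    fun i hi => (hxw i hi).1
  have hmem : ∀ i ≤ n, x i ∈ Set.Icc (h - a) (h + a) := fun i hi => (hxw i hi).2.1
  have hwV : ∀ i ≤ n, w i ∈ V := fun i hi => (hxw i hi).2.2.1
  have hwζ : ∀ i ≤ n, dist (w i) (ζ (x i)) < δ := fun i hi => (hxw i hi).2.2.2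
  -- distances between vertices
  have hup : ∀ i j, i ≤ n → j ≤ n → x i ≤ x j → dist (w i) (w j) ≤ x j - x i + 2 * δ := by
    intro i j hi hj hij
    have h1 := hlip _ (hmem i hi) _ (hmem j hj)
    rw [abs_sub_comm, abs_of_nonneg (by linarith)] at h1
    have h2 := hwζ i hi
    have h3 := hwζ j hj
    have h4 := dist_triangle (w i) (ζ (x i)) (w j)
    have h5 := dist_triangle (ζ (x i)) (ζ (x j)) (w j)
    rw [dist_comm (ζ (x j)) (w j)] at h5
    linarith
  have hlevw : ∀ i ≤ n, |dist o (w i) - x i| ≤ E' + δ := by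
    intro i hi
    have h1 := hlev _ (hmem i hi)
    have h2 := hwζ i hi
    have h3 := dist_triangle o (ζ (x i)) (w i)
    have h4 := dist_triangle o (w i) (ζ (x i))
    rw [dist_comm (ζ (x i)) (w i)] at h3
    rw [abs_le] at h1 ⊢
    constructor <;> linarith [h1.1, h1.2]
  have hdn : ∀ i j, i ≤ n → j ≤ n → x j - x i - 2 * E' - 2 * δ ≤ dist (w i) (w j) := by
    intro i j hi hj
    have h1 := hlevw i hi
    have h2 := hlevw j hj
    have h3 := dist_triangle o (w i) (w j)
    rw [abs_le] at h1 h2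
    linarith [h1.1, h1.2, h2.1, h2.2]
  have hnext : ∀ i, i + 1 ≤ n → 1 ≤ x (i + 1) - x i ∧ x (i + 1) - x i ≤ 2 * C + 3 := by
    intro i hi
    have h1 := hwin i (by omega)
    have h2 := hwin (i + 1) hi
    push_cast at h2
    constructor <;> nlinarith [h1.1, h1.2, h2.1, h2.2]
  have hgapw : ∀ i, i + 1 ≤ n → dist (w i) (w (i + 1)) ≤ 2 * C + 4 := by
    intro i hi
    have h1 := hnext i hi
    have h2 := hup i (i + 1) (by omega) hi (by linarith [h1.1])
    linarith [h1.2]
  have hne : ∀ i < n, w i ≠ w (i + 1) := by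
    intro i hi h1
    have h2 := hdn i (i + 1) (by omega) hi
    have h3 := hnext i hi
    rw [← h1, dist_self] at h2
    linarith [h3.1]
  have hcol : ∀ i, i + 2 ≤ n → dist (w i) (w (i + 2)) = dist (w i) (w (i + 1)) +
      dist (w (i + 1)) (w (i + 2)) := by
    intro i hi
    have h1 := hnext i (by omega)
    have h2 := hnext (i + 1) (by omega)
    have h3 := hup i (i + 1) (by omega) (by omega) (by linarith [h1.1])
    have h4 := hup (i + 1) (i + 2) (by omega) (by omega) (by linarith [h2.1])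
    have h5 := hdn i (i + 2) (by omega) hi
    have h6 := hup i (i + 2) (by omega) hi (by linarith [h1.1, h2.1])
    have h7 := hgapw i (by omega)
    have h8 := hgapw (i + 1) (by omega)
    have h9 := dist_triangle (w i) (w (i + 1)) (w (i + 2))
    have h10 := hgap3 ![w i, w (i + 1), w (i + 2)] (by
      intro k
      fin_cases k
      · exact hwV i (by omega)
      · exact hwV (i + 1) (by omega)
      · exact hwV (i + 2) hi) (by
      intro k l
      have h11 : dist (w i) (w (i + 2)) ≤ 4 * C + 8 := by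
        have h12 := (hwin i (by omega)).1
        have h13 := (hwin (i + 2) hi).2
        push_cast at h13
        nlinarith
      have h12 : dist (w i) (w (i + 1)) ≤ 4 * C + 8 := by linarith
      have h13 : dist (w (i + 1)) (w (i + 2)) ≤ 4 * C + 8 := by
        have : dist (w (i + 1)) (w (i + 1 + 1)) ≤ 2 * C + 4 := h8
        linarith
      have h14 : (0 : ℝ) ≤ 4 * C + 8 := by linarith
      fin_cases k <;> fin_cases l <;>
        simp only [Fin.zero_eta, Fin.mk_one, Fin.reduceFinMk, Matrix.cons_val_zero,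
          Matrix.cons_val_one, Matrix.cons_val, dist_self] <;>
        first
          | exact h14
          | exact h11
          | exact h12
          | exact h13
          | (rw [dist_comm]; first | exact h11 | exact h12 | exact h13)) (by
      simp only [Matrix.cons_val_zero, Matrix.cons_val_one, Matrix.cons_val]
      rw [abs_lt]
      constructor
      · linarith
      · linarith [h2.1])
    simp only [Matrix.cons_val_zero, Matrix.cons_val_one, Matrix.cons_val] at h10
    linarith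
  have hchain := chain_geod hX w n hcol hne
  -- the segment
  set N : ℝ := dist (w 0) (w n) with hN
  have hx0 := hwin 0 (by omega)
  have hxn := hwin n le_rfl
  have hx0' : x 0 ≤ h - a + (C + 1) := by
    have := hx0.2
    push_cast at this
    linarith
  have hxn' : h + a - (C + 1) ≤ x n := by
    have := hxn.1
    linarith
  have hNpos : 0 < N := by
    have := hdn 0 n (by omega) le_rfl
    linarith
  have hNup : N ≤ x n - x 0 + 2 * δ := hup 0 n (by omega) le_rfl (by linarith)
  set m₀ : ℝ → X := fun t => pt hX (w 0) (w n) (t / N) with hm₀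
  have hm₀d : ∀ s ∈ Set.Icc 0 N, ∀ t ∈ Set.Icc 0 N, dist (m₀ s) (m₀ t) = |s - t| := by
    intro s hs t ht
    show dist (pt hX (w 0) (w n) (s / N)) (pt hX (w 0) (w n) (t / N)) = |s - t|
    rw [dist_pt_pt hX (div_nonneg hs.1 hNpos.le) ((div_le_one hNpos).2 hs.2)
      (div_nonneg ht.1 hNpos.le) ((div_le_one hNpos).2 ht.2), ← hN, ← sub_div, abs_div,
      abs_of_pos hNpos, div_mul_cancel₀ _ hNpos.ne']
  have hvm : ∀ i ≤ n, dist (w 0) (w i) ∈ Set.Icc 0 N ∧ m₀ (dist (w 0) (w i)) = w i := by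
    intro i hi
    have h1 := hchain 0 i n (Nat.zero_le _) hi le_rfl
    obtain ⟨s, hs0, hs1, hs⟩ := exists_pt hX h1
    have h2 : dist (w 0) (w i) = s * N := by
      rw [hN]
      conv_lhs => rw [hs]
      exact dist_left hX hs0 hs1
    refine ⟨⟨dist_nonneg, by linarith [dist_nonneg (x := w i) (y := w n)]⟩, ?_⟩
    show pt hX (w 0) (w n) (dist (w 0) (w i) / N) = w i
    rw [h2, mul_div_assoc, div_self hNpos.ne', mul_one, ← hs]
  -- the level along the segment
  have hg0 : dist o (m₀ 0) ≤ x 0 + (E' + δ) := by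
    have h1 := (hvm 0 (by omega)).2
    rw [dist_self] at h1
    rw [h1]
    have h2 := hlevw 0 (by omega)
    rw [abs_le] at h2
    linarith [h2.2]
  have hgN : x n - (E' + δ) ≤ dist o (m₀ N) := by
    have h1 := (hvm n le_rfl).2
    rw [← hN] at h1
    rw [h1]
    have h2 := hlevw n le_rfl
    rw [abs_le] at h2
    linarith [h2.1]
  have hglip : ∀ s ∈ Set.Icc 0 N, ∀ t ∈ Set.Icc 0 N, s ≤ t →
      dist o (m₀ t) - dist o (m₀ s) ≤ t - s := by
    intro s hs t ht hst
    have h1 := hm₀d s hs t ht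
    rw [abs_sub_comm, abs_of_nonneg (by linarith)] at h1
    have h2 := dist_triangle o (m₀ s) (m₀ t)
    linarith
  have hI0 : (0 : ℝ) ∈ Set.Icc 0 N := ⟨le_rfl, hNpos.le⟩
  have hIN : N ∈ Set.Icc 0 N := ⟨hNpos.le, le_rfl⟩
  have hgdef : ∀ s ∈ Set.Icc 0 N, ∀ t ∈ Set.Icc 0 N, s ≤ t →
      t - s - 5 * δ ≤ dist o (m₀ t) - dist o (m₀ s) := by
    intro s hs t ht hst
    have h1 := hglip 0 hI0 s hs hs.1
    have h2 := hglip t ht N hIN ht.2
    linarith
  have hgcont : ContinuousOn (fun t => dist o (m₀ t)) (Set.Icc 0 N) := by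
    refine LipschitzOnWith.continuousOn (K := 1) (LipschitzOnWith.of_dist_le_mul ?_)
    intro s hs t ht
    rw [NNReal.coe_one, one_mul, Real.dist_eq, Real.dist_eq]
    rw [← hm₀d s hs t ht]
    rw [dist_comm o (m₀ s), dist_comm o (m₀ t)]
    exact abs_dist_sub_le _ _ _
  obtain ⟨tc, htc, htch⟩ : ∃ tc ∈ Set.Icc 0 N, dist o (m₀ tc) = h := by
    have h1 := intermediate_value_Icc hNpos.le hgcont
    have h2 : h ∈ Set.Icc (dist o (m₀ 0)) (dist o (m₀ N)) := ⟨by linarith, by linarith⟩
    obtain ⟨tc, h3, h4⟩ := h1 h2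
    exact ⟨tc, h3, h4⟩
  have htc1 : A + 2 * C + 6 ≤ tc := by
    have h1 := hglip 0 hI0 tc htc htc.1
    linarith
  have htc2 : A + 2 * C + 6 ≤ N - tc := by
    have h1 := hglip tc htc N hIN htc.2
    linarith
  have hin : ∀ t : ℝ, |t| ≤ A + 2 * C + 6 → tc + t ∈ Set.Icc 0 N := by
    intro t ht
    rw [abs_le] at ht
    exact ⟨by linarith [ht.1], by linarith [ht.2]⟩
  set m : ℝ → X := fun t => m₀ (tc + t) with hm
  have hmd : ∀ s t : ℝ, |s| ≤ A + 2 * C + 6 → |t| ≤ A + 2 * C + 6 → dist (m s) (m t) = |s - t| := by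
    intro s t hs ht
    show dist (m₀ (tc + s)) (m₀ (tc + t)) = |s - t|
    rw [hm₀d _ (hin s hs) _ (hin t ht), add_sub_add_left_eq_sub]
  have hmlev : ∀ t : ℝ, tc + t ∈ Set.Icc 0 N → |dist o (m t) - (h + t)| ≤ 5 * δ := by
    intro t ht
    show |dist o (m₀ (tc + t)) - (h + t)| ≤ 5 * δ
    rcases le_total 0 t with h0 | h0
    · have h1 := hglip tc htc _ ht (by linarith)
      have h2 := hgdef tc htc _ ht (by linarith)
      rw [htch] at h1 h2
      rw [abs_le]
      constructor <;> linarith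
    · have h1 := hglip _ ht tc htc (by linarith)
      have h2 := hgdef _ ht tc htc (by linarith)
      rw [htch] at h1 h2
      rw [abs_le]
      constructor <;> linarith
  -- the next vertex
  have hver : ∀ y : ℝ, |y| ≤ A → ∃ i ≤ n, ∃ t ∈ Set.Icc y (y + (2 * C + 4)),
      m t = w i ∧ |x i - h - t| ≤ 7 * δ := by
    intro y hy
    rw [abs_le] at hy
    classical
    have hexi : ∃ i, i ≤ n ∧ tc + y ≤ dist (w 0) (w i) := ⟨n, le_rfl, by rw [← hN]; linarith [hy.2]⟩
    obtain ⟨hi1, hi2⟩ := Nat.find_spec hexi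
    set i := Nat.find hexi with hi
    have hi0 : i ≠ 0 := by
      intro h0
      rw [h0, dist_self] at hi2
      linarith [hy.1]
    obtain ⟨j, hj⟩ := Nat.exists_eq_succ_of_ne_zero hi0
    have hjn : j + 1 ≤ n := by omega
    have h1 : dist (w 0) (w j) < tc + y := by
      by_contra h2
      push Not at h2
      have h3 := Nat.find_min' hexi (m := j) ⟨by omega, h2⟩
      omega
    have h2 := hchain 0 j (j + 1) (Nat.zero_le _) (by omega) hjn
    have h3 := hgapw j hjn
    have hij : w i = w (j + 1) := by rw [hj]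
    have h4 : dist (w 0) (w i) ≤ tc + y + (2 * C + 4) := by rw [hij]; linarith
    have h5 := hvm i hi1
    have h6 : m (dist (w 0) (w i) - tc) = w i := by
      show m₀ (tc + (dist (w 0) (w i) - tc)) = w i
      rw [add_sub_cancel]
      exact h5.2
    refine ⟨i, hi1, dist (w 0) (w i) - tc, ⟨by linarith, by linarith⟩, h6, ?_⟩
    have h7 := hmlev (dist (w 0) (w i) - tc) (by rw [add_sub_cancel]; exact h5.1)
    rw [h6] at h7
    have h8 := hlevw i hi1
    rw [abs_le] at h7 h8 ⊢
    constructor <;> linarith [h7.1, h7.2, h8.1, h8.2]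
  refine ⟨m, ⟨hA.le, ?_, ?_, ?_, ?_, ?_⟩, ?_, ?_⟩
  · linarith [ht.lo]
  · intro s hs t ht
    exact hmd s t (by rw [abs_le]; constructor <;> linarith [hs.1, hs.2])
      (by rw [abs_le]; constructor <;> linarith [ht.1, ht.2])
  · show dist o (m₀ (tc + 0)) = h
    rw [add_zero, htch]
  · intro t ht
    refine (hmlev t (hin t ?_)).trans (by linarith)
    rw [abs_le]
    constructor <;> linarith [ht.1, ht.2]
  · intro y hy1 hy2
    obtain ⟨i, hi, t, ht, htw, -⟩ := hver y (by rw [abs_le]; constructor <;> linarith)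
    exact ⟨t, ht, by rw [htw]; exact hwV i hi⟩
  · intro y hy
    obtain ⟨i, hi, t, ht, htw, hti⟩ := hver y (by rw [abs_le]; exact hy)
    rw [abs_le] at hti
    refine ⟨x i - h, ?_, ?_, ?_⟩
    · rw [add_sub_cancel]
      exact hmem i hi
    · rw [abs_le]
      constructor <;> linarith [hti.1, hti.2, ht.1, ht.2]
    · rw [add_sub_cancel]
      show dist (m y) (ζ (x i)) ≤ 2 * C + 5
      have h1 := hmd y t (by rw [abs_le]; constructor <;> linarith [hy.1, hy.2])
        (by rw [abs_le]; constructor <;> linarith [hy.1, hy.2, ht.1, ht.2])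
      rw [htw, abs_sub_comm, abs_of_nonneg (by linarith [ht.1])] at h1
      have h2 := dist_triangle (m y) (w i) (ζ (x i))
      have h3 := hwζ i hi
      linarith [ht.2]
  · obtain ⟨i, hi, t, ht', htw, hti⟩ := hver 0 (by rw [abs_zero]; exact hA.le)
    rw [abs_le] at hti
    have hy1 : -1 ≤ x i + 3 * δ - h := by linarith [hti.1, ht'.1]
    have hy2 : x i + 3 * δ - h ≤ 2 * C + 5 := by linarith [hti.2, ht'.2]
    have hxs : x i + 3 * δ ∈ Set.Icc (h - a) (h + a) := ⟨by linarith, by linarith⟩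
    have hxsi : dist (ζ (x i)) (ζ (x i + 3 * δ)) ≤ 3 * δ := by
      have h1 := hlip _ (hmem i hi) _ hxs
      rwa [sub_add_cancel_left, abs_neg, abs_of_nonneg (by linarith)] at h1
    refine ⟨x i + 3 * δ - h, by rw [abs_le]; constructor <;> linarith, ?_, ?_⟩
    · rw [add_sub_cancel]
      show dist (m (x i + 3 * δ - h)) (ζ (x i + 3 * δ)) ≤ η
      have h1 := hmd (x i + 3 * δ - h) t (by rw [abs_le]; constructor <;> linarith)
        (by rw [abs_le]; constructor <;> linarith [ht'.1, ht'.2])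
      have h2 : |x i + 3 * δ - h - t| ≤ 10 * δ := by
        rw [abs_le]
        constructor <;> linarith [hti.1, hti.2]
      have h3 := dist_triangle (m (x i + 3 * δ - h)) (w i) (ζ (x i + 3 * δ))
      have h4 := dist_triangle (w i) (ζ (x i)) (ζ (x i + 3 * δ))
      have h5 := hwζ i hi
      rw [htw] at h1
      linarith
    · rw [add_sub_cancel]
      obtain ⟨u, hu, hua, hub, huc⟩ := ht.slab _ hxs
      refine (hstep o u (fa (x i + 3 * δ)) (fb (x i + 3 * δ)) (fc (x i + 3 * δ)) (x i + 3 * δ)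
        wab wac wbc (by linarith [ht.lo, hxs.1]) hu (slab_mono hE'2 hua) (slab_mono hE'2 hub)
        (slab_mono hE'2 huc) ((ht.dab _ hxs).trans (min_le_right _ _))
        ((ht.dac _ hxs).trans (min_le_right _ _)) ((ht.dbc _ hxs).trans (min_le_right _ _)) hl
        ?_).2
      intro v' hv'
      show δ ≤ dist (ζ (x i + 3 * δ)) v'
      by_contra hlt
      push Not at hlt
      have h5 := hwζ i hi
      have h6 : dist v' (w i) ≤ 5 * δ := by
        have h7 := dist_triangle v' (ζ (x i + 3 * δ)) (w i)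
        have h8 := dist_triangle (ζ (x i + 3 * δ)) (ζ (x i)) (w i)
        rw [dist_comm v' (ζ (x i + 3 * δ))] at h7
        rw [dist_comm (ζ (x i + 3 * δ)) (ζ (x i)), dist_comm (ζ (x i)) (w i)] at h8
        linarith
      have h9 : dist v' (w i) = 0 := by
        have h10 := hgap2 ![v', w i] (by
          intro k
          fin_cases k
          · exact hv'
          · exact hwV i hi) (by
          intro k l
          fin_cases k <;> fin_cases l <;>
            simp only [Fin.zero_eta, Fin.mk_one, Matrix.cons_val_zero, Matrix.cons_val_one,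
              dist_self] <;>
            first
              | exact zero_le_one
              | linarith
              | (rw [dist_comm]; linarith)) (by
          simp only [Matrix.cons_val_zero, Matrix.cons_val_one]
          rw [abs_of_nonneg dist_nonneg]
          linarith)
        simpa using h10
      have h10 : v' = w i := dist_eq_zero.1 h9
      rw [h10] at hlt
      have h11 := hlev _ hxs
      have h12 := hlevw i hi
      have h13 := dist_triangle o (w i) (ζ (x i + 3 * δ))
      rw [dist_comm (w i)] at h13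
      rw [abs_le] at h11 h12
      linarith [h11.1, h12.2]

end Pool.Agent.H78.TA
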